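import Pool.Agent.T2h98.AC.Stm2
import Pool.Agent.T2h98.QD.MoA
import Pool.Agent.T2h98.QD.Inv

/-! Project AC, task ALG (helper3): the Cayley transform on the torus. -/

set_option autoImplicit false
set_option linter.all false

open scoped BigOperators Matrix Topology
open MeasureTheory ProbabilityTheory Filter

namespace Pool.Agent.T2h98.AC

open Pool.Agent.W788.MFP.Four (T e NN adj)
open Pool.Agent.T2h98.QD
open Pool.Agent.W792.LL (cay)
open Pool.Agent.W792.WA (cayx)

namespace ALG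

theorem cayx_zero (x : ℂ) : cayx x 0 = (x + Complex.I) / (x - Complex.I) := by
  unfold cayx
  rw [Complex.ofReal_zero, add_zero]

theorem sub_I_ne {x : ℂ} (h : x.im ≤ 0) : x - Complex.I ≠ 0 := by
  intro h1
  have h2 := congrArg Complex.im h1
  rw [Complex.sub_im, Complex.I_im, Complex.zero_im] at h2
  linarith

section
variable {d L : ℕ} [NeZero L]

theorem sy_mo (m : T d L → ℂ) (κ : T d L) : sy (fun z => Mo m 0 z) κ = m κ := by
  unfold sy
  have h1 : ∀ z, Mo m 0 z * star (e κ z) =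
      ((NN d L : ℝ) : ℂ)⁻¹ * ∑ k, m k * (e k z * (starRingEnd ℂ) (e κ z)) := by
    intro z
    rw [mo_apply, mul_assoc, Finset.sum_mul]
    congr 1
    refine Finset.sum_congr rfl fun k _ => ?_
    have h0 : e k (0 : T d L) = 1 := Pool.Agent.W788.MFP.Four.e_zero k
    rw [h0, map_one, mul_one, Complex.star_def, mul_assoc]
  simp only [h1]
  rw [← Finset.mul_sum, Finset.sum_comm]
  simp only [← Finset.mul_sum, sum_ee]
  rw [Finset.sum_eq_single κ]
  · rw [if_pos rfl, mul_comm (m κ), ← mul_assoc]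
    have hN := KQ.N_ne (d := d) (L := L)
    rw [inv_mul_cancel₀ hN, one_mul]
  · intro l _ hl
    rw [if_neg hl, mul_zero]
  · intro h
    exact absurd (Finset.mem_univ κ) h

theorem mo_sy (a : T d L → ℂ) (x y : T d L) : Mo (fun k => sy a k) x y = a (y - x) := by
  unfold Mo sy
  rw [Matrix.of_apply]
  have h1 : ∀ k, (∑ z, a z * star (e k z)) * e k (y - x) =
      ∑ z, a z * (e (y - x) k * (starRingEnd ℂ) (e z k)) := by
    intro k
    rw [Finset.sum_mul]
    refine Finset.sum_congr rfl fun z _ => ?_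
    rw [Pool.Agent.W788.MFP.Four.e_comm k (y - x), Pool.Agent.W788.MFP.Four.e_comm k z,
      Complex.star_def]
    ring
  simp only [h1]
  rw [Finset.sum_comm]
  simp only [← Finset.mul_sum, sum_ee]
  rw [Finset.sum_eq_single (y - x)]
  · rw [if_pos rfl, mul_comm (a _), ← mul_assoc]
    have hN := KQ.N_ne (d := d) (L := L)
    rw [inv_mul_cancel₀ hN, one_mul]
  · intro l _ hl
    rw [if_neg (Ne.symm hl), mul_zero]
  · intro h
    exact absurd (Finset.mem_univ _) h

/-- the matrix identity -/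
theorem mat (hR : T_RX) (X : T d L → ℂ) {c σ γ : ℝ} (hc : 0 < c) (hγ : 0 < γ)
    (hX : ∀ k, c ≤ -(X k).im) (V : T d L → ℝ) :
    (Matrix.diagonal fun x => cay (γ * σ * V x)) *
      (1 - Mo (fun j => cayx (γ * X j) 0) * Matrix.diagonal fun x => cay (γ * σ * V x))⁻¹ =
    Mo (fun j => (1 - cayx (γ * X j) 0)⁻¹) * (1 + (-2 * Complex.I / γ) •
      (RX X σ V * Mo (fun j => (cayx (γ * X j) 0 - 1)⁻¹))) := by
  obtain ⟨hinv, -⟩ := hR d L X c σ hc hX
  obtain ⟨hT1, hT2⟩ := hinv V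
  have hγ' : (γ : ℂ) ≠ 0 := by exact_mod_cast hγ.ne'
  have hZim : ∀ k, ((γ : ℂ) * X k).im ≤ 0 := by
    intro k
    rw [Complex.im_ofReal_mul]
    have := hX k
    exact (mul_neg_of_pos_of_neg hγ (by linarith)).le
  have hZ : ∀ k, (γ : ℂ) * X k - Complex.I ≠ 0 := fun k => sub_I_ne (hZim k)
  have hm1 : ∀ k, cayx (γ * X k) 0 - 1 = 2 * Complex.I / ((γ : ℂ) * X k - Complex.I) := by
    intro k
    rw [cayx_zero, eq_div_iff (hZ k), sub_mul, div_mul_cancel₀ _ (hZ k)]
    ring
  have hm2 : ∀ k, cayx (γ * X k) 0 - 1 ≠ 0 := by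
    intro k
    rw [hm1]
    exact div_ne_zero (mul_ne_zero two_ne_zero Complex.I_ne_zero) (hZ k)
  have hm3 : ∀ k, 1 - cayx (γ * X k) 0 ≠ 0 := by
    intro k h
    exact hm2 k (by rw [← neg_eq_zero, neg_sub]; exact h)
  obtain ⟨M, hM⟩ : ∃ M, M = Mo (fun j : T d L => cayx (γ * X j) 0) := ⟨_, rfl⟩
  obtain ⟨cd, hcd⟩ : ∃ cd, cd = Matrix.diagonal fun x => cay (γ * σ * V x) := ⟨_, rfl⟩
  obtain ⟨ρ, hρ⟩ : ∃ ρ, ρ = Mo (fun j : T d L => (cayx (γ * X j) 0 - 1)⁻¹) := ⟨_, rfl⟩
  obtain ⟨p, hp⟩ : ∃ p, p = Mo (fun j : T d L => (1 - cayx (γ * X j) 0)⁻¹) := ⟨_, rfl⟩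
  have hM1 : M - 1 = Mo (fun j : T d L => cayx (γ * X j) 0 - 1) := by
    rw [hM, ← mo_one, mo_sub]
  have hρM : ρ * (M - 1) = 1 := by
    rw [hρ, hM1, mo_mul, ← mo_one]
    congr 1
    funext k
    exact inv_mul_cancel₀ (hm2 k)
  have hpM : p * (1 - M) = 1 := by
    have h1 : (1 : Matrix (T d L) (T d L) ℂ) - M = Mo (fun j : T d L => 1 - cayx (γ * X j) 0) := by
      rw [hM, ← mo_one, mo_sub]
    rw [hp, h1, mo_mul, ← mo_one]
    congr 1
    funext k
    exact inv_mul_cancel₀ (hm3 k)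
  -- the diagonal matrices
  have hv : ∀ x, (((γ * σ * V x : ℝ) : ℂ)) - Complex.I ≠ 0 := fun x =>
    sub_I_ne (by rw [Complex.ofReal_im])
  obtain ⟨D, hD⟩ : ∃ D, D = Matrix.diagonal fun x => (((γ * σ * V x : ℝ) : ℂ)) := ⟨_, rfl⟩
  have hDc : (D - Complex.I • (1 : Matrix (T d L) (T d L) ℂ)) * (cd - 1) =
      (2 * Complex.I) • (1 : Matrix (T d L) (T d L) ℂ) := by
    rw [hD, hcd, ← Matrix.diagonal_one, ← Matrix.diagonal_smul, ← Matrix.diagonal_smul,
      Matrix.diagonal_sub, Matrix.diagonal_sub, Matrix.diagonal_mul_diagonal]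
    congr 1
    funext x
    simp only [Pi.smul_apply, smul_eq_mul, mul_one]
    unfold Pool.Agent.W792.LL.cay
    rw [mul_sub, mul_div_cancel₀ _ (hv x)]
    ring
  have hMX : (M - 1) * (Mo (fun j => (γ : ℂ) * X j) - Complex.I • (1 : Matrix (T d L) (T d L) ℂ)) =
      (2 * Complex.I) • (1 : Matrix (T d L) (T d L) ℂ) := by
    rw [hM1, ← mo_one, mo_smul, mo_smul, mo_sub, mo_mul]
    congr 1
    funext k
    rw [hm1, mul_one, mul_one, div_mul_cancel₀ _ (hZ k)]
  have hTX : (γ : ℂ) • TX X σ V = (Mo (fun j => (γ : ℂ) * X j) -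
      Complex.I • (1 : Matrix (T d L) (T d L) ℂ)) + (D - Complex.I • 1) + (2 * Complex.I) • 1 := by
    unfold TX
    rw [smul_add, mo_smul, hD, ← Matrix.diagonal_smul]
    have h1 : (Matrix.diagonal ((γ : ℂ) • fun x => ((σ * V x : ℝ) : ℂ)) :
        Matrix (T d L) (T d L) ℂ) = Matrix.diagonal fun x => (((γ * σ * V x : ℝ) : ℂ)) := by
      congr 1
      funext x
      simp only [Pi.smul_apply, smul_eq_mul]
      push_cast
      ring
    rw [h1, two_mul, add_smul]
    abel
  -- the key identity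
  have key : (1 : Matrix (T d L) (T d L) ℂ) - M * cd =
      (Complex.I / 2) • ((M - 1) * ((γ : ℂ) • TX X σ V) * (cd - 1)) := by
    rw [hTX, mul_add, mul_add, add_mul, add_mul, hMX, mul_assoc (M - 1) (D - _), hDc]
    simp only [Matrix.mul_smul, Matrix.smul_mul, mul_one, one_mul, ← smul_add, smul_smul]
    have h1 : Complex.I / 2 * (2 * Complex.I) = -1 := by
      rw [show Complex.I / 2 * (2 * Complex.I) = Complex.I ^ 2 by ring, Complex.I_sq]
    rw [h1, neg_one_smul]
    noncomm_ring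
  have hρN : ρ * (1 - M * cd) = (Complex.I / 2 * γ) • (TX X σ V * (cd - 1)) := by
    rw [key, Matrix.mul_smul, mul_assoc (M - 1), ← mul_assoc ρ, hρM, one_mul, Matrix.smul_mul,
      smul_smul]
  -- the inverse
  have hcdu : IsUnit (cd - 1) := by
    have h1 : ((2 * Complex.I)⁻¹ • (D - Complex.I • (1 : Matrix (T d L) (T d L) ℂ))) * (cd - 1) =
        1 := by
      rw [Matrix.smul_mul, hDc, smul_smul, inv_mul_cancel₀ (mul_ne_zero two_ne_zero
        Complex.I_ne_zero), one_smul]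
    exact IsUnit.of_mul_eq_one _ (mul_eq_one_comm.1 h1)
  have hM1u : IsUnit (M - 1) := IsUnit.of_mul_eq_one _ (mul_eq_one_comm.1 hρM)
  have hTXu : IsUnit (TX X σ V) := IsUnit.of_mul_eq_one _ hT1
  have hN : IsUnit (1 - M * cd) := by
    rw [key]
    have h1 : (Complex.I / 2) • ((M - 1) * ((γ : ℂ) • TX X σ V) * (cd - 1)) =
        (Complex.I / 2 * γ) • ((M - 1) * TX X σ V * (cd - 1)) := by
      simp only [Matrix.mul_smul, Matrix.smul_mul, smul_smul]
    rw [h1]
    have h2 : Complex.I / 2 * γ ≠ 0 :=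
      mul_ne_zero (div_ne_zero Complex.I_ne_zero two_ne_zero) hγ'
    exact ((hM1u.mul hTXu).mul hcdu).smul (Units.mk0 _ h2)
  have hdet : IsUnit (1 - M * cd).det := (Matrix.isUnit_iff_isUnit_det _).1 hN
  rw [← hM, ← hcd, ← hρ, ← hp]
  have hfin : (p * (1 + (-2 * Complex.I / γ) • (RX X σ V * ρ))) * (1 - M * cd) = cd := by
    rw [mul_assoc, add_mul, Matrix.smul_mul, mul_assoc (RX X σ V), hρN, Matrix.mul_smul,
      ← mul_assoc (RX X σ V), hT2, one_mul, one_mul, smul_smul]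
    have h1 : -2 * Complex.I / γ * (Complex.I / 2 * γ) = 1 := by
      field_simp
      rw [Complex.I_sq]
      ring
    rw [h1, one_smul]
    have h2 : (1 : Matrix (T d L) (T d L) ℂ) - M * cd + (cd - 1) = (1 - M) * cd := by
      noncomm_ring
    rw [h2, ← mul_assoc, hpM, one_mul]
  calc cd * (1 - M * cd)⁻¹ =
      ((p * (1 + (-2 * Complex.I / γ) • (RX X σ V * ρ))) * (1 - M * cd)) * (1 - M * cd)⁻¹ := by
        rw [hfin]
    _ = _ := by rw [mul_assoc, Matrix.mul_nonsing_inv _ hdet, mul_one]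

/-- the mean of the resolvent is a multiplier -/
theorem mean (hR : T_RX) (X : T d L → ℂ) {c σ : ℝ} (hc : 0 < c) (hX : ∀ k, c ≤ -(X k).im)
    (x y : T d L) : ∫ V, RX X σ V x y ∂(GP (T d L)) = Mo (fun k => Rb X σ k) x y := by
  obtain ⟨-, -, -, -, -, htr, -⟩ := hR d L X c σ hc hX
  unfold Rb
  rw [mo_sy]
  have h1 := (inv d L x).1 (fun V => RX X σ V 0 (y - x))
  rw [← h1]
  congr 1
  funext V
  rw [htr V x 0 (y - x), zero_add, sub_add_cancel]

theorem integr (hR : T_RX) (X : T d L → ℂ) {c σ : ℝ} (hc : 0 < c) (hX : ∀ k, c ≤ -(X k).im)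
    (x y : T d L) : Integrable (fun V => RX X σ V x y) (GP (T d L)) := by
  obtain ⟨-, -, hb, hct, -⟩ := hR d L X c σ hc hX
  exact Integrable.of_bound (hct x y).aestronglyMeasurable c⁻¹
    (Filter.Eventually.of_forall fun V => hb V x y)

/-- change of variables -/
theorem chg {s : ℝ} (hs : s ≠ 0) (F : (T d L → ℝ) → ℂ) :
    ∫ v, F v ∂(Measure.pi fun _ : T d L => (gaussianReal 0 1).map fun x => s * x) =
      ∫ V, F (fun x => s * V x) ∂(GP (T d L)) := by
  have h1 : MeasurePreserving (fun x : ℝ => s * x) (gaussianReal 0 1)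
      ((gaussianReal 0 1).map fun x => s * x) :=
    ⟨measurable_const_mul s, rfl⟩
  have h2 := measurePreserving_pi (fun _ : T d L => gaussianReal 0 1)
    (fun _ : T d L => (gaussianReal 0 1).map fun x => s * x) (fun _ => h1)
  have h3 : MeasurableEmbedding (fun (V : T d L → ℝ) x => s * V x) :=
    (MeasurableEquiv.piCongrRight fun _ : T d L => MeasurableEquiv.mulLeft₀ s hs).measurableEmbedding
  exact (h2.integral_comp h3 F).symm

end

end ALG

open ALG

theorem alg (hR : T_RX) : T_ALG := by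
  intro d L _ X c σ γ hc hσ hγ hX k
  have hγ' : (γ : ℂ) ≠ 0 := by exact_mod_cast hγ.ne'
  have hZim : ∀ k, ((γ : ℂ) * X k).im ≤ 0 := by
    intro k
    rw [Complex.im_ofReal_mul]
    have := hX k
    exact (mul_neg_of_pos_of_neg hγ (by linarith)).le
  have hZ : ∀ k, (γ : ℂ) * X k - Complex.I ≠ 0 := fun k => sub_I_ne (hZim k)
  have hm1 : ∀ k, cayx (γ * X k) 0 - 1 = 2 * Complex.I / ((γ : ℂ) * X k - Complex.I) := by
    intro k
    rw [cayx_zero, eq_div_iff (hZ k), sub_mul, div_mul_cancel₀ _ (hZ k)]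
    ring
  have hm2 : ∀ k, cayx (γ * X k) 0 - 1 ≠ 0 := by
    intro k
    rw [hm1]
    exact div_ne_zero (mul_ne_zero two_ne_zero Complex.I_ne_zero) (hZ k)
  have hm3 : ∀ k, 1 - cayx (γ * X k) 0 ≠ 0 := by
    intro k h
    exact hm2 k (by rw [← neg_eq_zero, neg_sub]; exact h)
  obtain ⟨p, hp⟩ : ∃ p : T d L → ℂ, p = fun j => (1 - cayx (γ * X j) 0)⁻¹ := ⟨_, rfl⟩
  obtain ⟨r, hr⟩ : ∃ r : T d L → ℂ, r = fun j => (cayx (γ * X j) 0 - 1)⁻¹ := ⟨_, rfl⟩
  obtain ⟨s, hs⟩ : ∃ s : ℂ, s = -2 * Complex.I / γ := ⟨_, rfl⟩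
  obtain ⟨G, hG⟩ : ∃ G : (T d L → ℝ) → Matrix (T d L) (T d L) ℂ,
      G = fun v => (Matrix.diagonal fun x => cay (v x)) *
        (1 - Mo (fun j => cayx (γ * X j) 0) * Matrix.diagonal fun x => cay (v x))⁻¹ := ⟨_, rfl⟩
  have hcL : cL ((gaussianReal 0 1).map fun x => (γ * σ) * x) (fun j => cayx (γ * X j) 0) k =
      p k * (1 + s * (Rb X σ k * r k)) := by
    unfold cL
    have h1 : ∀ z, ∫ v : T d L → ℝ, G v 0 z
        ∂(Measure.pi fun _ => (gaussianReal 0 1).map fun x => (γ * σ) * x) =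
        Mo (fun j => p j * (1 + s * (Rb X σ j * r j))) 0 z := by
      intro z
      rw [chg (mul_pos hγ hσ).ne' (fun v => G v 0 z)]
      have h2 : ∀ V : T d L → ℝ, G (fun x => γ * σ * V x) 0 z =
          Mo p 0 z + s * ∑ x, Mo p 0 x * ∑ y, RX X σ V x y * Mo r y z := by
        intro V
        have h3 : G (fun x => γ * σ * V x) = Mo p * (1 + s • (RX X σ V * Mo r)) := by
          rw [hG]
          simp only
          rw [mat hR X hc hγ hX V, ← hp, ← hr, ← hs]
        rw [h3, mul_add, mul_one, Matrix.add_apply,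
          Matrix.mul_smul, Matrix.smul_apply, smul_eq_mul, Matrix.mul_apply]
        congr 2
      simp only [h2]
      have hi : ∀ x, Integrable (fun V => Mo p 0 x * ∑ y, RX X σ V x y * Mo r y z)
          (GP (T d L)) := by
        intro x
        refine Integrable.const_mul (integrable_finsetSum _ fun y _ => ?_) _
        exact (integr hR X hc hX x y).mul_const _
      rw [integral_add (integrable_const _) (Integrable.const_mul
        (integrable_finsetSum _ fun x _ => hi x) _), integral_const, integral_const_mul,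
        integral_finsetSum _ fun x _ => hi x]
      have h3 : ∀ x, ∫ V, Mo p 0 x * ∑ y, RX X σ V x y * Mo r y z ∂(GP (T d L)) =
          Mo p 0 x * ∑ y, Mo (fun j => Rb X σ j) x y * Mo r y z := by
        intro x
        rw [integral_const_mul, integral_finsetSum _ fun y _ =>
          (integr hR X hc hX x y).mul_const _]
        congr 1
        refine Finset.sum_congr rfl fun y _ => ?_
        rw [integral_mul_const, mean hR X hc hX]
      simp only [h3, probReal_univ, one_smul]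
      have h4 : Mo p * (1 + s • (Mo (fun j => Rb X σ j) * Mo r)) =
          Mo (fun j => p j * (1 + s * (Rb X σ j * r j))) := by
        rw [mo_mul, mo_smul, ← mo_one, mo_add, mo_mul]
      rw [← h4, mul_add, mul_one, Matrix.add_apply, Matrix.mul_smul, Matrix.smul_apply,
        smul_eq_mul, Matrix.mul_apply]
      congr 2
    rw [hG] at h1
    simp only at h1
    simp only [h1]
    exact sy_mo _ k
  rw [hcL, hp, hr, hs]
  have h5 := hm2 k
  have h6 := hm3 k
  simp only
  generalize cayx (γ * X k) 0 = m at h5 h6 ⊢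
  have h7 : (1 - m) * ((1 - m)⁻¹ * (1 + -2 * Complex.I / γ * (Rb X σ k * (m - 1)⁻¹))) - 1 =
      -2 * Complex.I / γ * (Rb X σ k * (m - 1)⁻¹) := by
    rw [mul_inv_cancel_left₀ h6]
    ring
  rw [h7]
  field_simp
  rw [Complex.I_sq]
  ring

theorem alg2 : T_ALG2 := by
  intro X C r S γ hγ hX hr hre hS hSim hne
  rw [cayx_zero] at hre hne ⊢
  rw [cayx_zero]
  obtain ⟨Z, hZ⟩ : ∃ Z : ℂ, Z = (γ : ℂ) * X := ⟨_, rfl⟩
  rw [← hZ] at hre hne ⊢
  have hZim : Z.im ≤ 0 := by
    rw [hZ, Complex.im_ofReal_mul]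
    exact (mul_neg_of_pos_of_neg hγ hX).le
  have hZi : Z - Complex.I ≠ 0 := sub_I_ne hZim
  have hSi : S - Complex.I ≠ 0 := sub_I_ne hSim
  have hγ' : (γ : ℂ) ≠ 0 := by exact_mod_cast hγ.ne'
  have hI : Complex.I ^ 2 = -1 := Complex.I_sq
  have hr2 : r * (Z - Complex.I) ^ 2 = γ * (2 * Complex.I * C + Z - Complex.I) := by
    rw [hre]
    field_simp
    ring_nf
    simp only [Complex.I_sq, show Complex.I ^ 3 = -Complex.I from by
      rw [pow_succ, Complex.I_sq]; ring, show Complex.I ^ 4 = 1 from Complex.I_pow_four]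
    ring
  have hS2 : S * r = γ - r * Z := by
    rw [hS, hZ, mul_assoc, sub_mul, inv_mul_cancel₀ hr]
    ring
  have key : r * (C * (S - Complex.I) * (Z - Complex.I) -
      (S + Complex.I) * (Z - Complex.I + (Z + Complex.I) * C)) = 0 := by
    linear_combination (C * (Z - Complex.I) - (Z - Complex.I + (Z + Complex.I) * C)) * hS2 + hr2
  have key2 := (mul_eq_zero.1 key).resolve_left hr
  rw [div_eq_div_iff hne hSi]
  have h3 : (1 + (Z + Complex.I) / (Z - Complex.I) * C) * (Z - Complex.I) =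
      Z - Complex.I + (Z + Complex.I) * C := by
    field_simp
  apply mul_right_cancel₀ hZi
  rw [mul_assoc (S + Complex.I), h3]
  linear_combination key2

end Pool.Agent.T2h98.AC
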