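import Pool.Agent.T2h98.AC.Stm

/-! Task BETA: existence of the random errors in the form bound. -/

set_option autoImplicit false
set_option linter.unusedSectionVars false

open scoped BigOperators Matrix Topology
open MeasureTheory ProbabilityTheory Filter

namespace Pool.Agent.T2h98.AC

namespace BETA

open Pool.Agent.W788.MFP.Four (T e NN adj K)
open Pool.Agent.W788.BK (nsq hs PP JJ hi Low cr)
open Pool.Agent.T2h98.QD

/-- marginals of a product of copies of one law -/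
theorem map_pi_inj {ι κ : Type} [Fintype ι] [Fintype κ] (μ : Measure ℝ) [IsProbabilityMeasure μ]
    (f : ι → κ) (hf : Function.Injective f) :
    (Measure.pi fun _ : κ => μ).map (fun (V : κ → ℝ) (i : ι) => V (f i)) =
      Measure.pi fun _ : ι => μ := by
  classical
  have hmeas : Measurable (fun (V : κ → ℝ) (i : ι) => V (f i)) :=
    measurable_pi_lambda _ fun k => measurable_pi_apply _
  refine (Measure.pi_eq fun s hs => ?_).symm
  rw [Measure.map_apply hmeas (MeasurableSet.univ_pi hs)]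
  obtain ⟨t, ht⟩ : ∃ t : κ → Set ℝ, t = Function.extend f s fun _ => Set.univ := ⟨_, rfl⟩
  have ht1 : ∀ i, t (f i) = s i := fun i => by rw [ht, hf.extend_apply]
  have ht2 : ∀ k, (¬ ∃ i, f i = k) → t k = Set.univ := fun k hk => by
    rw [ht, Function.extend_apply' _ _ _ hk]
  have hpre : (fun (V : κ → ℝ) (i : ι) => V (f i)) ⁻¹' (Set.univ.pi s) = Set.univ.pi t := by
    ext V
    simp only [Set.mem_preimage, Set.mem_pi, Set.mem_univ, forall_true_left]
    constructor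
    · intro h k
      by_cases hk : ∃ i, f i = k
      · obtain ⟨i, rfl⟩ := hk
        rw [ht1]
        exact h i
      · rw [ht2 k hk]
        exact Set.mem_univ _
    · intro h i
      rw [← ht1]
      exact h (f i)
  rw [hpre, Measure.pi_pi]
  have h1 : ∏ k, μ (t k) = ∏ k ∈ Finset.univ.image f, μ (t k) := by
    symm
    apply Finset.prod_subset (Finset.subset_univ _)
    intro k _ hk
    have h2 : ¬ ∃ i, f i = k := by simpa using hk
    rw [ht2 k h2, measure_univ]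
  rw [h1, Finset.prod_image (fun a _ b _ h => hf h)]
  exact Finset.prod_congr rfl fun i _ => by rw [ht1]

/-- the small torus in the large one -/
def em {d L M : ℕ} [NeZero L] [NeZero M] (a : T d L) (z : T d M) : T d L :=
  fun i => a i + (((z i).valMinAbs : ℤ) : ZMod L)

theorem em_inj {d L M : ℕ} [NeZero L] [NeZero M] (h : M ≤ L) (a : T d L) :
    Function.Injective (em a : T d M → T d L) := by
  intro z z' hzz
  funext i
  have h1 := congrFun hzz i
  simp only [em, add_right_inj] at h1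
  have h3 := ((ZMod.intCast_eq_intCast_iff _ _ L).1 h1).dvd
  have h4 := (z i).valMinAbs_mem_Ioc
  have h5 := (z' i).valMinAbs_mem_Ioc
  rw [Set.mem_Ioc] at h4 h5
  have hM : (M : ℤ) ≤ L := by exact_mod_cast h
  have h6 : (z' i).valMinAbs - (z i).valMinAbs = 0 := by
    apply Int.eq_zero_of_abs_lt_dvd h3
    rw [abs_lt]
    constructor <;> omega
  exact ZMod.injective_valMinAbs (by omega)

theorem law_bp {d L M : ℕ} [NeZero L] [NeZero M] (h : M ≤ L) (a : T d L) :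
    (GP (T d L)).map (fun V : T d L → ℝ => (bp V a : T d M → ℝ)) = GP (T d M) := by
  unfold GP PP
  exact map_pi_inj (gaussianReal 0 1) (em a : T d M → T d L) (em_inj h a)

theorem meas_bp {d L M : ℕ} [NeZero L] [NeZero M] (a : T d L) :
    Measurable (fun V : T d L → ℝ => (bp V a : T d M → ℝ)) :=
  measurable_pi_lambda _ fun k => measurable_pi_apply _

/-- number of the points of a box -/
theorem card_box {d L : ℕ} [NeZero L] (g : T d L → T d L) (hg : Function.Injective g) (m : ℕ)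
    (s : Finset (T d L)) (hs : ∀ a ∈ s, ∀ i, |(((g a) i).valMinAbs : ℤ)| ≤ m) :
    s.card ≤ (2 * m + 1) ^ d := by
  classical
  have h1 : s.card ≤ (Fintype.piFinset (fun _ : Fin d => Finset.Icc (-(m : ℤ)) m)).card := by
    refine Finset.card_le_card_of_injOn (fun a i => ((g a) i).valMinAbs) ?_ ?_
    · intro a ha
      rw [Finset.mem_coe, Fintype.mem_piFinset]
      intro i
      rw [Finset.mem_Icc]
      exact abs_le.1 (hs a ha i)
    · intro a _ b _ hab
      apply hg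
      funext i
      exact ZMod.injective_valMinAbs (congrFun hab i)
  rw [Fintype.card_piFinset, Finset.prod_const, Finset.card_univ, Fintype.card_fin,
    Int.card_Icc] at h1
  have h2 : ((m : ℤ) + 1 - -(m : ℤ)).toNat = 2 * m + 1 := by omega
  rwa [h2] at h1

/-- bad points -/
def bad {d L M : ℕ} [NeZero L] [NeZero M] (Ω : Set (T d M → ℝ)) (ℓ : ℕ) (V : T d L → ℝ)
    (x : T d L) : Prop :=
  ∃ a : T d L, (bp V a : T d M → ℝ) ∉ Ω ∧ ∀ i, |((x i - a i).valMinAbs : ℤ)| ≤ ℓ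

open Classical in
/-- the random errors -/
noncomputable def bt {d L M : ℕ} [NeZero L] [NeZero M] (Ω : Set (T d M → ℝ)) (ℓ : ℕ) (σ : ℝ)
    (V : T d L → ℝ) (x : T d L) : ℝ := if bad Ω ℓ V x then σ * |V x| else 0

theorem bad_cov {d L M : ℕ} [NeZero L] [NeZero M] (Ω : Set (T d M → ℝ)) (ℓ : ℕ) (V : T d L → ℝ)
    (a x : T d L) : bad Ω ℓ (fun z => V (z + a)) x ↔ bad Ω ℓ V (x + a) := by
  have hbp : ∀ b : T d L, (bp (fun z => V (z + a)) b : T d M → ℝ) = bp V (b + a) := by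
    intro b
    funext z
    show V ((fun i => b i + (((z i).valMinAbs : ℤ) : ZMod L)) + a) =
      V (fun i => (b + a) i + (((z i).valMinAbs : ℤ) : ZMod L))
    congr 1
    funext i
    simp only [Pi.add_apply]
    ring
  constructor
  · rintro ⟨b, hb, h⟩
    refine ⟨b + a, ?_, fun i => ?_⟩
    · rw [← hbp]
      exact hb
    · have e1 : (x + a) i - (b + a) i = x i - b i := by simp only [Pi.add_apply]; ring
      rw [e1]
      exact h i
  · rintro ⟨b, hb, h⟩
    refine ⟨b - a, ?_, fun i => ?_⟩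
    · rw [hbp, sub_add_cancel]
      exact hb
    · have e1 : x i - (b - a) i = (x + a) i - b i := by
        simp only [Pi.add_apply, Pi.sub_apply]; ring
      rw [e1]
      exact h i

theorem bad_loc {d L M ℓ : ℕ} [NeZero L] [NeZero M] (hM : M = 4 * ℓ) (Ω : Set (T d M → ℝ))
    (V V' : T d L → ℝ)
    (h : ∀ z : T d L, (∀ i, |((z i).valMinAbs : ℤ)| ≤ ((3 * ℓ : ℕ) : ℤ)) → V z = V' z) :
    bad Ω ℓ V 0 → bad Ω ℓ V' 0 := by
  rintro ⟨a, ha, hb⟩
  refine ⟨a, ?_, hb⟩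
  have e1 : (bp V' a : T d M → ℝ) = bp V a := by
    funext z
    unfold bp
    refine (h _ fun i => ?_).symm
    have h1 := hb i
    simp only [Pi.zero_apply, zero_sub] at h1
    rw [Int.abs_eq_natAbs, ZMod.natAbs_valMinAbs_neg] at h1
    have h2 := ZMod.natAbs_valMinAbs_add_le (a i) (((z i).valMinAbs : ℤ) : ZMod L)
    have h3 : ((((z i).valMinAbs : ℤ) : ZMod L)).valMinAbs.natAbs ≤ (z i).valMinAbs.natAbs :=
      ZMod.natAbs_min_of_le_div_two L _ _ (ZMod.coe_valMinAbs _) (ZMod.natAbs_valMinAbs_le _)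
    have h4 := (z i).valMinAbs_mem_Ioc
    rw [Set.mem_Ioc] at h4
    rw [Int.abs_eq_natAbs]
    have h5 : (((a i).valMinAbs + ((((z i).valMinAbs : ℤ) : ZMod L)).valMinAbs).natAbs) ≤
        (a i).valMinAbs.natAbs + ((((z i).valMinAbs : ℤ) : ZMod L)).valMinAbs.natAbs :=
      Int.natAbs_add_le _ _
    omega
  rw [e1]
  exact ha

theorem meas_bad {d L M : ℕ} [NeZero L] [NeZero M] (Ω : Set (T d M → ℝ)) (hΩ : MeasurableSet Ω)
    (ℓ : ℕ) (x : T d L) : MeasurableSet {V : T d L → ℝ | bad Ω ℓ V x} := by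
  have e1 : {V : T d L → ℝ | bad Ω ℓ V x} =
      ⋃ a : {a : T d L // ∀ i, |((x i - a i).valMinAbs : ℤ)| ≤ ℓ},
        (fun V : T d L → ℝ => (bp V a.1 : T d M → ℝ)) ⁻¹' Ωᶜ := by
    ext V
    simp only [Set.mem_ofPred_eq, Set.mem_iUnion, Set.mem_preimage, Set.mem_compl_iff]
    constructor
    · rintro ⟨a, h1, h2⟩
      exact ⟨⟨a, h2⟩, h1⟩
    · rintro ⟨a, h1⟩
      exact ⟨a.1, h1, a.2⟩
  rw [e1]
  exact MeasurableSet.iUnion fun a => (meas_bp a.1) hΩ.compl

theorem prob_bad {d L M ℓ : ℕ} [NeZero L] [NeZero M] (hML : M ≤ L) (Ω : Set (T d M → ℝ))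
    (hΩ : MeasurableSet Ω) (x : T d L) :
    (GP (T d L)).real {V : T d L → ℝ | bad Ω ℓ V x} ≤
      ((2 * ℓ + 1 : ℕ) : ℝ) ^ d * (GP (T d M)).real Ωᶜ := by
  classical
  obtain ⟨s, hs⟩ : ∃ s : Finset (T d L), s =
    Finset.univ.filter fun a => ∀ i, |((x i - a i).valMinAbs : ℤ)| ≤ ℓ := ⟨_, rfl⟩
  have e1 : {V : T d L → ℝ | bad Ω ℓ V x} ⊆
      ⋃ a ∈ s, (fun V : T d L → ℝ => (bp V a : T d M → ℝ)) ⁻¹' Ωᶜ := by
    rintro V ⟨a, h1, h2⟩
    simp only [Set.mem_iUnion]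
    refine ⟨a, ?_, h1⟩
    rw [hs, Finset.mem_filter]
    exact ⟨Finset.mem_univ _, h2⟩
  have hcard : s.card ≤ (2 * ℓ + 1) ^ d := by
    refine card_box (fun a => x - a) (fun a b hab => sub_right_injective hab) ℓ s fun a ha => ?_
    rw [hs, Finset.mem_filter] at ha
    exact ha.2
  have : IsProbabilityMeasure (GP (T d L)) := by unfold GP PP; infer_instance
  calc (GP (T d L)).real {V : T d L → ℝ | bad Ω ℓ V x}
      ≤ (GP (T d L)).real (⋃ a ∈ s, (fun V : T d L → ℝ => (bp V a : T d M → ℝ)) ⁻¹' Ωᶜ) :=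
        measureReal_mono e1 (measure_ne_top _ _)
    _ ≤ ∑ a ∈ s, (GP (T d L)).real ((fun V : T d L → ℝ => (bp V a : T d M → ℝ)) ⁻¹' Ωᶜ) :=
        measureReal_biUnion_finset_le _ _
    _ = ∑ a ∈ s, (GP (T d M)).real Ωᶜ := by
        refine Finset.sum_congr rfl fun a _ => ?_
        rw [← law_bp hML a]
        rw [map_measureReal_apply (meas_bp a) hΩ.compl]
    _ = (s.card : ℝ) * (GP (T d M)).real Ωᶜ := by rw [Finset.sum_const, nsmul_eq_mul]
    _ ≤ _ := by
        refine mul_le_mul_of_nonneg_right ?_ measureReal_nonneg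
        exact_mod_cast hcard

theorem num_prob {C k4 D σ u ℓ' : ℝ} {d K K' : ℕ} (hσ : 0 < σ) (hu : u = 32 * σ)
    (hK' : K' = 2 * d + 2 * K + 1) (hℓ0 : 0 ≤ ℓ') (hk : 0 ≤ k4)
    (hℓ : ℓ' * u ^ 2 ≤ C + 2) (hD : D = (3 * (C + 2)) ^ d * 32 ^ (2 * K + 1) * (k4 + 1))
    (hDσ : D * σ ≤ 1) : (3 * ℓ') ^ d * u ^ K' ≤ σ ^ (2 * K) / (k4 + 1) := by
  have hu0 : 0 < u := by rw [hu]; positivity
  have e2 : (3 * ℓ') ^ d * u ^ K' = (3 * (ℓ' * u ^ 2)) ^ d * u ^ (2 * K + 1) := by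
    have e0 : u ^ K' = (u ^ 2) ^ d * u ^ (2 * K + 1) := by
      rw [← pow_mul, ← pow_add, hK', add_assoc]
    rw [e0, mul_pow, mul_pow, mul_pow]
    ring
  have e3 : (3 * (ℓ' * u ^ 2)) ^ d ≤ (3 * (C + 2)) ^ d :=
    pow_le_pow_left₀ (by positivity) (by linarith) d
  rw [e2]
  refine (mul_le_mul_of_nonneg_right e3 (by positivity)).trans ?_
  rw [le_div_iff₀ (by positivity)]
  have e4 : (3 * (C + 2)) ^ d * u ^ (2 * K + 1) * (k4 + 1) = D * σ * σ ^ (2 * K) := by
    rw [hD, hu, mul_pow]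
    ring
  rw [e4]
  have e5 : D * σ * σ ^ (2 * K) ≤ 1 * σ ^ (2 * K) := mul_le_mul_of_nonneg_right hDσ (by positivity)
  linarith

theorem num_mom {k4 σ : ℝ} {K : ℕ} (hσ : 0 < σ) (hk : 0 ≤ k4) :
    (σ ^ K / (k4 + 1) * k4 + σ ^ (2 * K) / (k4 + 1) / (σ ^ K / (k4 + 1))) / 2 ≤ σ ^ K := by
  have e1 : σ ^ (2 * K) / (k4 + 1) / (σ ^ K / (k4 + 1)) = σ ^ K := by
    have n1 : σ ^ K ≠ 0 := by positivity
    have n2 : k4 + 1 ≠ 0 := by positivity
    rw [two_mul, pow_add]
    field_simp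
  have e2 : σ ^ K / (k4 + 1) * k4 ≤ σ ^ K := by
    rw [div_mul_eq_mul_div, div_le_iff₀ (by positivity)]
    have : 0 < σ ^ K := by positivity
    nlinarith
  rw [e1]
  linarith

/-- the fourth moment -/
noncomputable def c4 : ℝ := ∫ x : ℝ, x ^ 4 ∂(gaussianReal 0 1)

theorem c4_nonneg : 0 ≤ c4 := integral_nonneg fun x => by positivity

theorem int4 : Integrable (fun x : ℝ => x ^ 4) (gaussianReal 0 1) := by
  have h := (memLp_id_gaussianReal (μ := 0) (v := 1) 4).integrable_norm_pow (by norm_num)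
  refine h.congr (Eventually.of_forall fun x => ?_)
  simp only [id, NNReal.coe_ofNat]
  rw [Real.norm_eq_abs]
  have : (4 : ENNReal).toReal = 4 := by norm_num
  simp [pow_abs, abs_pow, Even.pow_abs (by decide : Even 4)]

theorem mp_eval {m : Type} [Fintype m] (x : m) :
    MeasurePreserving (fun V : m → ℝ => V x) (GP m) (gaussianReal 0 1) := by
  unfold GP PP
  exact measurePreserving_eval (fun _ : m => gaussianReal 0 1) x

theorem int4' {m : Type} [Fintype m] (x : m) : Integrable (fun V : m → ℝ => V x ^ 4) (GP m) :=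
  (mp_eval x).integrable_comp_of_integrable int4

theorem val4 {m : Type} [Fintype m] (x : m) : ∫ V, V x ^ 4 ∂(GP m) = c4 := by
  have h := (mp_eval x)
  unfold c4
  rw [← h.map_eq, integral_map h.measurable.aemeasurable]
  exact (by rw [h.map_eq]; exact int4.aestronglyMeasurable)

theorem mom {d L M ℓ : ℕ} [NeZero L] [NeZero M] (Ω : Set (T d M → ℝ)) (hΩ : MeasurableSet Ω)
    (σ η P : ℝ) (hσ : 0 ≤ σ) (hσ1 : σ ≤ 1) (hη : 0 < η)
    (hP : (GP (T d L)).real {V : T d L → ℝ | bad Ω ℓ V 0} ≤ P) :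
    ∫ V, bt Ω ℓ σ V 0 ^ 2 ∂(GP (T d L)) ≤ (η * c4 + P / η) / 2 := by
  classical
  have hm := meas_bad Ω hΩ ℓ (0 : T d L)
  obtain ⟨A, hA⟩ : ∃ A : Set (T d L → ℝ), A = {V : T d L → ℝ | bad Ω ℓ V 0} := ⟨_, rfl⟩
  rw [← hA] at hm hP
  have : IsProbabilityMeasure (GP (T d L)) := by unfold GP PP; infer_instance
  have hint : Integrable (fun V : T d L → ℝ => (η * V 0 ^ 4 + A.indicator (fun _ => (1 : ℝ)) V / η) / 2)
      (GP (T d L)) := by
    refine Integrable.div_const (Integrable.add ((int4' 0).const_mul η) (Integrable.div_const ?_ η)) 2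
    exact (integrable_const (1 : ℝ)).indicator hm
  have hle : ∀ V : T d L → ℝ, bt Ω ℓ σ V 0 ^ 2 ≤
      (η * V 0 ^ 4 + A.indicator (fun _ => (1 : ℝ)) V / η) / 2 := by
    intro V
    unfold bt
    by_cases hb : bad Ω ℓ V 0
    · have hVA : V ∈ A := by rw [hA]; exact hb
      rw [if_pos hb, Set.indicator_of_mem hVA, mul_pow, sq_abs]
      have h1 : σ ^ 2 * V 0 ^ 2 ≤ V 0 ^ 2 := by
        have : σ ^ 2 ≤ 1 := pow_le_one₀ hσ hσ1
        nlinarith [sq_nonneg (V 0)]
      refine h1.trans ?_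
      rw [le_div_iff₀ two_pos]
      have h2 : 0 ≤ (η * V 0 ^ 2 - 1) ^ 2 / η := by positivity
      have h3 : (η * V 0 ^ 2 - 1) ^ 2 / η = η * V 0 ^ 4 + 1 / η - 2 * V 0 ^ 2 := by
        field_simp
        ring
      linarith
    · have hVA : V ∉ A := by rw [hA]; exact hb
      rw [if_neg hb, Set.indicator_of_notMem hVA]
      have : 0 ≤ η * V 0 ^ 4 := by positivity
      have h0 : (0 : ℝ) ^ 2 = 0 := by norm_num
      rw [h0, zero_div]
      linarith
  have h1 : ∫ V, bt Ω ℓ σ V 0 ^ 2 ∂(GP (T d L)) ≤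
      ∫ V, (η * V 0 ^ 4 + A.indicator (fun _ => (1 : ℝ)) V / η) / 2 ∂(GP (T d L)) :=
    integral_mono_of_nonneg (Eventually.of_forall fun V => sq_nonneg _) hint
      (Eventually.of_forall hle)
  refine h1.trans ?_
  rw [integral_div, integral_add ((int4' 0).const_mul η)
    (((integrable_const (1 : ℝ)).indicator hm).div_const η), integral_const_mul, integral_div,
    val4, integral_indicator_const (1 : ℝ) hm, smul_eq_mul, mul_one]
  have : (GP (T d L)).real A / η ≤ P / η := div_le_div_of_nonneg_right hP hη.le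
  linarith

end BETA

open BETA
open Pool.Agent.W788.MFP.Four (T e NN adj K)
open Pool.Agent.W788.BK (nsq hs PP JJ hi Low cr)
open Pool.Agent.T2h98.QD

theorem beta (hB : T_BLK) (hP : T_PROB3) : T_BETA := by
  classical
  intro d K s hd hs hs1
  obtain ⟨C, hC0, hC⟩ := hB d (by omega)
  obtain ⟨K', hK'⟩ : ∃ K' : ℕ, K' = 2 * d + 2 * K + 1 := ⟨_, rfl⟩
  obtain ⟨y0, hy0, hy⟩ := hP d K' s hd hs hs1
  have hc4 := c4_nonneg
  obtain ⟨D, hD⟩ : ∃ D : ℝ, D = (3 * (C + 2)) ^ d * 32 ^ (2 * K + 1) * (c4 + 1) := ⟨_, rfl⟩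
  have hD0 : 0 < D := by rw [hD]; positivity
  have small : ∀ r : ℝ, 0 < r → ∀ᶠ σ : ℝ in 𝓝[>] 0, σ < r := fun r hr =>
    nhdsWithin_le_nhds (Iio_mem_nhds hr)
  filter_upwards [self_mem_nhdsWithin, small (Real.exp (-y0) / 32) (by positivity),
    small (1 / 64) (by norm_num), small (1 / (128 * (C + 2))) (by positivity),
    small (1 / D) (by positivity)] with σ hσ h1 h2 h3 h4
  have hσ : 0 < σ := hσ
  obtain ⟨u, hu⟩ : ∃ u : ℝ, u = 32 * σ := ⟨_, rfl⟩
  have hu0 : 0 < u := by rw [hu]; positivity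
  have hu1 : u < 1 := by rw [hu]; linarith
  obtain ⟨y, hyd⟩ : ∃ y : ℝ, y = -Real.log u := ⟨_, rfl⟩
  have hyy : y0 ≤ y := by
    have e1 : Real.log u ≤ -y0 := by
      rw [Real.log_le_iff_le_exp hu0, hu]
      linarith
    linarith
  obtain ⟨δ, hδ⟩ : ∃ δ : ℝ, δ = u ^ (2 - s) := ⟨_, rfl⟩
  have hδ0 : 0 < δ := by rw [hδ]; exact Real.rpow_pos_of_pos hu0 _
  have hδ1 : δ ≤ 1 := by rw [hδ]; exact Real.rpow_le_one hu0.le hu1.le (by linarith)
  have hδu : u ^ 2 ≤ δ := by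
    have e1 : u ^ (2 : ℝ) ≤ u ^ (2 - s) :=
      Real.rpow_le_rpow_of_exponent_ge hu0 hu1.le (by linarith)
    rw [Real.rpow_two] at e1
    rw [hδ]
    exact e1
  have hδy : Real.exp (-(2 - s) * y) = δ := by
    rw [hδ, Real.rpow_def_of_pos hu0, hyd]
    congr 1
    ring
  have hδy2 : Real.exp ((2 - s) * y) = δ⁻¹ := by
    rw [← hδy, ← Real.exp_neg]
    congr 1
    ring
  have hey : Real.exp y = u⁻¹ := by
    rw [hyd, Real.exp_neg, Real.exp_log hu0]
  have heK2 : Real.exp ((K' : ℝ) * y) = (u ^ K')⁻¹ := by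
    rw [Real.exp_nat_mul, hey, inv_pow]
  have heK : Real.exp (-(K' : ℝ) * y) = u ^ K' := by
    rw [neg_mul, Real.exp_neg, heK2, inv_inv]
  obtain ⟨ℓ, hℓ⟩ : ∃ ℓ : ℕ, ℓ = ⌈(C + 1) / δ⌉₊ := ⟨_, rfl⟩
  have hℓ1 : (C + 1) / δ ≤ ℓ := by rw [hℓ]; exact Nat.le_ceil _
  have hℓ1' : C + 1 ≤ ℓ * δ := (div_le_iff₀ hδ0).1 hℓ1
  have hℓ2 : (ℓ : ℝ) ≤ (C + 2) / δ := by
    have e1 : (ℓ : ℝ) < (C + 1) / δ + 1 := by
      rw [hℓ]
      exact Nat.ceil_lt_add_one (by positivity)
    have e2 : 1 ≤ 1 / δ := by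
      rw [le_div_iff₀ hδ0]
      linarith
    have e3 : (C + 2) / δ = (C + 1) / δ + 1 / δ := by ring
    linarith
  have hℓ3 : (ℓ : ℝ) ≤ (C + 2) / u ^ 2 :=
    hℓ2.trans (div_le_div_of_nonneg_left (by positivity) (by positivity) hδu)
  have hℓ3' : (ℓ : ℝ) * u ^ 2 ≤ C + 2 := (le_div_iff₀ (by positivity)).1 hℓ3
  have hℓpos' : (1 : ℝ) ≤ ℓ := by
    have e1 : (1 : ℝ) ≤ (C + 1) / δ := by
      rw [le_div_iff₀ hδ0]
      linarith
    linarith
  have hℓpos : 1 ≤ ℓ := by exact_mod_cast hℓpos'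
  have hCσ : 128 * (C + 2) * σ ≤ 1 := by
    rw [lt_div_iff₀ (by positivity)] at h3
    linarith
  have hDσ : D * σ ≤ 1 := by
    rw [lt_div_iff₀ hD0] at h4
    linarith
  refine ⟨ℓ, 8, (6 * ℓ + 1) ^ d, hℓpos, ?_, fun n hn L _ hL => ?_⟩
  · -- the bound for b0
    have e1 : σ ^ (-(4 * d : ℝ)) = ((σ ^ 4)⁻¹) ^ d := by
      rw [Real.rpow_neg hσ.le, inv_pow, ← pow_mul]
      congr 1
      rw [← Real.rpow_natCast]
      push_cast
      rfl
    rw [e1]
    push_cast
    refine pow_le_pow_left₀ (by positivity) ?_ d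
    have e2 : (6 * (ℓ : ℝ) + 1) ≤ 7 * ℓ := by linarith
    refine e2.trans ?_
    rw [← one_div, le_div_iff₀ (by positivity)]
    have e3 : (ℓ : ℝ) * (1024 * σ ^ 2) ≤ C + 2 := by
      have : u ^ 2 = 1024 * σ ^ 2 := by rw [hu]; ring
      rw [← this]
      exact hℓ3'
    have e4 : 7 * (ℓ : ℝ) * σ ^ 4 = 7 * σ ^ 2 / 1024 * (ℓ * (1024 * σ ^ 2)) := by ring
    rw [e4]
    have e5 : 7 * σ ^ 2 / 1024 * (ℓ * (1024 * σ ^ 2)) ≤ 7 * σ ^ 2 / 1024 * (C + 2) :=
      mul_le_mul_of_nonneg_left e3 (by positivity)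
    refine e5.trans ?_
    have e6 : 7 * σ ^ 2 / 1024 * (C + 2) = 7 * σ / (1024 * 128) * (128 * (C + 2) * σ) := by ring
    rw [e6]
    have e7 : 7 * σ / (1024 * 128) * (128 * (C + 2) * σ) ≤ 7 * σ / (1024 * 128) * 1 :=
      mul_le_mul_of_nonneg_left hCσ (by positivity)
    linarith
  · obtain ⟨M, hM⟩ : ∃ M : ℕ, M = 4 * ℓ := ⟨_, rfl⟩
    have : NeZero M := ⟨by omega⟩
    have hML : M ≤ L := by
      rw [hM, hL]
      exact Nat.mul_le_mul_right ℓ (by omega)
    have hMR : (M : ℝ) = 4 * ℓ := by rw [hM]; push_cast; rfl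
    have m1 : Real.exp ((2 - s) * y) ≤ (M : ℝ) := by
      rw [hδy2, hMR]
      have e1 : δ⁻¹ ≤ (C + 1) / δ := by
        rw [← one_div]
        exact div_le_div_of_nonneg_right (by linarith) hδ0.le
      linarith
    have m2 : (M : ℝ) ≤ Real.exp ((K' : ℝ) * y) := by
      rw [heK2, hMR, ← one_div, le_div_iff₀ (by positivity)]
      have e1 : u ^ K' ≤ u ^ 3 := pow_le_pow_of_le_one hu0.le hu1.le (by omega)
      have e2 : 4 * (ℓ : ℝ) * u ^ K' ≤ 4 * ℓ * u ^ 3 := mul_le_mul_of_nonneg_left e1 (by positivity)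
      have e3 : 4 * (ℓ : ℝ) * u ^ 3 = 4 * u * (ℓ * u ^ 2) := by ring
      have e4 : 4 * u * (ℓ * u ^ 2) ≤ 4 * u * (C + 2) := mul_le_mul_of_nonneg_left hℓ3' (by positivity)
      have e5 : 4 * u * (C + 2) = 128 * (C + 2) * σ := by rw [hu]; ring
      linarith
    obtain ⟨Ω, hΩm, hΩP, hΩ⟩ := hy y hyy M m1 m2
    rw [heK] at hΩP
    rw [hδy] at hΩ
    refine ⟨bt Ω ℓ σ, Finset.univ.filter fun z : T d L => ∀ i, |((z i).valMinAbs : ℤ)| ≤
      ((3 * ℓ : ℕ) : ℤ), ?_⟩
    have hσ1 : σ ≤ 1 := by linarith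
    refine ⟨?_, ?_, ?_, ?_, ?_, ?_, ?_, ?_, ?_⟩
    · intro V x
      unfold bt
      split_ifs
      · positivity
      · exact le_refl _
    · intro V x
      unfold bt
      split_ifs
      · have := abs_nonneg (V x)
        nlinarith
      · exact abs_nonneg _
    · intro x
      unfold bt
      refine Measurable.ite (meas_bad Ω hΩm ℓ x) ?_ measurable_const
      have hm1 : Measurable fun V : T d L → ℝ => V x := measurable_pi_apply x
      exact hm1.abs.const_mul σ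
    · intro V a x
      unfold bt
      simp only [bad_cov]
    · intro V V' h
      have h' : ∀ z : T d L, (∀ i, |((z i).valMinAbs : ℤ)| ≤ ((3 * ℓ : ℕ) : ℤ)) → V z = V' z := by
        intro z hz
        exact h z (by rw [Finset.mem_filter]; exact ⟨Finset.mem_univ _, hz⟩)
      have h0 : V 0 = V' 0 := h' 0 fun i => by
        simp only [Pi.zero_apply, ZMod.valMinAbs_zero, abs_zero]
        positivity
      have hiff : bad Ω ℓ V 0 ↔ bad Ω ℓ V' 0 :=
        ⟨bad_loc hM Ω V V' h', bad_loc hM Ω V' V fun z hz => (h' z hz).symm⟩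
      unfold bt
      rw [h0]
      by_cases hb : bad Ω ℓ V 0
      · rw [if_pos hb, if_pos (hiff.1 hb)]
      · rw [if_neg hb, if_neg (fun hc => hb (hiff.2 hc))]
    · rw [Finset.mem_filter]
      refine ⟨Finset.mem_univ _, fun i => ?_⟩
      simp only [Pi.zero_apply, ZMod.valMinAbs_zero, abs_zero]
      positivity
    · have e1 := card_box (fun a : T d L => a) (fun a b hab => hab) (3 * ℓ)
        (Finset.univ.filter fun z : T d L => ∀ i, |((z i).valMinAbs : ℤ)| ≤ ((3 * ℓ : ℕ) : ℤ))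
        (fun a ha => (Finset.mem_filter.1 ha).2)
      have e2 : 2 * (3 * ℓ) + 1 = 6 * ℓ + 1 := by ring
      rwa [e2] at e1
    · -- the moment
      have hη : 0 < σ ^ K / (c4 + 1) := by positivity
      have hPr := prob_bad (ℓ := ℓ) hML Ω hΩm (0 : T d L)
      have hPr2 : (GP (T d L)).real {V : T d L → ℝ | bad Ω ℓ V 0} ≤ σ ^ (2 * K) / (c4 + 1) := by
        refine hPr.trans ?_
        refine (mul_le_mul_of_nonneg_left hΩP (by positivity)).trans ?_
        have e1 : (((2 * ℓ + 1 : ℕ) : ℝ)) ^ d ≤ (3 * (ℓ : ℝ)) ^ d := by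
          refine pow_le_pow_left₀ (by positivity) ?_ d
          push_cast
          linarith
        refine (mul_le_mul_of_nonneg_right e1 (by positivity)).trans ?_
        exact num_prob hσ hu hK' (Nat.cast_nonneg ℓ) hc4 hℓ3' hD hDσ
      exact (mom Ω hΩm σ (σ ^ K / (c4 + 1)) (σ ^ (2 * K) / (c4 + 1)) hσ.le hσ1 hη hPr2).trans
        (num_mom hσ hc4)
    · -- the form bound
      intro V E w
      have ht : 0 ≤ 1 / (64 * σ) := by positivity
      have hqn : 0 ≤ Pool.Agent.W788.MFP.Four.q (JJ E δ) w :=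
        Pool.Agent.W788.MFP.Four.q_nonneg _ _ fun k => Real.sqrt_nonneg _
      have hδ' : (32 * σ) ^ (2 - s) = δ := by rw [hδ, hu]
      rw [hδ']
      have hblk := hC ℓ n L M hL hM hℓpos hn E δ (1 / (64 * σ)) hδ0 hδ1 (by linarith) ht V
        {a | (bp V a : T d M → ℝ) ∈ Ω} (fun a ha w' => by
          have h5 := hΩ (bp V a) ha E w'
          rw [hey] at h5
          have e1 : u⁻¹ / 2 = 1 / (64 * σ) := by
            rw [hu]
            field_simp
            norm_num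
          rw [e1] at h5
          exact h5) w
      have e1 : σ * (2 * (1 / (64 * σ)) * Pool.Agent.W788.MFP.Four.q (JJ E δ) w) =
          1 / 32 * Pool.Agent.W788.MFP.Four.q (JJ E δ) w := by
        field_simp
        ring
      have e2 : σ * (∑ x, Set.indicator {x | ∃ a ∉ {a | (bp V a : T d M → ℝ) ∈ Ω},
          ∀ i, |((x i - a i).valMinAbs : ℤ)| ≤ ℓ} (fun x => |V x|) x * w x ^ 2) =
          ∑ x, bt Ω ℓ σ V x * w x ^ 2 := by
        rw [Finset.mul_sum]
        refine Finset.sum_congr rfl fun x _ => ?_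
        unfold bt
        by_cases hb : bad Ω ℓ V x
        · have hx : x ∈ {x | ∃ a ∉ {a | (bp V a : T d M → ℝ) ∈ Ω},
              ∀ i, |((x i - a i).valMinAbs : ℤ)| ≤ ℓ} := by
            obtain ⟨a, h6, h7⟩ := hb
            exact ⟨a, h6, h7⟩
          rw [Set.indicator_of_mem hx, if_pos hb]
          ring
        · have hx : x ∉ {x | ∃ a ∉ {a | (bp V a : T d M → ℝ) ∈ Ω},
              ∀ i, |((x i - a i).valMinAbs : ℤ)| ≤ ℓ} := by
            rintro ⟨a, h6, h7⟩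
            exact hb ⟨a, h6, h7⟩
          rw [Set.indicator_of_notMem hx, if_neg hb]
          ring
      have h6 := mul_le_mul_of_nonneg_left hblk hσ.le
      rw [mul_add, e1, e2] at h6
      refine h6.trans ?_
      linarith

end Pool.Agent.T2h98.AC
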