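import Pool.Agent.T2h98.AC.Stm
import Pool.Agent.T2h98.QD.Win
import Pool.Agent.T2h98.QD.MoA

/-! From blocks to large tori: the form bound. -/

set_option autoImplicit false
set_option linter.unusedSectionVars false

open scoped BigOperators Matrix Topology
open MeasureTheory ProbabilityTheory Filter

namespace Pool.Agent.T2h98.AC

open Pool.Agent.W788.MFP.Four (T e NN adj K Op)
open Pool.Agent.W788.BK (nsq hs PP JJ hi Low cr)
open Pool.Agent.T2h98.QD

namespace BLK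

/-! ### Representatives of points of the small torus -/

section zmod

variable {ℓ L M : ℕ} [NeZero L] [NeZero M]

/-- the representative of a point of the small circle in the large circle -/
def rp (L : ℕ) {M : ℕ} (c : ZMod M) : ZMod L := ((c.valMinAbs : ℤ) : ZMod L)

theorem vma_bd (hM : M = 4 * ℓ) (c : ZMod M) :
    -(4 * (ℓ : ℤ)) < c.valMinAbs * 2 ∧ c.valMinAbs * 2 ≤ 4 * ℓ := by
  have h := ZMod.valMinAbs_mem_Ioc c
  rw [Set.mem_Ioc] at h
  have hM' : (M : ℤ) = 4 * ℓ := by exact_mod_cast hM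
  omega

theorem vma_cast (v : ℤ) (h1 : -(L : ℤ) < v * 2) (h2 : v * 2 ≤ L) :
    ((v : ℤ) : ZMod L).valMinAbs = v :=
  (ZMod.valMinAbs_spec _ _).2 ⟨rfl, Set.mem_Ioc.2 ⟨h1, h2⟩⟩

theorem vma_rp (hL : 8 * ℓ ≤ L) (hM : M = 4 * ℓ) (hℓ : 1 ≤ ℓ) (c : ZMod M) :
    (rp L c).valMinAbs = c.valMinAbs := by
  have h := vma_bd hM c
  have hL' : 8 * (ℓ : ℤ) ≤ L := by exact_mod_cast hL
  exact vma_cast _ (by omega) (by omega)

theorem rp_inj (hL : 8 * ℓ ≤ L) (hM : M = 4 * ℓ) (hℓ : 1 ≤ ℓ) {c c' : ZMod M}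
    (h : rp L c = rp L c') : c = c' := by
  rw [← ZMod.valMinAbs_inj, ← vma_rp hL hM hℓ c, ← vma_rp hL hM hℓ c', h]

theorem rp_surj (hL : 8 * ℓ ≤ L) (hM : M = 4 * ℓ) (hℓ : 1 ≤ ℓ) (y : ZMod L)
    (hy : |(y.valMinAbs : ℤ)| < ℓ) : rp L ((y.valMinAbs : ℤ) : ZMod M) = y := by
  have hM' : (M : ℤ) = 4 * ℓ := by exact_mod_cast hM
  have h1 := abs_lt.1 hy
  unfold rp
  rw [vma_cast (L := M) y.valMinAbs (by omega) (by omega), ZMod.coe_valMinAbs]

/-- one step -/
theorem rp_hop (hL : 8 * ℓ ≤ L) (hM : M = 4 * ℓ) (hℓ : 1 ≤ ℓ) (c : ZMod M) (s : ℤ)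
    (hs : s = 1 ∨ s = -1) : rp L (c + (s : ZMod M)) = rp L c + (s : ZMod L) ∨
    ((ℓ : ℤ) ≤ |((rp L (c + (s : ZMod M))).valMinAbs : ℤ)| ∧
      (ℓ : ℤ) ≤ |((rp L c + (s : ZMod L)).valMinAbs : ℤ)|) := by
  have hM' : (M : ℤ) = 4 * ℓ := by exact_mod_cast hM
  have hL' : 8 * (ℓ : ℤ) ≤ L := by exact_mod_cast hL
  have h := vma_bd hM c
  have e1 : c + (s : ZMod M) = ((c.valMinAbs + s : ℤ) : ZMod M) := by
    rw [Int.cast_add, ZMod.coe_valMinAbs]
  have e2 : rp L c + (s : ZMod L) = ((c.valMinAbs + s : ℤ) : ZMod L) := by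
    rw [Int.cast_add]
    rfl
  by_cases hin : -(4 * (ℓ : ℤ)) < (c.valMinAbs + s) * 2 ∧ (c.valMinAbs + s) * 2 ≤ 4 * ℓ
  · left
    rw [e2, e1]
    unfold rp
    rw [vma_cast (L := M) (c.valMinAbs + s) (by omega) (by omega)]
  · right
    have e3 : ((c.valMinAbs + s : ℤ) : ZMod L).valMinAbs = c.valMinAbs + s :=
      vma_cast _ (by omega) (by omega)
    rw [vma_rp hL hM hℓ, e2, e3]
    constructor
    · by_cases h4 : 4 * (ℓ : ℤ) < (c.valMinAbs + s) * 2
      · have e4 : c + (s : ZMod M) = ((c.valMinAbs + s - M : ℤ) : ZMod M) := by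
          rw [e1, Int.cast_sub, Int.cast_natCast, ZMod.natCast_self, sub_zero]
        rw [e4, vma_cast _ (by omega) (by omega), le_abs]
        omega
      · have e4 : c + (s : ZMod M) = ((c.valMinAbs + s + M : ℤ) : ZMod M) := by
          rw [e1, Int.cast_add _ (M : ℤ), Int.cast_natCast, ZMod.natCast_self, add_zero]
        rw [e4, vma_cast _ (by omega) (by omega), le_abs]
        omega
    · rw [le_abs]
      omega

end zmod

section torus

variable {d ℓ L M : ℕ} [NeZero L] [NeZero M]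

/-- the point of the large torus -/
def pt (L : ℕ) {d M : ℕ} (a : T d L) (z : T d M) : T d L := fun i => a i + rp L (z i)

theorem pt_inj (hL : 8 * ℓ ≤ L) (hM : M = 4 * ℓ) (hℓ : 1 ≤ ℓ) (a : T d L) :
    Function.Injective (pt L a : T d M → T d L) := by
  intro z z' h
  funext i
  have h1 := congrFun h i
  exact rp_inj hL hM hℓ (add_left_cancel h1)

theorem pt_surj (hL : 8 * ℓ ≤ L) (hM : M = 4 * ℓ) (hℓ : 1 ≤ ℓ) (a x : T d L)
    (hx : ∀ i, |((x i - a i).valMinAbs : ℤ)| < ℓ) : ∃ z : T d M, pt L a z = x := by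
  refine ⟨fun i => (((x i - a i).valMinAbs : ℤ) : ZMod M), ?_⟩
  funext i
  unfold pt
  rw [rp_surj hL hM hℓ _ (hx i), add_sub_cancel]

/-- functions supported near `a` -/
def Sup (ℓ : ℕ) (a : T d L) (g : T d L → ℝ) : Prop :=
  ∀ x, g x ≠ 0 → ∀ i, |((x i - a i).valMinAbs : ℤ)| < ℓ

theorem hop (hL : 8 * ℓ ≤ L) (hM : M = 4 * ℓ) (hℓ : 1 ≤ ℓ) (a : T d L) (g : T d L → ℝ)
    (hg : Sup ℓ a g) (z : T d M) (i : Fin d) (s : ℤ) (hs : s = 1 ∨ s = -1) :
    g (pt L a (z + Pi.single i (s : ZMod M))) = g (pt L a z + Pi.single i (s : ZMod L)) := by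
  rcases rp_hop hL hM hℓ (z i) s hs with h | ⟨h1, h2⟩
  · congr 1
    funext j
    rw [Pi.add_apply]
    unfold pt
    rw [Pi.add_apply]
    by_cases hj : j = i
    · subst hj
      rw [Pi.single_eq_same, Pi.single_eq_same, h, add_assoc]
    · rw [Pi.single_eq_of_ne hj, Pi.single_eq_of_ne hj, add_zero, add_zero]
  · have e1 : g (pt L a (z + Pi.single i (s : ZMod M))) = 0 := by
      by_contra hne
      have h3 := hg _ hne i
      unfold pt at h3
      rw [Pi.add_apply, Pi.single_eq_same, add_sub_cancel_left] at h3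
      omega
    have e2 : g (pt L a z + Pi.single i (s : ZMod L)) = 0 := by
      by_contra hne
      have h3 := hg _ hne i
      rw [Pi.add_apply, Pi.single_eq_same] at h3
      unfold pt at h3
      rw [add_assoc, add_sub_cancel_left] at h3
      omega
    rw [e1, e2]

theorem Op_pt (hL : 8 * ℓ ≤ L) (hM : M = 4 * ℓ) (hℓ : 1 ≤ ℓ) (a : T d L) (g : T d L → ℝ)
    (hg : Sup ℓ a g) (E : ℝ) (z : T d M) :
    Op (fun k => adj k - E) (fun z => g (pt L a z)) z =
      Op (fun k => adj k - E) g (pt L a z) := by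
  rw [Pool.Agent.W788.MFP.Four.Op_adj, Pool.Agent.W788.MFP.Four.Op_adj]
  simp only
  congr 1
  refine Finset.sum_congr rfl fun i _ => ?_
  have h1 := hop hL hM hℓ a g hg z i 1 (Or.inl rfl)
  have h2 := hop hL hM hℓ a g hg z i (-1) (Or.inr rfl)
  rw [Int.cast_one, Int.cast_one] at h1
  rw [Int.cast_neg, Int.cast_one, Int.cast_neg, Int.cast_one, Pi.single_neg, Pi.single_neg,
    ← sub_eq_add_neg, ← sub_eq_add_neg] at h2
  rw [h1, h2]

theorem sum_pt_le (hL : 8 * ℓ ≤ L) (hM : M = 4 * ℓ) (hℓ : 1 ≤ ℓ) (a : T d L) (h : T d L → ℝ)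
    (h0 : ∀ x, 0 ≤ h x) : ∑ z : T d M, h (pt L a z) ≤ ∑ x, h x := by
  have h1 : ∑ z : T d M, h (pt L a z) =
      ∑ x ∈ Finset.univ.map ⟨(pt L a : T d M → T d L), pt_inj hL hM hℓ a⟩, h x := by
    rw [Finset.sum_map]
    rfl
  rw [h1]
  exact Finset.sum_le_sum_of_subset_of_nonneg (Finset.subset_univ _) fun x _ _ => h0 x

theorem sum_pt_eq (hL : 8 * ℓ ≤ L) (hM : M = 4 * ℓ) (hℓ : 1 ≤ ℓ) (a : T d L) (h : T d L → ℝ)
    (hh : Sup ℓ a h) : ∑ z : T d M, h (pt L a z) = ∑ x, h x := by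
  have h1 : ∑ z : T d M, h (pt L a z) =
      ∑ x ∈ Finset.univ.map ⟨(pt L a : T d M → T d L), pt_inj hL hM hℓ a⟩, h x := by
    rw [Finset.sum_map]
    rfl
  rw [h1]
  apply Finset.sum_subset (Finset.subset_univ _)
  intro x _ hx
  by_contra hne
  obtain ⟨z, hz⟩ := pt_surj (M := M) hL hM hℓ a x (hh x hne)
  exact hx (Finset.mem_map.2 ⟨z, Finset.mem_univ _, hz⟩)

end torus

/-! ### Commutators -/

section comm

variable {d ℓ L M : ℕ} [NeZero L] [NeZero M]

theorem comm (E : ℝ) (c w : T d L → ℝ) (x : T d L) :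
    Op (fun k => adj k - E) (fun x => c x * w x) x = c x * Op (fun k => adj k - E) w x +
      ∑ i, ((c (x + Pi.single i 1) - c x) * w (x + Pi.single i 1) +
        (c (x - Pi.single i 1) - c x) * w (x - Pi.single i 1)) := by
  rw [Pool.Agent.W788.MFP.Four.Op_adj, Pool.Agent.W788.MFP.Four.Op_adj]
  simp only
  have h1 : ∑ i, (c (x + Pi.single i 1) * w (x + Pi.single i 1) +
      c (x - Pi.single i 1) * w (x - Pi.single i 1)) =
      c x * ∑ i, (w (x + Pi.single i 1) + w (x - Pi.single i 1)) +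
      ∑ i, ((c (x + Pi.single i 1) - c x) * w (x + Pi.single i 1) +
        (c (x - Pi.single i 1) - c x) * w (x - Pi.single i 1)) := by
    rw [Finset.mul_sum, ← Finset.sum_add_distrib]
    exact Finset.sum_congr rfl fun i _ => by ring
  rw [h1]
  ring

theorem cs_pairs (A B : Fin d → ℝ) :
    (∑ i, (A i + B i)) ^ 2 ≤ 2 * d * ∑ i, (A i ^ 2 + B i ^ 2) := by
  have h1 := sq_sum_le_card_mul_sum_sq (s := (Finset.univ : Finset (Fin d)))
    (f := fun i => A i + B i)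
  rw [Finset.card_univ, Fintype.card_fin] at h1
  refine h1.trans ?_
  have h2 : ∑ i, (A i + B i) ^ 2 ≤ 2 * ∑ i, (A i ^ 2 + B i ^ 2) := by
    rw [Finset.mul_sum]
    exact Finset.sum_le_sum fun i _ => by nlinarith [sq_nonneg (A i - B i)]
  have h3 : (0 : ℝ) ≤ d := by positivity
  nlinarith

theorem shift_sum (h : T d L → ℝ) (a : T d L) : ∑ x, h (x + a) = ∑ x, h x :=
  Equiv.sum_comp (Equiv.addRight a) h

theorem shift_sum' (h : T d L → ℝ) (a : T d L) : ∑ x, h (x - a) = ∑ x, h x :=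
  Equiv.sum_comp (Equiv.subRight a) h

theorem comm_sum (E Λ : ℝ) (c : T d L → T d L → ℝ) (hc1 : ∀ x, ∑ a, c a x ^ 2 ≤ 1)
    (hΛ : ∀ x i, ∑ a, (c a (x + Pi.single i 1) - c a x) ^ 2 ≤ Λ) (w : T d L → ℝ) :
    ∑ a, ∑ x, Op (fun k => adj k - E) (fun x => c a x * w x) x ^ 2 ≤
      2 * ∑ x, Op (fun k => adj k - E) w x ^ 2 + 8 * d ^ 2 * Λ * ∑ x, w x ^ 2 := by
  have h1 : ∀ a x, Op (fun k => adj k - E) (fun x => c a x * w x) x ^ 2 ≤
      2 * (c a x ^ 2 * Op (fun k => adj k - E) w x ^ 2) + 4 * d *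
      ∑ i, ((c a (x + Pi.single i 1) - c a x) ^ 2 * w (x + Pi.single i 1) ^ 2 +
        (c a (x - Pi.single i 1 + Pi.single i 1) - c a (x - Pi.single i 1)) ^ 2 *
          w (x - Pi.single i 1) ^ 2) := by
    intro a x
    rw [comm]
    have h2 := cs_pairs (fun i => (c a (x + Pi.single i 1) - c a x) * w (x + Pi.single i 1))
      (fun i => (c a (x - Pi.single i 1) - c a x) * w (x - Pi.single i 1))
    have h3 : ∀ i, ((c a (x + Pi.single i 1) - c a x) * w (x + Pi.single i 1)) ^ 2 +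
        ((c a (x - Pi.single i 1) - c a x) * w (x - Pi.single i 1)) ^ 2 =
        (c a (x + Pi.single i 1) - c a x) ^ 2 * w (x + Pi.single i 1) ^ 2 +
        (c a (x - Pi.single i 1 + Pi.single i 1) - c a (x - Pi.single i 1)) ^ 2 *
          w (x - Pi.single i 1) ^ 2 := by
      intro i
      rw [sub_add_cancel]
      ring
    simp only [h3] at h2
    nlinarith [sq_nonneg (c a x * Op (fun k => adj k - E) w x -
      ∑ i, ((c a (x + Pi.single i 1) - c a x) * w (x + Pi.single i 1) +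
        (c a (x - Pi.single i 1) - c a x) * w (x - Pi.single i 1)))]
  have h2 : ∑ a, ∑ x, Op (fun k => adj k - E) (fun x => c a x * w x) x ^ 2 ≤
      2 * ∑ a, ∑ x, c a x ^ 2 * Op (fun k => adj k - E) w x ^ 2 + 4 * d *
      ∑ a, ∑ x, ∑ i, ((c a (x + Pi.single i 1) - c a x) ^ 2 * w (x + Pi.single i 1) ^ 2 +
        (c a (x - Pi.single i 1 + Pi.single i 1) - c a (x - Pi.single i 1)) ^ 2 *
          w (x - Pi.single i 1) ^ 2) := by
    rw [Finset.mul_sum, Finset.mul_sum, ← Finset.sum_add_distrib]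
    refine Finset.sum_le_sum fun a _ => ?_
    rw [Finset.mul_sum, Finset.mul_sum, ← Finset.sum_add_distrib]
    exact Finset.sum_le_sum fun x _ => h1 a x
  have h3 : ∑ a, ∑ x, c a x ^ 2 * Op (fun k => adj k - E) w x ^ 2 ≤
      ∑ x, Op (fun k => adj k - E) w x ^ 2 := by
    rw [Finset.sum_comm]
    refine Finset.sum_le_sum fun x _ => ?_
    rw [← Finset.sum_mul]
    exact mul_le_of_le_one_left (sq_nonneg _) (hc1 x)
  have h4 : ∑ a, ∑ x, ∑ i, ((c a (x + Pi.single i 1) - c a x) ^ 2 * w (x + Pi.single i 1) ^ 2 +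
        (c a (x - Pi.single i 1 + Pi.single i 1) - c a (x - Pi.single i 1)) ^ 2 *
          w (x - Pi.single i 1) ^ 2) =
      ∑ i, (∑ x, (∑ a, (c a (x + Pi.single i 1) - c a x) ^ 2) * w (x + Pi.single i 1) ^ 2 +
        ∑ x, (∑ a, (c a (x + Pi.single i 1) - c a x) ^ 2) * w x ^ 2) := by
    have h5 : ∀ a, ∑ x, ∑ i, ((c a (x + Pi.single i 1) - c a x) ^ 2 * w (x + Pi.single i 1) ^ 2 +
        (c a (x - Pi.single i 1 + Pi.single i 1) - c a (x - Pi.single i 1)) ^ 2 *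
          w (x - Pi.single i 1) ^ 2) =
        ∑ i, (∑ x, (c a (x + Pi.single i 1) - c a x) ^ 2 * w (x + Pi.single i 1) ^ 2 +
          ∑ x, (c a (x + Pi.single i 1) - c a x) ^ 2 * w x ^ 2) := by
      intro a
      rw [Finset.sum_comm]
      refine Finset.sum_congr rfl fun i _ => ?_
      rw [Finset.sum_add_distrib]
      congr 1
      exact shift_sum' (fun x => (c a (x + Pi.single i 1) - c a x) ^ 2 * w x ^ 2) _
    rw [Finset.sum_congr rfl fun a _ => h5 a, Finset.sum_comm]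
    refine Finset.sum_congr rfl fun i _ => ?_
    rw [Finset.sum_add_distrib]
    congr 1
    · rw [Finset.sum_comm]
      exact Finset.sum_congr rfl fun x _ => by rw [Finset.sum_mul]
    · rw [Finset.sum_comm]
      exact Finset.sum_congr rfl fun x _ => by rw [Finset.sum_mul]
  have h5 : ∑ i : Fin d, (∑ x, (∑ a, (c a (x + Pi.single i 1) - c a x) ^ 2) *
        w (x + Pi.single i 1) ^ 2 +
        ∑ x, (∑ a, (c a (x + Pi.single i 1) - c a x) ^ 2) * w x ^ 2) ≤
      ∑ i : Fin d, (2 * Λ * ∑ x, w x ^ 2) := by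
    refine Finset.sum_le_sum fun i _ => ?_
    have h6 : ∑ x, (∑ a, (c a (x + Pi.single i 1) - c a x) ^ 2) * w (x + Pi.single i 1) ^ 2 ≤
        Λ * ∑ x, w x ^ 2 := by
      rw [← shift_sum (fun x => w x ^ 2) (Pi.single i 1), Finset.mul_sum]
      exact Finset.sum_le_sum fun x _ => mul_le_mul_of_nonneg_right (hΛ x i) (sq_nonneg _)
    have h7 : ∑ x, (∑ a, (c a (x + Pi.single i 1) - c a x) ^ 2) * w x ^ 2 ≤
        Λ * ∑ x, w x ^ 2 := by
      rw [Finset.mul_sum]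
      exact Finset.sum_le_sum fun x _ => mul_le_mul_of_nonneg_right (hΛ x i) (sq_nonneg _)
    linarith
  rw [Finset.sum_const, Finset.card_univ, Fintype.card_fin, nsmul_eq_mul] at h5
  rw [h4] at h2
  have h6 : (0 : ℝ) ≤ 4 * d := by positivity
  have h7 := mul_le_mul_of_nonneg_left h5 h6
  nlinarith

theorem lip_sum (hℓ : 1 ≤ ℓ) (c : T d L → T d L → ℝ)
    (hlip : ∀ a x i, |c a (x + Pi.single i 1) - c a x| ≤ 4 / ℓ)
    (hcard : ∀ x, ((Finset.univ.filter fun a => c a x ≠ 0).card : ℝ) ≤ 2 ^ d) (x : T d L)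
    (i : Fin d) : ∑ a, (c a (x + Pi.single i 1) - c a x) ^ 2 ≤ 32 * 2 ^ d / ℓ ^ 2 := by
  have hℓ' : (0 : ℝ) < ℓ := by exact_mod_cast hℓ
  have h1 : ∀ a, (c a (x + Pi.single i 1) - c a x) ^ 2 ≤
      16 / ℓ ^ 2 * ((if c a (x + Pi.single i 1) ≠ 0 then 1 else 0) +
        (if c a x ≠ 0 then 1 else 0)) := by
    intro a
    have h2 : (c a (x + Pi.single i 1) - c a x) ^ 2 ≤ 16 / ℓ ^ 2 := by
      rw [← sq_abs]
      refine (pow_le_pow_left₀ (abs_nonneg _) (hlip a x i) 2).trans (le_of_eq ?_)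
      rw [div_pow]
      norm_num
    have h3 : (0 : ℝ) ≤ 16 / ℓ ^ 2 := by positivity
    by_cases h4 : c a (x + Pi.single i 1) ≠ 0
    · rw [if_pos h4]
      split_ifs
      · linarith
      · linarith
    · rw [if_neg h4]
      by_cases h5 : c a x ≠ 0
      · rw [if_pos h5]
        linarith
      · rw [if_neg h5]
        rw [not_not.1 h4, not_not.1 h5]
        norm_num
  refine (Finset.sum_le_sum fun a _ => h1 a).trans ?_
  rw [← Finset.mul_sum, Finset.sum_add_distrib, Finset.sum_boole, Finset.sum_boole]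
  have h2 := hcard (x + Pi.single i 1)
  have h3 := hcard x
  have h4 : (0 : ℝ) ≤ 16 / ℓ ^ 2 := by positivity
  calc 16 / (ℓ : ℝ) ^ 2 * (_ + _) ≤ 16 / (ℓ : ℝ) ^ 2 * (2 ^ d + 2 ^ d) :=
        mul_le_mul_of_nonneg_left (add_le_add h2 h3) h4
    _ = _ := by ring

theorem JJ_sum (E δ : ℝ) (f : T d L → ℝ) : ∑ x, Op (JJ E δ) f x ^ 2 =
    ∑ x, Op (fun k => adj k - E) f x ^ 2 + δ ^ 2 * ∑ x, f x ^ 2 := by
  have h1 := Pool.Agent.W788.MFP.Four.sum_Op (JJ E δ) (JJ E δ) f (Win.JJ_neg E δ) (Win.JJ_neg E δ)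
  have h2 := Pool.Agent.W788.MFP.Four.sum_Op (fun k : T d L => adj k - E) (fun k => adj k - E) f
    (fun k => by rw [Pool.Agent.W788.MFP.Four.adj_neg])
    (fun k => by rw [Pool.Agent.W788.MFP.Four.adj_neg])
  simp only [← sq] at h1 h2
  rw [h1, h2, Pool.Agent.W788.MFP.Four.sum_sq, ← Pool.Agent.W788.MFP.Four.q_const,
    ← Pool.Agent.W788.MFP.Four.q_add]
  congr 1
  funext k
  rw [mul_one, Win.JJ_eq, Pool.Agent.W788.MFP.Form.J_sq]

/-- the main inequality for real functions -/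
theorem main_real (hL : 8 * ℓ ≤ L) (hM : M = 4 * ℓ) (hℓ : 1 ≤ ℓ) (E δ Λ : ℝ)
    (c : T d L → T d L → ℝ) (hsup : ∀ a, Sup ℓ a (c a)) (hc1 : ∀ x, ∑ a, c a x ^ 2 ≤ 1)
    (hΛ : ∀ x i, ∑ a, (c a (x + Pi.single i 1) - c a x) ^ 2 ≤ Λ)
    (hδ : 8 * d ^ 2 * Λ ≤ 3 * δ ^ 2) (w : T d L → ℝ) :
    ∑ a, ∑ z : T d M, Op (JJ E δ) (fun z => c a (pt L a z) * w (pt L a z)) z ^ 2 ≤
      4 * ∑ x, Op (JJ E δ) w x ^ 2 := by
  have hsup2 : ∀ a, Sup ℓ a (fun x => c a x * w x) := fun a x hx i =>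
    hsup a x (fun h => hx (by simp only [h, zero_mul])) i
  have h1 : ∀ a, ∑ z : T d M, Op (JJ E δ) (fun z => c a (pt L a z) * w (pt L a z)) z ^ 2 ≤
      ∑ x, Op (fun k => adj k - E) (fun x => c a x * w x) x ^ 2 +
        δ ^ 2 * ∑ x, (c a x * w x) ^ 2 := by
    intro a
    rw [JJ_sum]
    refine add_le_add ?_ (mul_le_mul_of_nonneg_left ?_ (sq_nonneg δ))
    · have h2 : ∀ z : T d M, Op (fun k => adj k - E) (fun z => c a (pt L a z) * w (pt L a z)) z =
          Op (fun k => adj k - E) (fun x => c a x * w x) (pt L a z) :=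
        fun z => Op_pt hL hM hℓ a _ (hsup2 a) E z
      simp only [h2]
      exact sum_pt_le hL hM hℓ a (fun x => Op (fun k => adj k - E) (fun x => c a x * w x) x ^ 2)
        fun x => sq_nonneg _
    · exact sum_pt_le hL hM hℓ a (fun x => (c a x * w x) ^ 2) fun x => sq_nonneg _
  have h2 : ∑ a, ∑ z : T d M, Op (JJ E δ) (fun z => c a (pt L a z) * w (pt L a z)) z ^ 2 ≤
      ∑ a, ∑ x, Op (fun k => adj k - E) (fun x => c a x * w x) x ^ 2 +
        δ ^ 2 * ∑ a, ∑ x, (c a x * w x) ^ 2 := by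
    rw [Finset.mul_sum, ← Finset.sum_add_distrib]
    exact Finset.sum_le_sum fun a _ => h1 a
  have h3 := comm_sum E Λ c hc1 hΛ w
  have h4 : ∑ a, ∑ x, (c a x * w x) ^ 2 ≤ ∑ x, w x ^ 2 := by
    rw [Finset.sum_comm]
    refine Finset.sum_le_sum fun x _ => ?_
    simp only [mul_pow]
    rw [← Finset.sum_mul]
    exact mul_le_of_le_one_left (sq_nonneg _) (hc1 x)
  rw [JJ_sum]
  have h5 : 0 ≤ ∑ x, Op (fun k => adj k - E) w x ^ 2 := Finset.sum_nonneg fun x _ => sq_nonneg _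
  have h6 : 0 ≤ ∑ x, w x ^ 2 := Finset.sum_nonneg fun x _ => sq_nonneg _
  have h7 := mul_le_mul_of_nonneg_left h4 (sq_nonneg δ)
  have h8 := mul_le_mul_of_nonneg_right hδ h6
  nlinarith

end comm

/-! ### Interpolation -/

section interp

variable {d ℓ L M : ℕ} [NeZero L] [NeZero M]

/-- the localisation -/
noncomputable def AA (M : ℕ) [NeZero M] (c : T d L → T d L → ℝ) :
    Matrix (T d L × T d M) (T d L) ℂ :=
  Matrix.of fun p x => if x = pt L p.1 p.2 then ((c p.1 x : ℝ) : ℂ) else 0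

theorem AA_apply (c : T d L → T d L → ℝ) (w : T d L → ℂ) (a : T d L) (z : T d M) :
    (AA M c *ᵥ w) (a, z) = ((c a (pt L a z) : ℝ) : ℂ) * w (pt L a z) := by
  unfold AA Matrix.mulVec dotProduct
  simp only [Matrix.of_apply, ite_mul, zero_mul]
  rw [Finset.sum_ite_eq' Finset.univ (pt L a z), if_pos (Finset.mem_univ _)]

/-- the block diagonal matrix -/
noncomputable def BB (L M : ℕ) [NeZero L] [NeZero M] (E δ : ℝ) :
    Matrix (T d L × T d M) (T d L × T d M) ℂ :=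
  Matrix.of fun p q => if p.1 = q.1 then (J0 E δ : Matrix (T d M) (T d M) ℂ) p.2 q.2 else 0

theorem BB_apply (E δ : ℝ) (w : T d L × T d M → ℂ) (a : T d L) (z : T d M) :
    (BB L M E δ *ᵥ w) (a, z) =
      ((J0 E δ : Matrix (T d M) (T d M) ℂ) *ᵥ fun z => w (a, z)) z := by
  unfold BB Matrix.mulVec dotProduct
  simp only [Matrix.of_apply, ite_mul, zero_mul]
  rw [Fintype.sum_prod_type, Finset.sum_eq_single a]
  · simp only [if_true]
  · intro b _ hb
    refine Finset.sum_eq_zero fun z _ => ?_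
    rw [if_neg (Ne.symm hb)]
  · intro h
    exact absurd (Finset.mem_univ a) h

theorem BB_herm (E δ : ℝ) :
    (BB L M E δ : Matrix (T d L × T d M) (T d L × T d M) ℂ).IsHermitian := by
  ext p q
  rw [Matrix.conjTranspose_apply]
  unfold BB
  rw [Matrix.of_apply, Matrix.of_apply]
  by_cases h : p.1 = q.1
  · rw [if_pos h, if_pos h.symm]
    exact (Win.J0_herm E δ).apply _ _
  · rw [if_neg h, if_neg (Ne.symm h), star_zero]

theorem nsq_prod {α β : Type} [Fintype α] [Fintype β] (w : α × β → ℂ) :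
    nsq w = ∑ a, nsq fun z => w (a, z) := by
  unfold Pool.Agent.W788.BK.nsq
  rw [Fintype.sum_prod_type]

theorem BB_qf (E δ : ℝ) (w : T d L × T d M → ℂ) :
    qf (BB L M E δ) w = ∑ a, qf (J0 E δ : Matrix (T d M) (T d M) ℂ) fun z => w (a, z) := by
  unfold qf dotProduct
  rw [Fintype.sum_prod_type, Complex.re_sum]
  refine Finset.sum_congr rfl fun a _ => ?_
  congr 1
  refine Finset.sum_congr rfl fun z _ => ?_
  rw [BB_apply]
  rfl

theorem q_zero (m : T d L → ℝ) : Pool.Agent.W788.MFP.Four.q m (fun _ => 0) = 0 := by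
  unfold Pool.Agent.W788.MFP.Four.q Pool.Agent.W788.MFP.Four.ft
  simp

theorem qf_real (E δ : ℝ) (f : T d L → ℝ) :
    qf (J0 E δ) (fun x => ((f x : ℝ) : ℂ)) = Pool.Agent.W788.MFP.Four.q (JJ E δ) f := by
  unfold J0
  rw [Win.Mo_qf _ (Win.JJ_neg E δ)]
  simp only [Complex.ofReal_re, Complex.ofReal_im]
  rw [q_zero, add_zero]

theorem nsq_J0 (E δ : ℝ) (w : T d L → ℂ) : nsq ((J0 E δ : Matrix (T d L) (T d L) ℂ) *ᵥ w) =
    ∑ x, Op (JJ E δ) (fun y => (w y).re) x ^ 2 + ∑ x, Op (JJ E δ) (fun y => (w y).im) x ^ 2 := by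
  rw [Win.nsq_parts]
  unfold J0
  simp only [Win.Mo_re _ (Win.JJ_neg E δ), Win.Mo_im _ (Win.JJ_neg E δ)]

/-- the sum of the forms on the blocks -/
theorem form_sum (hI : T_INTP) (hL : 8 * ℓ ≤ L) (hM : M = 4 * ℓ) (hℓ : 1 ≤ ℓ) (E δ Λ : ℝ)
    (hδ0 : 0 < δ) (c : T d L → T d L → ℝ) (hsup : ∀ a, Sup ℓ a (c a))
    (hc1 : ∀ x, ∑ a, c a x ^ 2 ≤ 1)
    (hΛ : ∀ x i, ∑ a, (c a (x + Pi.single i 1) - c a x) ^ 2 ≤ Λ)
    (hδ : 8 * d ^ 2 * Λ ≤ 3 * δ ^ 2) (w : T d L → ℝ) :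
    ∑ a, Pool.Agent.W788.MFP.Four.q (JJ E δ) (fun z : T d M => c a (pt L a z) * w (pt L a z)) ≤
      2 * Pool.Agent.W788.MFP.Four.q (JJ E δ) w := by
  have key := hI (T d L) (T d L × T d M) (J0 E δ) (BB L M E δ) (AA M c) δ 2 (Win.J0_herm E δ)
    (BB_herm E δ) hδ0 (by norm_num) (Win.J0_ge E δ hδ0) ?_ ?_ ?_ (fun x => ((w x : ℝ) : ℂ))
  · rw [qf_real, BB_qf] at key
    have h1 : ∀ a : T d L, (fun z : T d M => (AA M c *ᵥ fun x => ((w x : ℝ) : ℂ)) (a, z)) =
        fun z => (((fun z : T d M => c a (pt L a z) * w (pt L a z)) z : ℝ) : ℂ) := by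
      intro a
      funext z
      rw [AA_apply]
      push_cast
      rfl
    simp only [h1, qf_real] at key
    exact key
  · intro w
    rw [BB_qf]
    refine Finset.sum_nonneg fun a _ => ?_
    exact (mul_nonneg hδ0.le (Pool.Agent.W788.BK.nsq_nonneg _)).trans (Win.J0_ge E δ hδ0 _)
  · intro w
    rw [nsq_prod]
    have h1 : ∀ a : T d L, (nsq fun z : T d M => (AA M c *ᵥ w) (a, z)) ≤
        ∑ x, c a x ^ 2 * ‖w x‖ ^ 2 := by
      intro a
      unfold Pool.Agent.W788.BK.nsq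
      have h2 : ∀ z : T d M, ‖(AA M c *ᵥ w) (a, z)‖ ^ 2 =
          c a (pt L a z) ^ 2 * ‖w (pt L a z)‖ ^ 2 := by
        intro z
        rw [AA_apply, norm_mul, mul_pow, Complex.norm_real, Real.norm_eq_abs, sq_abs]
      simp only [h2]
      exact sum_pt_le hL hM hℓ a (fun x => c a x ^ 2 * ‖w x‖ ^ 2) fun x => by positivity
    refine (Finset.sum_le_sum fun a _ => h1 a).trans ?_
    rw [Finset.sum_comm]
    unfold Pool.Agent.W788.BK.nsq
    refine Finset.sum_le_sum fun x _ => ?_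
    rw [← Finset.sum_mul]
    exact mul_le_of_le_one_left (sq_nonneg _) (hc1 x)
  · intro w
    rw [nsq_prod, nsq_J0]
    have h1 : ∀ a : T d L, (nsq fun z : T d M => (BB L M E δ *ᵥ (AA M c *ᵥ w)) (a, z)) =
        ∑ z : T d M, Op (JJ E δ) (fun z => c a (pt L a z) * (w (pt L a z)).re) z ^ 2 +
        ∑ z : T d M, Op (JJ E δ) (fun z => c a (pt L a z) * (w (pt L a z)).im) z ^ 2 := by
      intro a
      have h2 : (fun z : T d M => (BB L M E δ *ᵥ (AA M c *ᵥ w)) (a, z)) =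
          (J0 E δ : Matrix (T d M) (T d M) ℂ) *ᵥ fun z => (AA M c *ᵥ w) (a, z) := by
        funext z
        rw [BB_apply]
      rw [h2, nsq_J0]
      simp only [AA_apply, Complex.re_ofReal_mul, Complex.im_ofReal_mul]
    rw [Finset.sum_congr rfl fun a _ => h1 a, Finset.sum_add_distrib]
    have h3 := main_real hL hM hℓ E δ Λ c hsup hc1 hΛ hδ fun x => (w x).re
    have h4 := main_real hL hM hℓ E δ Λ c hsup hc1 hΛ hδ fun x => (w x).im
    linarith

end interp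

end BLK

open BLK in
theorem blk (hI : T_INTP) (hP : T_PAR) : T_BLK := by
  intro d hd
  have hd' : (1 : ℝ) ≤ d := by exact_mod_cast hd
  refine ⟨16 * d * 2 ^ d, by positivity, ?_⟩
  intro ℓ n L M _ _ hLn hM hℓ hn E δ t hδ hδ1 hC ht ξ G hG w
  have hL : 8 * ℓ ≤ L := by
    rw [hLn]
    exact Nat.mul_le_mul_right _ hn
  have hℓ' : (0 : ℝ) < ℓ := by exact_mod_cast hℓ
  obtain ⟨Cn, χ, hχ, hsup, hsum, hlip, hcard⟩ := hP d ℓ n L hLn hℓ hn
  classical
  obtain ⟨c, hcE⟩ : ∃ c : T d L → T d L → ℝ,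
      c = fun a x => if a ∈ Cn ∧ a ∈ G then χ a x else 0 := ⟨_, rfl⟩
  have hcs : ∀ a, Sup ℓ a (c a) := by
    intro a x hx i
    rw [hcE] at hx
    simp only at hx
    by_cases h : a ∈ Cn ∧ a ∈ G
    · rw [if_pos h] at hx
      exact hsup a h.1 x hx i
    · rw [if_neg h] at hx
      exact absurd rfl hx
  have hcsq : ∀ x, ∑ a, c a x ^ 2 ≤ 1 := by
    intro x
    rw [← hsum x, ← Finset.sum_filter_add_sum_filter_not Finset.univ (fun a => a ∈ Cn)]
    have h1 : ∑ a with ¬a ∈ Cn, c a x ^ 2 = 0 := by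
      refine Finset.sum_eq_zero fun a ha => ?_
      have h2 := (Finset.mem_filter.1 ha).2
      rw [hcE]
      simp only
      rw [if_neg fun h => h2 h.1]
      norm_num
    rw [h1, add_zero, Finset.filter_univ_mem]
    refine Finset.sum_le_sum fun a ha => ?_
    rw [hcE]
    simp only
    split_ifs
    · exact le_refl _
    · rw [zero_pow two_ne_zero]
      exact sq_nonneg _
  have hclip : ∀ a x i, |c a (x + Pi.single i 1) - c a x| ≤ 4 / ℓ := by
    intro a x i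
    rw [hcE]
    simp only
    by_cases h : a ∈ Cn ∧ a ∈ G
    · rw [if_pos h, if_pos h]
      exact hlip a h.1 x i
    · rw [if_neg h, if_neg h, sub_zero, abs_zero]
      positivity
  have hccard : ∀ x, ((Finset.univ.filter fun a => c a x ≠ 0).card : ℝ) ≤ 2 ^ d := by
    intro x
    refine le_trans ?_ (hcard x)
    have h1 : (Finset.univ.filter fun a => c a x ≠ 0) ⊆ Cn.filter fun a => χ a x ≠ 0 := by
      intro a ha
      have h2 := (Finset.mem_filter.1 ha).2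
      rw [hcE] at h2
      simp only at h2
      by_cases h : a ∈ Cn ∧ a ∈ G
      · rw [if_pos h] at h2
        exact Finset.mem_filter.2 ⟨h.1, h2⟩
      · rw [if_neg h] at h2
        exact absurd rfl h2
    exact_mod_cast Finset.card_le_card h1
  have hΛ := lip_sum hℓ c hclip hccard
  have hδΛ : 8 * (d : ℝ) ^ 2 * (32 * 2 ^ d / ℓ ^ 2) ≤ 3 * δ ^ 2 := by
    have h1 : (16 * (d : ℝ) * 2 ^ d) ^ 2 ≤ (δ * ℓ) ^ 2 := pow_le_pow_left₀ (by positivity) hC 2
    have h2 : (2 : ℝ) ^ d ≤ (2 ^ d) ^ 2 := by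
      have h3 : (1 : ℝ) ≤ 2 ^ d := one_le_pow₀ (by norm_num)
      nlinarith
    rw [mul_div_assoc', div_le_iff₀ (by positivity)]
    have h3 : (0 : ℝ) ≤ (d : ℝ) ^ 2 := sq_nonneg _
    have h4 := mul_le_mul_of_nonneg_left h2 h3
    have h5 : 0 ≤ (δ * ℓ) ^ 2 := sq_nonneg _
    nlinarith
  have hform := form_sum hI hL hM hℓ E δ _ hδ c hcs hcsq hΛ hδΛ w
  -- the decomposition of the sum
  have hdec : ∑ x, ξ x * w x ^ 2 = ∑ a ∈ Cn, ∑ x, χ a x ^ 2 * (ξ x * w x ^ 2) := by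
    rw [Finset.sum_comm]
    refine Finset.sum_congr rfl fun x _ => ?_
    rw [← Finset.sum_mul, hsum x, one_mul]
  have hdec2 : ∑ a ∈ Cn, ∑ x, χ a x ^ 2 * (ξ x * w x ^ 2) =
      ∑ a ∈ Cn with a ∈ G, ∑ x, χ a x ^ 2 * (ξ x * w x ^ 2) +
      ∑ a ∈ Cn with ¬a ∈ G, ∑ x, χ a x ^ 2 * (ξ x * w x ^ 2) :=
    (Finset.sum_filter_add_sum_filter_not Cn (fun a => a ∈ G) _).symm
  rw [hdec, hdec2]
  refine (abs_add_le _ _).trans (add_le_add ?_ ?_)
  · -- good blocks
    refine (Finset.abs_sum_le_sum_abs _ _).trans ?_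
    have h1 : ∀ a ∈ Cn.filter (fun a => a ∈ G), |∑ x, χ a x ^ 2 * (ξ x * w x ^ 2)| ≤
        t * Pool.Agent.W788.MFP.Four.q (JJ E δ)
          (fun z : T d M => c a (pt L a z) * w (pt L a z)) := by
      intro a ha
      have ha' := Finset.mem_filter.1 ha
      have h2 : ∀ x, χ a x = c a x := by
        intro x
        rw [hcE]
        simp only
        rw [if_pos ha']
      have h3 : ∑ x, χ a x ^ 2 * (ξ x * w x ^ 2) =
          ∑ z : T d M, bp ξ a z * (c a (pt L a z) * w (pt L a z)) ^ 2 := by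
        have h4 := sum_pt_eq (M := M) hL hM hℓ a (fun x => χ a x ^ 2 * (ξ x * w x ^ 2)) ?_
        · rw [← h4]
          refine Finset.sum_congr rfl fun z _ => ?_
          rw [h2]
          have h5 : bp ξ a z = ξ (pt L a z) := rfl
          rw [h5]
          ring
        · intro x hx i
          refine hsup a ha'.1 x (fun h => hx ?_) i
          simp only
          rw [h]
          ring
      rw [h3]
      exact hG a ha'.2 _
    refine (Finset.sum_le_sum h1).trans ?_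
    rw [← Finset.mul_sum]
    have hqn : ∀ a, 0 ≤ Pool.Agent.W788.MFP.Four.q (JJ E δ)
        (fun z : T d M => c a (pt L a z) * w (pt L a z)) := by
      intro a
      apply Pool.Agent.W788.MFP.Four.q_nonneg
      intro k
      exact (Pool.Agent.W788.MFP.Form.J_pos E δ hδ k).le
    have h2 : ∑ a ∈ Cn.filter (fun a => a ∈ G), Pool.Agent.W788.MFP.Four.q (JJ E δ)
        (fun z : T d M => c a (pt L a z) * w (pt L a z)) ≤
        ∑ a, Pool.Agent.W788.MFP.Four.q (JJ E δ)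
          (fun z : T d M => c a (pt L a z) * w (pt L a z)) :=
      Finset.sum_le_sum_of_subset_of_nonneg (Finset.subset_univ _) fun a _ _ => hqn a
    calc t * _ ≤ t * (2 * Pool.Agent.W788.MFP.Four.q (JJ E δ) w) :=
          mul_le_mul_of_nonneg_left (h2.trans hform) ht
      _ = _ := by ring
  · -- bad blocks
    rw [Finset.sum_comm]
    refine (Finset.abs_sum_le_sum_abs _ _).trans ?_
    refine Finset.sum_le_sum fun x _ => ?_
    rw [← Finset.sum_mul, abs_mul, abs_mul, abs_of_nonneg (sq_nonneg (w x)),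
      abs_of_nonneg (Finset.sum_nonneg fun a _ => sq_nonneg (χ a x)), ← mul_assoc]
    apply mul_le_mul_of_nonneg_right _ (sq_nonneg _)
    by_cases hx : ∃ a ∉ G, ∀ i, |((x i - a i).valMinAbs : ℤ)| ≤ ℓ
    · have hmem : x ∈ {x : T d L | ∃ a ∉ G, ∀ i, |((x i - a i).valMinAbs : ℤ)| ≤ ℓ} := hx
      rw [Set.indicator_of_mem hmem]
      refine mul_le_of_le_one_left (abs_nonneg _) ?_
      rw [← hsum x]
      exact Finset.sum_le_sum_of_subset_of_nonneg (Finset.filter_subset _ _)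
        fun a _ _ => sq_nonneg _
    · have hmem : x ∉ {x : T d L | ∃ a ∉ G, ∀ i, |((x i - a i).valMinAbs : ℤ)| ≤ ℓ} := hx
      rw [Set.indicator_of_notMem hmem]
      have h1 : ∑ a ∈ Cn with ¬a ∈ G, χ a x ^ 2 = 0 := by
        refine Finset.sum_eq_zero fun a ha => ?_
        have ha' := Finset.mem_filter.1 ha
        by_contra hne
        apply hx
        refine ⟨a, ha'.2, fun i => (hsup a ha'.1 x (fun h => hne ?_) i).le⟩
        rw [h]
        norm_num
      rw [h1, zero_mul]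

end Pool.Agent.T2h98.AC
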