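import Pool.Agent.T2h98.QD.Defs

/-! Part DEC: the deterministic estimate and the fourth moment of the Gaussian distribution. -/

set_option autoImplicit false
set_option linter.unusedSectionVars false

open scoped BigOperators Matrix Topology
open MeasureTheory ProbabilityTheory Filter

namespace Pool.Agent.T2h98.AC.DEC

open Pool.Agent.W788.BK (nsq)
open Pool.Agent.T2h98.QD

section det

variable {n : Type} [Fintype n] [DecidableEq n]

theorem nsq_add (a b : n → ℂ) : nsq (a + b) ≤ 2 * nsq a + 2 * nsq b := by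
  unfold nsq
  rw [Finset.mul_sum, Finset.mul_sum, ← Finset.sum_add_distrib]
  refine Finset.sum_le_sum fun i _ => ?_
  have h1 := norm_add_le (a i) (b i)
  have h2 : ‖(a + b) i‖ ^ 2 ≤ (‖a i‖ + ‖b i‖) ^ 2 := by
    rw [Pi.add_apply]
    exact pow_le_pow_left₀ (norm_nonneg _) h1 2
  nlinarith [sq_nonneg (‖a i‖ - ‖b i‖)]

theorem nsq_neg (a : n → ℂ) : nsq (-a) = nsq a := by
  unfold nsq
  simp

theorem nsq_nonneg (a : n → ℂ) : 0 ≤ nsq a := Finset.sum_nonneg fun _ _ => by positivity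

theorem le_nsq (a : n → ℂ) (i : n) : ‖a i‖ ^ 2 ≤ nsq a :=
  Finset.single_le_sum (f := fun i => ‖a i‖ ^ 2) (fun _ _ => by positivity) (Finset.mem_univ i)

theorem nsq_le_sq (a : n → ℂ) : nsq a ≤ (∑ i, ‖a i‖) ^ 2 :=
  Finset.sum_sq_le_sq_sum_of_nonneg fun _ _ => norm_nonneg _

theorem col (R : Matrix n n ℂ) {C : ℝ} (h : ∀ w : n → ℂ, nsq (R *ᵥ w) ≤ C * nsq w) (x : n) :
    ∑ y, ‖R y x‖ ^ 2 ≤ C := by
  have h1 := h (Pi.single x 1)
  have h2 : nsq (Pi.single x (1 : ℂ) : n → ℂ) = 1 := by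
    unfold nsq
    rw [Finset.sum_eq_single x]
    · simp
    · intro y _ hy
      simp [Pi.single_eq_of_ne hy]
    · intro hx
      exact absurd (Finset.mem_univ x) hx
  rw [h2, mul_one] at h1
  refine le_trans (le_of_eq ?_) h1
  unfold nsq
  refine Finset.sum_congr rfl fun y _ => ?_
  rw [Matrix.mulVec_single_one]
  rfl

theorem row (R : Matrix n n ℂ) {C : ℝ} (h : ∀ w : n → ℂ, nsq (Rᴴ *ᵥ w) ≤ C * nsq w) (x : n) :
    ∑ y, ‖R x y‖ ^ 2 ≤ C := by
  have h1 := col Rᴴ h x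
  refine le_trans (le_of_eq ?_) h1
  refine Finset.sum_congr rfl fun y _ => ?_
  rw [Matrix.conjTranspose_apply, norm_star]

/-- the comparison of the solutions for two potentials which differ on few sites -/
theorem cmp {R R0 : Matrix n n ℂ} {K v1 : ℝ} (hK : 0 ≤ K) {D : n → ℂ} {Λ : Finset n}
    (hR : ∀ w : n → ℂ, nsq (R *ᵥ w) ≤ K * nsq w)
    (hR0 : ∀ w : n → ℂ, nsq (R0ᴴ *ᵥ w) ≤ K * nsq w)
    (hD0 : ∀ x, x ∉ Λ → D x = 0) (hD : ∑ x ∈ Λ, ‖D x‖ ≤ v1)
    (hres : R - R0 = -(R * Matrix.diagonal D * R0)) (m : ℂ) (s : n → ℂ) (hs : ∀ z, ‖s z‖ = 1) :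
    ∃ w : n → ℂ, (R *ᵥ fun z => (R z z - m) * s z) - (R0 *ᵥ fun z => (R0 z z - m) * s z) =
      R *ᵥ w ∧ nsq w ≤ 2 * (v1 * K) ^ 2 +
        2 * v1 ^ 2 * ∑ x ∈ Λ, ‖(R0 *ᵥ fun z => (R0 z z - m) * s z) x‖ ^ 2 := by
  have hv1 : 0 ≤ v1 := le_trans (Finset.sum_nonneg fun _ _ => norm_nonneg _) hD
  set Z0 : n → ℂ := R0 *ᵥ fun z => (R0 z z - m) * s z with hZ0
  refine ⟨(fun z => (R z z - R0 z z) * s z) + (-(fun z => D z * Z0 z)), ?_, ?_⟩
  · have h1 : (fun z => (R z z - m) * s z) = (fun z => (R0 z z - m) * s z) +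
        fun z => (R z z - R0 z z) * s z := by
      funext z
      simp only [Pi.add_apply]
      ring
    have h2 : R = R0 - R * Matrix.diagonal D * R0 := by
      rw [← sub_eq_iff_eq_add'] at *
      rw [sub_eq_add_neg, ← hres]
      abel
    have h3 : R *ᵥ (fun z => (R0 z z - m) * s z) = Z0 - R *ᵥ fun z => D z * Z0 z := by
      conv_lhs => rw [h2]
      rw [Matrix.sub_mulVec, ← hZ0, ← Matrix.mulVec_mulVec, ← Matrix.mulVec_mulVec, ← hZ0]
      congr 2
      funext z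
      rw [Matrix.mulVec_diagonal]
    rw [h1, Matrix.mulVec_add, h3, Matrix.mulVec_add, Matrix.mulVec_neg]
    abel
  · refine (nsq_add _ _).trans ?_
    rw [nsq_neg]
    have h1 : nsq (fun z => (R z z - R0 z z) * s z) ≤ (v1 * K) ^ 2 := by
      refine (nsq_le_sq _).trans (pow_le_pow_left₀ (Finset.sum_nonneg fun _ _ => norm_nonneg _) ?_ 2)
      have h2 : ∀ z, ‖(R z z - R0 z z) * s z‖ ≤ ∑ x ∈ Λ, ‖R z x‖ * ‖D x‖ * ‖R0 x z‖ := by
        intro z
        have h3 : R z z - R0 z z = -∑ x ∈ Λ, R z x * D x * R0 x z := by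
          have h4 := congrFun (congrFun hres z) z
          rw [Matrix.sub_apply, Matrix.neg_apply, Matrix.mul_apply] at h4
          rw [h4]
          congr 1
          rw [← Finset.sum_subset (Finset.subset_univ Λ)]
          · refine Finset.sum_congr rfl fun x _ => ?_
            rw [Matrix.mul_diagonal]
          · intro x _ hx
            rw [Matrix.mul_diagonal, hD0 x hx, mul_zero, zero_mul]
        rw [norm_mul, hs, mul_one, h3, norm_neg]
        refine (norm_sum_le _ _).trans (le_of_eq ?_)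
        refine Finset.sum_congr rfl fun x _ => ?_
        rw [norm_mul, norm_mul]
      refine (Finset.sum_le_sum fun z _ => h2 z).trans ?_
      rw [Finset.sum_comm]
      have h3 : ∀ x ∈ Λ, ∑ z, ‖R z x‖ * ‖D x‖ * ‖R0 x z‖ ≤ ‖D x‖ * K := by
        intro x _
        have h4 : ∑ z, ‖R z x‖ * ‖R0 x z‖ ≤ K := by
          have h5 := col R hR x
          have h6 := row R0 hR0 x
          have h7 : ∑ z, ‖R z x‖ * ‖R0 x z‖ ≤ ∑ z, (‖R z x‖ ^ 2 / 2 + ‖R0 x z‖ ^ 2 / 2) :=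
            Finset.sum_le_sum fun z _ => by nlinarith [sq_nonneg (‖R z x‖ - ‖R0 x z‖)]
          rw [Finset.sum_add_distrib, ← Finset.sum_div, ← Finset.sum_div] at h7
          linarith
        calc ∑ z, ‖R z x‖ * ‖D x‖ * ‖R0 x z‖ = ‖D x‖ * ∑ z, ‖R z x‖ * ‖R0 x z‖ := by
              rw [Finset.mul_sum]
              exact Finset.sum_congr rfl fun z _ => by ring
          _ ≤ ‖D x‖ * K := mul_le_mul_of_nonneg_left h4 (norm_nonneg _)
      refine (Finset.sum_le_sum h3).trans ?_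
      rw [← Finset.sum_mul]
      exact mul_le_mul_of_nonneg_right hD hK
    have h2 : nsq (fun z => D z * Z0 z) ≤ v1 ^ 2 * ∑ x ∈ Λ, ‖Z0 x‖ ^ 2 := by
      unfold nsq
      rw [← Finset.sum_subset (Finset.subset_univ Λ), Finset.mul_sum]
      · refine Finset.sum_le_sum fun x hx => ?_
        rw [norm_mul, mul_pow]
        refine mul_le_mul_of_nonneg_right ?_ (by positivity)
        refine pow_le_pow_left₀ (norm_nonneg _) ?_ 2
        exact (Finset.single_le_sum (f := fun x => ‖D x‖) (fun _ _ => norm_nonneg _) hx).trans hD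
      · intro x _ hx
        show ‖D x * Z0 x‖ ^ 2 = 0
        rw [hD0 x hx, zero_mul, norm_zero]
        norm_num
    nlinarith

end det

/-! ### The fourth moment -/

theorem int_pow (k : ℕ) : Integrable (fun x : ℝ => x ^ k) (gaussianReal 0 1) := by
  have h1 : MemLp (id : ℝ → ℝ) k (gaussianReal 0 1) :=
    memLp_id_gaussianReal' _ (by simp)
  have h2 := h1.integrable_norm_pow'
  refine (h2.mono' (by fun_prop) (Eventually.of_forall fun x => ?_))
  simp

theorem m2 : ∫ x, x ^ 2 ∂(gaussianReal 0 1) = 1 := by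
  have h1 := variance_fun_id_gaussianReal (μ := 0) (v := 1)
  rw [variance_of_integral_eq_zero (by fun_prop) (by simp)] at h1
  simpa using h1

theorem m4 : ∫ x, x ^ 4 ∂(gaussianReal 0 1) = 3 := by
  have h1 := integral_gaussianReal_eq_integral_smul (μ := 0) (v := 1) (f := fun x : ℝ => x ^ 4)
    (by norm_num)
  rw [h1]
  have h2 : ∀ x : ℝ, gaussianPDFReal 0 1 x • x ^ 4 =
      (Real.sqrt (2 * Real.pi))⁻¹ * (fun y : ℝ => y ^ 4 * Real.exp (-(1 / 2) * y ^ 2)) |x| := by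
    intro x
    rw [gaussianPDFReal]
    simp only [NNReal.coe_one, mul_one, sub_zero, smul_eq_mul, sq_abs]
    have h3 : |x| ^ 4 = x ^ 4 := by
      rw [show (4 : ℕ) = 2 * 2 by norm_num, pow_mul, sq_abs, ← pow_mul]
    rw [h3, mul_comm (x ^ 4), ← mul_assoc]
    congr 3
    ring
  simp_rw [h2]
  rw [integral_const_mul, integral_comp_abs (f := fun y : ℝ => y ^ 4 * Real.exp (-(1 / 2) * y ^ 2))]
  have h3 := integral_rpow_mul_exp_neg_mul_rpow (p := 2) (q := 4) (b := 1 / 2) two_pos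
    (by norm_num) (by norm_num)
  have h4 : ∫ x in Set.Ioi (0 : ℝ), x ^ 4 * Real.exp (-(1 / 2) * x ^ 2) =
      (1 / 2 : ℝ) ^ (-((4 : ℝ) + 1) / 2) * (1 / 2) * Real.Gamma ((4 + 1) / 2) := by
    rw [← h3]
    refine setIntegral_congr_fun measurableSet_Ioi fun x hx => ?_
    norm_cast
  rw [h4]
  have h5 : Real.Gamma ((4 + 1) / 2) = 3 / 4 * Real.sqrt Real.pi := by
    rw [show ((4 : ℝ) + 1) / 2 = (1 / 2 + 1) + 1 by norm_num, Real.Gamma_add_one (by norm_num),
      Real.Gamma_add_one (by norm_num), Real.Gamma_one_half_eq]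
    ring
  have h6 : (1 / 2 : ℝ) ^ (-((4 : ℝ) + 1) / 2) = 4 * Real.sqrt 2 := by
    rw [one_div, Real.inv_rpow (by norm_num), ← Real.rpow_neg (by norm_num),
      show -(-((4 : ℝ) + 1) / 2) = 2 + 1 / 2 by norm_num, Real.rpow_add (by norm_num),
      ← Real.sqrt_eq_rpow]
    norm_num
  rw [h5, h6, Real.sqrt_mul (by norm_num)]
  have h7 : 0 < Real.sqrt 2 := by positivity
  have h8 : 0 < Real.sqrt Real.pi := Real.sqrt_pos.2 Real.pi_pos
  field_simp

end Pool.Agent.T2h98.AC.DEC
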