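import Pool.Agent.T2h98.AC.Stm
import Pool.Agent.T2h98.AC.DEC0
import Pool.Agent.T2h98.QD.Inv
import Pool.Agent.T2h98.QD.MoA

/-! Part DEC: decoupling of the error term. -/

set_option autoImplicit false
set_option linter.unusedSectionVars false

open scoped BigOperators Matrix Topology
open MeasureTheory ProbabilityTheory Filter

namespace Pool.Agent.T2h98.AC

open Pool.Agent.W788.MFP.Four (T e NN adj K NN_pos e_add e_normSq e_neg card_T)
open Pool.Agent.W788.BK (nsq hs PP JJ hi Low cr)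
open Pool.Agent.T2h98.QD

namespace DEC

section prob

variable {ι : Type} [Fintype ι] [DecidableEq ι]

/-- the potential outside of `B` -/
noncomputable def z0 (B : Finset ι) (V : ι → ℝ) : ι → ℝ := fun x => if x ∈ B then 0 else V x

/-- the potential in `B` -/
noncomputable def z1 (B : Finset ι) (V : ι → ℝ) : ι → ℝ := fun x => if x ∈ B then V x else 0

theorem meas_z0 (B : Finset ι) : Measurable (z0 B) := by
  refine measurable_pi_lambda _ fun x => ?_
  unfold z0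
  split_ifs
  · exact measurable_const
  · exact measurable_pi_apply x

theorem cont_z0 (B : Finset ι) : Continuous (z0 B) := by
  refine continuous_pi fun x => ?_
  unfold z0
  split_ifs
  · exact continuous_const
  · exact continuous_apply x

theorem meas_z1 (B : Finset ι) : Measurable (z1 B) := by
  refine measurable_pi_lambda _ fun x => ?_
  unfold z1
  split_ifs
  · exact measurable_pi_apply x
  · exact measurable_const

/-- independence -/
theorem ind (B : Finset ι) : IndepFun (z1 B) (z0 B) (GP ι) := by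
  have h1 : iIndepFun (fun (i : ι) (V : ι → ℝ) => V i) (GP ι) :=
    iIndepFun_pi (X := fun _ : ι => (id : ℝ → ℝ)) (μ := fun _ : ι => gaussianReal 0 1)
      (fun _ => aemeasurable_id)
  have h2 := h1.indepFun_finset B Bᶜ disjoint_compl_right (fun i => measurable_pi_apply i)
  let g1 : (B → ℝ) → (ι → ℝ) := fun w x => if h : x ∈ B then w ⟨x, h⟩ else 0
  let g0 : ((Bᶜ : Finset ι) → ℝ) → (ι → ℝ) := fun w x =>
    if h : x ∈ (Bᶜ : Finset ι) then w ⟨x, h⟩ else 0
  have m1 : Measurable g1 := by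
    refine measurable_pi_lambda _ fun x => ?_
    by_cases h : x ∈ B
    · simp only [g1, dif_pos h]
      exact measurable_pi_apply _
    · simp only [g1, dif_neg h]
      exact measurable_const
  have m0 : Measurable g0 := by
    refine measurable_pi_lambda _ fun x => ?_
    by_cases h : x ∈ (Bᶜ : Finset ι)
    · simp only [g0, dif_pos h]
      exact measurable_pi_apply _
    · simp only [g0, dif_neg h]
      exact measurable_const
  have h3 := h2.comp m1 m0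
  have e1 : (g1 ∘ fun (V : ι → ℝ) (i : B) => V i) = z1 B := by
    funext V x
    simp only [Function.comp_apply, g1, z1]
    split_ifs <;> rfl
  have e0 : (g0 ∘ fun (V : ι → ℝ) (i : (Bᶜ : Finset ι)) => V i) = z0 B := by
    funext V x
    by_cases h : x ∈ B
    · simp [g0, z0, h]
    · simp [g0, z0, h]
  rw [← e1, ← e0]
  exact h3

/-- the expectation of a product -/
theorem prod_ind (B : Finset ι) {P G : (ι → ℝ) → ℝ} (hP : Measurable P) (hG : Measurable G)
    (hPB : ∀ V, P (z1 B V) = P V) :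
    ∫ V, P V * G (z0 B V) ∂(GP ι) = (∫ V, P V ∂(GP ι)) * ∫ V, G (z0 B V) ∂(GP ι) := by
  have h1 := (ind B).comp hP hG
  have h2 := h1.integral_fun_mul_eq_mul_integral (hP.comp (meas_z1 B)).aestronglyMeasurable
    (hG.comp (meas_z0 B)).aestronglyMeasurable
  simp only [Function.comp_apply, hPB] at h2
  exact h2

instance : IsProbabilityMeasure (GP ι) :=
  inferInstanceAs (IsProbabilityMeasure (Measure.pi fun _ : ι => gaussianReal 0 1))

theorem mp_eval (i : ι) : MeasurePreserving (fun V : ι → ℝ => V i) (GP ι) (gaussianReal 0 1) :=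
  measurePreserving_eval (fun _ : ι => gaussianReal 0 1) i

/-- the sum of the absolute values over `B` -/
noncomputable def v1 (B : Finset ι) (V : ι → ℝ) : ℝ := ∑ x ∈ B, |V x|

theorem v1_nonneg (B : Finset ι) (V : ι → ℝ) : 0 ≤ v1 B V := Finset.sum_nonneg fun _ _ => abs_nonneg _

theorem v1_z1 (B : Finset ι) (V : ι → ℝ) : v1 B (z1 B V) = v1 B V := by
  unfold v1 z1
  exact Finset.sum_congr rfl fun x hx => by rw [if_pos hx]

theorem v1_cont (B : Finset ι) : Continuous (v1 B) := by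
  unfold v1
  exact continuous_finsetSum _ fun x _ => (continuous_apply x).abs

theorem int_coord (i : ι) (k : ℕ) : Integrable (fun V : ι → ℝ => |V i| ^ k) (GP ι) := by
  have h1 : Integrable (fun t : ℝ => |t| ^ k) (gaussianReal 0 1) := by
    have := (int_pow k).norm
    refine this.congr (Eventually.of_forall fun t => ?_)
    simp
  exact (mp_eval i).integrable_comp_of_integrable h1

theorem int_v1 (B : Finset ι) (k : ℕ) : Integrable (fun V : ι → ℝ => v1 B V ^ k) (GP ι) := by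
  rcases k with _ | k
  · simp only [pow_zero]
    exact integrable_const _
  rcases B.eq_empty_or_nonempty with h | h
  · subst h
    unfold v1
    simp
  have hB : (0 : ℝ) < B.card := by exact_mod_cast h.card_pos
  have h1 : Integrable (fun V : ι → ℝ => (B.card : ℝ) ^ k * ∑ x ∈ B, |V x| ^ (k + 1)) (GP ι) :=
    (integrable_finsetSum _ fun x _ => int_coord x (k + 1)).const_mul _
  refine h1.mono' ((v1_cont B).pow _).aestronglyMeasurable (Eventually.of_forall fun V => ?_)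
  rw [Real.norm_of_nonneg (pow_nonneg (v1_nonneg B V) _)]
  have h2 := pow_sum_div_card_le_sum_pow (s := B) (f := fun x => |V x|) (fun _ _ => abs_nonneg _) k
  rw [div_le_iff₀ (by positivity)] at h2
  unfold v1
  linarith

theorem int_eval (i : ι) (f : ℝ → ℝ) (hf : Measurable f) :
    ∫ V : ι → ℝ, f (V i) ∂(GP ι) = ∫ t, f t ∂(gaussianReal 0 1) := by
  rw [← (mp_eval i).map_eq, integral_map (measurable_pi_apply i).aemeasurable
    hf.aestronglyMeasurable]

theorem v1_one (B : Finset ι) : ∫ V, v1 B V ∂(GP ι) ≤ B.card := by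
  unfold v1
  rw [integral_finsetSum _ fun x _ => by simpa using int_coord x 1]
  have h1 : ∀ x ∈ B, ∫ V : ι → ℝ, |V x| ∂(GP ι) ≤ 1 := by
    intro x _
    have h2 : ∫ V : ι → ℝ, |V x| ∂(GP ι) ≤ ∫ V : ι → ℝ, (1 / 2 + 1 / 2 * |V x| ^ 2) ∂(GP ι) := by
      refine integral_mono (by simpa using int_coord x 1)
        ((integrable_const _).add ((int_coord x 2).const_mul _)) fun V => ?_
      show |V x| ≤ 1 / 2 + 1 / 2 * |V x| ^ 2
      nlinarith [sq_nonneg (|V x| - 1)]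
    have h3 : ∫ V : ι → ℝ, |V x| ^ 2 ∂(GP ι) = 1 := by
      simp only [sq_abs]
      rw [int_eval x (fun t => t ^ 2) (by fun_prop), m2]
    rw [integral_add (integrable_const _) ((int_coord x 2).const_mul _), integral_const_mul, h3] at h2
    simp at h2
    linarith
  refine (Finset.sum_le_sum h1).trans ?_
  simp

theorem v1_four (B : Finset ι) : ∫ V, v1 B V ^ 4 ∂(GP ι) ≤ 3 * (B.card : ℝ) ^ 4 := by
  rcases B.eq_empty_or_nonempty with h | h
  · subst h
    unfold v1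
    simp
  have hB : (0 : ℝ) < B.card := by exact_mod_cast h.card_pos
  have h1 : ∀ V : ι → ℝ, v1 B V ^ 4 ≤ (B.card : ℝ) ^ 3 * ∑ x ∈ B, |V x| ^ 4 := by
    intro V
    have h2 := pow_sum_div_card_le_sum_pow (s := B) (f := fun x => |V x|) (fun _ _ => abs_nonneg _) 3
    rw [div_le_iff₀ (by positivity), show (3 + 1 : ℕ) = 4 from rfl] at h2
    unfold v1
    linarith
  have h2 := integral_mono (int_v1 B 4) ((integrable_finsetSum B fun x _ =>
    int_coord x 4).const_mul ((B.card : ℝ) ^ 3)) h1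
  refine h2.trans (le_of_eq ?_)
  rw [integral_const_mul, integral_finsetSum _ fun x _ => int_coord x 4]
  have h3 : ∀ x ∈ B, ∫ V : ι → ℝ, |V x| ^ 4 ∂(GP ι) = 3 := by
    intro x _
    have h4 : ∀ t : ℝ, |t| ^ 4 = t ^ 4 := fun t => by
      rw [show (4 : ℕ) = 2 * 2 by norm_num, pow_mul, sq_abs, ← pow_mul]
    simp only [h4]
    rw [int_eval x (fun t => t ^ 4) (by fun_prop), m4]
  rw [Finset.sum_congr rfl h3]
  simp
  ring

/-- the probability of the typical event -/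
theorem typ (B : Finset ι) {b : ℝ} (hb : 0 < b) (hB : (B.card : ℝ) ≤ b) :
    1 / 2 ≤ ∫ V, Set.indicator {V : ι → ℝ | v1 B V ≤ 2 * b} (fun _ => (1 : ℝ)) V ∂(GP ι) := by
  have hm : MeasurableSet {V : ι → ℝ | v1 B V ≤ 2 * b} :=
    measurableSet_le (v1_cont B).measurable measurable_const
  have h1 : ∀ V : ι → ℝ, 1 - v1 B V / (2 * b) ≤
      Set.indicator {V : ι → ℝ | v1 B V ≤ 2 * b} (fun _ => (1 : ℝ)) V := by
    intro V
    by_cases h : v1 B V ≤ 2 * b
    · rw [Set.indicator_of_mem (show V ∈ {V : ι → ℝ | v1 B V ≤ 2 * b} from h)]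
      have : 0 ≤ v1 B V / (2 * b) := div_nonneg (v1_nonneg B V) (by positivity)
      linarith
    · rw [Set.indicator_of_notMem (show V ∉ {V : ι → ℝ | v1 B V ≤ 2 * b} from h)]
      have : 1 ≤ v1 B V / (2 * b) := by
        rw [le_div_iff₀ (by positivity)]
        linarith
      linarith
  have hi := (int_v1 B 1)
  simp only [pow_one] at hi
  have h2 := integral_mono (μ := GP ι) ((integrable_const (1 : ℝ)).sub (hi.div_const (2 * b)))
    ((integrable_const (1 : ℝ)).indicator hm) h1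
  refine le_trans ?_ h2
  show 1 / 2 ≤ ∫ V, (1 - v1 B V / (2 * b)) ∂(GP ι)
  rw [integral_sub (integrable_const _) (hi.div_const _), integral_div]
  have h3 := v1_one B
  have h4 : (∫ V, v1 B V ∂(GP ι)) / (2 * b) ≤ 1 / 2 := by
    rw [div_le_iff₀ (by positivity)]
    linarith
  simp
  linarith

end prob

section torus

variable {d L : ℕ} [NeZero L]

/-- the solution -/
noncomputable def Zp (X : T d L → ℂ) (σ : ℝ) (m : ℂ) (κ : T d L) (V : T d L → ℝ) : T d L → ℂ :=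
  RX X σ V *ᵥ fun z => (RX X σ V z z - m) * star (e κ z)

/-- the filtered solution -/
noncomputable def ZZ (X : T d L → ℂ) (σ : ℝ) (m : ℂ) (κ : T d L) (S : T d L → ℂ)
    (V : T d L → ℝ) : T d L → ℂ := Mo S *ᵥ Zp X σ m κ V

theorem norm_e (κ z : T d L) : ‖e κ z‖ = 1 := by
  have h1 := e_normSq κ z
  rw [Complex.mul_conj] at h1
  have h2 : Complex.normSq (e κ z) = 1 := by exact_mod_cast h1
  rw [Complex.norm_def, h2, Real.sqrt_one]

variable {X : T d L → ℂ} {c σ : ℝ}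

/-- the form of the resolvent identity -/
theorem resid (h1 : ∀ V : T d L → ℝ, TX X σ V * RX X σ V = 1 ∧ RX X σ V * TX X σ V = 1)
    (U V : T d L → ℝ) : RX X σ V - RX X σ U =
      -(RX X σ V * Matrix.diagonal (fun x => ((σ * (V x - U x) : ℝ) : ℂ)) * RX X σ U) := by
  have h2 : Matrix.diagonal (fun x => ((σ * (V x - U x) : ℝ) : ℂ)) = TX X σ V - TX X σ U := by
    unfold TX
    rw [add_sub_add_left_eq_sub, Matrix.diagonal_sub]
    congr 1
    funext x
    push_cast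
    ring
  rw [h2, Matrix.mul_sub, Matrix.sub_mul, (h1 V).2, Matrix.mul_assoc, (h1 U).1]
  simp

/-- comparison of the solutions -/
theorem cmpZ (hc : 0 < c) (hσ : 0 ≤ σ) (hσ1 : σ ≤ 1)
    (h1 : ∀ V : T d L → ℝ, TX X σ V * RX X σ V = 1 ∧ RX X σ V * TX X σ V = 1)
    (h2 : ∀ (V : T d L → ℝ) (w : T d L → ℂ), nsq (RX X σ V *ᵥ w) ≤ nsq w / c ^ 2 ∧
      nsq ((RX X σ V)ᴴ *ᵥ w) ≤ nsq w / c ^ 2) (B : Finset (T d L)) (U V : T d L → ℝ)
    (hUV : ∀ x, x ∉ B → V x = U x) (S : T d L → ℂ) (hS : ∀ k, ‖S k‖ ≤ 1) (m : ℂ) (κ : T d L)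
    {v : ℝ} (hv : ∑ x ∈ B, |V x - U x| ≤ v) :
    ‖ZZ X σ m κ S V 0‖ ^ 2 ≤ 3 * ‖ZZ X σ m κ S U 0‖ ^ 2 + 3 / c ^ 6 * v ^ 2 +
        3 / c ^ 2 * (v ^ 2 * ∑ x ∈ B, ‖Zp X σ m κ U x‖ ^ 2) ∧
    ∑ x ∈ B, ‖Zp X σ m κ V x‖ ^ 2 ≤ 2 * ∑ x ∈ B, ‖Zp X σ m κ U x‖ ^ 2 + 4 / c ^ 6 * v ^ 2 +
        4 / c ^ 2 * (v ^ 2 * ∑ x ∈ B, ‖Zp X σ m κ U x‖ ^ 2) := by
  have hK : (0 : ℝ) ≤ 1 / c ^ 2 := by positivity
  have hRK : ∀ (V : T d L → ℝ) (w : T d L → ℂ), nsq (RX X σ V *ᵥ w) ≤ 1 / c ^ 2 * nsq w :=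
    fun V w => ((h2 V w).1).trans (le_of_eq (by ring))
  have hRK' : ∀ (V : T d L → ℝ) (w : T d L → ℂ), nsq ((RX X σ V)ᴴ *ᵥ w) ≤ 1 / c ^ 2 * nsq w :=
    fun V w => ((h2 V w).2).trans (le_of_eq (by ring))
  obtain ⟨w, hw1, hw2⟩ := cmp (Λ := B) (v1 := v)
    (D := fun x => ((σ * (V x - U x) : ℝ) : ℂ)) hK (hRK V) (hRK' U)
    (fun x hx => by rw [hUV x hx, sub_self, mul_zero, Complex.ofReal_zero])
    (by
      refine le_trans (Finset.sum_le_sum fun x _ => ?_) hv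
      rw [Complex.norm_real, Real.norm_eq_abs, abs_mul, abs_of_nonneg hσ]
      exact mul_le_of_le_one_left (abs_nonneg _) hσ1)
    (resid h1 U V) m (fun z => star (e κ z)) (fun z => by rw [norm_star, norm_e])
  change Zp X σ m κ V - Zp X σ m κ U = _ at hw1
  change nsq w ≤ 2 * (v * (1 / c ^ 2)) ^ 2 + 2 * v ^ 2 * ∑ x ∈ B, ‖Zp X σ m κ U x‖ ^ 2 at hw2
  set Su := ∑ x ∈ B, ‖Zp X σ m κ U x‖ ^ 2 with hSu
  have hRw : nsq (RX X σ V *ᵥ w) ≤ 2 / c ^ 6 * v ^ 2 + 2 / c ^ 2 * (v ^ 2 * Su) := by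
    refine (hRK V w).trans ((mul_le_mul_of_nonneg_left hw2 hK).trans (le_of_eq ?_))
    field_simp
  constructor
  · have e1 : ZZ X σ m κ S V = ZZ X σ m κ S U + Mo S *ᵥ (RX X σ V *ᵥ w) := by
      unfold ZZ
      rw [← hw1, Matrix.mulVec_sub]
      abel
    have e2 : ‖(Mo S *ᵥ (RX X σ V *ᵥ w)) 0‖ ^ 2 ≤ nsq (RX X σ V *ᵥ w) := by
      refine (le_nsq _ 0).trans ((nsq_mo S 1 (fun k => ?_) _).trans (by rw [one_mul]))
      exact pow_le_one₀ (norm_nonneg _) (hS k)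
    rw [e1, Pi.add_apply]
    have e3 := norm_add_le (ZZ X σ m κ S U 0) ((Mo S *ᵥ (RX X σ V *ᵥ w)) 0)
    have e4 : ‖ZZ X σ m κ S U 0 + (Mo S *ᵥ (RX X σ V *ᵥ w)) 0‖ ^ 2 ≤
        (‖ZZ X σ m κ S U 0‖ + ‖(Mo S *ᵥ (RX X σ V *ᵥ w)) 0‖) ^ 2 :=
      pow_le_pow_left₀ (norm_nonneg _) e3 2
    have e5 : (‖ZZ X σ m κ S U 0‖ + ‖(Mo S *ᵥ (RX X σ V *ᵥ w)) 0‖) ^ 2 ≤
        3 * ‖ZZ X σ m κ S U 0‖ ^ 2 + 3 / 2 * ‖(Mo S *ᵥ (RX X σ V *ᵥ w)) 0‖ ^ 2 := by
      nlinarith [sq_nonneg (2 * ‖ZZ X σ m κ S U 0‖ - ‖(Mo S *ᵥ (RX X σ V *ᵥ w)) 0‖)]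
    have e6 : 3 / 2 * (2 / c ^ 6 * v ^ 2 + 2 / c ^ 2 * (v ^ 2 * Su)) =
        3 / c ^ 6 * v ^ 2 + 3 / c ^ 2 * (v ^ 2 * Su) := by ring
    have e7 := e2.trans hRw
    linarith
  · have e1 : ∀ x ∈ B, ‖Zp X σ m κ V x‖ ^ 2 ≤ 2 * ‖Zp X σ m κ U x‖ ^ 2 +
        2 * ‖(RX X σ V *ᵥ w) x‖ ^ 2 := by
      intro x _
      have e2 : Zp X σ m κ V x = Zp X σ m κ U x + (RX X σ V *ᵥ w) x := by
        rw [← hw1, Pi.sub_apply]
        ring
      rw [e2]
      have e3 := norm_add_le (Zp X σ m κ U x) ((RX X σ V *ᵥ w) x)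
      have e4 : ‖Zp X σ m κ U x + (RX X σ V *ᵥ w) x‖ ^ 2 ≤
          (‖Zp X σ m κ U x‖ + ‖(RX X σ V *ᵥ w) x‖) ^ 2 :=
        pow_le_pow_left₀ (norm_nonneg _) e3 2
      nlinarith [sq_nonneg (‖Zp X σ m κ U x‖ - ‖(RX X σ V *ᵥ w) x‖)]
    refine (Finset.sum_le_sum e1).trans ?_
    rw [Finset.sum_add_distrib, ← Finset.mul_sum, ← Finset.mul_sum]
    have e2 : ∑ x ∈ B, ‖(RX X σ V *ᵥ w) x‖ ^ 2 ≤ nsq (RX X σ V *ᵥ w) :=
      Finset.sum_le_univ_sum_of_nonneg fun _ => by positivity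
    have e3 := e2.trans hRw
    have e6 : 2 * (2 / c ^ 6 * v ^ 2 + 2 / c ^ 2 * (v ^ 2 * Su)) =
        4 / c ^ 6 * v ^ 2 + 4 / c ^ 2 * (v ^ 2 * Su) := by ring
    linarith

/-- translations -/
theorem trans (h6 : ∀ (V : T d L → ℝ) (a x y : T d L), RX X σ (fun z => V (z + a)) x y =
    RX X σ V (x + a) (y + a)) (S : T d L → ℂ) (m : ℂ) (κ a x : T d L) (V : T d L → ℝ) :
    ‖Zp X σ m κ (fun z => V (z + a)) x‖ = ‖Zp X σ m κ V (x + a)‖ ∧
    ‖ZZ X σ m κ S (fun z => V (z + a)) x‖ = ‖ZZ X σ m κ S V (x + a)‖ := by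
  have h1 : ∀ x, Zp X σ m κ (fun z => V (z + a)) x = e κ a * Zp X σ m κ V (x + a) := by
    intro x
    unfold Zp
    simp only [Matrix.mulVec, dotProduct, h6]
    rw [Finset.mul_sum, ← Equiv.sum_comp (Equiv.addRight a) (fun z =>
      e κ a * (RX X σ V (x + a) z * ((RX X σ V z z - m) * star (e κ z))))]
    refine Finset.sum_congr rfl fun z _ => ?_
    rw [Equiv.coe_addRight, e_add, star_mul']
    have h2 : e κ a * star (e κ a) = 1 := e_normSq κ a
    linear_combination (-(RX X σ V (x + a) (z + a) * ((RX X σ V (z + a) (z + a) - m) *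
      star (e κ z)))) * h2
  have hMo : ∀ (m : T d L → ℂ) (x y : T d L), Mo m (x + a) (y + a) = Mo m x y := by
    intro m x y
    simp only [Mo, Matrix.of_apply, add_sub_add_right_eq_sub]
  constructor
  · rw [h1, norm_mul, norm_e, one_mul]
  · have h2 : ZZ X σ m κ S (fun z => V (z + a)) x = e κ a * ZZ X σ m κ S V (x + a) := by
      unfold ZZ
      simp only [Matrix.mulVec, dotProduct]
      rw [Finset.mul_sum, ← Equiv.sum_comp (Equiv.addRight a) (fun z =>
        e κ a * (Mo S (x + a) z * Zp X σ m κ V z))]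
      refine Finset.sum_congr rfl fun z _ => ?_
      rw [Equiv.coe_addRight, h1, hMo]
      ring
    rw [h2, norm_mul, norm_e, one_mul]

/-- translation invariance of real integrals -/
theorem invR (a : T d L) (F : (T d L → ℝ) → ℝ) :
    ∫ V, F (fun z => V (z + a)) ∂(GP (T d L)) = ∫ V, F V ∂(GP (T d L)) := by
  have h1 := (Pool.Agent.T2h98.QD.inv d L a).1 (fun V => ((F V : ℝ) : ℂ))
  rw [integral_complex_ofReal, integral_complex_ofReal] at h1
  exact_mod_cast h1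

/-- Cauchy-Schwarz -/
theorem csR {ι : Type} [Fintype ι] [DecidableEq ι] {f g : (ι → ℝ) → ℝ} (hf : Measurable f)
    (hg : Measurable g) (hf0 : ∀ V, 0 ≤ f V) (hg0 : ∀ V, 0 ≤ g V)
    (hf2 : Integrable (fun V => f V ^ 2) (GP ι)) (hg2 : Integrable (fun V => g V ^ 2) (GP ι))
    {p q : ℝ} (hp : ∫ V, f V ^ 2 ∂(GP ι) ≤ p) (hq : ∫ V, g V ^ 2 ∂(GP ι) ≤ q) :
    ∫ V, f V * g V ∂(GP ι) ≤ Real.sqrt p * Real.sqrt q := by
  have h1 := integral_mul_le_Lp_mul_Lq_of_nonneg (μ := GP ι) Real.HolderConjugate.two_two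
    (Eventually.of_forall hf0) (Eventually.of_forall hg0)
    (by
      rw [show ENNReal.ofReal 2 = 2 by norm_num]
      exact (memLp_two_iff_integrable_sq hf.aestronglyMeasurable).2 hf2)
    (by
      rw [show ENNReal.ofReal 2 = 2 by norm_num]
      exact (memLp_two_iff_integrable_sq hg.aestronglyMeasurable).2 hg2)
  refine h1.trans ?_
  simp only [Real.rpow_two, ← Real.sqrt_eq_rpow]
  exact mul_le_mul (Real.sqrt_le_sqrt hp) (Real.sqrt_le_sqrt hq) (Real.sqrt_nonneg _)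
    (Real.sqrt_nonneg _)

end torus

/-- the probabilistic part of the argument -/
theorem absd {ι : Type} [Fintype ι] [DecidableEq ι] {B : Finset ι} {x0 : ι} (h0B : x0 ∈ B)
    {b i M p : ℝ} (hBb : (B.card : ℝ) ≤ b) (hb1 : 1 ≤ b) (hi1 : 1 ≤ i) {F1 Sg f : (ι → ℝ) → ℝ}
    (hF1c : Continuous F1) (hSgc : Continuous Sg) (hF10 : ∀ V, 0 ≤ F1 V) (hSg0 : ∀ V, 0 ≤ Sg V)
    (hF1b : ∀ V, F1 V ≤ M) (hSgb : ∀ V, Sg V ≤ M) (hF1i : Integrable F1 (GP ι))
    (hSgi : Integrable Sg (GP ι)) (hZZ0 : ∫ V, F1 V ∂(GP ι) ≤ 4 * i ^ 4)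
    (hSgE : ∫ V, Sg V ∂(GP ι) ≤ b * (4 * i ^ 4))
    (hbk1 : ∀ V, v1 B V ≤ 2 * b → F1 (z0 B V) ≤ 3 * F1 V + 3 * i ^ 6 * (2 * b) ^ 2 +
      3 * i ^ 2 * ((2 * b) ^ 2 * Sg V))
    (hbk2 : ∀ V, v1 B V ≤ 2 * b → Sg (z0 B V) ≤ 2 * Sg V + 4 * i ^ 6 * (2 * b) ^ 2 +
      4 * i ^ 2 * ((2 * b) ^ 2 * Sg V))
    (hfw : ∀ V, F1 V ≤ 3 * F1 (z0 B V) + 3 * i ^ 6 * v1 B V ^ 2 +
      3 * i ^ 2 * (v1 B V ^ 2 * Sg (z0 B V)))
    (hfm : Measurable f) (hf0 : ∀ V, 0 ≤ f V) (hfV : ∀ V, f V ≤ |V x0|)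
    (hfB : ∀ V V' : ι → ℝ, (∀ z ∈ B, V z = V' z) → f V = f V')
    (hp : ∫ V, f V ^ 2 ∂(GP ι) ≤ p) :
    ∫ V, f V * F1 V ∂(GP ι) ≤ 1400 * b ^ 5 * i ^ 8 * Real.sqrt p := by
  have hM : 0 ≤ M := (hF10 0).trans (hF1b 0)
  obtain ⟨I, hI⟩ : ∃ I : (ι → ℝ) → ℝ,
    I = Set.indicator {V : ι → ℝ | v1 B V ≤ 2 * b} (fun _ => (1 : ℝ)) := ⟨_, rfl⟩
  have hIm : MeasurableSet {V : ι → ℝ | v1 B V ≤ 2 * b} :=
    measurableSet_le (v1_cont B).measurable measurable_const
  have hImeas : Measurable I := by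
    rw [hI]
    exact measurable_const.indicator hIm
  have hIz : ∀ V, I (z1 B V) = I V := by
    intro V
    simp only [hI, Set.indicator_apply, Set.mem_ofPred_eq, v1_z1]
  have hI2 : 1 / 2 ≤ ∫ V, I V ∂(GP ι) := by
    rw [hI]
    exact typ B (by linarith) hBb
  have hI01 : ∀ V, (v1 B V ≤ 2 * b ∧ I V = 1) ∨ I V = 0 := by
    intro V
    rw [hI]
    by_cases h : v1 B V ≤ 2 * b
    · exact Or.inl ⟨h, Set.indicator_of_mem (show V ∈ {V : ι → ℝ | v1 B V ≤ 2 * b} from h) _⟩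
    · exact Or.inr (Set.indicator_of_notMem
        (show V ∉ {V : ι → ℝ | v1 B V ≤ 2 * b} from h) _)
  have hi0 : 0 < i := by linarith
  have hbi : b * i ^ 4 ≤ b ^ 3 * i ^ 6 := by
    have e1 : b ≤ b ^ 3 := by nlinarith [sq_nonneg (b - 1)]
    have e2 : i ^ 4 ≤ i ^ 6 := pow_le_pow_right₀ hi1 (by norm_num)
    exact mul_le_mul e1 e2 (by positivity) (by positivity)
  have hbi2 : b ^ 2 * i ^ 6 ≤ b ^ 3 * i ^ 6 :=
    mul_le_mul_of_nonneg_right (pow_le_pow_right₀ hb1 (by norm_num)) (by positivity)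
  have hbi4 : i ^ 4 ≤ b ^ 3 * i ^ 6 := by
    refine le_trans ?_ hbi
    exact le_mul_of_one_le_left (by positivity) hb1
  have hIle : ∀ V, ‖I V‖ ≤ 1 := by
    intro V
    rcases hI01 V with h | h
    · rw [h.2, norm_one]
    · rw [h, norm_zero]
      norm_num
  have hS0 : ∫ V, Sg (z0 B V) ∂(GP ι) ≤ 176 * b ^ 3 * i ^ 6 := by
    have e1 := prod_ind B hImeas hSgc.measurable hIz
    have e2 : ∫ V, I V * Sg (z0 B V) ∂(GP ι) ≤
        ∫ V, ((2 + 16 * b ^ 2 * i ^ 2) * Sg V + 16 * b ^ 2 * i ^ 6) ∂(GP ι) := by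
      refine integral_mono ?_ ((hSgi.const_mul _).add (integrable_const _)) fun V => ?_
      · refine Integrable.of_bound (hImeas.mul (hSgc.measurable.comp
          (meas_z0 B))).aestronglyMeasurable M
          (Eventually.of_forall fun V => ?_)
        rw [norm_mul, Real.norm_of_nonneg (hSg0 _)]
        calc ‖I V‖ * Sg (z0 B V) ≤ 1 * M :=
              mul_le_mul (hIle V) (hSgb _) (hSg0 _) zero_le_one
          _ = _ := one_mul _
      · show I V * Sg (z0 B V) ≤ (2 + 16 * b ^ 2 * i ^ 2) * Sg V + 16 * b ^ 2 * i ^ 6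
        rcases hI01 V with h | h
        · rw [h.2, one_mul]
          have e3 := hbk2 V h.1
          refine e3.trans (le_of_eq ?_)
          ring
        · rw [h, zero_mul]
          have := hSg0 V
          positivity
    rw [e1, integral_add (hSgi.const_mul _) (integrable_const _), integral_const_mul] at e2
    have e3 : 1 / 2 * ∫ V, Sg (z0 B V) ∂(GP ι) ≤
        (∫ V, I V ∂(GP ι)) * ∫ V, Sg (z0 B V) ∂(GP ι) :=
      mul_le_mul_of_nonneg_right hI2 (integral_nonneg fun V => hSg0 _)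
    have e4 : (2 + 16 * b ^ 2 * i ^ 2) * ∫ V, Sg V ∂(GP ι) ≤
        (2 + 16 * b ^ 2 * i ^ 2) * (b * (4 * i ^ 4)) :=
      mul_le_mul_of_nonneg_left hSgE (by positivity)
    simp only [integral_const, probReal_univ, one_smul] at e2
    have e5 : 2 * ((2 + 16 * b ^ 2 * i ^ 2) * (b * (4 * i ^ 4)) + 16 * b ^ 2 * i ^ 6) =
        16 * (b * i ^ 4) + 128 * (b ^ 3 * i ^ 6) + 32 * (b ^ 2 * i ^ 6) := by ring
    linarith
  have hF0 : ∫ V, F1 (z0 B V) ∂(GP ι) ≤ 144 * b ^ 3 * i ^ 6 := by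
    have e1 := prod_ind B hImeas hF1c.measurable hIz
    have e2 : ∫ V, I V * F1 (z0 B V) ∂(GP ι) ≤
        ∫ V, (3 * F1 V + (12 * b ^ 2 * i ^ 6 + 12 * b ^ 2 * i ^ 2 * Sg V)) ∂(GP ι) := by
      refine integral_mono ?_ ((hF1i.const_mul _).add ((integrable_const _).add
        (hSgi.const_mul _))) fun V => ?_
      · refine Integrable.of_bound (hImeas.mul (hF1c.measurable.comp
          (meas_z0 B))).aestronglyMeasurable M
          (Eventually.of_forall fun V => ?_)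
        rw [norm_mul, Real.norm_of_nonneg (hF10 _)]
        calc ‖I V‖ * F1 (z0 B V) ≤ 1 * M :=
              mul_le_mul (hIle V) (hF1b _) (hF10 _) zero_le_one
          _ = _ := one_mul _
      · show I V * F1 (z0 B V) ≤ 3 * F1 V + (12 * b ^ 2 * i ^ 6 + 12 * b ^ 2 * i ^ 2 * Sg V)
        rcases hI01 V with h | h
        · rw [h.2, one_mul]
          have e3 := hbk1 V h.1
          refine e3.trans (le_of_eq ?_)
          ring
        · rw [h, zero_mul]
          have := hSg0 V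
          have := hF10 V
          positivity
    have j1 : Integrable (fun V => 12 * b ^ 2 * i ^ 6 + 12 * b ^ 2 * i ^ 2 * Sg V) (GP ι) :=
      (integrable_const _).add (hSgi.const_mul _)
    rw [e1, integral_add (hF1i.const_mul _) j1,
      integral_add (integrable_const _) (hSgi.const_mul _), integral_const_mul,
      integral_const_mul] at e2
    have e3 : 1 / 2 * ∫ V, F1 (z0 B V) ∂(GP ι) ≤
        (∫ V, I V ∂(GP ι)) * ∫ V, F1 (z0 B V) ∂(GP ι) :=
      mul_le_mul_of_nonneg_right hI2 (integral_nonneg fun V => hF10 _)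
    have e4 : 12 * b ^ 2 * i ^ 2 * ∫ V, Sg V ∂(GP ι) ≤
        12 * b ^ 2 * i ^ 2 * (b * (4 * i ^ 4)) :=
      mul_le_mul_of_nonneg_left hSgE (by positivity)
    simp only [integral_const, probReal_univ, one_smul] at e2
    rw [integral_const_mul] at e2
    have e5 : 2 * (3 * (4 * i ^ 4) + (12 * b ^ 2 * i ^ 6 + 12 * b ^ 2 * i ^ 2 * (b * (4 * i ^ 4)))) =
        24 * i ^ 4 + 24 * (b ^ 2 * i ^ 6) + 96 * (b ^ 3 * i ^ 6) := by ring
    linarith
  -- the moments of `f`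
  have hV0 : ∀ V : ι → ℝ, |V x0| ≤ v1 B V := fun V =>
    Finset.single_le_sum (f := fun x => |V x|) (fun _ _ => abs_nonneg _) h0B
  have hfv : ∀ V, f V ≤ v1 B V := fun V => (hfV V).trans (hV0 V)
  have hv1m : Measurable (v1 (ι := ι) B) := (v1_cont B).measurable
  have hfi : Integrable f (GP ι) := by
    have := int_v1 (ι := ι) B 1
    simp only [pow_one] at this
    exact this.mono' hfm.aestronglyMeasurable (Eventually.of_forall fun V => by
      rw [Real.norm_of_nonneg (hf0 V)]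
      exact hfv V)
  have hf2i : Integrable (fun V => f V ^ 2) (GP ι) :=
    (int_v1 (ι := ι) B 2).mono' (hfm.pow_const 2).aestronglyMeasurable
      (Eventually.of_forall fun V => by
        rw [Real.norm_of_nonneg (by positivity)]
        exact pow_le_pow_left₀ (hf0 V) (hfv V) 2)
  have hfvi : Integrable (fun V => f V * v1 B V ^ 2) (GP ι) :=
    (int_v1 (ι := ι) B 3).mono' (hfm.mul (hv1m.pow_const 2)).aestronglyMeasurable
      (Eventually.of_forall fun V => by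
        rw [Real.norm_of_nonneg (mul_nonneg (hf0 V) (by positivity))]
        calc f V * v1 B V ^ 2 ≤ v1 B V * v1 B V ^ 2 :=
              mul_le_mul_of_nonneg_right (hfv V) (by positivity)
          _ = v1 B V ^ 3 := by ring)
  have hp0 : 0 ≤ p := le_trans (integral_nonneg fun V => by positivity) hp
  have hEf : ∫ V, f V ∂(GP ι) ≤ Real.sqrt p := by
    have e1 := csR (ι := ι) hfm measurable_const hf0 (g := fun _ => (1 : ℝ))
      (fun _ => zero_le_one) hf2i (by simp) hp (q := 1) (by simp)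
    simpa using e1
  have hEfv : ∫ V, f V * v1 B V ^ 2 ∂(GP ι) ≤ Real.sqrt p * (Real.sqrt 3 * b ^ 2) := by
    have e1 := csR (ι := ι) hfm (hv1m.pow_const 2) hf0 (g := fun V => v1 B V ^ 2)
      (fun V => by positivity) hf2i (by
        have := int_v1 (ι := ι) B 4
        refine this.congr (Eventually.of_forall fun V => ?_)
        ring) hp (q := 3 * b ^ 4) (by
        have e2 : ∫ V, (v1 B V ^ 2) ^ 2 ∂(GP ι) = ∫ V, v1 B V ^ 4 ∂(GP ι) := by
          congr 1
          funext V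
          ring
        rw [e2]
        refine (v1_four B).trans ?_
        gcongr)
    rw [Real.sqrt_mul (by norm_num), show b ^ 4 = (b ^ 2) ^ 2 by ring,
      Real.sqrt_sq (by positivity)] at e1
    exact e1
  have hs3 : Real.sqrt 3 ≤ 7 / 4 := by
    rw [show (7 / 4 : ℝ) = Real.sqrt ((7 / 4) ^ 2) from (Real.sqrt_sq (by norm_num)).symm]
    exact Real.sqrt_le_sqrt (by norm_num)
  -- the final estimate
  have hpt : ∀ V, f V * F1 V ≤ 3 * (f V * F1 (z0 B V)) + (3 * i ^ 6 * (f V * v1 B V ^ 2) +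
      3 * i ^ 2 * (f V * v1 B V ^ 2 * Sg (z0 B V))) := by
    intro V
    have e1 := hfw V
    refine (mul_le_mul_of_nonneg_left e1 (hf0 V)).trans (le_of_eq ?_)
    ring
  have i1 : Integrable (fun V => f V * F1 V) (GP ι) :=
    hfi.mul_bdd (c := M) hF1c.aestronglyMeasurable
      (Eventually.of_forall fun V => by
        rw [Real.norm_of_nonneg (hF10 V)]
        exact hF1b V)
  have i2 : Integrable (fun V => f V * F1 (z0 B V)) (GP ι) :=
    hfi.mul_bdd (c := M)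
      (hF1c.comp (cont_z0 B)).aestronglyMeasurable
      (Eventually.of_forall fun V => by
        rw [Real.norm_of_nonneg (hF10 _)]
        exact hF1b _)
  have i3 : Integrable (fun V => f V * v1 B V ^ 2 * Sg (z0 B V)) (GP ι) :=
    hfvi.mul_bdd (c := M)
      (hSgc.comp (cont_z0 B)).aestronglyMeasurable
      (Eventually.of_forall fun V => by
        rw [Real.norm_of_nonneg (hSg0 _)]
        exact hSgb _)
  have e1 := integral_mono i1 ((i2.const_mul 3).add ((hfvi.const_mul (3 * i ^ 6)).add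
    (i3.const_mul (3 * i ^ 2)))) hpt
  have e2 : ∫ V, (3 * (f V * F1 (z0 B V)) + (3 * i ^ 6 * (f V * v1 B V ^ 2) +
      3 * i ^ 2 * (f V * v1 B V ^ 2 * Sg (z0 B V)))) ∂(GP ι) =
      3 * ((∫ V, f V ∂(GP ι)) * ∫ V, F1 (z0 B V) ∂(GP ι)) +
      (3 * i ^ 6 * ∫ V, f V * v1 B V ^ 2 ∂(GP ι) +
      3 * i ^ 2 * ((∫ V, f V * v1 B V ^ 2 ∂(GP ι)) *
        ∫ V, Sg (z0 B V) ∂(GP ι))) := by
    have hfz : ∀ V, f (z1 B V) = f V := fun V => hfB _ _ fun z hz => by
      unfold z1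
      rw [if_pos hz]
    have j1 : Integrable (fun V => 3 * i ^ 6 * (f V * v1 B V ^ 2) +
        3 * i ^ 2 * (f V * v1 B V ^ 2 * Sg (z0 B V))) (GP ι) :=
      (hfvi.const_mul (3 * i ^ 6)).add (i3.const_mul (3 * i ^ 2))
    rw [integral_add (i2.const_mul 3) j1, integral_add (hfvi.const_mul (3 * i ^ 6))
      (i3.const_mul (3 * i ^ 2)), integral_const_mul, integral_const_mul, integral_const_mul,
      prod_ind B hfm hF1c.measurable hfz,
      prod_ind B (P := fun V => f V * v1 B V ^ 2) (hfm.mul (hv1m.pow_const 2)) hSgc.measurable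
        (fun V => by simp only [hfz, v1_z1])]
  have e3 : ∫ V, f V * F1 V ∂(GP ι) ≤ 3 * (Real.sqrt p * (144 * b ^ 3 * i ^ 6)) +
      (3 * i ^ 6 * (Real.sqrt p * (Real.sqrt 3 * b ^ 2)) +
      3 * i ^ 2 * ((Real.sqrt p * (Real.sqrt 3 * b ^ 2)) * (176 * b ^ 3 * i ^ 6))) := by
    refine e1.trans (le_trans (le_of_eq e2) ?_)
    have g1 : (∫ V, f V ∂(GP ι)) * ∫ V, F1 (z0 B V) ∂(GP ι) ≤
        Real.sqrt p * (144 * b ^ 3 * i ^ 6) :=
      mul_le_mul hEf hF0 (integral_nonneg fun V => hF10 _) (Real.sqrt_nonneg _)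
    have g2 : (∫ V, f V * v1 B V ^ 2 ∂(GP ι)) * ∫ V, Sg (z0 B V) ∂(GP ι) ≤
        (Real.sqrt p * (Real.sqrt 3 * b ^ 2)) * (176 * b ^ 3 * i ^ 6) :=
      mul_le_mul hEfv hS0 (integral_nonneg fun V => hSg0 _) (by positivity)
    have g3 := mul_le_mul_of_nonneg_left hEfv (show (0 : ℝ) ≤ 3 * i ^ 6 by positivity)
    have g4 := mul_le_mul_of_nonneg_left g2 (show (0 : ℝ) ≤ 3 * i ^ 2 by positivity)
    linarith
  refine e3.trans ?_
  have hsp := Real.sqrt_nonneg p
  have k1 : b ^ 3 * i ^ 6 ≤ b ^ 5 * i ^ 8 :=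
    mul_le_mul (pow_le_pow_right₀ hb1 (by norm_num)) (pow_le_pow_right₀ hi1 (by norm_num))
      (by positivity) (by positivity)
  have k2 : b ^ 2 * i ^ 6 ≤ b ^ 5 * i ^ 8 :=
    mul_le_mul (pow_le_pow_right₀ hb1 (by norm_num)) (pow_le_pow_right₀ hi1 (by norm_num))
      (by positivity) (by positivity)
  have k3 : 0 ≤ b ^ 5 * i ^ 8 := by positivity
  have k4 : 3 * (Real.sqrt p * (144 * b ^ 3 * i ^ 6)) +
      (3 * i ^ 6 * (Real.sqrt p * (Real.sqrt 3 * b ^ 2)) +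
      3 * i ^ 2 * ((Real.sqrt p * (Real.sqrt 3 * b ^ 2)) * (176 * b ^ 3 * i ^ 6))) =
      Real.sqrt p * (432 * (b ^ 3 * i ^ 6) + 3 * Real.sqrt 3 * (b ^ 2 * i ^ 6) +
        528 * Real.sqrt 3 * (b ^ 5 * i ^ 8)) := by ring
  rw [k4, mul_comm (1400 * b ^ 5 * i ^ 8)]
  refine mul_le_mul_of_nonneg_left ?_ hsp
  have k5 : 3 * Real.sqrt 3 * (b ^ 2 * i ^ 6) ≤ 21 / 4 * (b ^ 5 * i ^ 8) := by
    refine mul_le_mul (by linarith) k2 (by positivity) (by norm_num)
  have k6 : 528 * Real.sqrt 3 * (b ^ 5 * i ^ 8) ≤ 924 * (b ^ 5 * i ^ 8) :=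
    mul_le_mul_of_nonneg_right (by linarith) k3
  linarith


end DEC

open DEC

theorem dec (hR : T_RX) : T_DEC := by
  classical
  intro d L _ X c σ hc hc1 hσ hσ1 hX f B b0 p hfm hf0 hfV hfB h0B hB hp S m κ hS hm
  obtain ⟨h1, h2, h3, h4, h5, h6, h7, h8⟩ := hR d L X c σ hc hX
  -- constants
  obtain ⟨b, hbdef⟩ : ∃ b : ℝ, b = (b0 : ℝ) := ⟨_, rfl⟩
  have hBb : (B.card : ℝ) ≤ b := by
    rw [hbdef]
    exact_mod_cast hB
  have hb1 : 1 ≤ b := by
    refine le_trans ?_ hBb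
    exact_mod_cast Finset.card_pos.2 ⟨0, h0B⟩
  have hcard : (0 : ℝ) < Fintype.card (T d L) := by
    exact_mod_cast Fintype.card_pos
  obtain ⟨i, hi⟩ : ∃ i : ℝ, i = c⁻¹ := ⟨_, rfl⟩
  have hi1 : 1 ≤ i := by
    rw [hi]
    exact one_le_inv₀ hc |>.2 hc1
  have hi0 : 0 < i := by linarith
  -- the random quantities
  set F1 : (T d L → ℝ) → ℝ := fun V => ‖ZZ X σ m κ S V 0‖ ^ 2 with hF1
  set Sg : (T d L → ℝ) → ℝ := fun V => ∑ x ∈ B, ‖Zp X σ m κ V x‖ ^ 2 with hSg
  have hZpc : ∀ x, Continuous fun V => Zp X σ m κ V x := by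
    intro x
    unfold Zp
    simp only [Matrix.mulVec, dotProduct]
    exact continuous_finsetSum _ fun z _ => (h4 x z).mul (((h4 z z).sub continuous_const).mul
      continuous_const)
  have hZZc : ∀ x, Continuous fun V => ZZ X σ m κ S V x := by
    intro x
    unfold ZZ
    simp only [Matrix.mulVec, dotProduct]
    exact continuous_finsetSum _ fun z _ => continuous_const.mul (hZpc z)
  have hnsq : ∀ V, nsq (Zp X σ m κ V) ≤ Fintype.card (T d L) * (4 * i ^ 4) := by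
    intro V
    refine ((h2 V _).1).trans ?_
    have e1 : nsq (fun z => (RX X σ V z z - m) * star (e κ z)) ≤
        Fintype.card (T d L) * (2 * i) ^ 2 := by
      unfold Pool.Agent.W788.BK.nsq
      refine (Finset.sum_le_card_nsmul _ _ ((2 * i) ^ 2) fun z _ => ?_).trans (le_of_eq ?_)
      · rw [norm_mul, norm_star, norm_e, mul_one]
        refine pow_le_pow_left₀ (norm_nonneg _) ?_ 2
        have := norm_sub_le (RX X σ V z z) m
        have := h3 V z z
        rw [hi]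
        linarith
      · rw [nsmul_eq_mul, Finset.card_univ]
    rw [div_eq_mul_inv, ← inv_pow, ← hi]
    calc nsq (fun z => (RX X σ V z z - m) * star (e κ z)) * i ^ 2
        ≤ (Fintype.card (T d L) * (2 * i) ^ 2) * i ^ 2 :=
          mul_le_mul_of_nonneg_right e1 (by positivity)
      _ = Fintype.card (T d L) * (4 * i ^ 4) := by ring
  have hZn : ∀ V, nsq (ZZ X σ m κ S V) ≤ nsq (Zp X σ m κ V) := by
    intro V
    unfold ZZ
    refine (nsq_mo S 1 (fun k => ?_) _).trans (by rw [one_mul])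
    exact pow_le_one₀ (norm_nonneg _) (hS k)
  have hZp2 : ∀ x, Integrable (fun V => ‖Zp X σ m κ V x‖ ^ 2) (GP (T d L)) := fun x =>
    Integrable.of_bound ((hZpc x).norm.pow 2).aestronglyMeasurable
      (Fintype.card (T d L) * (4 * i ^ 4)) (Eventually.of_forall fun V => by
        rw [Real.norm_of_nonneg (by positivity)]
        exact (le_nsq _ x).trans (hnsq V))
  have hZZ2 : ∀ x, Integrable (fun V => ‖ZZ X σ m κ S V x‖ ^ 2) (GP (T d L)) := fun x =>
    Integrable.of_bound ((hZZc x).norm.pow 2).aestronglyMeasurable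
      (Fintype.card (T d L) * (4 * i ^ 4)) (Eventually.of_forall fun V => by
        rw [Real.norm_of_nonneg (by positivity)]
        exact (le_nsq _ x).trans ((hZn V).trans (hnsq V)))
  have hZpE : ∀ x, ∫ V, ‖Zp X σ m κ V x‖ ^ 2 ∂(GP (T d L)) =
      ∫ V, ‖Zp X σ m κ V 0‖ ^ 2 ∂(GP (T d L)) := by
    intro x
    rw [← invR x (fun V => ‖Zp X σ m κ V 0‖ ^ 2)]
    refine integral_congr_ae (Eventually.of_forall fun V => ?_)
    simp only
    rw [(trans h6 S m κ x 0 V).1, zero_add]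
  have hZZE : ∀ x, ∫ V, ‖ZZ X σ m κ S V x‖ ^ 2 ∂(GP (T d L)) =
      ∫ V, ‖ZZ X σ m κ S V 0‖ ^ 2 ∂(GP (T d L)) := by
    intro x
    rw [← invR x (fun V => ‖ZZ X σ m κ S V 0‖ ^ 2)]
    refine integral_congr_ae (Eventually.of_forall fun V => ?_)
    simp only
    rw [(trans h6 S m κ x 0 V).2, zero_add]
  have hZp0 : ∫ V, ‖Zp X σ m κ V 0‖ ^ 2 ∂(GP (T d L)) ≤ 4 * i ^ 4 := by
    have e1 : ∫ V, nsq (Zp X σ m κ V) ∂(GP (T d L)) =
        Fintype.card (T d L) * ∫ V, ‖Zp X σ m κ V 0‖ ^ 2 ∂(GP (T d L)) := by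
      unfold Pool.Agent.W788.BK.nsq
      rw [integral_finsetSum _ fun x _ => hZp2 x, Finset.sum_congr rfl fun x _ => hZpE x,
        Finset.sum_const, nsmul_eq_mul, Finset.card_univ]
    have e2 : ∫ V, nsq (Zp X σ m κ V) ∂(GP (T d L)) ≤ Fintype.card (T d L) * (4 * i ^ 4) := by
      have e3 : Integrable (fun V => nsq (Zp X σ m κ V)) (GP (T d L)) := by
        unfold Pool.Agent.W788.BK.nsq
        exact integrable_finsetSum _ fun x _ => hZp2 x
      refine (integral_mono e3 (integrable_const _) hnsq).trans (le_of_eq ?_)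
      simp
    rw [e1] at e2
    exact le_of_mul_le_mul_left e2 hcard
  have hZZ0 : ∫ V, F1 V ∂(GP (T d L)) ≤ 4 * i ^ 4 := by
    have e1 : ∫ V, nsq (ZZ X σ m κ S V) ∂(GP (T d L)) =
        Fintype.card (T d L) * ∫ V, ‖ZZ X σ m κ S V 0‖ ^ 2 ∂(GP (T d L)) := by
      unfold Pool.Agent.W788.BK.nsq
      rw [integral_finsetSum _ fun x _ => hZZ2 x, Finset.sum_congr rfl fun x _ => hZZE x,
        Finset.sum_const, nsmul_eq_mul, Finset.card_univ]
    have e2 : ∫ V, nsq (ZZ X σ m κ S V) ∂(GP (T d L)) ≤ Fintype.card (T d L) * (4 * i ^ 4) := by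
      have e3 : Integrable (fun V => nsq (ZZ X σ m κ S V)) (GP (T d L)) := by
        unfold Pool.Agent.W788.BK.nsq
        exact integrable_finsetSum _ fun x _ => hZZ2 x
      refine (integral_mono e3 (integrable_const _) fun V => (hZn V).trans (hnsq V)).trans
        (le_of_eq ?_)
      simp
    rw [e1] at e2
    exact le_of_mul_le_mul_left e2 hcard
  have hF1c : Continuous F1 := (hZZc 0).norm.pow 2
  have hSgc : Continuous Sg := continuous_finsetSum _ fun x _ => (hZpc x).norm.pow 2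
  have hF10 : ∀ V, 0 ≤ F1 V := fun V => by positivity
  have hSg0 : ∀ V, 0 ≤ Sg V := fun V => Finset.sum_nonneg fun _ _ => by positivity
  have hF1b : ∀ V, F1 V ≤ Fintype.card (T d L) * (4 * i ^ 4) := fun V =>
    (le_nsq _ 0).trans ((hZn V).trans (hnsq V))
  have hSgb : ∀ V, Sg V ≤ Fintype.card (T d L) * (4 * i ^ 4) := fun V =>
    (Finset.sum_le_univ_sum_of_nonneg (s := B) (f := fun x => ‖Zp X σ m κ V x‖ ^ 2)
      fun _ => by positivity).trans (hnsq V)
  have hSgE : ∫ V, Sg V ∂(GP (T d L)) ≤ b * (4 * i ^ 4) := by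
    rw [hSg]
    simp only
    rw [integral_finsetSum _ fun x _ => hZp2 x, Finset.sum_congr rfl fun x _ => hZpE x,
      Finset.sum_const, nsmul_eq_mul]
    exact mul_le_mul hBb hZp0 (integral_nonneg fun V => by positivity) (by linarith)
  have hF1i : Integrable F1 (GP (T d L)) := hZZ2 0
  have hSgi : Integrable Sg (GP (T d L)) := integrable_finsetSum _ fun x _ => hZp2 x
  have hback := fun V (hV : v1 B V ≤ 2 * b) => cmpZ (X := X) hc hσ hσ1 h1 h2 B V (z0 B V)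
    (fun x hx => by unfold z0; rw [if_neg hx]) S hS m κ (v := 2 * b) (by
      refine le_trans (le_of_eq ?_) hV
      unfold v1
      refine Finset.sum_congr rfl fun x hx => ?_
      unfold z0
      rw [if_pos hx, zero_sub, abs_neg])
  have hforw := fun V => cmpZ (X := X) hc hσ hσ1 h1 h2 B (z0 B V) V
      (fun x hx => by unfold z0; rw [if_neg hx]) S hS m κ (v := v1 B V) (by
        refine le_of_eq ?_
        unfold v1
        refine Finset.sum_congr rfl fun x hx => ?_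
        unfold z0
        rw [if_pos hx, sub_zero])
  have hc6 : 3 / c ^ 6 = 3 * i ^ 6 := by rw [hi, inv_pow]; rfl
  have hc2 : 3 / c ^ 2 = 3 * i ^ 2 := by rw [hi, inv_pow]; rfl
  have hc6' : 4 / c ^ 6 = 4 * i ^ 6 := by rw [hi, inv_pow]; rfl
  have hc2' : 4 / c ^ 2 = 4 * i ^ 2 := by rw [hi, inv_pow]; rfl
  have hc8 : 1400 * (b0 : ℝ) ^ 5 / c ^ 8 = 1400 * b ^ 5 * i ^ 8 := by
    rw [hi, inv_pow, ← hbdef]
    rfl
  simp only [hc6, hc2, hc6', hc2'] at hback hforw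
  rw [hc8]
  exact absd h0B hBb hb1 hi1 hF1c hSgc hF10 hSg0 hF1b hSgb hF1i hSgi hZZ0 hSgE
    (fun V hV => (hback V hV).1) (fun V hV => (hback V hV).2) (fun V => (hforw V).1)
    hfm hf0 hfV hfB hp

end Pool.Agent.T2h98.AC
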