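import Pool.Agent.T2h98.AC.Stm2

/-! Task PSL: bounds for the self-energy pass to the lattice. -/

set_option autoImplicit false
set_option linter.unusedSectionVars false

open scoped BigOperators Matrix Topology
open MeasureTheory ProbabilityTheory Filter

namespace Pool.Agent.T2h98.AC

namespace PSL

open Pool.Agent.W788.MFP.Four (T)
open Pool.Agent.T2h98.QD Pool.Agent.T2h98.AC
open Pool.Agent.W792.LL (toC)
open Pool.Agent.W792.WA (csym psi cayx)
open Pool.Agent.N659.HB (ZR)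

theorem toC_app {X : Type} [TopologicalSpace X] {f : X → ℂ} (h : Continuous f) (x : X) :
    toC f x = f x := by
  unfold toC
  rw [dif_pos h]
  rfl

theorem cayx_zero (x : ℂ) : cayx x 0 = (x + Complex.I) / (x - Complex.I) := by
  unfold cayx
  simp

theorem sub_I_ne {x : ℂ} (hx : x.im < 0) : x - Complex.I ≠ 0 := by
  intro h
  have h1 := congrArg Complex.im h
  simp at h1
  linarith

theorem cayx_lt {x : ℂ} (hx : x.im < 0) : ‖cayx x 0‖ < 1 := by
  have hne := sub_I_ne hx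
  rw [cayx_zero, norm_div, div_lt_one (norm_pos_iff.2 hne)]
  have h1 : ‖x + Complex.I‖ ^ 2 = ‖x - Complex.I‖ ^ 2 + 4 * x.im := by
    rw [← Complex.normSq_eq_norm_sq, ← Complex.normSq_eq_norm_sq, Complex.normSq_apply,
      Complex.normSq_apply]
    simp
    ring
  have h2 : ‖x + Complex.I‖ ^ 2 < ‖x - Complex.I‖ ^ 2 := by linarith
  exact lt_of_pow_lt_pow_left₀ 2 (norm_nonneg _) h2

/-- grid points close to a given point -/
theorem grid {d : ℕ} (k₀ : UnitAddTorus (Fin d)) (U : Set (UnitAddTorus (Fin d))) (hU : U ∈ 𝓝 k₀) :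
    ∃ L₁ : ℕ, ∀ (L : ℕ) [NeZero L], L₁ ≤ L → ∃ k : T d L, ptt k ∈ U := by
  -- representatives
  have hr : ∀ i, ∃ r : ℝ, 0 ≤ r ∧ r < 1 ∧ ((r : ℝ) : UnitAddCircle) = k₀ i := by
    intro i
    obtain ⟨a, ha⟩ := QuotientAddGroup.mk_surjective (k₀ i)
    refine ⟨Int.fract a, Int.fract_nonneg a, Int.fract_lt_one a, ?_⟩
    rw [← ha]
    have h1 : a = Int.fract a + ⌊a⌋ := (Int.fract_add_floor a).symm
    have h2 : ((⌊a⌋ : ℝ) : UnitAddCircle) = 0 := by
      rw [AddCircle.coe_eq_zero_iff]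
      exact ⟨⌊a⌋, by simp⟩
    show ((Int.fract a : ℝ) : UnitAddCircle) = ((a : ℝ) : UnitAddCircle)
    conv_rhs => rw [h1]
    rw [AddCircle.coe_add, h2, add_zero]
  choose r hr0 hr1 hr2 using hr
  have hlim : Tendsto (fun L : ℕ => fun i : Fin d =>
      ((((⌊r i * L⌋₊ : ℕ) : ℝ) / L : ℝ) : UnitAddCircle)) atTop (𝓝 k₀) := by
    rw [tendsto_pi_nhds]
    intro i
    have h1 : Tendsto (fun L : ℕ => (((⌊r i * L⌋₊ : ℕ) : ℝ) / L : ℝ)) atTop (𝓝 (r i)) := by
      have h2 := (tendsto_nat_floor_mul_div_atTop (R := ℝ) (hr0 i)).comp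
        (tendsto_natCast_atTop_atTop (R := ℝ))
      exact h2
    have h3 : Tendsto (fun x : ℝ => (x : UnitAddCircle)) (𝓝 (r i)) (𝓝 ((r i : ℝ) : UnitAddCircle)) :=
      (AddCircle.continuous_mk' 1).tendsto _
    rw [← hr2 i]
    exact h3.comp h1
  obtain ⟨L₁, hL₁⟩ := eventually_atTop.1 (hlim.eventually hU)
  refine ⟨L₁, fun L _ hL => ⟨fun i => ((⌊r i * L⌋₊ : ℕ) : ZMod L), ?_⟩⟩
  have h1 := hL₁ L hL
  have hLpos : (0 : ℝ) < L := by
    have := Nat.pos_of_ne_zero (NeZero.ne L)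
    exact_mod_cast this
  have h2 : ptt (fun i => ((⌊r i * L⌋₊ : ℕ) : ZMod L) : T d L) = fun i : Fin d =>
      ((((⌊r i * L⌋₊ : ℕ) : ℝ) / L : ℝ) : UnitAddCircle) := by
    funext i
    unfold ptt
    have h3 : ⌊r i * L⌋₊ < L := by
      rw [Nat.floor_lt (mul_nonneg (hr0 i) hLpos.le)]
      nlinarith [hr1 i]
    have h4 : (((⌊r i * L⌋₊ : ℕ) : ZMod L)).val = ⌊r i * L⌋₊ := ZMod.val_cast_of_lt h3
    show ((((((⌊r i * L⌋₊ : ℕ) : ZMod L)).val : ℝ) / L : ℝ) : UnitAddCircle) = _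
    rw [h4]
  rw [h2]
  exact h1

end PSL

open Pool.Agent.T2h98.AC.PSL
open Pool.Agent.W788.MFP.Four (T)
open Pool.Agent.T2h98.QD
open Pool.Agent.W792.LL (toC)
open Pool.Agent.W792.WA (csym psi cayx)
open Pool.Agent.N659.HB (ZR)

theorem psl (hT : T_TOR) (hA : T_ALG) (hA2 : T_ALG2) (hPsi : Pool.Agent.W792.WA.S_PSI)
    (hZ : Pool.Agent.N659.HB.S_ZR) : T_PSL := by
  intro d X c σ γ R η μ _ hc hσ hγ hη hηR hμ hX hbd
  obtain ⟨ℓ, n0, hℓ, hbd⟩ := hbd
  -- the symbol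
  have him : ∀ k, ((γ : ℂ) * X k).im < 0 := by
    intro k
    have h1 : ((γ : ℂ) * X k).im = γ * (X k).im := by simp
    rw [h1]
    have := hX k
    nlinarith
  have hcont : Continuous fun k => cayx ((γ : ℂ) * X k) 0 := by
    have e1 : (fun k => cayx ((γ : ℂ) * X k) 0) =
        fun k => ((γ : ℂ) * X k + Complex.I) / ((γ : ℂ) * X k - Complex.I) := by
      funext k
      exact cayx_zero _
    rw [e1]
    exact ((continuous_const.mul X.continuous).add continuous_const).div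
      ((continuous_const.mul X.continuous).sub continuous_const) fun k => sub_I_ne (him k)
  obtain ⟨mm, hmm⟩ : ∃ mm, mm = toC fun k => cayx ((γ : ℂ) * X k) 0 := ⟨_, rfl⟩
  have hmk : ∀ k, mm k = cayx ((γ : ℂ) * X k) 0 := by
    intro k
    rw [hmm, toC_app hcont]
  have hmn : ‖mm‖ < 1 := by
    rw [ContinuousMap.norm_lt_iff mm one_pos]
    intro k
    rw [hmk]
    exact cayx_lt (him k)
  have hP := (hPsi μ d ‖mm‖ mm mm (norm_nonneg _) hmn le_rfl le_rfl).1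
  rw [← hmm]
  -- the closed set
  obtain ⟨A, hAdef⟩ : ∃ A : Set ℂ, A = {s : ℂ | ‖s + 1‖ ≤ R * ‖s - 1‖ ∧
    η * ‖s - 1‖ ^ 2 ≤ 1 - ‖s‖ ^ 2} := ⟨_, rfl⟩
  have hAcl : IsClosed A := by
    rw [hAdef]
    exact (isClosed_le (f := fun s : ℂ => ‖s + 1‖) (g := fun s : ℂ => R * ‖s - 1‖) (by fun_prop)
      (by fun_prop)).inter (isClosed_le (f := fun s : ℂ => η * ‖s - 1‖ ^ 2)
      (g := fun s : ℂ => 1 - ‖s‖ ^ 2) (by fun_prop) (by fun_prop))
  have hcay : ∀ S : ℂ, ‖S‖ ≤ R → S.im ≤ -η → cayx S 0 ∈ A := by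
    intro S h1 h2
    have h3 := (hZ d R η hη hηR).2.2.2 (ContinuousMap.const _ (cayx S 0)) (ContinuousMap.const _ S)
      (fun k => ⟨rfl, h1, h2⟩)
    rw [hAdef]
    exact h3.2 0
  have key : ∀ k₀, psi μ mm k₀ ∈ A := by
    intro k₀
    rw [← hAcl.closure_eq, Metric.mem_closure_iff]
    intro ε hε
    obtain ⟨p1, p2, -, -, -, -⟩ := hP k₀
    -- continuity of `C / (1 + m C)`
    have hG : ContinuousAt (fun p : ℂ × ℂ => p.1 / (1 + p.2 * p.1)) (csym μ mm k₀, mm k₀) := by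
      apply ContinuousAt.div
      · fun_prop
      · fun_prop
      · exact p1
    have hGd : ContinuousAt (fun p : ℂ × ℂ => 1 + p.2 * p.1) (csym μ mm k₀, mm k₀) := by fun_prop
    have e1 : ∀ᶠ p : ℂ × ℂ in 𝓝 (csym μ mm k₀, mm k₀),
        dist (psi μ mm k₀) (p.1 / (1 + p.2 * p.1)) < ε ∧ 1 + p.2 * p.1 ≠ 0 := by
      refine Filter.Eventually.and ?_ (hGd.eventually_ne p1)
      have h1 : Tendsto (fun p : ℂ × ℂ => p.1 / (1 + p.2 * p.1)) (𝓝 (csym μ mm k₀, mm k₀))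
          (𝓝 (psi μ mm k₀)) := by
        rw [p2]
        exact hG
      have h2 := h1 (Metric.ball_mem_nhds _ hε)
      filter_upwards [h2] with p hp
      rw [dist_comm]
      exact hp
    obtain ⟨δ, hδ, hδ2⟩ := Metric.eventually_nhds_iff.1 e1
    have hUc : ∀ᶠ k in 𝓝 k₀, dist (csym μ mm k) (csym μ mm k₀) < δ / 2 ∧ dist (mm k) (mm k₀) < δ := by
      refine Filter.Eventually.and ?_ ?_
      · exact (csym μ mm).continuous.continuousAt (Metric.ball_mem_nhds _ (half_pos hδ))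
      · exact mm.continuous.continuousAt (Metric.ball_mem_nhds _ hδ)
    obtain ⟨L₁, hL₁⟩ := grid k₀ _ hUc
    obtain ⟨L₀, hL₀⟩ := hT μ d mm hmn (δ / 3) (by linarith)
    obtain ⟨n, hn⟩ : ∃ n, n = n0 + L₀ + L₁ + 1 := ⟨_, rfl⟩
    have hL0 : n * ℓ ≠ 0 := Nat.mul_ne_zero (by omega) (by omega)
    have : NeZero (n * ℓ) := ⟨hL0⟩
    have hnL : n ≤ n * ℓ := Nat.le_mul_of_pos_right n (by omega)
    obtain ⟨k, hk1, hk2⟩ := hL₁ (n * ℓ) (by omega)
    have hC := hL₀ (n * ℓ) (by omega) k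
    obtain ⟨hR0, hR1, hR2⟩ := hbd n (by omega) (n * ℓ) rfl k
    obtain ⟨C, hCdef⟩ : ∃ C, C = cL μ (fun j : T d (n * ℓ) => mm (ptt j)) k := ⟨_, rfl⟩
    rw [← hCdef] at hC
    have hdist : dist (C, mm (ptt k)) (csym μ mm k₀, mm k₀) < δ := by
      rw [Prod.dist_eq]
      refine max_lt ?_ hk2
      have h1 : dist C (csym μ mm (ptt k)) ≤ δ / 3 := by
        rw [dist_comm, dist_eq_norm]
        exact hC
      have h2 := dist_triangle C (csym μ mm (ptt k)) (csym μ mm k₀)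
      linarith
    obtain ⟨h3, h4⟩ := hδ2 hdist
    refine ⟨C / (1 + mm (ptt k) * C), ?_, h3⟩
    -- algebra
    have hXc : ∀ j : T d (n * ℓ), c ≤ -(X (ptt j)).im := fun j => by
      have := hX (ptt j)
      linarith
    have a1 := hA d (n * ℓ) (fun j => X (ptt j)) c σ γ hc hσ hγ hXc k
    have a2 : cL ((gaussianReal 0 1).map fun x => (γ * σ) * x)
        (fun j : T d (n * ℓ) => cayx (γ * X (ptt j)) 0) k = C := by
      rw [hCdef, ← hμ]
      congr 1
      funext j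
      exact (hmk (ptt j)).symm
    rw [a2] at a1
    have h5 := hA2 (X (ptt k)) C (Rb (fun j : T d (n * ℓ) => X (ptt j)) σ k)
      ((γ : ℂ) * ((Rb (fun j : T d (n * ℓ) => X (ptt j)) σ k)⁻¹ - X (ptt k))) γ hγ
      (by have := hX (ptt k); linarith) hR0 a1 rfl (by linarith) (by rw [← hmk]; exact h4)
    rw [hmk, h5]
    exact hcay _ hR1 hR2
  refine ⟨?_, ?_⟩
  · rw [ContinuousMap.norm_le _ zero_le_one]
    exact fun k => (hP k).2.2.1
  · intro k
    have := key k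
    rw [hAdef] at this
    exact this

end Pool.Agent.T2h98.AC
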