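import Pool.Agent.T2h98.AC.All0
import Pool.Agent.T2h98.AC.BETA
import Pool.Agent.T2h98.AC.PSL
import Pool.Agent.T2h98.AC.BLK
import Pool.Agent.T2h98.AC.DEC

/-! All parts: absolutely continuous spectrum below the kinetic scale. -/

set_option autoImplicit false

namespace Pool.Agent.T2h98.AC

open Pool.Agent.T2h98.QD

theorem betaF : T_BETA := beta (blk intp par) prob3

theorem pslF : T_PSL := psl tor (alg rx) alg2 Pool.Agent.W792.WA.Al.psi Pool.Agent.N659.HB.Al.zr

theorem kgnA : T_KGN := kgnF betaF (dec rx) pslF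

end Pool.Agent.T2h98.AC
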