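import Pool.Agent.T2h98.AC.Stm2

/-! The transform of a law with small support. -/

set_option autoImplicit false
set_option linter.unusedSectionVars false

open scoped BigOperators Matrix Topology
open MeasureTheory ProbabilityTheory Filter

namespace Pool.Agent.T2h98.AC

open Pool.Agent.N659.HB (bet)

theorem bx : T_BX := by
  intro ρ _ C t hC hρ ht hCt
  have ht0 : t ≠ 0 := by
    rintro rfl
    simp at ht
  have htn : 0 < ‖t‖ := norm_pos_iff.2 ht0
  have hae : ∀ᵐ a ∂ρ, |a| ≤ C := by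
    have h1 : ∀ᵐ a ∂ρ, a ∈ Set.Icc (-C) C := by
      rw [ae_iff]
      exact hρ
    filter_upwards [h1] with a ha
    exact abs_le.2 ha
  have hne : ∀ a : ℝ, t + (a : ℂ) ≠ 0 := by
    intro a h
    have h1 := congrArg Complex.im h
    rw [Complex.add_im, Complex.ofReal_im, Complex.zero_im] at h1
    linarith
  have hlow : ∀ a : ℝ, |a| ≤ C → 3 / 4 * ‖t‖ ≤ ‖t + (a : ℂ)‖ := by
    intro a ha
    have h1 := norm_sub_le (t + (a : ℂ)) (a : ℂ)
    rw [add_sub_cancel_right, Complex.norm_real, Real.norm_eq_abs] at h1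
    linarith
  have hc1 : Continuous fun a : ℝ => 1 / (t + (a : ℂ)) :=
    continuous_const.div (continuous_const.add Complex.continuous_ofReal) hne
  -- integrability
  have hb1 : ∀ a : ℝ, |a| ≤ C → ‖1 / (t + (a : ℂ))‖ ≤ 4 / (3 * ‖t‖) := by
    intro a ha
    have h1 := hlow a ha
    rw [norm_div, norm_one, div_le_div_iff₀ (by linarith) (by positivity)]
    linarith
  have hi1 : Integrable (fun a : ℝ => 1 / (t + (a : ℂ))) ρ :=
    Integrable.of_bound hc1.aestronglyMeasurable _ (hae.mono hb1)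
  have hi2 : Integrable (fun a : ℝ => (a : ℂ)) ρ :=
    Integrable.of_bound Complex.continuous_ofReal.aestronglyMeasurable C (hae.mono fun a ha => by
      rw [Complex.norm_real, Real.norm_eq_abs]
      exact ha)
  have hi3 : Integrable (fun a : ℝ => (a : ℝ)) ρ :=
    Integrable.of_bound continuous_id.aestronglyMeasurable C (hae.mono fun a ha => by
      rw [Real.norm_eq_abs]
      exact ha)
  obtain ⟨m1, hm1⟩ : ∃ m1 : ℝ, m1 = ∫ a, a ∂ρ := ⟨_, rfl⟩
  have hm1C : |m1| ≤ C := by
    rw [hm1]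
    have h1 := norm_integral_le_of_norm_le_const (μ := ρ) (f := fun a : ℝ => a) (C := C)
      (hae.mono fun a ha => by rw [Real.norm_eq_abs]; exact ha)
    simpa using h1
  have hm1c : ∫ a : ℝ, (a : ℂ) ∂ρ = (m1 : ℂ) := by
    rw [hm1]
    exact integral_ofReal
  have hB : bet ρ t = ∫ a : ℝ, 1 / (t + (a : ℂ)) ∂ρ := rfl
  -- the first bound
  have h1 : t * bet ρ t - 1 = ∫ a : ℝ, -((a : ℂ) * (1 / (t + (a : ℂ)))) ∂ρ := by
    have h2 : ∀ a : ℝ, -((a : ℂ) * (1 / (t + (a : ℂ)))) = t * (1 / (t + (a : ℂ))) - 1 := by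
      intro a
      have := hne a
      field_simp
      ring
    simp only [h2]
    rw [integral_sub (hi1.const_mul t) (integrable_const 1), integral_const_mul, ← hB]
    simp
  have h2 : ‖t * bet ρ t - 1‖ ≤ 1 / 3 := by
    rw [h1]
    have h3 := norm_integral_le_of_norm_le_const (μ := ρ)
      (f := fun a : ℝ => -((a : ℂ) * (1 / (t + (a : ℂ))))) (C := 1 / 3)
      (hae.mono fun a ha => by
        rw [norm_neg, norm_mul, Complex.norm_real, Real.norm_eq_abs]
        calc |a| * ‖1 / (t + (a : ℂ))‖ ≤ (‖t‖ / 4) * (4 / (3 * ‖t‖)) := by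
              apply mul_le_mul (by linarith) (hb1 a ha) (norm_nonneg _) (by positivity)
          _ = 1 / 3 := by field_simp)
    simpa using h3
  have h3 : 2 / 3 ≤ ‖t‖ * ‖bet ρ t‖ := by
    rw [← norm_mul]
    have h4 := norm_sub_norm_le (1 : ℂ) (1 - t * bet ρ t)
    rw [sub_sub_cancel, norm_one, norm_sub_rev] at h4
    linarith
  have h4 : 2 / (3 * ‖t‖) ≤ ‖bet ρ t‖ := by
    rw [div_le_iff₀ (by positivity)]
    linarith
  have h5 : bet ρ t ≠ 0 := by
    intro h
    rw [h, norm_zero, mul_zero] at h3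
    norm_num at h3
  refine ⟨h5, ?_, ?_, ?_⟩
  · refine le_trans ?_ h4
    rw [div_le_div_iff₀ (by positivity) (by positivity)]
    linarith
  · rw [← hm1]
    exact hm1C
  · rw [← hm1]
    have h6 : 1 / bet ρ t - t - (m1 : ℂ) = (1 - (t + m1) * bet ρ t) / bet ρ t := by
      field_simp
      ring
    have h7 : 1 - (t + m1) * bet ρ t = ∫ a : ℝ, -((((a : ℂ) - m1) * a) * (1 / (t + (a : ℂ))) / t) ∂ρ := by
      have h8 : ∀ a : ℝ, -((((a : ℂ) - m1) * a) * (1 / (t + (a : ℂ))) / t) =
          (1 - (t + m1) * (1 / (t + (a : ℂ)))) - t⁻¹ * ((a : ℂ) - m1) := by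
        intro a
        have := hne a
        field_simp
        ring
      simp only [h8]
      rw [integral_sub, integral_sub, integral_const_mul, ← hB, integral_const_mul, integral_sub hi2
        (integrable_const _), hm1c]
      · simp
      · exact integrable_const _
      · exact hi1.const_mul _
      · exact (integrable_const _).sub (hi1.const_mul _)
      · exact (hi2.sub (integrable_const _)).const_mul _
    have h8 : ‖1 - (t + m1) * bet ρ t‖ ≤ 8 / 3 * C ^ 2 / ‖t‖ ^ 2 := by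
      rw [h7]
      have h9 := norm_integral_le_of_norm_le_const (μ := ρ)
        (f := fun a : ℝ => -((((a : ℂ) - m1) * a) * (1 / (t + (a : ℂ))) / t))
        (C := 8 / 3 * C ^ 2 / ‖t‖ ^ 2)
        (hae.mono fun a ha => by
          rw [norm_neg, norm_div, norm_mul, norm_mul, Complex.norm_real, Real.norm_eq_abs]
          have e1 : ‖(a : ℂ) - m1‖ ≤ 2 * C := by
            refine (norm_sub_le _ _).trans ?_
            rw [Complex.norm_real, Complex.norm_real, Real.norm_eq_abs, Real.norm_eq_abs]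
            linarith
          have e2 := hb1 a ha
          calc ‖(a : ℂ) - m1‖ * |a| * ‖1 / (t + (a : ℂ))‖ / ‖t‖ ≤
              (2 * C) * C * (4 / (3 * ‖t‖)) / ‖t‖ := by gcongr
            _ = 8 / 3 * C ^ 2 / ‖t‖ ^ 2 := by
              field_simp
              ring)
      simpa using h9
    rw [h6, norm_div, div_le_div_iff₀ (norm_pos_iff.2 h5) htn]
    rw [le_div_iff₀ (by positivity)] at h8
    have h9 : ‖1 - (t + m1) * bet ρ t‖ * ‖t‖ * ‖t‖ ≤ 8 / 3 * C ^ 2 := by
      calc ‖1 - (t + m1) * bet ρ t‖ * ‖t‖ * ‖t‖ = ‖1 - (t + m1) * bet ρ t‖ * ‖t‖ ^ 2 := by ring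
        _ ≤ _ := h8
    have h10 : 8 / 3 * C ^ 2 ≤ 4 * C ^ 2 * ‖bet ρ t‖ * ‖t‖ := by
      nlinarith [sq_nonneg C, mul_le_mul_of_nonneg_left h3 (sq_nonneg C)]
    exact le_of_mul_le_mul_right (h9.trans h10) htn

end Pool.Agent.T2h98.AC
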