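import Pool.Agent.T2h98.AC.CovH

/-! The bounds for `G1` and `G2` (helper38). -/

set_option autoImplicit false
set_option linter.all false

open scoped BigOperators Matrix Topology
open MeasureTheory ProbabilityTheory Filter

namespace Pool.Agent.T2h98.AC.G12

open Pool.Agent.W788.MFP.Four (T e NN adj K)
open Pool.Agent.W788.BK (nsq hs PP JJ hi Low cr nsq_nonneg)
open Pool.Agent.W240.BK (BC BM cs_int)
open Pool.Agent.T2h98.QD
open CovH

variable {d L : ℕ} [NeZero L]

/-- Cauchy-Schwarz -/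
theorem cs_gen {F : (T d L → ℝ) → ℂ} {A B : (T d L → ℝ) → ℝ} (hA : Integrable A (GP (T d L)))
    (hB : Integrable B (GP (T d L))) (hA0 : ∀ V, 0 ≤ A V) (hB0 : ∀ V, 0 ≤ B V)
    (hF : ∀ V, ‖F V‖ ^ 2 ≤ A V * B V) :
    ‖∫ V, F V ∂(GP (T d L))‖ ^ 2 ≤ (∫ V, A V ∂(GP (T d L))) * ∫ V, B V ∂(GP (T d L)) := by
  have h1 : ∀ V, ‖F V‖ ≤ Real.sqrt (A V) * Real.sqrt (B V) := by
    intro V
    rw [← Real.sqrt_mul (hA0 V)]
    exact Real.le_sqrt_of_sq_le (hF V)
  have sA : ∀ V, Real.sqrt (A V) ^ 2 = A V := fun V => Real.sq_sqrt (hA0 V)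
  have sB : ∀ V, Real.sqrt (B V) ^ 2 = B V := fun V => Real.sq_sqrt (hB0 V)
  have i1 : Integrable (fun V => Real.sqrt (A V) * Real.sqrt (B V)) (GP (T d L)) := by
    refine Integrable.mono' (hA.add hB) ?_ ?_
    · exact (Real.continuous_sqrt.comp_aestronglyMeasurable hA.aestronglyMeasurable).mul
        (Real.continuous_sqrt.comp_aestronglyMeasurable hB.aestronglyMeasurable)
    · refine Filter.Eventually.of_forall fun V => ?_
      rw [Real.norm_eq_abs, abs_of_nonneg (mul_nonneg (Real.sqrt_nonneg _) (Real.sqrt_nonneg _))]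
      show Real.sqrt (A V) * Real.sqrt (B V) ≤ A V + B V
      have := sq_nonneg (Real.sqrt (A V) - Real.sqrt (B V))
      have h2 := sA V
      have h3 := sB V
      have h4 := hA0 V
      have h5 := hB0 V
      nlinarith
  have h2 : ‖∫ V, F V ∂(GP (T d L))‖ ≤ ∫ V, Real.sqrt (A V) * Real.sqrt (B V) ∂(GP (T d L)) := by
    refine (norm_integral_le_integral_norm _).trans ?_
    exact integral_mono_of_nonneg (Filter.Eventually.of_forall fun V => norm_nonneg _) i1
      (Filter.Eventually.of_forall h1)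
  have h3 := cs_int (m := T d L) (gaussianReal 0 1) (a := fun V => Real.sqrt (A V))
    (b := fun V => Real.sqrt (B V)) (by simpa only [sA] using hA) (by simpa only [sB] using hB) i1
  simp only [sA, sB] at h3
  exact (pow_le_pow_left₀ (norm_nonneg _) h2 2).trans h3

theorem qf_J1_le {E δ : ℝ} (hδ : 0 < δ) (b : T d L → ℂ) :
    qf (J1 E δ) b ≤ nsq b / δ := by
  have hNN := Pool.Agent.W788.MFP.Four.NN_pos (d := d) (L := L)
  unfold J1
  rw [KQ.qf_Mo, nsq_fc, mul_div_assoc]
  refine mul_le_mul_of_nonneg_left ?_ (by positivity)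
  rw [Finset.sum_div]
  refine Finset.sum_le_sum fun k _ => ?_
  rw [div_eq_inv_mul]
  refine mul_le_mul_of_nonneg_right ?_ (by positivity)
  apply inv_anti₀ hδ
  unfold JJ
  apply Real.le_sqrt_of_sq_le
  nlinarith [sq_nonneg (adj k - E)]

theorem mo_cov {u : (T d L → ℝ) → T d L → ℂ} {κ : T d L} (S : T d L → ℂ)
    (hu : ∀ (V : T d L → ℝ) (a x : T d L), u (fun z => V (z + a)) x = e κ a * u V (x + a))
    (V : T d L → ℝ) (a x : T d L) :
    (Mo S *ᵥ u (fun z => V (z + a))) x = e κ a * (Mo S *ᵥ u V) (x + a) := by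
  simp only [Matrix.mulVec, dotProduct]
  rw [← Equiv.sum_comp (Equiv.addRight a) (fun z => Mo S (x + a) z * u V z), Finset.mul_sum]
  refine Finset.sum_congr rfl fun z _ => ?_
  rw [Equiv.coe_addRight, mo_shift, hu]
  ring

end Pool.Agent.T2h98.AC.G12

namespace Pool.Agent.T2h98.AC

open Pool.Agent.W788.MFP.Four (T e NN adj K)
open Pool.Agent.W788.BK (nsq hs PP JJ hi Low cr nsq_nonneg)
open Pool.Agent.W240.BK (BC BM cs_int)
open Pool.Agent.T2h98.QD
open CovH G12

theorem g12 (hB : T_RB) (hR : T_RX) (hD : T_DEC) : T_G12 := by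
  intro d L _ X E δ ε c σ p0 b0 β B hX hσ hσ1 hβ κ
  have hδ := hX.hδ
  have hε := hX.hε
  have hc := hX.hc
  have hNN := Pool.Agent.W788.MFP.Four.NN_pos (d := d) (L := L)
  obtain ⟨r1, r2, r3, r4, r5, r6, _, r8⟩ := hR d L X c σ hc hX.im2
  have hbc : ∀ x y, BC fun V : T d L → ℝ => RX X σ V x y := fun x y =>
    ⟨r4 x y, c⁻¹, fun V => r3 V x y⟩
  obtain ⟨m, hm⟩ : ∃ m, m = mX X σ := ⟨_, rfl⟩
  have hen : ∀ z : T d L, ‖star (e κ z)‖ = 1 := fun z => by rw [norm_star, e_norm]
  constructor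
  · -- G2
    have hF : ∀ z, BC fun V : T d L → ℝ => RX X σ V 0 z * RX X σ V z 0 * RX X σ V 0 z := fun z =>
      ((hbc 0 z).mul (hbc z 0)).mul (hbc 0 z)
    have h1 : G2 X σ κ = ∫ V, ∑ z, RX X σ V 0 z * RX X σ V z 0 * RX X σ V 0 z * star (e κ z)
        ∂(GP (T d L)) := by
      unfold G2 sy
      rw [integral_finsetSum _ fun z _ => ((hF z).mul (BC.const (star (e κ z)))).integrable _]
      refine Finset.sum_congr rfl fun z _ => ?_
      rw [integral_mul_const]
    rw [h1]
    refine cs_gen (RC.sum _ fun y _ => (RC.norm (hbc 0 y)).sq).integrable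
      (RC.sum _ fun y _ => (RC.norm (hbc 0 y)).sq.mul (RC.norm (hbc y 0)).sq).integrable
      (fun V => Finset.sum_nonneg fun _ _ => by positivity)
      (fun V => Finset.sum_nonneg fun _ _ => by positivity) fun V => ?_
    have h2 : ‖∑ z, RX X σ V 0 z * RX X σ V z 0 * RX X σ V 0 z * star (e κ z)‖ ≤
        ∑ z, ‖RX X σ V 0 z‖ * (‖RX X σ V 0 z‖ * ‖RX X σ V z 0‖) := by
      refine (norm_sum_le _ _).trans (Finset.sum_le_sum fun z _ => ?_)
      rw [norm_mul, hen, norm_mul, norm_mul, mul_one]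
      apply le_of_eq
      ring
    refine (pow_le_pow_left₀ (norm_nonneg _) h2 2).trans ?_
    have h3 := Finset.sum_mul_sq_le_sq_mul_sq Finset.univ (fun z => ‖RX X σ V 0 z‖)
      (fun z => ‖RX X σ V 0 z‖ * ‖RX X σ V z 0‖)
    refine h3.trans (le_of_eq ?_)
    congr 1
    exact Finset.sum_congr rfl fun z _ => by rw [mul_pow]
  · -- G1
    rw [← hm]
    set φ : (T d L → ℝ) → T d L → ℂ := fun V z => RX X σ V z z - m with hφ
    have hφb : ∀ z, BC fun V => φ V z := fun z => (hbc z z).sub (BC.const m)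
    have hφc : ∀ (V : T d L → ℝ) (a x : T d L), φ (fun z => V (z + a)) x = φ V (x + a) := by
      intro V a x
      simp only [hφ]
      rw [r6]
    set b : (T d L → ℝ) → T d L → ℂ := fun V z => φ V z * star (e κ z) with hb
    set b' : (T d L → ℝ) → T d L → ℂ := fun V z => star (φ V z) * star (e κ z) with hb'
    set u : (T d L → ℝ) → T d L → ℂ := fun V => RX X σ V *ᵥ b V with hu
    have hbb : ∀ z, BC fun V => b V z := fun z => (hφb z).mul (BC.const _)
    have hub : ∀ x, BC fun V => u V x := by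
      intro x
      simp only [hu, Matrix.mulVec, dotProduct]
      exact BC.sum _ fun z _ => (hbc x z).mul (hbb z)
    have huc : ∀ (V : T d L → ℝ) (a x : T d L),
        u (fun z => V (z + a)) x = e κ a * u V (x + a) := by
      intro V a x
      simp only [hu, Matrix.mulVec, dotProduct]
      rw [← Equiv.sum_comp (Equiv.addRight a) (fun z => RX X σ V (x + a) z * b V z),
        Finset.mul_sum]
      refine Finset.sum_congr rfl fun z _ => ?_
      simp only [Equiv.coe_addRight, hb]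
      rw [r6, hφc, Pool.Agent.W788.MFP.Four.e_add, star_mul']
      have h1 := Pool.Agent.W788.MFP.Four.e_normSq κ a
      have h2 : e κ a * star (e κ a) = 1 := h1
      linear_combination (-(RX X σ V (x + a) (z + a) * φ V (z + a) * star (e κ z))) * h2
    -- norms
    obtain ⟨v, hv⟩ : ∃ v, v = ∫ V, ‖RX X σ V 0 0 - m‖ ^ 2 ∂(GP (T d L)) := ⟨_, rfl⟩
    rw [← hv]
    have hnb : ∀ V, nsq (b V) = ∑ z, ‖φ V z‖ ^ 2 := fun V => by
      unfold nsq
      refine Finset.sum_congr rfl fun z _ => ?_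
      simp only [hb]
      rw [norm_mul, hen, mul_one]
    have hnb' : ∀ V, nsq (b' V) = ∑ z, ‖φ V z‖ ^ 2 := fun V => by
      unfold nsq
      refine Finset.sum_congr rfl fun z _ => ?_
      simp only [hb']
      rw [norm_mul, hen, mul_one, norm_star]
    have iΦ : Integrable (fun V => ∑ z, ‖φ V z‖ ^ 2) (GP (T d L)) :=
      (RC.sum _ fun z _ => (RC.norm (hφb z)).sq).integrable
    have hcard : ((Finset.univ : Finset (T d L)).card : ℝ) = NN d L := by
      rw [Finset.card_univ]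
      exact Pool.Agent.W788.MFP.Four.card_T (d := d) (L := L)
    have hΦ : ∫ V, ∑ z, ‖φ V z‖ ^ 2 ∂(GP (T d L)) = NN d L * v := by
      rw [integral_finsetSum _ fun z _ => (RC.norm (hφb z)).sq.integrable]
      have h1 : ∀ z : T d L, ∫ V, ‖φ V z‖ ^ 2 ∂(GP (T d L)) = v := by
        intro z
        rw [hv]
        exact cov_int (f := fun V z => ‖φ V z‖ ^ 2) (fun V a x => by
          show ‖φ (fun z => V (z + a)) x‖ ^ 2 = _
          rw [hφc]) z
      rw [Finset.sum_congr rfl fun z _ => h1 z, Finset.sum_const, nsmul_eq_mul, hcard]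
    -- the errors
    have hmn : ‖m‖ ≤ c⁻¹ := by
      rw [hm]
      unfold mX
      have := norm_integral_le_of_norm_le_const (μ := GP (T d L))
        (Filter.Eventually.of_forall fun V => r3 V 0 0)
      rwa [probReal_univ, mul_one] at this
    obtain ⟨D, hDd⟩ : ∃ D, D = 1400 * (b0 : ℝ) ^ 5 / c ^ 8 * Real.sqrt p0 := ⟨_, rfl⟩
    have herr : ∀ S : T d L → ℂ, (∀ k, ‖S k‖ ≤ 1) →
        Integrable (fun V => eb (β V) (Mo S *ᵥ u V)) (GP (T d L)) ∧
        ∫ V, eb (β V) (Mo S *ᵥ u V) ∂(GP (T d L)) ≤ NN d L * D := by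
      intro S hS
      have hmc := mo_cov S huc
      have hwb : ∀ x, BC fun V => (Mo S *ᵥ u V) x := by
        intro x
        simp only [Matrix.mulVec, dotProduct]
        exact BC.sum _ fun z _ => (BC.const _).mul (hub z)
      have hi : ∀ x, Integrable (fun V => β V x * ‖(Mo S *ᵥ u V) x‖ ^ 2) (GP (T d L)) := by
        intro x
        obtain ⟨hc1, C, hC⟩ := (RC.norm (hwb x)).sq
        exact beta_int hβ hc1.measurable hC x
      have h1 : ∀ x, ∫ V, β V x * ‖(Mo S *ᵥ u V) x‖ ^ 2 ∂(GP (T d L)) ≤ D := by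
        intro x
        have h2 := cov_int (f := fun V x => β V x * ‖(Mo S *ᵥ u V) x‖ ^ 2) (fun V a x => by
          show β (fun z => V (z + a)) x * ‖(Mo S *ᵥ u (fun z => V (z + a))) x‖ ^ 2 = _
          rw [hβ.cov, hmc, norm_mul, e_norm, one_mul]) x
        have h3 := hD d L X c σ hc hX.hc1 hσ hσ1 hX.im2 (fun V => β V 0) B b0 p0 (hβ.meas 0)
          (fun V => hβ.nonneg V 0) (fun V => hβ.le V 0) hβ.loc hβ.h0 hβ.card hβ.mom S m κ hS hmn
        rw [hDd]
        exact h2.le.trans h3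
      constructor
      · unfold eb
        exact integrable_finsetSum _ fun x _ => hi x
      · unfold eb
        rw [integral_finsetSum _ fun x _ => hi x]
        calc ∑ x, ∫ V, β V x * ‖(Mo S *ᵥ u V) x‖ ^ 2 ∂(GP (T d L)) ≤ ∑ x : T d L, D :=
              Finset.sum_le_sum fun x _ => h1 x
          _ = NN d L * D := by rw [Finset.sum_const, nsmul_eq_mul, hcard]
    obtain ⟨i1, j1⟩ := herr (fun k => (((adj k - E) / JJ E δ k : ℝ) : ℂ)) (sg_le hδ)
    obtain ⟨i2, j2⟩ := herr (fun _ => 1) (fun _ => by simp)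
    simp only [mo_one, Matrix.one_mulVec] at i2 j2
    -- the main identity
    have hF : ∀ z, BC fun V : T d L → ℝ => (RX X σ V 0 0 - m) * RX X σ V 0 z * (RX X σ V z z - m) :=
      fun z => ((hφb 0).mul (hbc 0 z)).mul (hφb z)
    have hsum : ∀ V, ∑ x, star (b' V x) * u V x = ∑ x, ∑ z,
        (fun V => (RX X σ V 0 0 - m) * RX X σ V 0 z * (RX X σ V z z - m)) (fun w => V (w + x)) *
          star (e κ z) := by
      intro V
      refine Finset.sum_congr rfl fun x _ => ?_
      simp only [hu, Matrix.mulVec, dotProduct]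
      rw [Finset.mul_sum, ← Equiv.sum_comp (Equiv.addRight x)]
      refine Finset.sum_congr rfl fun z _ => ?_
      simp only [Equiv.coe_addRight, hb, hb', hφ]
      rw [r6, r6, r6, zero_add, Pool.Agent.W788.MFP.Four.e_add, star_mul', star_mul', star_star,
        star_star]
      have h2 : e κ x * star (e κ x) = 1 := Pool.Agent.W788.MFP.Four.e_normSq κ x
      linear_combination ((RX X σ V x x - m) * RX X σ V x (z + x) *
        (RX X σ V (z + x) (z + x) - m) * star (e κ z)) * h2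
    have hG1 : ((NN d L : ℝ) : ℂ) * G1 X σ κ = ∫ V, ∑ x, star (b' V x) * u V x ∂(GP (T d L)) := by
      simp only [hsum]
      have hFi : ∀ x z, Integrable (fun V : T d L → ℝ =>
          (fun V => (RX X σ V 0 0 - m) * RX X σ V 0 z * (RX X σ V z z - m)) (fun w => V (w + x)) *
          star (e κ z)) (GP (T d L)) := fun x z =>
        (shift_integrable x ((hF z).integrable (gaussianReal 0 1))).mul_const _
      rw [integral_finsetSum _ fun x _ => integrable_finsetSum _ fun z _ => hFi x z]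
      have h3 : ∀ x : T d L, ∫ V, ∑ z,
          (fun V => (RX X σ V 0 0 - m) * RX X σ V 0 z * (RX X σ V z z - m)) (fun w => V (w + x)) *
          star (e κ z) ∂(GP (T d L)) = G1 X σ κ := by
        intro x
        rw [integral_finsetSum _ fun z _ => hFi x z]
        unfold G1 sy
        refine Finset.sum_congr rfl fun z _ => ?_
        rw [integral_mul_const, shift_int x
          (fun V => (RX X σ V 0 0 - m) * RX X σ V 0 z * (RX X σ V z z - m)), ← hm]
      rw [Finset.sum_congr rfl fun x _ => h3 x, Finset.sum_const, nsmul_eq_mul]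
      congr 1
      rw [← hcard]
      simp
    -- Cauchy-Schwarz
    have iA : Integrable (fun V => (∑ z, ‖φ V z‖ ^ 2) / δ) (GP (T d L)) := iΦ.div_const δ
    have iB : Integrable (fun V => 1300 * (δ / ε) ^ 2 * ((∑ z, ‖φ V z‖ ^ 2) / δ) +
        2 * (eb (β V) (Sg E δ *ᵥ u V) + eb (β V) (u V))) (GP (T d L)) :=
      (iA.const_mul _).add ((i1.add i2).const_mul 2)
    have hebn : ∀ (V : T d L → ℝ) (w : T d L → ℂ), 0 ≤ eb (β V) w := fun V w =>
      Finset.sum_nonneg fun x _ => mul_nonneg (hβ.nonneg V x) (by positivity)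
    have hA0 : ∀ V, 0 ≤ (∑ z, ‖φ V z‖ ^ 2) / δ := fun V =>
      div_nonneg (Finset.sum_nonneg fun _ _ => by positivity) hδ.le
    have hB0 : ∀ V, 0 ≤ 1300 * (δ / ε) ^ 2 * ((∑ z, ‖φ V z‖ ^ 2) / δ) +
        2 * (eb (β V) (Sg E δ *ᵥ u V) + eb (β V) (u V)) := fun V =>
      add_nonneg (mul_nonneg (by positivity) (hA0 V))
        (mul_nonneg (by norm_num) (add_nonneg (hebn V _) (hebn V _)))
    have hmain := cs_gen iA iB hA0 hB0 (F := fun V => ∑ x, star (b' V x) * u V x) fun V => by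
      have h1 := EMBS.dual (E := E) hδ (b' V) (u V)
      refine h1.trans ?_
      have h2 := qf_J1_le (E := E) hδ (b' V)
      have h3 := qf_J1_le (E := E) hδ (b V)
      rw [hnb'] at h2
      rw [hnb] at h3
      have h4 : TX X σ V *ᵥ u V = b V := by
        simp only [hu]
        rw [Matrix.mulVec_mulVec, (r1 V).1, Matrix.one_mulVec]
      have h5 := ((hB d L X E δ ε c σ hX hσ V (β V) (hβ.nonneg V) (hβ.fb V E)
        (u V) (b V)).1 h4).2.2.2.1
      have h6 : qf (J0 E δ) (u V) ≤ 1300 * (δ / ε) ^ 2 * ((∑ z, ‖φ V z‖ ^ 2) / δ) +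
          2 * (eb (β V) (Sg E δ *ᵥ u V) + eb (β V) (u V)) := by
        have h7 := mul_le_mul_of_nonneg_left h3 (by positivity : 0 ≤ 1300 * (δ / ε) ^ 2)
        linarith
      exact mul_le_mul h2 h6 (EMBS.qf0_nonneg hδ _) (hA0 V)
    rw [← hG1] at hmain
    rw [norm_mul, Complex.norm_real, Real.norm_of_nonneg hNN.le] at hmain
    have hIA : ∫ V, (∑ z, ‖φ V z‖ ^ 2) / δ ∂(GP (T d L)) = NN d L * (v / δ) := by
      rw [integral_div, hΦ]
      ring
    have hIB : ∫ V, (1300 * (δ / ε) ^ 2 * ((∑ z, ‖φ V z‖ ^ 2) / δ) +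
        2 * (eb (β V) (Sg E δ *ᵥ u V) + eb (β V) (u V))) ∂(GP (T d L)) ≤
        NN d L * (1300 * (δ / ε) ^ 2 * (v / δ) + 5600 * (b0 : ℝ) ^ 5 / c ^ 8 * Real.sqrt p0) := by
      have h1 := integral_add (iA.const_mul (1300 * (δ / ε) ^ 2)) ((i1.add i2).const_mul 2)
      rw [integral_const_mul, integral_const_mul] at h1
      have h2 := integral_add i1 i2
      refine (le_of_eq h1).trans ?_
      rw [hIA]
      have h3 : ∫ V, ((fun V => eb (β V) ((Mo fun k => (((adj k - E) / JJ E δ k : ℝ) : ℂ)) *ᵥ u V)) +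
          fun V => eb (β V) (u V)) V ∂(GP (T d L)) ≤ NN d L * D + NN d L * D := by
        refine (le_of_eq h2).trans (add_le_add j1 j2)
      have h4 : NN d L * (1300 * (δ / ε) ^ 2 * (v / δ) + 5600 * (b0 : ℝ) ^ 5 / c ^ 8 *
          Real.sqrt p0) = 1300 * (δ / ε) ^ 2 * (NN d L * (v / δ)) +
          2 * (NN d L * D + NN d L * D) := by
        rw [hDd]
        ring
      rw [h4]
      linarith
    rw [hIA] at hmain
    have hv0 : 0 ≤ v / δ := by
      rw [hv]
      exact div_nonneg (integral_nonneg fun _ => by positivity) hδ.le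
    have h8 : (NN d L * ‖G1 X σ κ‖) ^ 2 ≤ NN d L * (v / δ) * (NN d L *
        (1300 * (δ / ε) ^ 2 * (v / δ) + 5600 * (b0 : ℝ) ^ 5 / c ^ 8 * Real.sqrt p0)) :=
      hmain.trans (mul_le_mul_of_nonneg_left hIB (mul_nonneg hNN.le hv0))
    have h9 : (NN d L) ^ 2 * ‖G1 X σ κ‖ ^ 2 ≤ (NN d L) ^ 2 * (v / δ *
        (1300 * (δ / ε) ^ 2 * (v / δ) + 5600 * (b0 : ℝ) ^ 5 / c ^ 8 * Real.sqrt p0)) := by
      calc (NN d L) ^ 2 * ‖G1 X σ κ‖ ^ 2 = (NN d L * ‖G1 X σ κ‖) ^ 2 := by ring
        _ ≤ _ := h8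
        _ = _ := by ring
    exact le_of_mul_le_mul_left h9 (by positivity)

end Pool.Agent.T2h98.AC
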