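import Pool.Agent.T2h98.AC.Stm2
import Pool.Agent.N346.KG.Gaph

/-! Absolutely continuous spectrum below the kinetic scale: the gap. -/

set_option autoImplicit false

open scoped BigOperators Matrix Topology
open MeasureTheory ProbabilityTheory Filter

namespace Pool.Agent.T2h98.AC

namespace GAPN

open Pool.Agent.W788.MFP.Four (T e NN adj)
open Pool.Agent.W792.LL (lap cay toC S_CAY)
open Pool.Agent.W792.WA
open Pool.Agent.N659.HB
open Pool.Agent.N163.HB.GAPA (lev_prob lev_supp conv_supp)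
open Pool.Agent.N457.KS.Gapg (vr_pos)
open Pool.Agent.N346.KG.Gaph (toC_apply sub_I_ne)

/-! ### The symbol at the points of the torus -/

theorem fou_ptt {d L : ℕ} [NeZero L] (k : T d L) (i : Fin d) :
    (fourier 1 (ptt k i) : ℂ) = ZMod.stdAddChar (k i) := by
  have hL : (L : ℂ) ≠ 0 := by exact_mod_cast NeZero.ne L
  unfold ptt
  rw [fourier_coe_apply]
  have h1 : k i = (((k i).val : ℤ) : ZMod L) := by
    rw [Int.cast_natCast, ZMod.natCast_zmod_val]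
  rw [show (ZMod.stdAddChar (k i) : ℂ) = ZMod.stdAddChar ((((k i).val : ℤ)) : ZMod L) by rw [← h1],
    ZMod.stdAddChar_coe]
  congr 1
  push_cast
  field_simp

theorem adjm_ptt {d L : ℕ} [NeZero L] (k : T d L) : adjm d (ptt k) = adj k := by
  have h0 : adjm d (ptt k) = 2 * (d : ℝ) - ∑ i, (2 - 2 * (fourier 1 (ptt k i) : ℂ).re) := rfl
  rw [h0, Finset.sum_sub_distrib]
  unfold adj
  simp only [fou_ptt]
  simp
  ring

/-! ### The law -/

theorem vr_gauss (cy : S_CAY) {c : ℝ} (hc : 0 < c) (μ : Measure ℝ) [IsProbabilityMeasure μ]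
    (hμ : μ = (gaussianReal 0 1).map fun x => c * x) : 0 < vr μ := by
  have hμ2 : μ = gaussianReal 0 (⟨c ^ 2, sq_nonneg c⟩) := by
    rw [hμ]
    have := gaussianReal_map_const_mul (μ := 0) (v := 1) c
    rw [mul_zero, mul_one] at this
    exact this
  have hm : ∫ x, x ∂μ = 0 := by
    rw [hμ2]
    exact integral_id_gaussianReal
  refine vr_pos cy μ (α := 1) hm ?_
  have h2 : ∫ x, (x / 1) ^ 2 ∂μ = c ^ 2 := by
    have h3 := variance_id_gaussianReal (μ := 0) (v := (⟨c ^ 2, sq_nonneg c⟩ : NNReal))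
    rw [variance_eq_integral measurable_id.aemeasurable] at h3
    have h4 : ∫ x, id x ∂(gaussianReal 0 (⟨c ^ 2, sq_nonneg c⟩ : NNReal)) = 0 := by
      exact integral_id_gaussianReal
    rw [h4] at h3
    have h5 : ((⟨c ^ 2, sq_nonneg c⟩ : NNReal) : ℝ) = c ^ 2 := rfl
    refine Eq.trans ?_ (h3.trans h5)
    rw [hμ2]
    refine integral_congr_ae (ae_of_all _ fun x => ?_)
    simp only [id, sub_zero, div_one]
  rw [h2]
  exact pow_pos hc 2

/-! ### One momentum -/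

theorem one_k (hB : T_BX) (hLV : S_LV) (hUX : S_UX) {ψ : C(UnitAddCircle, ℝ)} (hψ : IsSemi ψ)
    {r η R m₁ : ℝ} (hr : 0 < r) (hη : 0 < η) (hrη : 9 * r / 2 ≤ η)
    (ρ' : Measure ℝ) [IsProbabilityMeasure ρ'] (hρ' : ρ' (Set.Icc (-(r / 8)) (r / 8))ᶜ = 0)
    (hm₁ : m₁ = ∫ a, a ∂((lev ψ r).conv ρ'))
    {x S : ℂ} (hx : x.im < 0) (hS : S.im ≤ -η) (hSR : ‖S‖ ≤ R) :
    bet ((lev ψ r).conv ρ') (x + S) ≠ 0 ∧
    Us ((lev ψ r).conv ρ') (cayx x) (cayx S 0) =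
      cayx (1 / bet ((lev ψ r).conv ρ') (x + S) - S) 0 ∧
    |m₁| ≤ 9 * r / 8 ∧
    ‖1 / bet ((lev ψ r).conv ρ') (x + S) - S - (x + m₁)‖ ≤ 6 * r ^ 2 / η ∧
    -x.im + η * r ^ 2 / (16 * (‖x + m₁‖ + |m₁| + R) ^ 2) ≤
      -(1 / bet ((lev ψ r).conv ρ') (x + S) - S).im := by
  have hprob : IsProbabilityMeasure (lev ψ r) := lev_prob ψ _
  have hsupp : ((lev ψ r).conv ρ')
      (Set.Icc (-(r + r / 8)) (r + r / 8))ᶜ = 0 :=
    conv_supp _ _ (lev_supp hψ hr) hρ'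
  obtain ⟨t, ht⟩ : ∃ t, t = x + S := ⟨_, rfl⟩
  have hti : t.im = x.im + S.im := by rw [ht, Complex.add_im]
  have hti2 : η ≤ -t.im := by linarith
  have htn : η ≤ ‖t‖ := by
    have h1 := Complex.abs_im_le_norm t
    rw [abs_of_neg (by linarith)] at h1
    linarith
  have htp : 0 < ‖t‖ := by linarith
  obtain ⟨b1, b2, b3, b4⟩ := hB ((lev ψ r).conv ρ') (r + r / 8) t (by linarith) hsupp
    (by linarith) (by linarith)
  obtain ⟨-, u2, u3⟩ := hUX ((lev ψ r).conv ρ') (r + r / 8) x S hsupp hx (by linarith)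
  obtain ⟨-, -, -, -, l5, -⟩ := hLV ψ hψ r ρ' hr hρ' t (by linarith)
  rw [← hm₁] at b3 b4
  rw [← ht] at u2 u3 ⊢
  refine ⟨b1, u3, by linarith, ?_, ?_⟩
  · have e1 : 1 / bet ((lev ψ r).conv ρ') t - S - (x + m₁) =
        1 / bet ((lev ψ r).conv ρ') t - t - (m₁ : ℂ) := by
      rw [ht]
      ring
    rw [e1]
    refine b4.trans ?_
    calc 4 * (r + r / 8) ^ 2 / ‖t‖ ≤ 4 * (r + r / 8) ^ 2 / η :=
          div_le_div_of_nonneg_left (by positivity) hη htn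
      _ ≤ 6 * r ^ 2 / η := by
          apply div_le_div_of_nonneg_right _ hη.le
          nlinarith [sq_nonneg r]
  · obtain ⟨β, hβ⟩ : ∃ β, β = ‖bet ((lev ψ r).conv ρ') t‖ := ⟨_, rfl⟩
    rw [← hβ] at b2 l5
    have hN : ‖t‖ ≤ ‖x + m₁‖ + |m₁| + R := by
      have e1 : t = (x + m₁) - (m₁ : ℂ) + S := by
        rw [ht]
        ring
      have h1 := norm_add_le ((x + m₁) - (m₁ : ℂ)) S
      have h2 := norm_sub_le (x + m₁) (m₁ : ℂ)
      rw [← e1] at h1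
      rw [Complex.norm_real, Real.norm_eq_abs] at h2
      linarith
    rw [Complex.sub_im]
    have h3 : η * r ^ 2 / (16 * (‖x + m₁‖ + |m₁| + R) ^ 2) ≤ η * r ^ 2 / (16 * ‖t‖ ^ 2) := by
      apply div_le_div_of_nonneg_left (by positivity) (by positivity)
      have := pow_le_pow_left₀ htp.le hN 2
      linarith
    have h4 : η * r ^ 2 / (16 * ‖t‖ ^ 2) ≤ (-t.im) * (r ^ 2 / 4 * β ^ 2) := by
      have h5 : (1 / (2 * ‖t‖)) ^ 2 ≤ β ^ 2 := pow_le_pow_left₀ (by positivity) b2 2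
      calc η * r ^ 2 / (16 * ‖t‖ ^ 2) = η * (r ^ 2 / 4 * (1 / (2 * ‖t‖)) ^ 2) := by
            field_simp
            norm_num
        _ ≤ (-t.im) * (r ^ 2 / 4 * (1 / (2 * ‖t‖)) ^ 2) :=
            mul_le_mul_of_nonneg_right hti2 (by positivity)
        _ ≤ (-t.im) * (r ^ 2 / 4 * β ^ 2) :=
            mul_le_mul_of_nonneg_left (mul_le_mul_of_nonneg_left h5 (by positivity))
              (by linarith)
    have h6 : (-t.im) * (1 + r ^ 2 / 4 * β ^ 2) = -t.im + (-t.im) * (r ^ 2 / 4 * β ^ 2) := by ring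
    rw [h6] at l5
    linarith

/-- the numbers in the scaled variables -/
theorem scal {γ σ u c0 g η R r : ℝ} (hγ : 0 < γ) (hσ : 0 < σ) (hu : 0 < u) (hu1 : u ≤ 1)
    (hc : 0 < c0) (hg : 1 ≤ g) (hη : η = γ * σ ^ 2 * c0 / 2) (hR : R = 3 * g * γ * σ ^ 2)
    (hr : r = γ * (σ ^ 2 * u / 2)) {D m N : ℝ} (hm : |m| ≤ 9 * r / 8) (hD : 0 ≤ D)
    (hN0 : 0 ≤ N) (hN : N ≤ γ * D) :
    6 * r ^ 2 / η / γ ≤ 128 / c0 * (σ ^ 2 * u ^ 2) ∧
    (128 / c0)⁻¹ * (σ ^ 6 * u ^ 2) / (D + 4 * g * σ ^ 2) ^ 2 ≤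
      η * r ^ 2 / (16 * (N + |m| + R) ^ 2) / γ := by
  have hg0 : 0 < g := by linarith
  have hr0 : 0 < r := by rw [hr]; positivity
  have hη0 : 0 < η := by rw [hη]; positivity
  have hR0 : 0 < R := by rw [hR]; positivity
  constructor
  · have e1 : 6 * r ^ 2 / η / γ = 3 / c0 * (σ ^ 2 * u ^ 2) := by
      rw [hr, hη]
      field_simp
      norm_num
    rw [e1]
    apply mul_le_mul_of_nonneg_right _ (by positivity)
    exact div_le_div_of_nonneg_right (by norm_num) hc.le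
  · have h1 : N + |m| + R ≤ γ * (D + 4 * g * σ ^ 2) := by
      have h2 : 9 * r / 8 ≤ g * γ * σ ^ 2 := by
        rw [hr]
        have h3 : u ≤ g := by linarith
        have h4 : γ * σ ^ 2 * u ≤ γ * σ ^ 2 * g := mul_le_mul_of_nonneg_left h3 (by positivity)
        have h5 : 0 ≤ γ * σ ^ 2 * u := by positivity
        nlinarith
      rw [hR]
      have h6 : γ * (D + 4 * g * σ ^ 2) = γ * D + 4 * (g * γ * σ ^ 2) := by ring
      rw [h6]
      linarith
    have h7 : 0 < N + |m| + R := by positivity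
    have h8 : 0 < D + 4 * g * σ ^ 2 := by positivity
    have e2 : (128 / c0)⁻¹ * (σ ^ 6 * u ^ 2) / (D + 4 * g * σ ^ 2) ^ 2 =
        η * r ^ 2 / (16 * (γ * (D + 4 * g * σ ^ 2)) ^ 2) / γ := by
      rw [hr, hη]
      field_simp
      norm_num
    rw [e2]
    apply div_le_div_of_nonneg_right _ hγ.le
    apply div_le_div_of_nonneg_left (by positivity) (by positivity)
    have := pow_le_pow_left₀ h7.le h1 2
    linarith

end GAPN

open Pool.Agent.W788.MFP.Four (T e NN adj)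
open Pool.Agent.W792.LL (lap cay toC S_CAY)
open Pool.Agent.W792.WA
open Pool.Agent.N659.HB
open Pool.Agent.N163.HB.GAPA (lev_prob lev_supp conv_supp)
open Pool.Agent.N346.KG.Gaph (toC_apply sub_I_ne)

theorem gapn (hTS : T_TS) (hP : T_PSL) (hB : T_BX) (zr : S_ZR) (lv : S_LV) (ux : S_UX)
    (cx : S_CX) (fix : S_FIX) (cy : S_CAY) : T_GAPN := by
  intro ψ hψ d hd h hh0 hh1 a ha ha2
  obtain ⟨γ, hγ⟩ : ∃ γ : ℝ, γ = 2 * d / a := ⟨_, rfl⟩
  rw [← hγ]
  have hγ1 : 1 < γ := by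
    rw [hγ, lt_div_iff₀ ha]
    linarith
  have hγ0 : 0 < γ := by linarith
  obtain ⟨c0, hc0, hc1, hT⟩ := hTS d hd h hh0 hh1 ((a + 2 * d) / 2) (by linarith) (by linarith)
  have hA : 1 ≤ 128 / c0 := by
    rw [le_div_iff₀ hc0]
    linarith
  have hlim : Tendsto (fun σ : ℝ => σ ^ h) (𝓝[>] 0) (𝓝 0) := by
    have h1 := (Real.continuousAt_rpow_const 0 h (Or.inr hh0.le)).tendsto
    rw [Real.zero_rpow hh0.ne'] at h1
    exact h1.mono_left nhdsWithin_le_nhds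
  have hpos : 0 < min (2 * c0 / 9) ((2 * d - a) / 2) := by
    apply lt_min
    · positivity
    · linarith
  have ev1 : ∀ᶠ σ : ℝ in 𝓝[>] 0, σ ^ h < min (2 * c0 / 9) ((2 * d - a) / 2) :=
    hlim.eventually (gt_mem_nhds hpos)
  have ev2 : ∀ᶠ σ : ℝ in 𝓝[>] 0, σ < 1 :=
    (gt_mem_nhds one_pos).filter_mono nhdsWithin_le_nhds
  filter_upwards [hT (128 / c0) hA, ev1, ev2, self_mem_nhdsWithin] with σ hσT hσ1 hσ2 hσ0
  replace hσ0 : 0 < σ := hσ0
  obtain ⟨g, ℓ, n0, hg1, -, hℓ, hmain⟩ := hσT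
  obtain ⟨u, hu⟩ : ∃ u, u = σ ^ h := ⟨_, rfl⟩
  have hu0 : 0 < u := by rw [hu]; exact Real.rpow_pos_of_pos hσ0 _
  rw [← hu] at hσ1
  have hu2 : u ≤ 2 * c0 / 9 := (hσ1.trans_le (min_le_left _ _)).le
  have hu3 : u ≤ (2 * d - a) / 2 := (hσ1.trans_le (min_le_right _ _)).le
  have hu1 : u ≤ 1 := by linarith
  have p1 : σ ^ (2 + h) = σ ^ 2 * u := by
    rw [Real.rpow_add hσ0, hu, Real.rpow_two]
  have p2 : σ ^ (2 + 2 * h) = σ ^ 2 * u ^ 2 := by
    rw [Real.rpow_add hσ0, hu, Real.rpow_two, mul_comm 2 h, Real.rpow_mul hσ0.le, Real.rpow_two]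
  have p3 : σ ^ (6 + 2 * h) = σ ^ 6 * u ^ 2 := by
    rw [Real.rpow_add hσ0, hu, mul_comm 2 h, Real.rpow_mul hσ0.le, Real.rpow_two]
    congr 1
    exact_mod_cast Real.rpow_natCast σ 6
  rw [p1]
  obtain ⟨r, hr⟩ : ∃ r, r = γ * (σ ^ 2 * u / 2) := ⟨_, rfl⟩
  rw [← hr]
  obtain ⟨η, hη⟩ : ∃ η, η = γ * σ ^ 2 * c0 / 2 := ⟨_, rfl⟩
  obtain ⟨R, hR⟩ : ∃ R, R = 3 * g * γ * σ ^ 2 := ⟨_, rfl⟩
  have hg0 : 0 < g := by linarith
  have hr0 : 0 < r := by rw [hr]; positivity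
  have hη0 : 0 < η := by rw [hη]; positivity
  have hR0 : 0 < R := by rw [hR]; positivity
  have hγσ : 0 < γ * σ ^ 2 := by positivity
  have hηR : η ≤ R := by
    rw [hη, hR]
    have : γ * σ ^ 2 * c0 ≤ γ * σ ^ 2 * g := mul_le_mul_of_nonneg_left (by linarith) hγσ.le
    nlinarith
  have hrη : 9 * r / 2 ≤ η := by
    rw [hr, hη]
    have := mul_le_mul_of_nonneg_left hu2 hγσ.le
    nlinarith
  obtain ⟨zr1, zr2, zr3, zr4⟩ := zr d R η hη0 hηR
  have hτ : 0 < 2 * η / (R + 1) ^ 2 := by positivity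
  refine ⟨2 * η / (R + 1) ^ 2, hτ, ?_⟩
  intro μ _ hμ ρ' _ hρ' z hz s hs0
  have hvr : 0 < vr μ := GAPN.vr_gauss cy (mul_pos hγ0 hσ0) μ hμ
  suffices h : s ∈ ZR d R η from (zr3 s h).1
  obtain ⟨hz1, hz2, hz3, hz4⟩ := hz
  have hprob : IsProbabilityMeasure (lev ψ r) := lev_prob ψ _
  have hsupp : ((lev ψ r).conv ρ')
      (Set.Icc (-(r + r / 8)) (r + r / 8))ᶜ = 0 :=
    conv_supp _ _ (lev_supp hψ hr0) hρ'
  obtain ⟨K, hK⟩ : ∃ K : C(UnitAddTorus (Fin d), ℝ),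
    K = γ • (adjm d - ContinuousMap.const _ (-a)) := ⟨_, rfl⟩
  rw [← hK] at hs0
  have hKv : ∀ k, K k = γ * (adjm d k + a) := by
    intro k
    rw [hK]
    simp only [ContinuousMap.smul_apply, ContinuousMap.sub_apply, ContinuousMap.const_apply,
      smul_eq_mul]
    ring
  obtain ⟨q0, hq0, hq1, hq⟩ := cx.2.2.1 (r + r / 8) (‖K‖ + ‖z‖) z.im hz3
  refine (fix μ d ((lev ψ r).conv ρ') (r + r / 8) q0 (wz K z)
    hvr hsupp (cx.2.2.2 d K z hz3.le) hq0 hq1 ?_).2.2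
    (ZR d R η) zr1 zr2 (fun s hs => hs.1) ?_ s hs0
  · intro k a ha
    refine hq _ a ?_ ?_ (abs_le.2 ha)
    · refine (norm_sub_le _ _).trans ?_
      rw [Complex.norm_real]
      linarith [K.norm_coe_le_norm k]
    · simp
  clear hs0 s
  intro s hs
  obtain ⟨-, S, hS⟩ := zr3 s hs
  obtain ⟨m₁, hm₁⟩ : ∃ m₁, m₁ = ∫ a, a ∂((lev ψ r).conv ρ') := ⟨_, rfl⟩
  have hxim : ∀ k, ((K k : ℂ) - z).im = -z.im := by
    intro k
    rw [Complex.sub_im, Complex.ofReal_im]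
    ring
  have hone := fun k => GAPN.one_k (R := R) hB lv ux hψ hr0 hη0 hrη ρ' hρ' hm₁
    (x := (K k : ℂ) - z) (S := S k) (by rw [hxim]; linarith) (hS k).2.2 (hS k).2.1
  have hm2 : |m₁| ≤ 9 * r / 8 := (hone 0).2.2.1
  -- continuity
  have hKc : Continuous fun k => ((K k : ℂ) - z) :=
    (Complex.continuous_ofReal.comp K.continuous).sub continuous_const
  have htc : Continuous fun k => ((K k : ℂ) - z) + S k := hKc.add S.continuous
  have hβc : Continuous fun k => bet ((lev ψ r).conv ρ') (((K k : ℂ) - z) + S k) := by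
    have hle : ∀ k k', dist (bet ((lev ψ r).conv ρ') (((K k : ℂ) - z) + S k))
        (bet ((lev ψ r).conv ρ') (((K k' : ℂ) - z) + S k')) ≤
        dist (((K k : ℂ) - z) + S k) (((K k' : ℂ) - z) + S k') / η ^ 2 := by
      intro k k'
      have hi : ∀ k, (((K k : ℂ) - z) + S k).im ≤ -η := by
        intro k
        rw [Complex.add_im, hxim]
        linarith [(hS k).2.2]
      have h1 := (lv ψ hψ r ρ' hr0 hρ' (((K k : ℂ) - z) + S k)
        (by linarith [hi k])).2.2.2.2.2 (((K k' : ℂ) - z) + S k') (by linarith [hi k'])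
      rw [dist_eq_norm, dist_eq_norm]
      refine h1.trans ?_
      apply div_le_div_of_nonneg_left (norm_nonneg _) (by positivity)
      have h3 := hi k
      have h4 := hi k'
      nlinarith
    rw [continuous_iff_continuousAt]
    intro k0
    rw [ContinuousAt, tendsto_iff_dist_tendsto_zero]
    refine squeeze_zero (fun k => dist_nonneg) (fun k => hle k k0) ?_
    have h3 : Tendsto (fun k => dist (((K k : ℂ) - z) + S k) (((K k0 : ℂ) - z) + S k0))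
        (𝓝 k0) (𝓝 0) := tendsto_iff_dist_tendsto_zero.1 (htc.tendsto k0)
    simpa using h3.div_const (η ^ 2)
  have hXc : Continuous fun k =>
      (1 / bet ((lev ψ r).conv ρ') (((K k : ℂ) - z) + S k) - S k) / (γ : ℂ) :=
    ((continuous_const.div hβc fun k => (hone k).1).sub S.continuous).div_const _
  obtain ⟨X, hX⟩ : ∃ X : C(UnitAddTorus (Fin d), ℂ), ∀ k, X k =
      (1 / bet ((lev ψ r).conv ρ') (((K k : ℂ) - z) + S k) - S k) / (γ : ℂ) :=
    ⟨⟨_, hXc⟩, fun k => rfl⟩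
  have hγC : (γ : ℂ) ≠ 0 := by exact_mod_cast hγ0.ne'
  have hγX : ∀ k, (γ : ℂ) * X k =
      1 / bet ((lev ψ r).conv ρ') (((K k : ℂ) - z) + S k) - S k := by
    intro k
    rw [hX]
    field_simp
  have hUUX : UU ((lev ψ r).conv ρ') (wz K z) s = toC fun k => cayx (γ * X k) 0 := by
    unfold UU
    congr 1
    funext k
    rw [hγX k, (hS k).1]
    exact (hone k).2.1
  rw [hUUX]
  -- the parameters
  obtain ⟨E, hE⟩ : ∃ E, E = z.re / γ - a - m₁ / γ := ⟨_, rfl⟩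
  obtain ⟨y, hy⟩ : ∃ y, y = z.im / γ := ⟨_, rfl⟩
  have hy0 : 0 < y := by rw [hy]; positivity
  have hy1 : y ≤ 1 := by
    rw [hy, div_le_one hγ0]
    linarith
  have hEa : |E| ≤ (a + 2 * d) / 2 := by
    have h1 : |m₁ / γ| ≤ (2 * d - a) / 2 := by
      rw [abs_div, abs_of_pos hγ0, div_le_iff₀ hγ0]
      refine hm2.trans ?_
      rw [hr]
      have h2 : σ ^ 2 * u ≤ 1 * u := mul_le_mul_of_nonneg_right (by nlinarith) hu0.le
      have h3 : γ * (σ ^ 2 * u) ≤ γ * ((2 * d - a) / 2) :=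
        mul_le_mul_of_nonneg_left (by linarith) hγ0.le
      have h4 : 0 ≤ γ * (σ ^ 2 * u) := by positivity
      nlinarith
    have h5 : z.re / γ ≤ 2 * a := by
      rw [div_le_iff₀ hγ0, hγ]
      have : 2 * a * (2 * d / a) = 4 * d := by
        field_simp
        norm_num
      rw [this]
      exact hz2
    have h6 : 0 ≤ z.re / γ := by positivity
    rw [hE, abs_le]
    have h7 := abs_le.1 h1
    constructor
    · linarith
    · linarith
  have hxm : ∀ k, ((K k : ℂ) - z) + m₁ = (γ : ℂ) * (((adjm d k - E : ℝ) : ℂ) - (y : ℂ) * Complex.I) := by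
    intro k
    rw [hKv, hE, hy]
    apply Complex.ext
    · simp
      field_simp
      ring
    · simp
      field_simp
  have hXa : ∀ k, ‖X k - (((adjm d k - E : ℝ) : ℂ) - (y : ℂ) * Complex.I)‖ ≤
      128 / c0 * σ ^ (2 + 2 * h) := by
    intro k
    have e1 : X k - (((adjm d k - E : ℝ) : ℂ) - (y : ℂ) * Complex.I) =
        (1 / bet ((lev ψ r).conv ρ') (((K k : ℂ) - z) + S k) - S k - (((K k : ℂ) - z) + m₁)) /
          (γ : ℂ) := by
      rw [hxm, hX]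
      field_simp
    rw [e1, norm_div, Complex.norm_real, Real.norm_of_nonneg hγ0.le, p2]
    refine le_trans ?_ (GAPN.scal (D := 0) (N := 0) hγ0 hσ0 hu0 hu1 hc0 hg1 hη hR hr
      hm2 le_rfl le_rfl (by simp)).1
    exact div_le_div_of_nonneg_right (hone k).2.2.2.1 hγ0.le
  have hXb : ∀ k, y + (128 / c0)⁻¹ * σ ^ (6 + 2 * h) / (|adjm d k - E| + y + 4 * g * σ ^ 2) ^ 2 ≤
      -(X k).im := by
    intro k
    have h1 := (hone k).2.2.2.2
    rw [hxim, neg_neg] at h1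
    have e1 : -(X k).im = -(1 / bet ((lev ψ r).conv ρ') (((K k : ℂ) - z) + S k) - S k).im / γ := by
      rw [hX, Complex.div_ofReal_im]
      ring
    rw [e1, p3]
    have hN : ‖((K k : ℂ) - z) + m₁‖ ≤ γ * (|adjm d k - E| + y) := by
      rw [hxm, norm_mul, Complex.norm_real, Real.norm_of_nonneg hγ0.le]
      apply mul_le_mul_of_nonneg_left _ hγ0.le
      refine (norm_sub_le _ _).trans ?_
      rw [norm_mul, Complex.norm_I, mul_one, Complex.norm_real, Complex.norm_real,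
        Real.norm_eq_abs, Real.norm_eq_abs, abs_of_pos hy0]
    have h2 := (GAPN.scal (D := |adjm d k - E| + y) (N := ‖((K k : ℂ) - z) + m₁‖) hγ0 hσ0
      hu0 hu1 hc0 hg1 hη hR hr hm2 (by positivity) (norm_nonneg _) hN).2
    have h3 := div_le_div_of_nonneg_right h1 hγ0.le
    rw [add_div, ← hy] at h3
    linarith
  have hXc2 : ∀ k, (X k).im ≤ -y := by
    intro k
    have h1 := hXb k
    have h2 : 0 ≤ (128 / c0)⁻¹ * σ ^ (6 + 2 * h) / (|adjm d k - E| + y + 4 * g * σ ^ 2) ^ 2 := by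
      have := Real.rpow_nonneg hσ0.le (6 + 2 * h)
      positivity
    linarith
  refine hP d X y σ γ R η μ hy0 hσ0 hγ0 hη0 hηR hμ hXc2 ⟨ℓ, n0, hℓ, ?_⟩
  intro n hn L _ hL k
  obtain ⟨t1, t2, t3⟩ := hmain n hn L hL E y (fun j => X (ptt j)) hEa hy0 hy1
    (fun j => by
      have := hXa (ptt j)
      rw [GAPN.adjm_ptt] at this
      exact this)
    (fun j => by
      have := hXb (ptt j)
      rw [GAPN.adjm_ptt] at this
      exact this)
  obtain ⟨t4, t5⟩ := t3 k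
  obtain ⟨m, hm⟩ : ∃ m : ℂ, m = mX (fun j : T d L => X (ptt j)) σ := ⟨_, rfl⟩
  rw [← hm] at t1 t2 t5
  obtain ⟨w, hw⟩ : ∃ w, w = (Rb (fun j => X (ptt j)) σ k)⁻¹ - X (ptt k) := ⟨_, rfl⟩
  rw [← hw] at t5 ⊢
  have hσ2' : 0 < σ ^ 2 := by positivity
  refine ⟨t4, ?_, ?_⟩
  · rw [norm_mul, Complex.norm_real, Real.norm_of_nonneg hγ0.le]
    have h1 : ‖w‖ ≤ σ ^ 2 * c0 / 4 + σ ^ 2 * (2 * g) := by
      have e1 : w = (w + (σ : ℂ) ^ 2 * m) - (σ : ℂ) ^ 2 * m := by ring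
      have h2 := norm_sub_le (w + (σ : ℂ) ^ 2 * m) ((σ : ℂ) ^ 2 * m)
      rw [← e1, norm_mul, norm_pow, Complex.norm_real, Real.norm_of_nonneg hσ0.le] at h2
      have h3 := mul_le_mul_of_nonneg_left t1 hσ2'.le
      linarith
    have h4 : σ ^ 2 * c0 / 4 + σ ^ 2 * (2 * g) ≤ 3 * g * σ ^ 2 := by
      have : σ ^ 2 * c0 ≤ σ ^ 2 * g := mul_le_mul_of_nonneg_left (by linarith) hσ2'.le
      have h5 : 0 ≤ σ ^ 2 * g := by positivity
      nlinarith
    calc γ * ‖w‖ ≤ γ * (3 * g * σ ^ 2) := mul_le_mul_of_nonneg_left (h1.trans h4) hγ0.le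
      _ = R := by rw [hR]; ring
  · have h1 := (abs_le.1 ((Complex.abs_im_le_norm _).trans t5)).2
    have e1 : (w + (σ : ℂ) ^ 2 * m).im = w.im + σ ^ 2 * m.im := by
      rw [Complex.add_im, ← Complex.ofReal_pow, Complex.im_ofReal_mul]
    rw [e1] at h1
    rw [Complex.im_ofReal_mul, hη]
    have h2 := mul_le_mul_of_nonneg_left t2 hσ2'.le
    have h3 : w.im ≤ -(3 / 4 * (σ ^ 2 * c0)) := by linarith
    have h4 := mul_le_mul_of_nonneg_left h3 hγ0.le
    have h5 : 0 ≤ γ * (σ ^ 2 * c0) := by positivity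
    nlinarith

end Pool.Agent.T2h98.AC
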