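import Pool.Agent.T2h98.AC.Stm

/-! Project AC, task INTP (helper3): interpolation, `Aᴴ Jp A ≤ C J` if `‖Jp A w‖ ≤ C ‖J w‖` and `A` is a
contraction (`J`, `Jp` positive). -/

set_option autoImplicit false
set_option linter.all false

open scoped BigOperators Matrix Topology ComplexOrder
open MeasureTheory ProbabilityTheory Filter

namespace Pool.Agent.T2h98.AC

open Pool.Agent.W788.BK (nsq)
open Pool.Agent.T2h98.QD

namespace INTP

section
variable {n p : Type} [Fintype n] [DecidableEq n] [Fintype p] [DecidableEq p]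

theorem nsq_nonneg (w : n → ℂ) : 0 ≤ nsq w := Finset.sum_nonneg fun _ _ => sq_nonneg _

theorem nsq_eq (w : n → ℂ) : (star w ⬝ᵥ w) = ((nsq w : ℝ) : ℂ) := by
  unfold nsq dotProduct
  rw [Complex.ofReal_sum]
  refine Finset.sum_congr rfl fun i _ => ?_
  rw [Pi.star_apply, Complex.star_def, mul_comm, Complex.mul_conj, Complex.normSq_eq_norm_sq]

theorem nsq_zero_iff (w : n → ℂ) (h : nsq w = 0) : w = 0 := by
  funext i
  have h1 := (Finset.sum_eq_zero_iff_of_nonneg (fun i _ => sq_nonneg (‖w i‖))).1 h i (Finset.mem_univ i)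
  have h2 : ‖w i‖ = 0 := by
    rcases pow_eq_zero_iff (two_ne_zero) |>.1 h1 with h3
    exact h3
  exact norm_eq_zero.1 h2

/-- Cauchy-Schwarz -/
theorem cs (a b : n → ℂ) : ‖star a ⬝ᵥ b‖ ^ 2 ≤ nsq a * nsq b := by
  have h1 : ‖star a ⬝ᵥ b‖ ≤ ∑ i, ‖a i‖ * ‖b i‖ := by
    unfold dotProduct
    refine (norm_sum_le _ _).trans (Finset.sum_le_sum fun i _ => ?_)
    rw [norm_mul, Pi.star_apply, norm_star]
  have h2 : (∑ i, ‖a i‖ * ‖b i‖) ^ 2 ≤ (∑ i, ‖a i‖ ^ 2) * ∑ i, ‖b i‖ ^ 2 :=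
    Finset.sum_mul_sq_le_sq_mul_sq _ _ _
  exact (pow_le_pow_left₀ (norm_nonneg _) h1 2).trans h2

/-- the adjoint of a contraction is a contraction -/
theorem nsq_adj (A : Matrix p n ℂ) (hA : ∀ w : n → ℂ, nsq (A *ᵥ w) ≤ nsq w) (v : p → ℂ) :
    nsq (Aᴴ *ᵥ v) ≤ nsq v := by
  have h1 : (star (Aᴴ *ᵥ v) ⬝ᵥ (Aᴴ *ᵥ v)) = star v ⬝ᵥ (A *ᵥ (Aᴴ *ᵥ v)) := by
    rw [Matrix.star_mulVec, Matrix.conjTranspose_conjTranspose]
    exact (Matrix.dotProduct_mulVec _ _ _).symm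
  have h2 : nsq (Aᴴ *ᵥ v) ^ 2 ≤ nsq v * nsq (A *ᵥ (Aᴴ *ᵥ v)) := by
    have h3 := cs v (A *ᵥ (Aᴴ *ᵥ v))
    rw [← h1, nsq_eq, Complex.norm_real, Real.norm_eq_abs, sq_abs] at h3
    exact h3
  have h4 : nsq (Aᴴ *ᵥ v) ^ 2 ≤ nsq v * nsq (Aᴴ *ᵥ v) :=
    h2.trans (mul_le_mul_of_nonneg_left (hA _) (nsq_nonneg v))
  by_contra hlt
  push Not at hlt
  have h5 : 0 < nsq (Aᴴ *ᵥ v) := lt_of_le_of_lt (nsq_nonneg v) hlt
  nlinarith

theorem qf_smul (J : Matrix n n ℂ) (c : ℝ) (w : n → ℂ) :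
    qf J ((c : ℂ) • w) = c ^ 2 * qf J w := by
  unfold qf
  rw [Matrix.mulVec_smul, dotProduct_smul, star_smul, smul_dotProduct, smul_smul, smul_eq_mul,
    Complex.star_def, Complex.conj_ofReal, ← Complex.ofReal_mul, Complex.re_ofReal_mul]
  ring

theorem nsq_smul (c : ℂ) (w : n → ℂ) : nsq (c • w) = ‖c‖ ^ 2 * nsq w := by
  unfold nsq
  rw [Finset.mul_sum]
  refine Finset.sum_congr rfl fun i _ => ?_
  rw [Pi.smul_apply, smul_eq_mul, norm_mul, mul_pow]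

theorem cont_qf (J : Matrix n n ℂ) : Continuous (fun w : n → ℂ => qf J w) := by
  unfold qf dotProduct Matrix.mulVec dotProduct
  refine Complex.continuous_re.comp ?_
  fun_prop

theorem cont_nsq : Continuous (fun w : n → ℂ => nsq w) := by
  unfold nsq
  fun_prop

theorem qf_comp (Jp : Matrix p p ℂ) (A : Matrix p n ℂ) (w : n → ℂ) :
    qf Jp (A *ᵥ w) = qf (Aᴴ * Jp * A) w := by
  unfold qf
  congr 1
  rw [Matrix.star_mulVec, ← Matrix.mulVec_mulVec, ← Matrix.mulVec_mulVec]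
  exact (Matrix.dotProduct_mulVec _ _ _).symm

theorem form_realI {M : Matrix n n ℂ} (hM : M.IsHermitian) (w : n → ℂ) :
    (star w ⬝ᵥ (M *ᵥ w)) = ((qf M w : ℝ) : ℂ) := by
  unfold qf
  apply Complex.ext
  · rw [Complex.ofReal_re]
  · rw [Complex.ofReal_im]
    have h : star (star w ⬝ᵥ (M *ᵥ w)) = star w ⬝ᵥ (M *ᵥ w) := by
      rw [← Matrix.star_dotProduct, Matrix.star_mulVec, hM.eq, ← Matrix.dotProduct_mulVec]
    rw [Complex.star_def] at h
    exact Complex.conj_eq_iff_im.1 h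

end

end INTP

open INTP

theorem intp : T_INTP := by
  intro n p _ _ _ _ J Jp A δ C hJ hJp hδ hC hJδ hJp0 hA hJA w
  -- the trivial case
  by_cases hw : w = 0
  · subst hw
    unfold qf
    simp
  obtain ⟨P, hP⟩ : ∃ P, P = Aᴴ * Jp * A := ⟨_, rfl⟩
  have hPH : P.IsHermitian := by
    rw [hP]
    exact Matrix.isHermitian_conjTranspose_mul_mul A hJp
  have hPq : ∀ w, qf Jp (A *ᵥ w) = qf P w := fun w => by rw [hP, qf_comp]
  have hpos : ∀ w : n → ℂ, w ≠ 0 → 0 < nsq w := fun w hw =>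
    lt_of_le_of_ne (nsq_nonneg w) fun h => hw (nsq_zero_iff w h.symm)
  -- the compact set
  obtain ⟨Kc, hKc⟩ : ∃ Kc : Set (n → ℂ), Kc = {w | nsq w = 1} := ⟨_, rfl⟩
  have hcomp : IsCompact Kc := by
    refine Metric.isCompact_of_isClosed_isBounded ?_ ?_
    · rw [hKc]
      exact isClosed_eq cont_nsq continuous_const
    · refine (Metric.isBounded_closedBall (x := (0 : n → ℂ)) (r := 1)).subset fun v hv => ?_
      rw [mem_closedBall_zero_iff, pi_norm_le_iff_of_nonneg zero_le_one]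
      intro i
      rw [hKc] at hv
      have h1 : ‖v i‖ ^ 2 ≤ 1 := by
        rw [← show nsq v = 1 from hv]
        exact Finset.single_le_sum (f := fun i => ‖v i‖ ^ 2) (fun i _ => sq_nonneg _)
          (Finset.mem_univ i)
      exact (sq_le_one_iff₀ (norm_nonneg _)).1 h1
  have hqJ : ∀ v ∈ Kc, 0 < qf J v := by
    intro v hv
    rw [hKc] at hv
    have h1 := hJδ v
    rw [show nsq v = 1 from hv, mul_one] at h1
    exact lt_of_lt_of_le hδ h1
  have hnorm : ∀ v : n → ℂ, v ≠ 0 → (((Real.sqrt (nsq v))⁻¹ : ℝ) : ℂ) • v ∈ Kc := by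
    intro v hv
    rw [hKc]
    show nsq _ = 1
    rw [nsq_smul, Complex.norm_real, Real.norm_eq_abs, sq_abs, inv_pow,
      Real.sq_sqrt (nsq_nonneg v), inv_mul_cancel₀ (hpos v hv).ne']
  obtain ⟨w0, hw0, hmax⟩ := hcomp.exists_isMaxOn ⟨_, hnorm w hw⟩
    (f := fun v => qf P v / qf J v)
    ((cont_qf P).continuousOn.div (cont_qf J).continuousOn fun v hv => (hqJ v hv).ne')
  obtain ⟨lam, hlam⟩ : ∃ lam : ℝ, lam = qf P w0 / qf J w0 := ⟨_, rfl⟩
  have hle : ∀ v : n → ℂ, qf P v ≤ lam * qf J v := by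
    intro v
    by_cases hv : v = 0
    · subst hv
      unfold qf
      simp
    have h1 : qf P ((((Real.sqrt (nsq v))⁻¹ : ℝ) : ℂ) • v) /
        qf J ((((Real.sqrt (nsq v))⁻¹ : ℝ) : ℂ) • v) ≤ qf P w0 / qf J w0 := hmax (hnorm v hv)
    have h2 : 0 < qf J v := lt_of_lt_of_le (mul_pos hδ (hpos v hv)) (hJδ v)
    have h3 : (0 : ℝ) < ((Real.sqrt (nsq v))⁻¹) ^ 2 := by
      rw [inv_pow, Real.sq_sqrt (nsq_nonneg v)]
      exact inv_pos.2 (hpos v hv)
    rw [qf_smul, qf_smul, mul_div_mul_left _ _ h3.ne', ← hlam, div_le_iff₀ h2] at h1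
    exact h1
  have heq : qf P w0 = lam * qf J w0 := by
    rw [hlam, div_mul_cancel₀ _ (hqJ w0 hw0).ne']
  have hlam0 : 0 ≤ lam := by
    rw [hlam, ← hPq]
    exact div_nonneg (hJp0 _) (hqJ w0 hw0).le
  -- the eigenvector
  obtain ⟨D, hD⟩ : ∃ D, D = (lam : ℂ) • J - P := ⟨_, rfl⟩
  have hDH : D.IsHermitian := by
    rw [hD]
    refine Matrix.IsHermitian.sub ?_ hPH
    unfold Matrix.IsHermitian
    rw [Matrix.conjTranspose_smul, hJ.eq, Complex.star_def, Complex.conj_ofReal]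
  have hDq : ∀ v, qf D v = lam * qf J v - qf P v := by
    intro v
    rw [hD]
    unfold qf
    rw [Matrix.sub_mulVec, dotProduct_sub, Complex.sub_re, Matrix.smul_mulVec, dotProduct_smul,
      smul_eq_mul, Complex.re_ofReal_mul]
  have hDpsd : D.PosSemidef := by
    refine Matrix.PosSemidef.of_dotProduct_mulVec_nonneg hDH fun v => ?_
    rw [form_realI hDH, hDq]
    exact_mod_cast sub_nonneg.2 (hle v)
  have hD0 : D *ᵥ w0 = 0 := by
    rw [← hDpsd.dotProduct_mulVec_zero_iff, form_realI hDH, hDq, heq, sub_self, Complex.ofReal_zero]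
  have heig : P *ᵥ w0 = (lam : ℂ) • (J *ᵥ w0) := by
    rw [hD, Matrix.sub_mulVec, Matrix.smul_mulVec, sub_eq_zero] at hD0
    exact hD0.symm
  -- the bound
  have hJw : 0 < nsq (J *ᵥ w0) := by
    refine hpos _ fun h => ?_
    have h1 := hqJ w0 hw0
    unfold qf at h1
    rw [h] at h1
    simp at h1
  have h1 : lam ^ 2 * nsq (J *ᵥ w0) ≤ C ^ 2 * nsq (J *ᵥ w0) := by
    have h2 : nsq (P *ᵥ w0) = lam ^ 2 * nsq (J *ᵥ w0) := by
      rw [heig, nsq_smul, Complex.norm_real, Real.norm_eq_abs, sq_abs]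
    rw [← h2, hP, ← Matrix.mulVec_mulVec, ← Matrix.mulVec_mulVec]
    exact (nsq_adj A hA _).trans (hJA w0)
  have h2 : lam ^ 2 ≤ C ^ 2 := le_of_mul_le_mul_right h1 hJw
  have h3 : lam ≤ C := (sq_le_sq₀ hlam0 hC).1 h2
  rw [hPq]
  refine (hle w).trans (mul_le_mul_of_nonneg_right h3 ?_)
  exact (mul_nonneg hδ.le (nsq_nonneg w)).trans (hJδ w)

end Pool.Agent.T2h98.AC
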