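import Pool.Agent.T2h98.AC.Stm2
import Pool.Agent.N659.HB.FinG

/-! From the gap to absolutely continuous spectrum (task KGN), after the starting file
`Pool/Agent/N659/HB/FinG.lean`. -/

set_option autoImplicit false

namespace Pool.Agent.T2h98.AC

open MeasureTheory Filter Pool.Agent.W792.LL Pool.Agent.W792.WA Pool.Agent.N659.HB ProbabilityTheory
open scoped Topology ENNReal

noncomputable section

theorem kgn (hG : T_GAPN) (hT : S_TRG) (hC : S_CHK) (hAe : S_AEQK) (hAf : S_AFF) (hW : S_WS)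
    (hψ : ∃ ψ : C(UnitAddCircle, ℝ), IsSemi ψ ∧ ∀ d : ℕ, 0 < d → ∃ C : ℝ, 0 < C ∧
      ∀ (M : ℕ) (x : Fin d → ℤ),
      ‖UnitAddTorus.mFourierCoeff (fun k : UnitAddTorus (Fin d) =>
        ((ψ ((M * lap d k / (2 * Real.pi) : ℝ) : UnitAddCircle) : ℝ) : ℂ)) x‖
        ≤ C / (1 + ‖x‖) ^ ((d : ℝ) / 3)) : T_KGN := by
  intro d hd
  have hd0 : 0 < d := by omega
  have hd1 : (0 : ℝ) < d := by exact_mod_cast hd0
  obtain ⟨ψ, hψ1, hψ2⟩ := hψ
  obtain ⟨Cd, hCd, hCd1⟩ := hψ2 d hd0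
  refine ⟨Cd, hCd, fun h hh0 hh a ha ha2 => ?_⟩
  obtain ⟨σ₁, h0, hev⟩ := (mem_nhdsGT_iff_exists_Ioc_subset).1 (hG ψ hψ1 d hd h hh0 hh a ha ha2)
  have h0' : (0 : ℝ) < σ₁ := h0
  refine ⟨σ₁, h0', fun σ hσ hσ1 => ?_⟩
  obtain ⟨τ, hτ, hgap⟩ := hev ⟨hσ, hσ1⟩
  obtain ⟨γ, hγd⟩ : ∃ γ : ℝ, γ = 2 * d / a := ⟨_, rfl⟩
  have hγ : 0 < γ := by rw [hγd]; positivity
  obtain ⟨l, hl⟩ : ∃ l : ℝ, l = σ ^ (2 + h) / 2 := ⟨_, rfl⟩
  have hlpos : 0 < l := by rw [hl]; positivity
  have h2l : 2 * l = σ ^ (2 + h) := by rw [hl]; ring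
  rw [← hγd, ← hl] at hgap
  have hgs : 0 < γ * σ := by positivity
  obtain ⟨X, -, hX1, hX2, -⟩ := hT (γ * σ) 3 hgs le_rfl
  have hm2 : Measurable fun x : ℝ => (γ * σ) * x := by fun_prop
  have hP2 : IsProbabilityMeasure ((gaussianReal 0 1).map fun x => (γ * σ) * x) :=
    Measure.isProbabilityMeasure_map hm2.aemeasurable
  have hmap : ((gaussianReal 0 1).map fun x => (γ * σ) * x) = qlaw X := by
    rw [hX1]
    have h := gaussianReal_map_const_mul (μ := 0) (v := 1) (γ * σ)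
    rw [mul_zero, mul_one] at h
    exact h
  obtain ⟨b, hb1', hb2⟩ := of_gapK hC hAe hAf hψ1 hd0 (adjm d) (gaussianReal 0 1) γ σ l (-a) hγ hσ
    hlpos (by rw [hmap]; exact hX2) hτ (hgap _ rfl)
  set f : C(ℝ, ℝ) := ⟨fun t => 2 * (d : ℝ) - t, by fun_prop⟩ with hf
  refine ⟨b.comp f, fun t => ?_, fun x => ?_, ?_⟩
  · rw [← h2l]
    exact G16.IsSum.bound hψ1.bound hb1' _
  · have h1 := hW d ψ Cd (2 * l) b hd0 hCd.le (by positivity) hCd1 hb1' x
    have e : (fun k : UnitAddTorus (Fin d) => (((b.comp f) (adjm d k) : ℝ) : ℂ))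
        = fun k => ((b (lap d k) : ℝ) : ℂ) := by
      funext k
      have : f (adjm d k) = lap d k := by
        simp only [hf, adjm, ContinuousMap.coe_mk, ContinuousMap.sub_apply,
          ContinuousMap.const_apply]
        ring
      rw [ContinuousMap.comp_apply, this]
    rw [e]
    refine h1.trans (le_of_eq ?_)
    rw [h2l]; ring
  · have e3 : -a + 4 * d / γ = a := by
      rw [hγd]; field_simp; ring
    have e4 : (b.comp f).comp (adjm d) = gK b d := by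
      ext k
      have : f (adjm d k) = lap d k := by
        simp only [hf, adjm, ContinuousMap.coe_mk, ContinuousMap.sub_apply,
          ContinuousMap.const_apply]
        ring
      simp only [gK, ContinuousMap.comp_apply]
      rw [← this]
    rw [e4]
    filter_upwards [hb2] with v hv
    rw [e3] at hv
    exact hv

end

end Pool.Agent.T2h98.AC
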