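import Pool.Agent.T2h98.AC.Stm

/-! Lower bound for Poisson sums on large tori. -/

set_option autoImplicit false
set_option linter.unusedSectionVars false

open scoped BigOperators Matrix Topology
open MeasureTheory ProbabilityTheory Filter

namespace Pool.Agent.T2h98.AC.LBG

open Pool.Agent.W788.MFP.Four (T e NN adj K)
open Pool.Agent.W788.BK (nsq hs PP JJ hi Low cr)

/-- the real part of a character -/
theorem cos_val {L : ℕ} [NeZero L] (x : ZMod L) :
    (ZMod.stdAddChar x : ℂ).re = Real.cos (2 * Real.pi * ((x.val : ℝ) / L)) := by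
  have h : x = (((x.val : ℕ) : ℤ) : ZMod L) := by
    push_cast
    rw [ZMod.natCast_zmod_val]
  conv_lhs => rw [h]
  rw [ZMod.stdAddChar_coe]
  have h1 : (2 * Real.pi * Complex.I * (((x.val : ℕ) : ℤ) : ℂ) / (L : ℂ) : ℂ) =
      ((2 * Real.pi * ((x.val : ℝ) / L) : ℝ) : ℂ) * Complex.I := by
    push_cast
    ring
  rw [h1, Complex.exp_ofReal_mul_I_re]

/-- many points in an arc -/
theorem cnt {L : ℕ} [NeZero L] (θ r : ℝ) (hθ : 0 ≤ θ) (hr0 : 0 ≤ r) (hr : θ + r < 1)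
    (h2 : 2 ≤ r * L) :
    r * L / 2 ≤ ((Finset.univ.filter fun x : ZMod L =>
      θ ≤ (x.val : ℝ) / L ∧ (x.val : ℝ) / L ≤ θ + r).card : ℝ) := by
  have hL : (0 : ℝ) < L := by exact_mod_cast Nat.pos_of_ne_zero (NeZero.ne L)
  have hjL : ∀ j : ℕ, j ≤ ⌊(θ + r) * L⌋₊ → (j : ℝ) ≤ (θ + r) * L ∧ j < L := by
    intro j hj
    have h3 : (j : ℝ) ≤ (θ + r) * L := (Nat.le_floor_iff (by positivity)).1 hj
    refine ⟨h3, ?_⟩
    have : (j : ℝ) < L := lt_of_le_of_lt h3 (by nlinarith)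
    exact_mod_cast this
  have h1 : (Finset.Icc ⌈θ * L⌉₊ ⌊(θ + r) * L⌋₊).card ≤ (Finset.univ.filter fun x : ZMod L =>
      θ ≤ (x.val : ℝ) / L ∧ (x.val : ℝ) / L ≤ θ + r).card := by
    apply Finset.card_le_card_of_injOn (fun j : ℕ => (j : ZMod L))
    · intro j hj
      rw [Finset.mem_coe, Finset.mem_Icc] at hj
      obtain ⟨h3, h5⟩ := hjL j hj.2
      have h4 : θ * L ≤ j := Nat.ceil_le.1 hj.1
      rw [Finset.mem_coe, Finset.mem_filter]
      refine ⟨Finset.mem_univ _, ?_⟩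
      rw [ZMod.val_natCast_of_lt h5]
      exact ⟨(le_div_iff₀ hL).2 h4, (div_le_iff₀ hL).2 h3⟩
    · intro j hj k hk hjk
      rw [Finset.mem_coe, Finset.mem_Icc] at hj hk
      have h5 := (hjL j hj.2).2
      have h6 := (hjL k hk.2).2
      have h7 := congrArg ZMod.val hjk
      simp only [ZMod.val_natCast_of_lt h5, ZMod.val_natCast_of_lt h6] at h7
      exact h7
  rw [Nat.card_Icc] at h1
  have h3 : (⌊(θ + r) * L⌋₊ : ℝ) + 1 > (θ + r) * L := Nat.lt_floor_add_one _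
  have h4 : (⌈θ * L⌉₊ : ℝ) < θ * L + 1 := Nat.ceil_lt_add_one (by positivity)
  have h5 : ((⌊(θ + r) * L⌋₊ + 1 : ℕ) : ℝ) - ((⌈θ * L⌉₊ : ℕ) : ℝ) ≤
      ((⌊(θ + r) * L⌋₊ + 1 - ⌈θ * L⌉₊ : ℕ) : ℝ) := by
    rw [sub_le_iff_le_add]
    exact_mod_cast (by omega : ⌊(θ + r) * L⌋₊ + 1 ≤ (⌊(θ + r) * L⌋₊ + 1 - ⌈θ * L⌉₊) + ⌈θ * L⌉₊)
  have h6 : ((⌊(θ + r) * L⌋₊ + 1 - ⌈θ * L⌉₊ : ℕ) : ℝ) ≤ ((Finset.univ.filter fun x : ZMod L =>
      θ ≤ (x.val : ℝ) / L ∧ (x.val : ℝ) / L ≤ θ + r).card : ℝ) := by exact_mod_cast h1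
  push_cast at h5
  nlinarith

/-- the angle of `s`, and cosines near it -/
theorem ang (s : ℝ) (hs : |s| ≤ 2) : ∃ θ : ℝ, 0 ≤ θ ∧ θ ≤ 1 / 2 ∧ ∀ r x : ℝ, θ ≤ x → x ≤ θ + r →
    |2 * Real.cos (2 * Real.pi * x) - s| ≤ 4 * Real.pi * r := by
  have hpi := Real.pi_pos
  have h1 := abs_le.1 hs
  refine ⟨Real.arccos (s / 2) / (2 * Real.pi), div_nonneg (Real.arccos_nonneg _) (by positivity), ?_, ?_⟩
  · rw [div_le_iff₀ (by positivity)]
    have := Real.arccos_le_pi (s / 2)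
    linarith
  · intro r x h2 h3
    have h4 : Real.cos (Real.arccos (s / 2)) = s / 2 := Real.cos_arccos (by linarith) (by linarith)
    have h5 : |Real.cos (2 * Real.pi * x) - Real.cos (Real.arccos (s / 2))| ≤
        |2 * Real.pi * x - Real.arccos (s / 2)| := Real.abs_cos_sub_cos_le _ _
    rw [h4] at h5
    have h6 : |2 * Real.pi * x - Real.arccos (s / 2)| ≤ 2 * Real.pi * r := by
      rw [div_le_iff₀ (by positivity)] at h2
      have h7 : Real.arccos (s / 2) = 2 * Real.pi * (Real.arccos (s / 2) / (2 * Real.pi)) := by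
        field_simp
      rw [abs_of_nonneg (by linarith)]
      have h8 : 2 * Real.pi * x ≤ 2 * Real.pi * (Real.arccos (s / 2) / (2 * Real.pi) + r) :=
        mul_le_mul_of_nonneg_left h3 (by positivity)
      rw [mul_add, ← h7] at h8
      linarith
    have h9 : 2 * Real.cos (2 * Real.pi * x) - s = 2 * (Real.cos (2 * Real.pi * x) - s / 2) := by
      ring
    rw [h9, abs_mul, abs_of_pos (by norm_num : (0 : ℝ) < 2)]
    linarith

end Pool.Agent.T2h98.AC.LBG

namespace Pool.Agent.T2h98.AC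

open Pool.Agent.W788.MFP.Four (T e NN adj K)
open Pool.Agent.W788.BK (nsq hs PP JJ hi Low cr)

theorem lbg : T_LBG := by
  classical
  intro d hd a ha
  obtain ⟨n, rfl⟩ : ∃ n, d = n + 1 := ⟨d - 1, by omega⟩
  have hpi := Real.pi_pos
  have hpi3 := Real.pi_gt_three
  have hn1 : (0 : ℝ) < (n : ℝ) + 1 := by positivity
  push_cast at ha
  -- the size of the arcs
  obtain ⟨r, hr⟩ : ∃ r : ℝ, r = min (1 / 4) ((2 - a / (n + 1)) / (4 * Real.pi * (n + 1))) :=
    ⟨_, rfl⟩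
  have hgap : 0 < 2 - a / (n + 1) := by
    rw [sub_pos, div_lt_iff₀ hn1]
    exact ha
  have hr0 : 0 < r := by
    rw [hr]
    exact lt_min (by norm_num) (by positivity)
  have hr1 : r ≤ 1 / 4 := by rw [hr]; exact min_le_left _ _
  have hr2 : n * (4 * Real.pi * r) ≤ 2 - a / (n + 1) := by
    have h1 : r ≤ (2 - a / (n + 1)) / (4 * Real.pi * (n + 1)) := by rw [hr]; exact min_le_right _ _
    rw [le_div_iff₀ (by positivity)] at h1
    have h2 : (0 : ℝ) ≤ 4 * Real.pi * r := by positivity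
    nlinarith
  refine ⟨(r / 2) ^ n / (16 * Real.pi), by positivity, ?_⟩
  intro Γ0 hΓ0
  refine ⟨⌈2 / r⌉₊ + ⌈8 * Real.pi / Γ0⌉₊, ?_⟩
  intro L _ hL0 E Γ hE hΓ hΓ4
  have hL : (0 : ℝ) < L := by exact_mod_cast Nat.pos_of_ne_zero (NeZero.ne L)
  have hΓp : 0 < Γ := lt_of_lt_of_le hΓ0 hΓ
  have hLr : 2 ≤ r * L := by
    have h1 : (2 / r : ℝ) ≤ ⌈2 / r⌉₊ := Nat.le_ceil _
    have h2 : ((⌈2 / r⌉₊ : ℕ) : ℝ) ≤ L := by exact_mod_cast (by omega : ⌈2 / r⌉₊ ≤ L)
    have h3 : 2 / r ≤ L := h1.trans h2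
    rw [div_le_iff₀ hr0] at h3
    linarith
  have hLG : 2 ≤ Γ / (4 * Real.pi) * L := by
    have h1 : (8 * Real.pi / Γ0 : ℝ) ≤ ⌈8 * Real.pi / Γ0⌉₊ := Nat.le_ceil _
    have h2 : ((⌈8 * Real.pi / Γ0⌉₊ : ℕ) : ℝ) ≤ L := by
      exact_mod_cast (by omega : ⌈8 * Real.pi / Γ0⌉₊ ≤ L)
    have h3 : 8 * Real.pi / Γ0 ≤ L := h1.trans h2
    rw [div_le_iff₀ hΓ0] at h3
    rw [div_mul_eq_mul_div, le_div_iff₀ (by positivity)]
    nlinarith
  obtain ⟨t, ht⟩ : ∃ t : ℝ, t = E / (n + 1) := ⟨_, rfl⟩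
  have hta : |t| ≤ a / (n + 1) := by
    rw [ht, abs_div, abs_of_pos hn1]
    exact div_le_div_of_nonneg_right hE hn1.le
  obtain ⟨θ, hθ0, hθ1, hθ⟩ := LBG.ang t (by linarith)
  obtain ⟨A, hA⟩ : ∃ A : Finset (ZMod L), A = Finset.univ.filter fun x : ZMod L =>
    θ ≤ (x.val : ℝ) / L ∧ (x.val : ℝ) / L ≤ θ + r := ⟨_, rfl⟩
  have hAc : r * L / 2 ≤ (A.card : ℝ) := by
    rw [hA]
    exact LBG.cnt θ r hθ0 hr0.le (by linarith) hLr
  -- the sum over the last coordinate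
  have key : ∀ y : Fin n → ZMod L, (∀ i, y i ∈ A) →
      L / (16 * Real.pi) ≤ ∑ x : ZMod L,
        Γ / ((adj (Fin.cons x y : T (n + 1) L) - E) ^ 2 + Γ ^ 2) := by
    intro y hy
    obtain ⟨s, hs⟩ : ∃ s : ℝ, s = E - ∑ i, 2 * Real.cos (2 * Real.pi * (((y i).val : ℝ) / L)) :=
      ⟨_, rfl⟩
    have hs2 : |s| ≤ 2 := by
      have h1 : s = t - ∑ i, (2 * Real.cos (2 * Real.pi * (((y i).val : ℝ) / L)) - t) := by
        rw [Finset.sum_sub_distrib, Finset.sum_const, Finset.card_univ, Fintype.card_fin,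
          nsmul_eq_mul, hs, ht]
        field_simp
        ring
      have h2 : |∑ i, (2 * Real.cos (2 * Real.pi * (((y i).val : ℝ) / L)) - t)| ≤
          n * (4 * Real.pi * r) := by
        calc _ ≤ ∑ i, |2 * Real.cos (2 * Real.pi * (((y i).val : ℝ) / L)) - t| :=
              Finset.abs_sum_le_sum_abs _ _
          _ ≤ ∑ _i : Fin n, 4 * Real.pi * r := by
              refine Finset.sum_le_sum fun i _ => ?_
              have h3 := hy i
              rw [hA, Finset.mem_filter] at h3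
              exact hθ r _ h3.2.1 h3.2.2
          _ = _ := by
              rw [Finset.sum_const, Finset.card_univ, Fintype.card_fin, nsmul_eq_mul]
      have h4 := abs_le.1 h2
      have h5 := abs_le.1 hta
      rw [h1, abs_le]
      constructor <;> linarith
    obtain ⟨φ, hφ0, hφ1, hφ⟩ := LBG.ang s hs2
    have h1 := LBG.cnt (L := L) φ (Γ / (4 * Real.pi)) hφ0 (by positivity) (by
      have : Γ / (4 * Real.pi) < 1 / 2 := by
        rw [div_lt_iff₀ (by positivity)]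
        nlinarith
      linarith) hLG
    have h2 : ∑ x ∈ (Finset.univ.filter fun x : ZMod L =>
        φ ≤ (x.val : ℝ) / L ∧ (x.val : ℝ) / L ≤ φ + Γ / (4 * Real.pi)), 1 / (2 * Γ) ≤
        ∑ x : ZMod L, Γ / ((adj (Fin.cons x y : T (n + 1) L) - E) ^ 2 + Γ ^ 2) := by
      calc _ ≤ ∑ x ∈ (Finset.univ.filter fun x : ZMod L =>
            φ ≤ (x.val : ℝ) / L ∧ (x.val : ℝ) / L ≤ φ + Γ / (4 * Real.pi)),
            Γ / ((adj (Fin.cons x y : T (n + 1) L) - E) ^ 2 + Γ ^ 2) := by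
            refine Finset.sum_le_sum fun x hx => ?_
            rw [Finset.mem_filter] at hx
            have h3 := hφ _ _ hx.2.1 hx.2.2
            have h4 : adj (Fin.cons x y : T (n + 1) L) - E =
                2 * Real.cos (2 * Real.pi * ((x.val : ℝ) / L)) - s := by
              unfold adj
              rw [Fin.sum_univ_succ, hs]
              simp only [Fin.cons_zero, Fin.cons_succ, LBG.cos_val]
              ring
            have h5 : 4 * Real.pi * (Γ / (4 * Real.pi)) = Γ := by field_simp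
            rw [h5] at h3
            have h6 : (adj (Fin.cons x y : T (n + 1) L) - E) ^ 2 ≤ Γ ^ 2 := by
              rw [h4]
              exact sq_le_sq' (abs_le.1 h3).1 (abs_le.1 h3).2
            rw [div_le_div_iff₀ (by positivity) (by positivity)]
            nlinarith
        _ ≤ _ := Finset.sum_le_sum_of_subset_of_nonneg (Finset.subset_univ _)
            fun x _ _ => by positivity
    rw [Finset.sum_const, nsmul_eq_mul] at h2
    refine le_trans ?_ h2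
    refine le_trans (le_of_eq ?_) (mul_le_mul_of_nonneg_right h1 (by positivity))
    field_simp
    ring
  -- the full sum
  have hsum : ∑ k : T (n + 1) L, Γ / ((adj k - E) ^ 2 + Γ ^ 2) =
      ∑ y : Fin n → ZMod L, ∑ x : ZMod L,
        Γ / ((adj (Fin.cons x y : T (n + 1) L) - E) ^ 2 + Γ ^ 2) := by
    rw [← Equiv.sum_comp (Fin.consEquiv fun _ => ZMod L), Fintype.sum_prod_type,
      Finset.sum_comm]
    rfl
  rw [hsum]
  have h1 : ∑ y ∈ Fintype.piFinset (fun _ : Fin n => A), L / (16 * Real.pi) ≤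
      ∑ y : Fin n → ZMod L, ∑ x : ZMod L,
        Γ / ((adj (Fin.cons x y : T (n + 1) L) - E) ^ 2 + Γ ^ 2) := by
    calc _ ≤ ∑ y ∈ Fintype.piFinset (fun _ : Fin n => A), ∑ x : ZMod L,
        Γ / ((adj (Fin.cons x y : T (n + 1) L) - E) ^ 2 + Γ ^ 2) := by
          refine Finset.sum_le_sum fun y hy => ?_
          exact key y (Fintype.mem_piFinset.1 hy)
      _ ≤ _ := Finset.sum_le_sum_of_subset_of_nonneg (Finset.subset_univ _)
          fun y _ _ => Finset.sum_nonneg fun x _ => by positivity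
  rw [Finset.sum_const, Fintype.card_piFinset, Finset.prod_const, Finset.card_univ,
    Fintype.card_fin, nsmul_eq_mul] at h1
  push_cast at h1
  have h2 : (r * L / 2) ^ n * (L / (16 * Real.pi)) ≤ (A.card : ℝ) ^ n * (L / (16 * Real.pi)) := by
    apply mul_le_mul_of_nonneg_right _ (by positivity)
    exact pow_le_pow_left₀ (by positivity) hAc n
  unfold NN
  have h3 : (r / 2) ^ n / (16 * Real.pi) =
      ((L : ℝ) ^ (n + 1))⁻¹ * ((r * L / 2) ^ n * (L / (16 * Real.pi))) := by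
    rw [div_pow, div_pow, mul_pow, pow_succ]
    field_simp
  rw [h3]
  exact mul_le_mul_of_nonneg_left (h2.trans h1) (by positivity)

end Pool.Agent.T2h98.AC
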