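import Pool.Agent.T2h98.AC.CovH

/-! Local quantities (helper38). -/

set_option autoImplicit false
set_option linter.all false

open scoped BigOperators Matrix Topology
open MeasureTheory ProbabilityTheory Filter

namespace Pool.Agent.T2h98.AC.LQ

open Pool.Agent.W788.MFP.Four (T e NN adj K)
open Pool.Agent.W788.BK (nsq hs PP JJ hi Low cr nsq_nonneg)
open Pool.Agent.W240.BK (BC BM cs_int)
open Pool.Agent.T2h98.QD
open CovH

variable {d L : ℕ} [NeZero L]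

theorem nsq_le_of (A : Matrix (T d L) (T d L) ℂ) {c : ℝ}
    (h : ∀ w : T d L → ℂ, nsq (A *ᵥ w) ≤ nsq w / c ^ 2) : nsq (A *ᵥ dl 0) ≤ 1 / c ^ 2 := by
  have := h (dl 0)
  rwa [nsq_dl] at this

/-- the four sums needed -/
theorem sums (m : T d L → ℂ) (hm : ∀ k, ‖m k‖ ≤ 1) (A : Matrix (T d L) (T d L) ℂ) {c : ℝ}
    (h1 : ∀ w : T d L → ℂ, nsq (A *ᵥ w) ≤ nsq w / c ^ 2)
    (h2 : ∀ w : T d L → ℂ, nsq (Aᴴ *ᵥ w) ≤ nsq w / c ^ 2) :
    ∑ y, ‖(Mo m * A) 0 y‖ ^ 2 ≤ 1 / c ^ 2 ∧ ∑ x, ‖(Mo m * A) x 0‖ ^ 2 ≤ 1 / c ^ 2 := by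
  have hm2 : ∀ k, ‖m k‖ ^ 2 ≤ 1 := fun k => pow_le_one₀ (norm_nonneg _) (hm k)
  have hm3 : ∀ k, ‖(starRingEnd ℂ) (m k)‖ ^ 2 ≤ 1 := fun k => by
    rw [RCLike.norm_conj]
    exact hm2 k
  constructor
  · rw [row_sum, Matrix.conjTranspose_mul, ← Matrix.mulVec_mulVec, mo_star]
    refine (h2 _).trans ?_
    apply div_le_div_of_nonneg_right _ (sq_nonneg c)
    refine (nsq_mo _ 1 hm3 _).trans ?_
    rw [nsq_dl, one_mul]
  · rw [col_sum, ← Matrix.mulVec_mulVec]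
    refine (nsq_mo _ 1 hm2 _).trans ?_
    rw [one_mul]
    exact nsq_le_of A h1

theorem bc_mo {Bm : (T d L → ℝ) → Matrix (T d L) (T d L) ℂ} (m : T d L → ℂ)
    (hbc : ∀ x y, BC fun V => Bm V x y) (x y : T d L) : BC fun V => (Mo m * Bm V) x y :=
  (BM.mul (BM.const (Mo m)) hbc) x y

theorem eb_eq (β : T d L → ℝ) (A : Matrix (T d L) (T d L) ℂ) :
    eb β (A *ᵥ dl 0) = ∑ x, β x * ‖A x 0‖ ^ 2 := by
  unfold eb dl
  refine Finset.sum_congr rfl fun x _ => ?_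
  rw [Matrix.mulVec_single_one, Matrix.col_apply]

/-- the error `e1` for the matrix function `A` -/
theorem err {σ δ p0 E c : ℝ} {b0 : ℕ} {β : (T d L → ℝ) → T d L → ℝ} {B : Finset (T d L)}
    (hβ : Bet σ δ p0 b0 β B) (hδ : 0 < δ) {A : (T d L → ℝ) → Matrix (T d L) (T d L) ℂ}
    (hbc : ∀ x y, BC fun V => A V x y)
    (hAc : ∀ (V : T d L → ℝ) (a x y : T d L), A (fun z => V (z + a)) x y = A V (x + a) (y + a))
    (h1 : ∀ (V : T d L → ℝ) (w : T d L → ℂ), nsq (A V *ᵥ w) ≤ nsq w / c ^ 2)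
    (h2 : ∀ (V : T d L → ℝ) (w : T d L → ℂ), nsq ((A V)ᴴ *ᵥ w) ≤ nsq w / c ^ 2) :
    Integrable (fun V => eb (β V) (Sg E δ *ᵥ (A V *ᵥ dl 0)) + eb (β V) (A V *ᵥ dl 0))
      (GP (T d L)) ∧
    ∫ V, (eb (β V) (Sg E δ *ᵥ (A V *ᵥ dl 0)) + eb (β V) (A V *ᵥ dl 0)) ∂(GP (T d L)) ≤
      2 / c ^ 2 * Real.sqrt p0 ∧
    Integrable (fun V => (eb (β V) (Sg E δ *ᵥ (A V *ᵥ dl 0)) + eb (β V) (A V *ᵥ dl 0)) ^ 2)
      (GP (T d L)) ∧
    ∫ V, (eb (β V) (Sg E δ *ᵥ (A V *ᵥ dl 0)) + eb (β V) (A V *ᵥ dl 0)) ^ 2 ∂(GP (T d L)) ≤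
      4 / c ^ 4 * p0 := by
  have k0 := fun V => sums (fun _ : T d L => (1 : ℂ)) (fun _ => by simp) (A V) (h1 V) (h2 V)
  simp only [mo_one, Matrix.one_mul] at k0
  have k1 := fun V => sums (fun k : T d L => (((adj k - E) / JJ E δ k : ℝ) : ℂ))
    (sg_le hδ) (A V) (h1 V) (h2 V)
  obtain ⟨a1, a2, a3, a4⟩ := eb_bounds hβ hbc hAc (fun V => (k0 V).1) fun V => (k0 V).2
  obtain ⟨c1, c2, c3, c4⟩ := eb_bounds hβ (bc_mo (fun k : T d L => (((adj k - E) / JJ E δ k : ℝ) : ℂ))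
    hbc) (mo_mul_cov _ hAc) (fun V => (k1 V).1) fun V => (k1 V).2
  have e1 : ∀ V, eb (β V) (A V *ᵥ dl 0) = ∑ x, β V x * ‖A V x 0‖ ^ 2 := fun V => eb_eq _ _
  have e2 : ∀ V, eb (β V) (Sg E δ *ᵥ (A V *ᵥ dl 0)) = ∑ x, β V x *
      ‖(Mo (fun k : T d L => (((adj k - E) / JJ E δ k : ℝ) : ℂ)) * A V) x 0‖ ^ 2 := fun V => by
    rw [Matrix.mulVec_mulVec, eb_eq]
    rfl
  simp only [e1, e2]
  have hsq : ∀ s t : ℝ, (s + t) ^ 2 ≤ 2 * s ^ 2 + 2 * t ^ 2 := fun s t => by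
    nlinarith [sq_nonneg (s - t)]
  have i5 := (c3.const_mul 2).add (a3.const_mul 2)
  have i6 : Integrable (fun V => (∑ x, β V x *
      ‖(Mo (fun k : T d L => (((adj k - E) / JJ E δ k : ℝ) : ℂ)) * A V) x 0‖ ^ 2 +
        ∑ x, β V x * ‖A V x 0‖ ^ 2) ^ 2) (GP (T d L)) := by
    refine Integrable.mono' i5 ((c1.add a1).aestronglyMeasurable.pow 2) ?_
    exact Filter.Eventually.of_forall fun V => by
      rw [Real.norm_eq_abs, abs_of_nonneg (sq_nonneg _)]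
      exact hsq _ _
  refine ⟨c1.add a1, ?_, i6, ?_⟩
  · rw [integral_add c1 a1]
    have : 2 / c ^ 2 * Real.sqrt p0 = 1 / c ^ 2 * Real.sqrt p0 + 1 / c ^ 2 * Real.sqrt p0 := by ring
    rw [this]
    exact add_le_add c2 a2
  · refine (integral_mono i6 i5 fun V => hsq _ _).trans ?_
    simp only [Pi.add_apply]
    rw [integral_add (c3.const_mul 2) (a3.const_mul 2), integral_const_mul, integral_const_mul]
    have : 4 / c ^ 4 * p0 = 2 * ((1 / c ^ 2) ^ 2 * p0) + 2 * ((1 / c ^ 2) ^ 2 * p0) := by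
      rw [div_pow, one_pow, ← pow_mul]
      ring
    rw [this]
    exact add_le_add (mul_le_mul_of_nonneg_left c4 (by norm_num))
      (mul_le_mul_of_nonneg_left a4 (by norm_num))

theorem qf_J1_dl (E δ : ℝ) :
    qf (J1 (d := d) (L := L) E δ) (dl 0) = (NN d L)⁻¹ * ∑ k : T d L, (JJ E δ k)⁻¹ := by
  unfold J1
  rw [KQ.qf_Mo]
  congr 1
  refine Finset.sum_congr rfl fun k _ => ?_
  rw [fc_dl, e_norm, one_pow, mul_one]

end Pool.Agent.T2h98.AC.LQ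

namespace Pool.Agent.T2h98.AC

open Pool.Agent.W788.MFP.Four (T e NN adj K)
open Pool.Agent.W788.BK (nsq hs PP JJ hi Low cr nsq_nonneg)
open Pool.Agent.W240.BK (BC BM cs_int)
open Pool.Agent.T2h98.QD
open CovH LQ

theorem lq (hB : T_RB) (hR : T_RX) (hP : T_POIN) : T_LQ := by
  intro d L _ X E δ ε c σ p0 Q g b0 β B hX hσ hσ1 hβ hQ1 hg1 hQ hg
  have hδ := hX.hδ
  have hε := hX.hε
  have hc := hX.hc
  have hNN := Pool.Agent.W788.MFP.Four.NN_pos (d := d) (L := L)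
  obtain ⟨r1, r2, r3, r4, r5, r6, _, r8⟩ := hR d L X c σ hc hX.im2
  have hbc : ∀ x y, BC fun V : T d L → ℝ => RX X σ V x y := fun x y =>
    ⟨r4 x y, c⁻¹, fun V => r3 V x y⟩
  have hbcH : ∀ x y, BC fun V : T d L → ℝ => (RX X σ V)ᴴ x y := fun x y => BC.star' (hbc y x)
  -- pointwise facts
  have hu : ∀ V : T d L → ℝ, TX X σ V *ᵥ (RX X σ V *ᵥ dl 0) = dl 0 := fun V => by
    rw [Matrix.mulVec_mulVec, (r1 V).1, Matrix.one_mulVec]
  have hr : ∀ V : T d L → ℝ, (TX X σ V)ᴴ *ᵥ ((RX X σ V)ᴴ *ᵥ dl 0) = dl 0 := fun V => by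
    rw [Matrix.mulVec_mulVec, ← Matrix.conjTranspose_mul, (r1 V).2, Matrix.conjTranspose_one,
      Matrix.one_mulVec]
  have hul : ∀ (V : T d L → ℝ) (y : T d L), (RX X σ V *ᵥ dl 0) y = RX X σ V y 0 := fun V y => by
    unfold dl
    rw [Matrix.mulVec_single_one, Matrix.col_apply]
  have hrl : ∀ (V : T d L → ℝ) (y : T d L), ((RX X σ V)ᴴ *ᵥ dl 0) y = star (RX X σ V 0 y) :=
    fun V y => by
      unfold dl
      rw [Matrix.mulVec_single_one, Matrix.col_apply, Matrix.conjTranspose_apply]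
  have hdl : ∀ w : T d L → ℂ, star w ⬝ᵥ dl 0 = star (w 0) := fun w => by
    unfold dl
    rw [dotProduct_single, mul_one, Pi.star_apply]
  have hI1 : ∀ V : T d L → ℝ, -(star (RX X σ V *ᵥ dl 0) ⬝ᵥ dl 0).im = (RX X σ V 0 0).im :=
    fun V => by
      rw [hdl, hul]
      show -(-(RX X σ V 0 0).im) = _
      ring
  have hI2 : ∀ V : T d L → ℝ, (star ((RX X σ V)ᴴ *ᵥ dl 0) ⬝ᵥ dl 0).im = (RX X σ V 0 0).im :=
    fun V => by rw [hdl, hrl, star_star]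
  have hJ1 : qf (J1 (d := d) (L := L) E δ) (dl 0) ≤ g := by
    rw [qf_J1_dl, inv_mul_le_iff₀ hNN]
    linarith
  set e1 : (T d L → ℝ) → ℝ := fun V => eb (β V) (Sg E δ *ᵥ (RX X σ V *ᵥ dl 0)) +
    eb (β V) (RX X σ V *ᵥ dl 0) with he1
  set e2 : (T d L → ℝ) → ℝ := fun V => eb (β V) (Sg E δ *ᵥ ((RX X σ V)ᴴ *ᵥ dl 0)) +
    eb (β V) ((RX X σ V)ᴴ *ᵥ dl 0) with he2
  obtain ⟨i1, j1, k1, l1⟩ := err (E := E) hβ hδ hbc r6 (fun V w => (r2 V w).1) fun V w => (r2 V w).2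
  obtain ⟨i2, j2, k2, l2⟩ := err (E := E) hβ hδ hbcH (star_cov r6) (fun V w => (r2 V w).2)
    fun V w => by
      rw [Matrix.conjTranspose_conjTranspose]
      exact (r2 V w).1
  have q1 : ∀ V, qf (J0 E δ) (RX X σ V *ᵥ dl 0) ≤
      2 * g + 36 * (δ / ε) * (RX X σ V 0 0).im + e1 V := fun V => by
    have := ((hB d L X E δ ε c σ hX hσ V (β V) (hβ.nonneg V) (hβ.fb V E)
      (RX X σ V *ᵥ dl 0) (dl 0)).1 (hu V)).2.2.1
    rw [hI1] at this
    simp only [he1]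
    linarith
  have q2 : ∀ V, qf (J0 E δ) ((RX X σ V)ᴴ *ᵥ dl 0) ≤
      2 * g + 36 * (δ / ε) * (RX X σ V 0 0).im + e2 V := fun V => by
    have := ((hB d L X E δ ε c σ hX hσ V (β V) (hβ.nonneg V) (hβ.fb V E)
      ((RX X σ V)ᴴ *ᵥ dl 0) (dl 0)).2 (hr V)).2.2.1
    rw [hI2] at this
    simp only [he2]
    linarith
  have q3 : ∀ V, nsq ((RX X σ V)ᴴ *ᵥ dl 0) ≤
      (4 * δ)⁻¹ * (2 * g + 36 * (δ / ε) * (RX X σ V 0 0).im + e2 V) +
        16 / ε * (RX X σ V 0 0).im := fun V => by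
    have := ((hB d L X E δ ε c σ hX hσ V (β V) (hβ.nonneg V) (hβ.fb V E)
      ((RX X σ V)ᴴ *ᵥ dl 0) (dl 0)).2 (hr V)).2.2.2.2
    rw [hI2] at this
    have h4 := mul_le_mul_of_nonneg_left (q2 V) (inv_nonneg.2 (by linarith : (0 : ℝ) ≤ 4 * δ))
    linarith
  have hebn : ∀ (V : T d L → ℝ) (w : T d L → ℂ), 0 ≤ eb (β V) w := fun V w =>
    Finset.sum_nonneg fun x _ => mul_nonneg (hβ.nonneg V x) (by positivity)
  have he1n : ∀ V, 0 ≤ e1 V := fun V => add_nonneg (hebn V _) (hebn V _)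
  have he2n : ∀ V, 0 ≤ e2 V := fun V => add_nonneg (hebn V _) (hebn V _)
  have hg0 : 0 ≤ g := by linarith
  have hde : 0 ≤ δ / ε := by positivity
  -- integrability
  have s1 : RC fun V : T d L → ℝ => ∑ y, ‖RX X σ V 0 y‖ ^ 2 * ‖RX X σ V y 0‖ ^ 2 :=
    RC.sum _ fun y _ => (RC.norm (hbc 0 y)).sq.mul (RC.norm (hbc y 0)).sq
  have s2 : RC fun V : T d L → ℝ => ∑ y, ‖RX X σ V 0 y‖ ^ 2 :=
    RC.sum _ fun y _ => (RC.norm (hbc 0 y)).sq
  have s3 : RC fun V : T d L → ℝ => ‖RX X σ V 0 0‖ ^ 2 := (RC.norm (hbc 0 0)).sq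
  have s4 : RC fun V : T d L → ℝ => (RX X σ V 0 0).im := RC.im (hbc 0 0)
  have hIm : ∫ V, (RX X σ V 0 0).im ∂(GP (T d L)) = (mX X σ).im := by
    unfold mX
    exact integral_im ((hbc 0 0).integrable _)
  refine ⟨?_, ?_, ?_, ?_⟩
  · have h1 : ∀ V, ∑ y, ‖RX X σ V 0 y‖ ^ 2 * ‖RX X σ V y 0‖ ^ 2 ≤
        Q * (16 * g ^ 2 + 5184 * (δ / ε) ^ 2 * ‖RX X σ V 0 0‖ ^ 2 + e1 V ^ 2 + e2 V ^ 2) := by
      intro V
      have h2 := hQ ((RX X σ V)ᴴ *ᵥ dl 0) (RX X σ V *ᵥ dl 0)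
      have h3 : ∑ y, ‖((RX X σ V)ᴴ *ᵥ dl 0) y‖ ^ 2 * ‖(RX X σ V *ᵥ dl 0) y‖ ^ 2 =
          ∑ y, ‖RX X σ V 0 y‖ ^ 2 * ‖RX X σ V y 0‖ ^ 2 := by
        refine Finset.sum_congr rfl fun y _ => ?_
        rw [hul, hrl, norm_star]
      rw [h3] at h2
      refine h2.trans (mul_le_mul_of_nonneg_left ?_ (by linarith))
      have h4 := EMBS.qf0_nonneg (E := E) hδ (RX X σ V *ᵥ dl 0)
      have h5 := EMBS.qf0_nonneg (E := E) hδ ((RX X σ V)ᴴ *ᵥ dl 0)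
      set I := (RX X σ V 0 0).im with hI
      have hI0 : 0 ≤ I := r8 V
      have hI3 : I ^ 2 ≤ ‖RX X σ V 0 0‖ ^ 2 := by
        rw [← sq_abs I]
        exact pow_le_pow_left₀ (abs_nonneg _) (Complex.abs_im_le_norm _) 2
      have h6 := mul_le_mul (q2 V) (q1 V) h4 (h5.trans (q2 V))
      refine h6.trans ?_
      rw [← hI]
      have hx : (0:ℝ) ≤ (δ / ε) * I := mul_nonneg hde hI0
      have h7 : (δ / ε) ^ 2 * I ^ 2 ≤ (δ / ε) ^ 2 * ‖RX X σ V 0 0‖ ^ 2 :=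
        mul_le_mul_of_nonneg_left hI3 (sq_nonneg _)
      have h8 : ((δ / ε) * I) ^ 2 = (δ / ε) ^ 2 * I ^ 2 := by ring
      generalize (δ / ε) * I = z at hx h8
      have h9 : 36 * (δ / ε) * I = 36 * ((δ / ε) * I) := by ring
      nlinarith [sq_nonneg (2 * g - 36 * ((δ / ε) * I)), sq_nonneg (e1 V - e2 V),
        sq_nonneg (2 * g + 36 * ((δ / ε) * I) - e1 V), sq_nonneg (2 * g + 36 * ((δ / ε) * I) - e2 V)]
    obtain ⟨i9, i10⟩ := int_a4 (16 * g ^ 2) (5184 * (δ / ε) ^ 2) s3.integrable k1 k2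
    refine (integral_mono s1.integrable (i9.const_mul Q) h1).trans ?_
    rw [integral_const_mul]
    refine mul_le_mul_of_nonneg_left ?_ (by linarith)
    refine (le_of_eq i10).trans ?_
    have h9 : 8 / c ^ 4 * p0 = 4 / c ^ 4 * p0 + 4 / c ^ 4 * p0 := by ring
    rw [h9]
    linarith
  · have h1 : ∀ V, ∑ y, ‖RX X σ V 0 y‖ ^ 2 ≤ (4 * δ)⁻¹ * (2 * g +
        36 * (δ / ε) * (RX X σ V 0 0).im + e2 V) + 16 / ε * (RX X σ V 0 0).im := by
      intro V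
      rw [row_sum]
      exact q3 V
    obtain ⟨i9, i10⟩ := int_a3 (2 * g) (36 * (δ / ε)) s4.integrable i2
    have i11 := i9.const_mul (4 * δ)⁻¹
    have i12 := s4.integrable.const_mul (16 / ε)
    refine (integral_mono s2.integrable (i11.add i12) h1).trans ?_
    have i13 := integral_add i11 i12
    rw [integral_const_mul, integral_const_mul, i10, hIm] at i13
    refine (le_of_eq i13).trans ?_
    have h2 : (4 * δ)⁻¹ * (2 * g + 36 * (δ / ε) * (mX X σ).im + 2 / c ^ 2 * Real.sqrt p0) +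
        16 / ε * (mX X σ).im = g / (2 * δ) + 25 / ε * (mX X σ).im +
        Real.sqrt p0 / (2 * δ * c ^ 2) := by
      field_simp
      ring
    rw [← h2]
    have h3 := mul_le_mul_of_nonneg_left j2 (inv_nonneg.2 (by linarith : (0 : ℝ) ≤ 4 * δ))
    nlinarith [h3]
  · have hgd : GD (fun V : T d L → ℝ => RX X σ V 0 0)
        (fun y V => -((σ : ℂ) * (RX X σ V 0 y * RX X σ V y 0))) :=
      ⟨hbc 0 0, fun y => BC.neg' ((BC.const (σ : ℂ)).mul ((hbc 0 y).mul (hbc y 0))),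
        fun y V => r5 V y 0 0⟩
    have h1 := poin' hP hgd
    unfold var at h1
    refine h1.trans (le_of_eq ?_)
    rw [← integral_const_mul, ← integral_finsetSum]
    · refine integral_congr_ae (Filter.Eventually.of_forall fun V => ?_)
      show ∑ y, ‖-((σ : ℂ) * (RX X σ V 0 y * RX X σ V y 0))‖ ^ 2 =
        σ ^ 2 * ∑ y, ‖RX X σ V 0 y‖ ^ 2 * ‖RX X σ V y 0‖ ^ 2
      rw [Finset.mul_sum]
      refine Finset.sum_congr rfl fun y _ => ?_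
      rw [norm_neg, norm_mul, norm_mul, Complex.norm_real, Real.norm_of_nonneg hσ]
      ring
    · intro y _
      exact (RC.norm (hgd.bD y)).sq.integrable
  · obtain ⟨m, hm⟩ : ∃ m, m = mX X σ := ⟨_, rfl⟩
    have hF : BC fun V : T d L → ℝ => RX X σ V 0 0 - m := (hbc 0 0).sub (BC.const m)
    have hFK : BC fun V : T d L → ℝ => (starRingEnd ℂ) m * (RX X σ V 0 0 - m) :=
      (BC.const _).mul hF
    have h1 : ∀ V : T d L → ℝ, ‖RX X σ V 0 0‖ ^ 2 = ‖m‖ ^ 2 + ‖RX X σ V 0 0 - m‖ ^ 2 +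
        2 * ((starRingEnd ℂ) m * (RX X σ V 0 0 - m)).re := by
      intro V
      rw [← Complex.normSq_eq_norm_sq, ← Complex.normSq_eq_norm_sq, ← Complex.normSq_eq_norm_sq,
        Complex.normSq_apply, Complex.normSq_apply, Complex.normSq_apply]
      simp
      ring
    have h2 : ∫ V, ((starRingEnd ℂ) m * (RX X σ V 0 0 - m)).re ∂(GP (T d L)) = 0 := by
      have h3 : ∫ V, (starRingEnd ℂ) m * (RX X σ V 0 0 - m) ∂(GP (T d L)) = 0 := by
        rw [integral_const_mul, integral_sub ((hbc 0 0).integrable _) (integrable_const _),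
          integral_const, probReal_univ, one_smul]
        have : ∫ V, RX X σ V 0 0 ∂(GP (T d L)) = m := by
          rw [hm]
          rfl
        rw [this, sub_self, mul_zero]
      have h4 := integral_re (hFK.integrable (gaussianReal 0 1))
      have h5 : (∫ V, (starRingEnd ℂ) m * (RX X σ V 0 0 - m) ∂(GP (T d L))).re = 0 := by
        rw [h3]
        rfl
      rw [← h5]
      exact h4
    rw [← hm]
    refine le_of_eq ?_
    simp only [h1]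
    obtain ⟨i9, i10⟩ := int_a3 (‖m‖ ^ 2) 1 (RC.norm hF).sq.integrable
      ((RC.re hFK).integrable.const_mul 2)
    simp only [one_mul] at i10
    rw [i10, integral_const_mul, h2, mul_zero, add_zero]

end Pool.Agent.T2h98.AC
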