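import Pool.Agent.T2h98.QD.Stm12
import Pool.Agent.T2h98.QD.Stm

/-! Absolutely continuous spectrum below the kinetic scale, part one: dissipative operators on
large tori. Definitions and statements of the parts. -/

set_option autoImplicit false
set_option linter.unusedSectionVars false

open scoped BigOperators Matrix Topology
open MeasureTheory ProbabilityTheory Filter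

namespace Pool.Agent.T2h98.AC

open Pool.Agent.W788.MFP.Four (T e NN adj K)
open Pool.Agent.W788.BK (nsq hs PP JJ hi Low cr)
open Pool.Agent.T2h98.QD

section

variable {d L : ℕ} [NeZero L]

/-- `X(Δ) + σ V` -/
noncomputable def TX (X : T d L → ℂ) (σ : ℝ) (V : T d L → ℝ) : Matrix (T d L) (T d L) ℂ :=
  Mo X + Matrix.diagonal fun x => ((σ * V x : ℝ) : ℂ)

/-- its inverse -/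
noncomputable def RX (X : T d L → ℂ) (σ : ℝ) (V : T d L → ℝ) : Matrix (T d L) (T d L) ℂ :=
  (TX X σ V)⁻¹

/-- the mean of the diagonal -/
noncomputable def mX (X : T d L → ℂ) (σ : ℝ) : ℂ := ∫ V, RX X σ V 0 0 ∂(GP (T d L))

/-- the symbol of the translation invariant matrix with first row `a` -/
noncomputable def sy (a : T d L → ℂ) (κ : T d L) : ℂ := ∑ z, a z * star (e κ z)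

/-- the symbol of the mean of the resolvent -/
noncomputable def Rb (X : T d L → ℂ) (σ : ℝ) (κ : T d L) : ℂ :=
  sy (fun z => ∫ V, RX X σ V 0 z ∂(GP (T d L))) κ

/-- the symbol of `E [(R(x,x) - m) R(x,y)]` -/
noncomputable def Fk (X : T d L → ℂ) (σ : ℝ) (κ : T d L) : ℂ :=
  sy (fun z => ∫ V, (RX X σ V 0 0 - mX X σ) * RX X σ V 0 z ∂(GP (T d L))) κ

/-- the symbol of `E [(R(x,x) - m) R(x,y) (R(y,y) - m)]` -/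
noncomputable def G1 (X : T d L → ℂ) (σ : ℝ) (κ : T d L) : ℂ :=
  sy (fun z => ∫ V, (RX X σ V 0 0 - mX X σ) * RX X σ V 0 z * (RX X σ V z z - mX X σ)
    ∂(GP (T d L))) κ

/-- the symbol of `E [R(x,y) R(y,x) R(x,y)]` -/
noncomputable def G2 (X : T d L → ℂ) (σ : ℝ) (κ : T d L) : ℂ :=
  sy (fun z => ∫ V, RX X σ V 0 z * RX X σ V z 0 * RX X σ V 0 z ∂(GP (T d L))) κ

/-- `∑ β |w|²` -/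
noncomputable def eb (β : T d L → ℝ) (w : T d L → ℂ) : ℝ := ∑ x, β x * ‖w x‖ ^ 2

/-- the multiplier `(Δ - E) / |Δ - E - i δ|` -/
noncomputable def Sg (E δ : ℝ) : Matrix (T d L) (T d L) ℂ :=
  Mo fun k => (((adj k - E) / JJ E δ k : ℝ) : ℂ)

/-- form bound with errors -/
def FB (E δ σ : ℝ) (ξ β : T d L → ℝ) : Prop := ∀ w : T d L → ℝ,
  σ * |∑ x, ξ x * w x ^ 2| ≤
    1 / 8 * Pool.Agent.W788.MFP.Four.q (JJ E δ) w + ∑ x, β x * w x ^ 2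

/-- dissipative symbols close to `Δ - E` -/
structure Dis (X : T d L → ℂ) (E δ ε c : ℝ) : Prop where
  hδ : 0 < δ
  hδ1 : δ ≤ 1
  hε : 0 < ε
  hεδ : ε ≤ δ
  hc : 0 < c
  hc1 : c ≤ 1
  re : ∀ k, |(X k).re - (adj k - E)| ≤ δ / 8
  im : ∀ k, ε * δ ^ 2 / JJ E δ k ^ 2 ≤ -(X k).im
  im2 : ∀ k, c ≤ -(X k).im

/-- the random errors `β` in the form bound: local, translation covariant, almost always zero -/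
structure Bet (σ δ p0 : ℝ) (b0 : ℕ) (β : (T d L → ℝ) → T d L → ℝ) (B : Finset (T d L)) :
    Prop where
  nonneg : ∀ V x, 0 ≤ β V x
  le : ∀ V x, β V x ≤ |V x|
  meas : ∀ x, Measurable fun V => β V x
  cov : ∀ (V : T d L → ℝ) (a x : T d L), β (fun z => V (z + a)) x = β V (x + a)
  loc : ∀ V V' : T d L → ℝ, (∀ z ∈ B, V z = V' z) → β V 0 = β V' 0
  h0 : (0 : T d L) ∈ B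
  card : B.card ≤ b0
  mom : ∫ V, β V 0 ^ 2 ∂(GP (T d L)) ≤ p0
  fb : ∀ (V : T d L → ℝ) (E : ℝ), FB E δ σ V (β V)

end

/-- smallness of the parameters -/
structure Sm (σ δ ε c Q g ζ p0 : ℝ) (b0 : ℕ) : Prop where
  hσ : 0 < σ
  hσ1 : σ ≤ 1
  hQ : 1 ≤ Q
  hg : 1 ≤ g
  hζ : 0 < ζ
  hζ1 : ζ ≤ 1
  hp : 0 ≤ p0
  k1 : 10 ^ 5 * (σ ^ 2 * Q * (δ / ε) ^ 2) ≤ 1
  k2 : 10 ^ 9 * (σ ^ 2 * Q * (δ / ε) ^ 2) * (σ ^ 2 / ε) * g ^ 3 ≤ ζ ^ 2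
  k3 : 10 ^ 9 * (b0 + 1 : ℝ) ^ 5 * Real.sqrt p0 ≤ (c * ε * ζ) ^ 12

/-! ## A. Deterministic bounds -/

/-- the form bound for the resolvent -/
def T_RB : Prop := ∀ (d L : ℕ) [NeZero L] (X : T d L → ℂ) (E δ ε c σ : ℝ), Dis X E δ ε c →
  0 ≤ σ → ∀ ξ β : T d L → ℝ, (∀ x, 0 ≤ β x) → FB E δ σ ξ β → ∀ u f : T d L → ℂ,
  (TX X σ ξ *ᵥ u = f →
    0 ≤ -(star u ⬝ᵥ f).im ∧ c * nsq u ≤ -(star u ⬝ᵥ f).im ∧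
    qf (J0 E δ) u ≤ 2 * qf (J1 E δ) f + 36 * (δ / ε) * (-(star u ⬝ᵥ f).im) +
      (eb β (Sg E δ *ᵥ u) + eb β u) ∧
    qf (J0 E δ) u ≤ 1300 * (δ / ε) ^ 2 * qf (J1 E δ) f +
      2 * (eb β (Sg E δ *ᵥ u) + eb β u) ∧
    nsq u ≤ (4 * δ)⁻¹ * qf (J0 E δ) u + 16 / ε * (-(star u ⬝ᵥ f).im)) ∧
  ((TX X σ ξ)ᴴ *ᵥ u = f →
    0 ≤ (star u ⬝ᵥ f).im ∧ c * nsq u ≤ (star u ⬝ᵥ f).im ∧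
    qf (J0 E δ) u ≤ 2 * qf (J1 E δ) f + 36 * (δ / ε) * (star u ⬝ᵥ f).im +
      (eb β (Sg E δ *ᵥ u) + eb β u) ∧
    qf (J0 E δ) u ≤ 1300 * (δ / ε) ^ 2 * qf (J1 E δ) f +
      2 * (eb β (Sg E δ *ᵥ u) + eb β u) ∧
    nsq u ≤ (4 * δ)⁻¹ * qf (J0 E δ) u + 16 / ε * (star u ⬝ᵥ f).im)

/-- simple facts on the resolvent of a dissipative operator -/
def T_RX : Prop := ∀ (d L : ℕ) [NeZero L] (X : T d L → ℂ) (c σ : ℝ), 0 < c →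
  (∀ k, c ≤ -(X k).im) →
  (∀ V : T d L → ℝ, TX X σ V * RX X σ V = 1 ∧ RX X σ V * TX X σ V = 1) ∧
  (∀ (V : T d L → ℝ) (w : T d L → ℂ), nsq (RX X σ V *ᵥ w) ≤ nsq w / c ^ 2 ∧
    nsq ((RX X σ V)ᴴ *ᵥ w) ≤ nsq w / c ^ 2) ∧
  (∀ (V : T d L → ℝ) (x y : T d L), ‖RX X σ V x y‖ ≤ c⁻¹) ∧
  (∀ x y : T d L, Continuous fun V : T d L → ℝ => RX X σ V x y) ∧
  (∀ (V : T d L → ℝ) (y a b : T d L), HasDerivAt (fun t : ℝ => RX X σ (Function.update V y t) a b)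
    (-((σ : ℂ) * (RX X σ V a y * RX X σ V y b))) (V y)) ∧
  (∀ (V : T d L → ℝ) (a x y : T d L), RX X σ (fun z => V (z + a)) x y =
    RX X σ V (x + a) (y + a)) ∧
  (∀ x y : T d L, Continuous fun p : ℝ × (T d L → ℝ) =>
    RX (fun k => X k - ((max p.1 0 : ℝ) : ℂ) * Complex.I) σ p.2 x y) ∧
  (∀ V : T d L → ℝ, 0 ≤ (RX X σ V 0 0).im)

/-! ## B. Random errors in the form bound -/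

/-- interpolation -/
def T_INTP : Prop := ∀ (n p : Type) [Fintype n] [DecidableEq n] [Fintype p] [DecidableEq p]
  (J : Matrix n n ℂ) (Jp : Matrix p p ℂ) (A : Matrix p n ℂ) (δ C : ℝ), J.IsHermitian →
  Jp.IsHermitian → 0 < δ → 0 ≤ C → (∀ w : n → ℂ, δ * nsq w ≤ qf J w) →
  (∀ w : p → ℂ, 0 ≤ qf Jp w) → (∀ w : n → ℂ, nsq (A *ᵥ w) ≤ nsq w) →
  (∀ w : n → ℂ, nsq (Jp *ᵥ (A *ᵥ w)) ≤ C ^ 2 * nsq (J *ᵥ w)) →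
  ∀ w : n → ℂ, qf Jp (A *ᵥ w) ≤ C * qf J w

/-- partition of unity -/
def T_PAR : Prop := ∀ (d ℓ n L : ℕ) [NeZero L], L = n * ℓ → 1 ≤ ℓ → 8 ≤ n →
  ∃ (Cn : Finset (T d L)) (χ : T d L → T d L → ℝ), (∀ a x, 0 ≤ χ a x ∧ χ a x ≤ 1) ∧
    (∀ a ∈ Cn, ∀ x, χ a x ≠ 0 → ∀ i, |((x i - a i).valMinAbs : ℤ)| < ℓ) ∧
    (∀ x, ∑ a ∈ Cn, χ a x ^ 2 = 1) ∧
    (∀ a ∈ Cn, ∀ (x : T d L) (i : Fin d), |χ a (x + Pi.single i 1) - χ a x| ≤ 4 / ℓ) ∧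
    ∀ x, ((Cn.filter fun a => χ a x ≠ 0).card : ℝ) ≤ 2 ^ d

/-- the potential near the point `a`, as a potential on a small torus -/
def bp {d L M : ℕ} [NeZero L] [NeZero M] (ξ : T d L → ℝ) (a : T d L) (z : T d M) : ℝ :=
  ξ fun i => a i + (((z i).valMinAbs : ℤ) : ZMod L)

/-- from blocks to large tori -/
def T_BLK : Prop := ∀ d : ℕ, 1 ≤ d → ∃ C : ℝ, 0 < C ∧ ∀ (ℓ n L M : ℕ) [NeZero L] [NeZero M],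
  L = n * ℓ → M = 4 * ℓ → 1 ≤ ℓ → 8 ≤ n → ∀ E δ t : ℝ, 0 < δ → δ ≤ 1 → C ≤ δ * ℓ → 0 ≤ t →
  ∀ (ξ : T d L → ℝ) (G : Set (T d L)),
  (∀ a ∈ G, ∀ w : T d M → ℝ, |∑ z, bp ξ a z * w z ^ 2| ≤
    t * Pool.Agent.W788.MFP.Four.q (JJ E δ) w) →
  ∀ w : T d L → ℝ, |∑ x, ξ x * w x ^ 2| ≤ 2 * t * Pool.Agent.W788.MFP.Four.q (JJ E δ) w +
    ∑ x, Set.indicator {x | ∃ a ∉ G, ∀ i, |((x i - a i).valMinAbs : ℤ)| ≤ ℓ} (fun x => |ξ x|) x *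
      w x ^ 2

/-- existence of the random errors -/
def T_BETA : Prop := ∀ (d K : ℕ) (s : ℝ), 3 ≤ d → 0 < s → s ≤ 1 / 100 →
  ∀ᶠ σ : ℝ in 𝓝[>] 0, ∃ ℓ n0 b0 : ℕ, 1 ≤ ℓ ∧ (b0 : ℝ) ≤ σ ^ (-(4 * d : ℝ)) ∧ ∀ n : ℕ, n0 ≤ n →
  ∀ (L : ℕ) [NeZero L], L = n * ℓ → ∃ (β : (T d L → ℝ) → T d L → ℝ) (B : Finset (T d L)),
    Bet σ ((32 * σ) ^ (2 - s)) (σ ^ K) b0 β B

/-! ## C. Means -/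

/-- decoupling: the error term for an extended vector -/
def T_DEC : Prop := ∀ (d L : ℕ) [NeZero L] (X : T d L → ℂ) (c σ : ℝ), 0 < c → c ≤ 1 → 0 ≤ σ →
  σ ≤ 1 → (∀ k, c ≤ -(X k).im) → ∀ (f : (T d L → ℝ) → ℝ) (B : Finset (T d L)) (b0 : ℕ) (p : ℝ),
  Measurable f → (∀ V, 0 ≤ f V) → (∀ V, f V ≤ |V 0|) →
  (∀ V V' : T d L → ℝ, (∀ z ∈ B, V z = V' z) → f V = f V') → (0 : T d L) ∈ B → B.card ≤ b0 →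
  ∫ V, f V ^ 2 ∂(GP (T d L)) ≤ p → ∀ (S : T d L → ℂ) (m : ℂ) (κ : T d L), (∀ k, ‖S k‖ ≤ 1) →
  ‖m‖ ≤ c⁻¹ →
  ∫ V, f V * ‖(Mo S *ᵥ (RX X σ V *ᵥ fun z => (RX X σ V z z - m) * star (e κ z))) 0‖ ^ 2
    ∂(GP (T d L)) ≤ 1400 * (b0 : ℝ) ^ 5 / c ^ 8 * Real.sqrt p

/-- local quantities -/
def T_LQ : Prop := ∀ (d L : ℕ) [NeZero L] (X : T d L → ℂ) (E δ ε c σ p0 Q g : ℝ) (b0 : ℕ)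
  (β : (T d L → ℝ) → T d L → ℝ) (B : Finset (T d L)), Dis X E δ ε c → 0 ≤ σ → σ ≤ 1 →
  Bet σ δ p0 b0 β B → 1 ≤ Q → 1 ≤ g →
  (∀ a b : T d L → ℂ, ∑ y, ‖a y‖ ^ 2 * ‖b y‖ ^ 2 ≤ Q * (qf (J0 E δ) a * qf (J0 E δ) b)) →
  ∑ k : T d L, (JJ E δ k)⁻¹ ≤ g * NN d L →
  (∫ V, ∑ y, ‖RX X σ V 0 y‖ ^ 2 * ‖RX X σ V y 0‖ ^ 2 ∂(GP (T d L)) ≤
    Q * (16 * g ^ 2 + 5184 * (δ / ε) ^ 2 * ∫ V, ‖RX X σ V 0 0‖ ^ 2 ∂(GP (T d L)) +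
      8 / c ^ 4 * p0)) ∧
  (∫ V, ∑ y, ‖RX X σ V 0 y‖ ^ 2 ∂(GP (T d L)) ≤ g / (2 * δ) + 25 / ε * (mX X σ).im +
    Real.sqrt p0 / (2 * δ * c ^ 2)) ∧
  (∫ V, ‖RX X σ V 0 0 - mX X σ‖ ^ 2 ∂(GP (T d L)) ≤
    σ ^ 2 * ∫ V, ∑ y, ‖RX X σ V 0 y‖ ^ 2 * ‖RX X σ V y 0‖ ^ 2 ∂(GP (T d L))) ∧
  ∫ V, ‖RX X σ V 0 0‖ ^ 2 ∂(GP (T d L)) ≤ ‖mX X σ‖ ^ 2 +
    ∫ V, ‖RX X σ V 0 0 - mX X σ‖ ^ 2 ∂(GP (T d L))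

/-- the bounds for `G1` and `G2` -/
def T_G12 : Prop := ∀ (d L : ℕ) [NeZero L] (X : T d L → ℂ) (E δ ε c σ p0 : ℝ) (b0 : ℕ)
  (β : (T d L → ℝ) → T d L → ℝ) (B : Finset (T d L)), Dis X E δ ε c → 0 ≤ σ → σ ≤ 1 →
  Bet σ δ p0 b0 β B → ∀ κ : T d L,
  ‖G2 X σ κ‖ ^ 2 ≤ (∫ V, ∑ y, ‖RX X σ V 0 y‖ ^ 2 ∂(GP (T d L))) *
    ∫ V, ∑ y, ‖RX X σ V 0 y‖ ^ 2 * ‖RX X σ V y 0‖ ^ 2 ∂(GP (T d L)) ∧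
  ‖G1 X σ κ‖ ^ 2 ≤ ((∫ V, ‖RX X σ V 0 0 - mX X σ‖ ^ 2 ∂(GP (T d L))) / δ) *
    (1300 * (δ / ε) ^ 2 * ((∫ V, ‖RX X σ V 0 0 - mX X σ‖ ^ 2 ∂(GP (T d L))) / δ) +
      5600 * (b0 : ℝ) ^ 5 / c ^ 8 * Real.sqrt p0)

/-- the equations for the symbols -/
def T_SD : Prop := ∀ (d L : ℕ) [NeZero L] (X : T d L → ℂ) (c σ : ℝ), 0 < c →
  (∀ k, c ≤ -(X k).im) → ∀ κ : T d L,
  (X κ - (σ : ℂ) ^ 2 * mX X σ) * Rb X σ κ = 1 + (σ : ℂ) ^ 2 * Fk X σ κ ∧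
  (X κ - (σ : ℂ) ^ 2 * mX X σ) * Fk X σ κ = (σ : ℂ) ^ 2 * (G1 X σ κ + G2 X σ κ)

/-- the bound for `F` -/
def T_OM : Prop := ∀ (d L : ℕ) [NeZero L] (X : T d L → ℂ) (E δ ε c σ p0 Q g ζ : ℝ) (b0 : ℕ)
  (β : (T d L → ℝ) → T d L → ℝ) (B : Finset (T d L)), Dis X E δ ε c → Bet σ δ p0 b0 β B →
  Sm σ δ ε c Q g ζ p0 b0 →
  (∀ a b : T d L → ℂ, ∑ y, ‖a y‖ ^ 2 * ‖b y‖ ^ 2 ≤ Q * (qf (J0 E δ) a * qf (J0 E δ) b)) →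
  ∑ k : T d L, (JJ E δ k)⁻¹ ≤ g * NN d L → ‖mX X σ‖ ≤ 3 * g →
  ∀ κ : T d L, ‖(X κ - (σ : ℂ) ^ 2 * mX X σ) * Fk X σ κ‖ ≤ ζ

/-! ## D. The main theorem on tori -/

/-- lower bound for Poisson sums, large tori -/
def T_LBG : Prop := ∀ d : ℕ, 3 ≤ d → ∀ a : ℝ, a < 2 * d → ∃ c1 : ℝ, 0 < c1 ∧ ∀ Γ0 : ℝ, 0 < Γ0 →
  ∃ L0 : ℕ, ∀ (L : ℕ) [NeZero L], L0 ≤ L → ∀ E Γ : ℝ, |E| ≤ a → Γ0 ≤ Γ → Γ ≤ 4 →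
    c1 ≤ (NN d L)⁻¹ * ∑ k : T d L, Γ / ((adj k - E) ^ 2 + Γ ^ 2)

/-- one step of the continuity argument -/
def T_STEP : Prop := ∀ (d L : ℕ) [NeZero L] (X : T d L → ℂ) (E y c σ ε2 c0 c1 g ζ : ℝ), 0 < σ →
  σ ≤ 1 → 0 < c → (∀ k, c ≤ -(X k).im) → 0 ≤ y → 0 < c0 → c0 ≤ 1 → 4 * c0 ≤ c1 → 1 ≤ g →
  0 ≤ ε2 → 100 * ε2 * g ≤ σ ^ 2 * c0 ^ 2 → 0 < ζ → 100 * ζ * g ≤ c0 ^ 2 →
  (∀ k, ‖X k - (((adj k - E : ℝ) : ℂ) - (y : ℂ) * Complex.I)‖ ≤ ε2) →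
  (∀ E' Γ : ℝ, σ ^ 2 * c0 / 2 ≤ Γ → ∑ k : T d L, (JJ E' Γ k)⁻¹ ≤ g * NN d L) →
  (∀ E' Γ : ℝ, |E' - E| ≤ 3 * g * σ ^ 2 → σ ^ 2 * c0 / 2 ≤ Γ → Γ ≤ y + 3 * g * σ ^ 2 →
    c1 ≤ (NN d L)⁻¹ * ∑ k : T d L, Γ / ((adj k - E') ^ 2 + Γ ^ 2)) →
  ‖mX X σ‖ ≤ 3 * g → c0 / 2 ≤ (mX X σ).im →
  (∀ κ : T d L, (X κ - (σ : ℂ) ^ 2 * mX X σ) * Rb X σ κ = 1 + (σ : ℂ) ^ 2 * Fk X σ κ) →
  (∀ κ : T d L, ‖(X κ - (σ : ℂ) ^ 2 * mX X σ) * Fk X σ κ‖ ≤ ζ) →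
  ‖mX X σ‖ ≤ 2 * g ∧ c0 ≤ (mX X σ).im ∧
  ∀ κ : T d L, Rb X σ κ ≠ 0 ∧ ‖(Rb X σ κ)⁻¹ - X κ + (σ : ℂ) ^ 2 * mX X σ‖ ≤ 2 * σ ^ 2 * ζ

/-- large dissipation -/
def T_START : Prop := ∀ d : ℕ, 1 ≤ d → ∃ c2 : ℝ, 0 < c2 ∧ ∀ (L : ℕ) [NeZero L] (X : T d L → ℂ)
  (σ : ℝ), 0 ≤ σ → σ ≤ 1 → (∀ k, 1 ≤ -(X k).im) → (∀ k, ‖X k‖ ≤ 8 * d + 8) →
  c2 ≤ (mX X σ).im ∧ ‖mX X σ‖ ≤ 1

/-- the choice of the parameters; `s` is small -/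
def T_NUM : Prop := ∀ d : ℕ, 3 ≤ d → ∀ h : ℝ, 0 < h → h < (if d = 3 then 1 / 6 else 1 / 3) →
  ∃ s : ℝ, 0 < s ∧ s ≤ 1 / 100 ∧ ∀ C1 C2 C3 ζ a1 : ℝ, 0 < C1 → 0 < C2 → 0 < C3 → 0 < ζ → ζ ≤ 1 →
  0 < a1 → ∃ K : ℕ, ∀ᶠ σ : ℝ in 𝓝[>] 0, ∀ (b0 : ℕ), (b0 : ℝ) ≤ σ ^ (-(4 * d : ℝ)) →
  ∀ δ ε c g Q z : ℝ, δ = (32 * σ) ^ (2 - s) →
  ε = a1 * σ ^ (6 + 2 * h) / (1600 * δ ^ 2) → c = ε * δ ^ 2 / (25 * d ^ 2) →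
  g = C2 * Real.log (1 / (a1 * σ ^ 2)) ^ 2 → Q = C1 * ke d δ → z = ζ / g →
  Sm σ δ ε c Q g z (σ ^ K) b0 ∧ δ ≤ 1 / 2 ∧ ε ≤ δ ∧ c ≤ 1 ∧ a1 * σ ^ 2 ≤ δ ∧
    100 * (C3 * σ ^ (2 + 2 * h)) * g ≤ σ ^ 2 * ζ ∧ 32 * (C3 * σ ^ (2 + 2 * h)) ≤ δ ∧
    32 * g * σ ^ 2 ≤ δ ∧ 100 * g * σ ≤ ζ

/-- the main theorem on tori -/
def T_TS : Prop := ∀ d : ℕ, 3 ≤ d → ∀ h : ℝ, 0 < h → h < (if d = 3 then 1 / 6 else 1 / 3) →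
  ∀ a : ℝ, 0 < a → a < 2 * d → ∃ c0 : ℝ, 0 < c0 ∧ c0 ≤ 1 ∧ ∀ A : ℝ, 1 ≤ A →
  ∀ᶠ σ : ℝ in 𝓝[>] 0, ∃ (g : ℝ) (ℓ n0 : ℕ), 1 ≤ g ∧ 100 * g * σ ≤ 1 ∧ 1 ≤ ℓ ∧ ∀ n : ℕ, n0 ≤ n →
  ∀ (L : ℕ) [NeZero L], L = n * ℓ → ∀ (E y : ℝ) (X : T d L → ℂ), |E| ≤ a → 0 < y → y ≤ 1 →
  (∀ k, ‖X k - (((adj k - E : ℝ) : ℂ) - (y : ℂ) * Complex.I)‖ ≤ A * σ ^ (2 + 2 * h)) →
  (∀ k, y + A⁻¹ * σ ^ (6 + 2 * h) / (|adj k - E| + y + 4 * g * σ ^ 2) ^ 2 ≤ -(X k).im) →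
  ‖mX X σ‖ ≤ 2 * g ∧ c0 ≤ (mX X σ).im ∧ ∀ κ : T d L, Rb X σ κ ≠ 0 ∧
    ‖(Rb X σ κ)⁻¹ - X κ + (σ : ℂ) ^ 2 * mX X σ‖ ≤ σ ^ 2 * c0 / 4

end Pool.Agent.T2h98.AC
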