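import Pool.Agent.T3h43.AC.Num1
import Pool.Agent.T2h98.AC.Stm

/-! Task NUM of project AC: the choice of the parameters. -/

set_option autoImplicit false

open Filter Topology

namespace Pool.Agent.T2h98.AC

open Pool.Agent.T2h98.QD

theorem num : T_NUM := by
  intro d hd h hh hh1
  obtain ⟨κ, hκ, hκh, hke⟩ : ∃ κ : ℝ, (κ = 0 ∨ κ = 1 / 2) ∧ 0 < 2 - 2 * κ - 6 * h ∧
      ∀ δ : ℝ, ke d δ = δ ^ (-κ) * Real.log (1 / δ) ^ 7 := by
    by_cases h3 : d = 3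
    · refine ⟨1 / 2, Or.inr rfl, ?_, fun δ => ?_⟩
      · rw [if_pos h3] at hh1; linarith
      · unfold ke; rw [if_pos h3]
    · refine ⟨0, Or.inl rfl, ?_, fun δ => ?_⟩
      · rw [if_neg h3] at hh1; linarith
      · unfold ke; rw [if_neg h3, neg_zero, Real.rpow_zero]
  refine ⟨min (1 / 100) ((2 - 2 * κ - 6 * h) / 100), lt_min (by norm_num) (by linarith),
    min_le_left _ _, ?_⟩
  intro C1 C2 C3 ζ a1 hC1 hC2 hC3 hζ hζ1 ha
  refine ⟨40 * d + 400, ?_⟩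
  have hs2 : 100 * min (1 / 100) ((2 - 2 * κ - 6 * h) / 100) ≤ 2 - 2 * κ - 6 * h := by
    have := min_le_right (1 / 100) ((2 - 2 * κ - 6 * h) / 100)
    linarith
  filter_upwards [Pool.Agent.T3h43.AC.num_aux d hd h κ _ hh hκ
    (lt_min (by norm_num) (by linarith)) (min_le_left _ _) hs2 C1 C2 C3 ζ a1 hC1 hC2 hC3 hζ hζ1 ha]
    with σ hσ
  intro b0 hb0 δ ε c g Q z h1 h2 h3 h4 h5 h6
  obtain ⟨⟨a1', a2, a3, a4, a5, a6, a7, a8, a9⟩, hr⟩ := hσ b0 hb0 δ ε c g Q z h1 h2 h3 h4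
    (by rw [h5, hke]) h6
  exact ⟨⟨a1', a2, a3, a4, a5, a6, by positivity, a7, a8, a9⟩, hr⟩

end Pool.Agent.T2h98.AC
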