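import Pool.Agent.T2h98.AC.Stm

/-! The bound for `F`: numbers. -/

set_option autoImplicit false
set_option linter.unusedSectionVars false

open scoped BigOperators Matrix Topology
open MeasureTheory ProbabilityTheory Filter

namespace Pool.Agent.T2h98.AC

open Pool.Agent.W788.MFP.Four (T e NN adj K)
open Pool.Agent.W788.BK (nsq hs PP JJ hi Low cr)
open Pool.Agent.T2h98.QD

namespace OMS

/-- the numerical part -/
theorem num {σ δ ε c Q g ζ p0 : ℝ} {b0 : ℕ} (hδ : 0 < δ) (hδ1 : δ ≤ 1) (hε : 0 < ε) (hεδ : ε ≤ δ)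
    (hc : 0 < c) (hc1 : c ≤ 1) (h : Sm σ δ ε c Q g ζ p0 b0) {S P0 v A mn mi n1 n2 : ℝ}
    (hS0 : 0 ≤ S) (hP00 : 0 ≤ P0) (hv0 : 0 ≤ v) (hn1 : 0 ≤ n1) (hn2 : 0 ≤ n2)
    (hmn0 : 0 ≤ mn) (hmn : mn ≤ 3 * g) (hmi : mi ≤ mn)
    (hS : S ≤ Q * (16 * g ^ 2 + 5184 * (δ / ε) ^ 2 * A + 8 / c ^ 4 * p0))
    (hP : P0 ≤ g / (2 * δ) + 25 / ε * mi + Real.sqrt p0 / (2 * δ * c ^ 2))
    (hv : v ≤ σ ^ 2 * S) (hA : A ≤ mn ^ 2 + v) (hG2 : n2 ^ 2 ≤ P0 * S)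
    (hG1 : n1 ^ 2 ≤ (v / δ) * (1300 * (δ / ε) ^ 2 * (v / δ) +
      5600 * (b0 : ℝ) ^ 5 / c ^ 8 * Real.sqrt p0)) :
    σ ^ 2 * (n1 + n2) ≤ ζ := by
  obtain ⟨hσ, hσ1, hQ, hg, hζ, hζ1, hp, k1, k2, k3⟩ := h
  obtain ⟨s, hs⟩ : ∃ s, s = Real.sqrt p0 := ⟨_, rfl⟩
  have hs0 : 0 ≤ s := by rw [hs]; exact Real.sqrt_nonneg _
  have hs2 : s ^ 2 = p0 := by rw [hs]; exact Real.sq_sqrt hp
  rw [← hs] at hP hG1 k3
  have hε1 : ε ≤ 1 := hεδ.trans hδ1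
  obtain ⟨w, hw⟩ : ∃ w, w = (c * ε * ζ) ^ 12 := ⟨_, rfl⟩
  rw [← hw] at k3
  have hw0 : 0 < w := by rw [hw]; positivity
  -- powers
  have hwc : w ≤ c ^ 8 * ζ := by
    rw [hw, mul_pow, mul_pow]
    have e1 : c ^ 12 ≤ c ^ 8 := pow_le_pow_of_le_one hc.le hc1 (by norm_num)
    have e2 : ε ^ 12 ≤ 1 := pow_le_one₀ hε.le hε1
    have e3 : ζ ^ 12 ≤ ζ := by
      calc ζ ^ 12 ≤ ζ ^ 1 := pow_le_pow_of_le_one hζ.le hζ1 (by norm_num)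
        _ = ζ := pow_one _
    calc c ^ 12 * ε ^ 12 * ζ ^ 12 ≤ c ^ 8 * 1 * ζ := by gcongr
      _ = _ := by ring
  have hwc2 : w ≤ c ^ 2 := by
    have e1 : c ^ 8 ≤ c ^ 2 := pow_le_pow_of_le_one hc.le hc1 (by norm_num)
    have e2 : 0 ≤ c ^ 8 := by positivity
    calc w ≤ c ^ 8 * ζ := hwc
      _ ≤ c ^ 8 * 1 := by gcongr
      _ ≤ c ^ 2 := by linarith
  have hb5 : (1 : ℝ) ≤ ((b0 : ℝ) + 1) ^ 5 := by
    apply one_le_pow₀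
    have : (0 : ℝ) ≤ b0 := Nat.cast_nonneg _
    linarith
  have hb6 : (b0 : ℝ) ^ 5 ≤ ((b0 : ℝ) + 1) ^ 5 := by
    apply pow_le_pow_left₀ (Nat.cast_nonneg _)
    linarith
  have hsw : 10 ^ 9 * s ≤ w := by
    calc 10 ^ 9 * s = 10 ^ 9 * 1 * s := by ring
      _ ≤ 10 ^ 9 * ((b0 : ℝ) + 1) ^ 5 * s := by gcongr
      _ ≤ w := k3
  have hbw : 10 ^ 9 * ((b0 : ℝ) ^ 5 * s) ≤ w := by
    calc 10 ^ 9 * ((b0 : ℝ) ^ 5 * s) = 10 ^ 9 * (b0 : ℝ) ^ 5 * s := by ring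
      _ ≤ 10 ^ 9 * ((b0 : ℝ) + 1) ^ 5 * s := by gcongr
      _ ≤ w := k3
  have hsc : s ≤ c ^ 2 := by linarith
  have hpc : 8 / c ^ 4 * p0 ≤ 1 := by
    have e1 : 10 ^ 9 * s ≤ c ^ 2 := hsw.trans hwc2
    have e2 : (10 ^ 9 * s) ^ 2 ≤ (c ^ 2) ^ 2 := pow_le_pow_left₀ (by positivity) e1 2
    rw [div_mul_eq_mul_div, div_le_one (by positivity), ← hs2]
    have e3 : (10 ^ 9 * s) ^ 2 = 10 ^ 18 * s ^ 2 := by ring
    have e4 : (c ^ 2) ^ 2 = c ^ 4 := by ring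
    have e5 := sq_nonneg s
    rw [e3, e4] at e2
    linarith
  -- the parameters
  obtain ⟨r, hr⟩ : ∃ r, r = δ / ε := ⟨_, rfl⟩
  have hr1 : 1 ≤ r := by rw [hr, one_le_div hε]; exact hεδ
  obtain ⟨k, hk⟩ : ∃ k, k = σ ^ 2 * Q * r ^ 2 := ⟨_, rfl⟩
  rw [← hr] at k1 k2 hS hG1
  rw [← hk] at k1 k2
  have hσQ0 : 0 < σ ^ 2 * Q := by positivity
  have hk0 : 0 < k := by rw [hk]; positivity
  have hσQ : σ ^ 2 * Q ≤ k := by
    rw [hk]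
    exact le_mul_of_one_le_right hσQ0.le (one_le_pow₀ hr1)
  have hg2 : 1 ≤ g ^ 2 := one_le_pow₀ hg
  -- B
  obtain ⟨B, hB⟩ : ∃ B, B = σ ^ 2 * S := ⟨_, rfl⟩
  have hB0 : 0 ≤ B := by rw [hB]; positivity
  rw [← hB] at hv
  have hmn2 : mn ^ 2 ≤ 9 * g ^ 2 := by
    calc mn ^ 2 ≤ (3 * g) ^ 2 := pow_le_pow_left₀ hmn0 hmn 2
      _ = _ := by ring
  have hA2 : A ≤ 9 * g ^ 2 + B := by linarith
  have hB1 : B ≤ 50000 * k * g ^ 2 := by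
    have e1 : S ≤ Q * (17 * g ^ 2 + 5184 * r ^ 2 * (9 * g ^ 2 + B)) := by
      refine hS.trans ?_
      apply mul_le_mul_of_nonneg_left _ (by linarith)
      have e2 : 5184 * r ^ 2 * A ≤ 5184 * r ^ 2 * (9 * g ^ 2 + B) := by gcongr
      linarith
    have e3 : B ≤ 17 * (σ ^ 2 * Q) * g ^ 2 + 5184 * k * (9 * g ^ 2 + B) := by
      calc B = σ ^ 2 * S := hB
        _ ≤ σ ^ 2 * (Q * (17 * g ^ 2 + 5184 * r ^ 2 * (9 * g ^ 2 + B))) := by gcongr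
        _ = _ := by rw [hk]; ring
    have e4 : 17 * (σ ^ 2 * Q) * g ^ 2 ≤ 17 * k * g ^ 2 := by gcongr
    have e5 : 10 ^ 5 * k * B ≤ 1 * B := by gcongr
    have e6 : 0 ≤ k * g ^ 2 := by positivity
    have e7 : 5184 * k * (9 * g ^ 2 + B) = 46656 * (k * g ^ 2) + 5184 * (k * B) := by ring
    have e8 : 17 * k * g ^ 2 = 17 * (k * g ^ 2) := by ring
    have e9 : 10 ^ 5 * k * B = 10 ^ 5 * (k * B) := by ring
    rw [e7] at e3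
    rw [e8] at e4
    rw [e9] at e5
    have e10 : 50000 * k * g ^ 2 = 50000 * (k * g ^ 2) := by ring
    rw [e10]
    linarith
  have hP1 : P0 ≤ 76 * g / ε := by
    have e1 : g / (2 * δ) ≤ g / (2 * ε) := by gcongr
    have e2 : 25 / ε * mi ≤ 25 / ε * (3 * g) := by
      apply mul_le_mul_of_nonneg_left (hmi.trans hmn) (by positivity)
    have e3 : s / (2 * δ * c ^ 2) ≤ g / (2 * ε) := by
      calc s / (2 * δ * c ^ 2) ≤ c ^ 2 / (2 * δ * c ^ 2) := by gcongr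
        _ = 1 / (2 * δ) := by field_simp
        _ ≤ g / (2 * ε) := by gcongr
    have e4 : g / (2 * ε) + 25 / ε * (3 * g) + g / (2 * ε) = 76 * g / ε := by
      field_simp
      ring
    linarith
  -- the key number
  have hy : k * (σ ^ 2 / ε) * g ^ 3 ≤ ζ ^ 2 / 10 ^ 9 := by
    rw [le_div_iff₀ (by norm_num)]
    calc k * (σ ^ 2 / ε) * g ^ 3 * 10 ^ 9 = 10 ^ 9 * k * (σ ^ 2 / ε) * g ^ 3 := by ring
      _ ≤ ζ ^ 2 := k2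
  have hG2' : (σ ^ 2 * n2) ^ 2 ≤ (ζ / 2) ^ 2 := by
    calc (σ ^ 2 * n2) ^ 2 = σ ^ 2 * σ ^ 2 * n2 ^ 2 := by ring
      _ ≤ σ ^ 2 * σ ^ 2 * (P0 * S) := by gcongr
      _ = (σ ^ 2 * P0) * B := by rw [hB]; ring
      _ ≤ (σ ^ 2 * (76 * g / ε)) * (50000 * k * g ^ 2) := by gcongr
      _ = 3800000 * (k * (σ ^ 2 / ε) * g ^ 3) := by ring
      _ ≤ 3800000 * (ζ ^ 2 / 10 ^ 9) := by gcongr
      _ ≤ (ζ / 2) ^ 2 := by
          have e1 := sq_nonneg ζ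
          have e2 : (ζ / 2) ^ 2 = ζ ^ 2 / 4 := by ring
          rw [e2]
          linarith
  have hq : σ ^ 2 * (v / ε) ≤ ζ / 10 ^ 4 := by
    calc σ ^ 2 * (v / ε) ≤ σ ^ 2 * ((50000 * k * g ^ 2) / ε) := by
          have := hv.trans hB1
          gcongr
      _ = 50000 * (k * (σ ^ 2 / ε) * g ^ 2) := by ring
      _ ≤ 50000 * (k * (σ ^ 2 / ε) * g ^ 3) := by
          have e1 : g ^ 2 ≤ g ^ 3 := pow_le_pow_right₀ hg (by norm_num)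
          gcongr
      _ ≤ 50000 * (ζ ^ 2 / 10 ^ 9) := by gcongr
      _ ≤ ζ / 10 ^ 4 := by
          have e1 : ζ ^ 2 ≤ ζ := by
            calc ζ ^ 2 ≤ ζ ^ 1 := pow_le_pow_of_le_one hζ.le hζ1 (by norm_num)
              _ = ζ := pow_one _
          linarith
  have hq0 : 0 ≤ σ ^ 2 * (v / ε) := by positivity
  have hG1' : (σ ^ 2 * n1) ^ 2 ≤ (ζ / 2) ^ 2 := by
    have e1 : v / δ ≤ v / ε := by gcongr
    have e2 : 5600 * (b0 : ℝ) ^ 5 / c ^ 8 * s ≤ ζ := by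
      rw [div_mul_eq_mul_div, div_le_iff₀ (by positivity)]
      have e3 := hbw.trans hwc
      have e4 : 0 ≤ (b0 : ℝ) ^ 5 * s := by positivity
      have e6 : 5600 * (b0 : ℝ) ^ 5 * s = 5600 * ((b0 : ℝ) ^ 5 * s) := by ring
      have e7 : ζ * c ^ 8 = c ^ 8 * ζ := mul_comm _ _
      rw [e6, e7]
      linarith
    have e5 : σ ^ 2 ≤ 1 := pow_le_one₀ hσ.le hσ1
    have e6 : 1300 * r ^ 2 * (v / δ) * (v / δ) = 1300 * (v / ε) * (v / ε) := by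
      rw [hr]
      field_simp
    calc (σ ^ 2 * n1) ^ 2 = σ ^ 2 * σ ^ 2 * n1 ^ 2 := by ring
      _ ≤ σ ^ 2 * σ ^ 2 * ((v / δ) * (1300 * r ^ 2 * (v / δ) +
          5600 * (b0 : ℝ) ^ 5 / c ^ 8 * s)) := by gcongr
      _ = σ ^ 2 * σ ^ 2 * (1300 * r ^ 2 * (v / δ) * (v / δ)) +
          σ ^ 2 * (σ ^ 2 * (v / δ)) * (5600 * (b0 : ℝ) ^ 5 / c ^ 8 * s) := by ring
      _ ≤ σ ^ 2 * σ ^ 2 * (1300 * (v / ε) * (v / ε)) +
          1 * (σ ^ 2 * (v / ε)) * ζ := by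
          rw [e6]
          gcongr
      _ = 1300 * (σ ^ 2 * (v / ε)) ^ 2 + (σ ^ 2 * (v / ε)) * ζ := by ring
      _ ≤ 1300 * (ζ / 10 ^ 4) ^ 2 + (ζ / 10 ^ 4) * ζ := by gcongr
      _ ≤ (ζ / 2) ^ 2 := by
          have e7 := sq_nonneg ζ
          have e8 : (ζ / 2) ^ 2 = ζ ^ 2 / 4 := by ring
          have e9 : 1300 * (ζ / 10 ^ 4) ^ 2 + (ζ / 10 ^ 4) * ζ =
            (1300 / 10 ^ 8 + 1 / 10 ^ 4) * ζ ^ 2 := by ring
          rw [e8, e9]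
          linarith
  have f1 : σ ^ 2 * n1 ≤ ζ / 2 := by
    exact (abs_le_of_sq_le_sq' hG1' (by positivity)).2
  have f2 : σ ^ 2 * n2 ≤ ζ / 2 := by
    exact (abs_le_of_sq_le_sq' hG2' (by positivity)).2
  linarith

end OMS

theorem om (hL : T_LQ) (hG : T_G12) (hS : T_SD) (hR : T_RX) : T_OM := by
  intro d L _ X E δ ε c σ p0 Q g ζ b0 β B hD hB hSm hemb hsum hm κ
  obtain ⟨l1, l2, l3, l4⟩ := hL d L X E δ ε c σ p0 Q g b0 β B hD hSm.hσ.le hSm.hσ1 hB hSm.hQ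
    hSm.hg hemb hsum
  obtain ⟨g2, g1⟩ := hG d L X E δ ε c σ p0 b0 β B hD hSm.hσ.le hSm.hσ1 hB κ
  have hs := (hS d L X c σ hD.hc hD.im2 κ).2
  rw [hs, norm_mul, norm_pow, Complex.norm_real, Real.norm_eq_abs, sq_abs]
  refine le_trans (mul_le_mul_of_nonneg_left (norm_add_le _ _) (sq_nonneg σ)) ?_
  refine OMS.num hD.hδ hD.hδ1 hD.hε hD.hεδ hD.hc hD.hc1 hSm ?_ ?_ ?_ (norm_nonneg _)
    (norm_nonneg _) (norm_nonneg _) hm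
    ((le_abs_self _).trans (Complex.abs_im_le_norm _)) l1 l2 l3 l4 g2 g1
  · exact integral_nonneg fun V => Finset.sum_nonneg fun y _ => by positivity
  · exact integral_nonneg fun V => Finset.sum_nonneg fun y _ => by positivity
  · exact integral_nonneg fun V => by positivity

end Pool.Agent.T2h98.AC
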