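import Pool.Agent.T2h98.AC.Stm

/-! Partition of unity on the torus (task PAR). -/

set_option autoImplicit false

open scoped BigOperators

namespace Pool.Agent.T2h98.AC

open Pool.Agent.W788.MFP.Four (T)

namespace PAR

section

variable {L : ℕ}

/-- truncated distance to zero -/
noncomputable def hh (ℓ : ℕ) (t : ZMod L) : ℤ := min (|t.valMinAbs|) (ℓ : ℤ)

/-- the one dimensional bump -/
noncomputable def gg (ℓ : ℕ) (t : ZMod L) : ℝ := Real.cos (Real.pi / (2 * ℓ) * (hh ℓ t : ℝ))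

theorem hh_nonneg (ℓ : ℕ) (t : ZMod L) : 0 ≤ hh ℓ t := by
  unfold hh
  exact le_min (abs_nonneg _) (by positivity)

theorem hh_le (ℓ : ℕ) (t : ZMod L) : hh ℓ t ≤ ℓ := min_le_right _ _

theorem ang_nonneg (ℓ : ℕ) (t : ZMod L) : 0 ≤ Real.pi / (2 * ℓ) * (hh ℓ t : ℝ) := by
  have h1 : (0 : ℝ) ≤ hh ℓ t := by exact_mod_cast hh_nonneg ℓ t
  positivity

theorem ang_le (ℓ : ℕ) (hℓ : 1 ≤ ℓ) (t : ZMod L) :
    Real.pi / (2 * ℓ) * (hh ℓ t : ℝ) ≤ Real.pi / 2 := by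
  have h1 : (hh ℓ t : ℝ) ≤ ℓ := by exact_mod_cast hh_le ℓ t
  have h2 : (1 : ℝ) ≤ ℓ := by exact_mod_cast hℓ
  have h3 : (0 : ℝ) ≤ Real.pi / (2 * ℓ) := by positivity
  calc Real.pi / (2 * ℓ) * (hh ℓ t : ℝ) ≤ Real.pi / (2 * ℓ) * ℓ :=
        mul_le_mul_of_nonneg_left h1 h3
    _ = Real.pi / 2 := by field_simp

theorem gg_nonneg (ℓ : ℕ) (hℓ : 1 ≤ ℓ) (t : ZMod L) : 0 ≤ gg ℓ t := by
  unfold gg
  refine Real.cos_nonneg_of_mem_Icc ⟨?_, ang_le ℓ hℓ t⟩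
  have := ang_nonneg ℓ t
  have := Real.pi_pos
  linarith

theorem gg_le (ℓ : ℕ) (t : ZMod L) : gg ℓ t ≤ 1 := Real.cos_le_one _

theorem gg_zero (ℓ : ℕ) (hℓ : 1 ≤ ℓ) (t : ZMod L) (h : (ℓ : ℤ) ≤ |t.valMinAbs|) :
    gg ℓ t = 0 := by
  unfold gg hh
  rw [min_eq_right h]
  have h2 : (ℓ : ℝ) ≠ 0 := by
    have : (1 : ℝ) ≤ ℓ := by exact_mod_cast hℓ
    linarith
  have h3 : Real.pi / (2 * ℓ) * (((ℓ : ℤ)) : ℝ) = Real.pi / 2 := by
    push_cast
    field_simp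
  rw [h3, Real.cos_pi_div_two]

theorem gg_ne (ℓ : ℕ) (hℓ : 1 ≤ ℓ) (t : ZMod L) (h : gg ℓ t ≠ 0) :
    |t.valMinAbs| < ℓ := by
  by_contra h1
  exact h (gg_zero ℓ hℓ t (not_lt.1 h1))

theorem hh_step (ℓ n : ℕ) [NeZero L] (hL : L = n * ℓ) (hℓ : 1 ≤ ℓ) (hn : 8 ≤ n) (t : ZMod L) :
    |hh ℓ (t + 1) - hh ℓ t| ≤ 1 := by
  have h1 : (((t + 1).valMinAbs - t.valMinAbs - 1 : ℤ) : ZMod L) = 0 := by
    push_cast
    ring
  obtain ⟨k, hk⟩ := (ZMod.intCast_zmod_eq_zero_iff_dvd _ L).1 h1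
  have h2 := ZMod.valMinAbs_mem_Ioc (t + 1)
  have h3 := ZMod.valMinAbs_mem_Ioc t
  rw [Set.mem_Ioc] at h2 h3
  have h8 : 8 * (ℓ : ℤ) ≤ L := by
    rw [hL]
    push_cast
    exact mul_le_mul_of_nonneg_right (by exact_mod_cast hn) (by positivity)
  have hℓ' : (1 : ℤ) ≤ ℓ := by exact_mod_cast hℓ
  have hk1 : k ≤ 1 := by
    by_contra hc
    have : (L : ℤ) * 2 ≤ L * k := mul_le_mul_of_nonneg_left (by omega) (by omega)
    omega
  have hk2 : -1 ≤ k := by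
    by_contra hc
    have : (L : ℤ) * k ≤ L * (-2) := mul_le_mul_of_nonneg_left (by omega) (by omega)
    omega
  unfold hh
  have hk3 : k = -1 ∨ k = 0 ∨ k = 1 := by omega
  generalize (t + 1).valMinAbs = w at *
  generalize t.valMinAbs = v at *
  rcases hk3 with rfl | rfl | rfl
  · rw [abs_le]
    rcases abs_cases w with ⟨hw, _⟩ | ⟨hw, _⟩ <;> rcases abs_cases v with ⟨hv, _⟩ | ⟨hv, _⟩ <;>
      rw [hw, hv] <;> constructor <;> omega
  · rw [abs_le]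
    rcases abs_cases w with ⟨hw, _⟩ | ⟨hw, _⟩ <;> rcases abs_cases v with ⟨hv, _⟩ | ⟨hv, _⟩ <;>
      rw [hw, hv] <;> constructor <;> omega
  · rw [abs_le]
    rcases abs_cases w with ⟨hw, _⟩ | ⟨hw, _⟩ <;> rcases abs_cases v with ⟨hv, _⟩ | ⟨hv, _⟩ <;>
      rw [hw, hv] <;> constructor <;> omega

theorem cos_lip (a b : ℝ) : |Real.cos a - Real.cos b| ≤ |a - b| := by
  have h := Real.cos_sub_cos a b
  rw [h, abs_mul, abs_mul]
  have h1 : |Real.sin ((a + b) / 2)| ≤ 1 := Real.abs_sin_le_one _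
  have h2 : |Real.sin ((a - b) / 2)| ≤ |(a - b) / 2| := Real.abs_sin_le_abs
  have h3 : |(a - b) / 2| = |a - b| / 2 := by rw [abs_div]; norm_num
  have h4 : |(-2 : ℝ)| = 2 := by norm_num
  rw [h4]
  have h5 := abs_nonneg (Real.sin ((a - b) / 2))
  have h6 := abs_nonneg (Real.sin ((a + b) / 2))
  nlinarith

theorem gg_step (ℓ n : ℕ) [NeZero L] (hL : L = n * ℓ) (hℓ : 1 ≤ ℓ) (hn : 8 ≤ n) (t : ZMod L) :
    |gg ℓ (t + 1) - gg ℓ t| ≤ 4 / ℓ := by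
  have h1 := hh_step ℓ n hL hℓ hn t
  have h1' : |(hh ℓ (t + 1) : ℝ) - hh ℓ t| ≤ 1 := by exact_mod_cast h1
  have h2 : (0 : ℝ) < ℓ := by exact_mod_cast hℓ
  unfold gg
  refine (cos_lip _ _).trans ?_
  rw [← mul_sub, abs_mul, abs_of_nonneg (by positivity : (0 : ℝ) ≤ Real.pi / (2 * ℓ))]
  calc Real.pi / (2 * ℓ) * |(hh ℓ (t + 1) : ℝ) - hh ℓ t| ≤ Real.pi / (2 * ℓ) * 1 :=
        mul_le_mul_of_nonneg_left h1' (by positivity)
    _ ≤ 4 / ℓ := by
      rw [mul_one, div_le_div_iff₀ (by positivity) h2]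
      have := Real.pi_le_four
      nlinarith

/-- the centers -/
def C1 (L ℓ n : ℕ) : Finset (ZMod L) :=
  (Finset.range n).image fun j : ℕ => ((j * ℓ : ℕ) : ZMod L)

theorem mem_C1 (ℓ n : ℕ) (hL : L = n * ℓ) (hn : 8 ≤ n) (j : ℕ) :
    ((j * ℓ : ℕ) : ZMod L) ∈ C1 L ℓ n := by
  unfold C1
  rw [Finset.mem_image]
  refine ⟨j % n, Finset.mem_range.2 (Nat.mod_lt _ (by omega)), ?_⟩
  rw [ZMod.natCast_eq_natCast_iff, hL]
  exact Nat.ModEq.mul_right' ℓ (Nat.mod_modEq j n)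

theorem near (ℓ n : ℕ) [NeZero L] (hL : L = n * ℓ) (hℓ : 1 ≤ ℓ) (x a : ZMod L)
    (ha : a ∈ C1 L ℓ n) (h : |(x - a).valMinAbs| < ℓ) :
    a = ((x.val / ℓ * ℓ : ℕ) : ZMod L) ∨ a = (((x.val / ℓ + 1) * ℓ : ℕ) : ZMod L) := by
  unfold C1 at ha
  rw [Finset.mem_image] at ha
  obtain ⟨j', _, rfl⟩ := ha
  set v := (x - ((j' * ℓ : ℕ) : ZMod L)).valMinAbs with hv
  have hx : x = (((x.val / ℓ) * ℓ + x.val % ℓ : ℕ) : ZMod L) := by
    rw [Nat.div_add_mod']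
    exact (ZMod.natCast_zmod_val x).symm
  have h1 : ((v : ℤ) : ZMod L) = x - ((j' * ℓ : ℕ) : ZMod L) := by rw [hv, ZMod.coe_valMinAbs]
  set j := x.val / ℓ with hj
  set r := x.val % ℓ with hr
  have h2 : ((((j : ℤ) - j') * ℓ + (r - v) : ℤ) : ZMod L) = 0 := by
    push_cast
    rw [h1]
    have hx' := hx
    push_cast at hx'
    push_cast
    rw [hx']
    ring
  have h3 := (ZMod.intCast_zmod_eq_zero_iff_dvd _ L).1 h2
  have h4 : (ℓ : ℤ) ∣ ((r : ℤ) - v) := by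
    have h5 : (ℓ : ℤ) ∣ (L : ℤ) := by rw [hL]; push_cast; exact Dvd.intro_left _ rfl
    have h6 := h5.trans h3
    exact (Int.dvd_add_right (Dvd.intro_left _ rfl)).1 h6
  obtain ⟨k, hk⟩ := h4
  have hr1 : r < ℓ := Nat.mod_lt _ (by omega)
  have hr2 : (r : ℤ) < ℓ := by exact_mod_cast hr1
  have hℓ' : (1 : ℤ) ≤ ℓ := by exact_mod_cast hℓ
  rw [abs_lt] at h
  have hk1 : k ≤ 1 := by
    by_contra hc
    have : (ℓ : ℤ) * 2 ≤ ℓ * k := mul_le_mul_of_nonneg_left (by omega) (by omega)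
    omega
  have hk2 : 0 ≤ k := by
    by_contra hc
    have : (ℓ : ℤ) * k ≤ ℓ * (-1) := mul_le_mul_of_nonneg_left (by omega) (by omega)
    omega
  have hk3 : k = 0 ∨ k = 1 := by omega
  rw [hk] at h2
  rcases hk3 with rfl | rfl
  · left
    push_cast at h2
    push_cast
    linear_combination -h2
  · right
    push_cast at h2
    push_cast
    linear_combination -h2

theorem val0 (ℓ n : ℕ) [NeZero L] (hL : L = n * ℓ) (hℓ : 1 ≤ ℓ) (hn : 8 ≤ n) (v : ℤ)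
    (hv : |v| ≤ ℓ) : ((v : ZMod L)).valMinAbs = v := by
  rw [ZMod.valMinAbs_spec]
  refine ⟨rfl, ?_⟩
  have h8 : 8 * (ℓ : ℤ) ≤ L := by
    rw [hL]
    push_cast
    exact mul_le_mul_of_nonneg_right (by exact_mod_cast hn) (by positivity)
  have hℓ' : (1 : ℤ) ≤ ℓ := by exact_mod_cast hℓ
  rw [abs_le] at hv
  rw [Set.mem_Ioc]
  constructor <;> omega

theorem sum1 (ℓ n : ℕ) [NeZero L] (hL : L = n * ℓ) (hℓ : 1 ≤ ℓ) (hn : 8 ≤ n) (x : ZMod L) :
    ∑ a ∈ C1 L ℓ n, gg ℓ (x - a) ^ 2 = 1 := by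
  set j := x.val / ℓ with hj
  set r := x.val % ℓ with hr
  have hx : x = ((j * ℓ + r : ℕ) : ZMod L) := by
    rw [hj, hr, Nat.div_add_mod']
    exact (ZMod.natCast_zmod_val x).symm
  have hr1 : r < ℓ := Nat.mod_lt _ (by omega)
  have hℓ' : (0 : ℝ) < ℓ := by exact_mod_cast hℓ
  have e1 : x - ((j * ℓ : ℕ) : ZMod L) = ((r : ℤ) : ZMod L) := by
    rw [hx]
    push_cast
    ring
  have e2 : x - (((j + 1) * ℓ : ℕ) : ZMod L) = ((((r : ℤ) - ℓ : ℤ)) : ZMod L) := by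
    rw [hx]
    push_cast
    ring
  have g1 : gg ℓ (x - ((j * ℓ : ℕ) : ZMod L)) = Real.cos (Real.pi / (2 * ℓ) * r) := by
    rw [e1]
    unfold gg hh
    rw [val0 ℓ n hL hℓ hn _ (by rw [abs_le]; constructor <;> omega), abs_of_nonneg (by omega),
      min_eq_left (by omega)]
    push_cast
    rfl
  have g2 : gg ℓ (x - (((j + 1) * ℓ : ℕ) : ZMod L)) = Real.sin (Real.pi / (2 * ℓ) * r) := by
    rw [e2]
    unfold gg hh
    rw [val0 ℓ n hL hℓ hn _ (by rw [abs_le]; constructor <;> omega), abs_of_nonpos (by omega),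
      min_eq_left (by omega)]
    rw [← Real.cos_pi_div_two_sub]
    congr 1
    push_cast
    field_simp
    ring
  have hne : ((j * ℓ : ℕ) : ZMod L) ≠ (((j + 1) * ℓ : ℕ) : ZMod L) := by
    intro h
    have h1 : ((ℓ : ℕ) : ZMod L) = 0 := by
      have h2 : (((j + 1) * ℓ : ℕ) : ZMod L) - ((j * ℓ : ℕ) : ZMod L) = 0 := by rw [h, sub_self]
      push_cast at h2
      linear_combination h2
    rw [ZMod.natCast_eq_zero_iff] at h1
    have h3 := Nat.le_of_dvd (by omega) h1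
    have h4 : 8 * ℓ ≤ L := by rw [hL]; exact Nat.mul_le_mul_right ℓ hn
    omega
  have hsub : ({((j * ℓ : ℕ) : ZMod L), (((j + 1) * ℓ : ℕ) : ZMod L)} : Finset (ZMod L)) ⊆
      C1 L ℓ n := by
    intro a ha
    rw [Finset.mem_insert, Finset.mem_singleton] at ha
    rcases ha with rfl | rfl
    · exact mem_C1 ℓ n hL hn j
    · exact mem_C1 ℓ n hL hn (j + 1)
  rw [← Finset.sum_subset hsub, Finset.sum_pair hne, g1, g2, Real.cos_sq_add_sin_sq]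
  intro a ha hna
  rw [Finset.mem_insert, Finset.mem_singleton] at hna
  have : gg ℓ (x - a) = 0 := by
    by_contra hc
    exact hna (near ℓ n hL hℓ x a ha (gg_ne ℓ hℓ _ hc))
  rw [this]
  norm_num

theorem card1 (ℓ n : ℕ) [NeZero L] (hL : L = n * ℓ) (hℓ : 1 ≤ ℓ) (x : ZMod L) :
    ((C1 L ℓ n).filter fun a => gg ℓ (x - a) ≠ 0).card ≤ 2 := by
  have hsub : ((C1 L ℓ n).filter fun a => gg ℓ (x - a) ≠ 0) ⊆
      ({((x.val / ℓ * ℓ : ℕ) : ZMod L), (((x.val / ℓ + 1) * ℓ : ℕ) : ZMod L)} :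
        Finset (ZMod L)) := by
    intro a ha
    rw [Finset.mem_filter] at ha
    rw [Finset.mem_insert, Finset.mem_singleton]
    exact near ℓ n hL hℓ x a ha.1 (gg_ne ℓ hℓ _ ha.2)
  exact (Finset.card_le_card hsub).trans Finset.card_le_two

end

end PAR


/-- partition of unity -/
theorem par : T_PAR := by
  intro d ℓ n L _ hL hℓ hn
  refine ⟨Fintype.piFinset fun _ => PAR.C1 L ℓ n, fun a x => ∏ i, PAR.gg ℓ (x i - a i), ?_, ?_, ?_, ?_, ?_⟩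
  · intro a x
    refine ⟨Finset.prod_nonneg fun i _ => PAR.gg_nonneg ℓ hℓ _, ?_⟩
    exact Finset.prod_le_one (fun i _ => PAR.gg_nonneg ℓ hℓ _) fun i _ => PAR.gg_le ℓ _
  · intro a _ x hx i
    have := (Finset.prod_ne_zero_iff.1 hx) i (Finset.mem_univ i)
    exact PAR.gg_ne ℓ hℓ _ this
  · intro x
    have h1 := Finset.prod_univ_sum (fun _ : Fin d => PAR.C1 L ℓ n)
      (fun i a => PAR.gg ℓ (x i - a) ^ 2)
    simp_rw [PAR.sum1 ℓ n hL hℓ hn] at h1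
    rw [Finset.prod_const_one] at h1
    rw [h1]
    refine Finset.sum_congr rfl fun a _ => ?_
    rw [Finset.prod_pow]
  · intro a _ x i
    simp only
    rw [← Finset.mul_prod_erase Finset.univ _ (Finset.mem_univ i),
      ← Finset.mul_prod_erase Finset.univ _ (Finset.mem_univ i)]
    have h1 : ∏ k ∈ Finset.univ.erase i, PAR.gg ℓ ((x + Pi.single i 1 : T d L) k - a k) =
        ∏ k ∈ Finset.univ.erase i, PAR.gg ℓ (x k - a k) := by
      refine Finset.prod_congr rfl fun k hk => ?_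
      have hne : k ≠ i := Finset.ne_of_mem_erase hk
      rw [Pi.add_apply, Pi.single_eq_of_ne hne, add_zero]
    rw [h1, ← sub_mul, abs_mul]
    have h2 : |∏ k ∈ Finset.univ.erase i, PAR.gg ℓ (x k - a k)| ≤ 1 := by
      rw [abs_of_nonneg (Finset.prod_nonneg fun i _ => PAR.gg_nonneg ℓ hℓ _)]
      exact Finset.prod_le_one (fun i _ => PAR.gg_nonneg ℓ hℓ _) fun i _ => PAR.gg_le ℓ _
    have h3 : |PAR.gg ℓ ((x + Pi.single i 1 : T d L) i - a i) - PAR.gg ℓ (x i - a i)| ≤ 4 / ℓ := by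
      rw [Pi.add_apply, Pi.single_eq_same]
      have := PAR.gg_step ℓ n hL hℓ hn (x i - a i)
      rw [show x i + 1 - a i = x i - a i + 1 by ring]
      exact this
    calc _ ≤ |PAR.gg ℓ ((x + Pi.single i 1 : T d L) i - a i) - PAR.gg ℓ (x i - a i)| * 1 :=
          mul_le_mul_of_nonneg_left h2 (abs_nonneg _)
      _ ≤ 4 / ℓ := by rw [mul_one]; exact h3
  · intro x
    have hsub : ((Fintype.piFinset fun _ : Fin d => PAR.C1 L ℓ n).filter
        fun a => ∏ i, PAR.gg ℓ (x i - a i) ≠ 0) ⊆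
        Fintype.piFinset fun i : Fin d => (PAR.C1 L ℓ n).filter fun a => PAR.gg ℓ (x i - a) ≠ 0 := by
      intro a ha
      rw [Finset.mem_filter, Fintype.mem_piFinset] at ha
      rw [Fintype.mem_piFinset]
      intro i
      rw [Finset.mem_filter]
      exact ⟨ha.1 i, (Finset.prod_ne_zero_iff.1 ha.2) i (Finset.mem_univ i)⟩
    have h1 := Finset.card_le_card hsub
    rw [Fintype.card_piFinset] at h1
    have h2 : ∏ i : Fin d, ((PAR.C1 L ℓ n).filter fun a => PAR.gg ℓ (x i - a) ≠ 0).card ≤ 2 ^ d := by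
      calc _ ≤ ∏ i : Fin d, 2 :=
            Finset.prod_le_prod' fun i _ => PAR.card1 ℓ n hL hℓ (x i)
        _ = 2 ^ d := by rw [Finset.prod_const, Finset.card_univ, Fintype.card_fin]
    exact_mod_cast h1.trans h2

end Pool.Agent.T2h98.AC
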