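import Pool.Agent.T2h98.AC.Stm
import Pool.Agent.T2h98.QD.RQF

/-! The form bound for the resolvent of a dissipative operator. -/

set_option autoImplicit false
set_option linter.unusedSectionVars false

open scoped BigOperators Matrix
open MeasureTheory ProbabilityTheory

namespace Pool.Agent.T2h98.AC

open Pool.Agent.W788.MFP.Four (T e NN adj K)
open Pool.Agent.W788.BK (nsq hs PP JJ hi Low cr)
open Pool.Agent.T2h98.QD

namespace RBS

open KQ RQFS

variable {d L : ℕ} [NeZero L]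

theorem form_c {E δ σ : ℝ} {ξ β : T d L → ℝ} (hσ : 0 ≤ σ) (hf : FB E δ σ ξ β) (w : T d L → ℂ) :
    σ * |∑ x, ξ x * ‖w x‖ ^ 2| ≤ 1 / 8 * qf (J0 E δ) w + eb β w := by
  have h0 : ∀ a : T d L → ℝ, ∑ x, a x * ‖w x‖ ^ 2 =
      ∑ x, a x * (w x).re ^ 2 + ∑ x, a x * (w x).im ^ 2 := by
    intro a
    rw [← Finset.sum_add_distrib]
    refine Finset.sum_congr rfl fun x _ => ?_
    rw [← Complex.normSq_eq_norm_sq, Complex.normSq_apply]
    ring
  have h2 : qf (J0 E δ) w = Pool.Agent.W788.MFP.Four.q (JJ E δ) (fun y => (w y).re) +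
        Pool.Agent.W788.MFP.Four.q (JJ E δ) (fun y => (w y).im) := by
    unfold J0
    rw [Win.Mo_qf _ (Win.JJ_neg E δ)]
  have h3 := hf (fun y => (w y).re)
  have h4 := hf (fun y => (w y).im)
  unfold eb
  rw [h0 ξ, h0 β, h2]
  have h5 := abs_add_le (∑ x, ξ x * (w x).re ^ 2) (∑ x, ξ x * (w x).im ^ 2)
  have h6 := mul_le_mul_of_nonneg_left h5 hσ
  rw [mul_add] at h6
  linarith

theorem eb_par {β : T d L → ℝ} (u v : T d L → ℂ) :
    eb β (fun x => u x + v x) + eb β (fun x => u x - v x) = 2 * (eb β u + eb β v) := by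
  unfold eb
  rw [← Finset.sum_add_distrib, ← Finset.sum_add_distrib, Finset.mul_sum]
  refine Finset.sum_congr rfl fun x _ => ?_
  have := paral (u x) (v x)
  linear_combination (β x) * this

theorem q_par {E δ : ℝ} (u v : T d L → ℂ) :
    qf (J0 E δ) (fun x => u x + v x) + qf (J0 E δ) (fun x => u x - v x) =
      2 * (qf (J0 E δ) u + qf (J0 E δ) v) := by
  rw [qf_J0, qf_J0, qf_J0, qf_J0, ← mul_add, ← mul_add, ← Finset.sum_add_distrib, ← Finset.sum_add_distrib,
    mul_left_comm (2 : ℝ)]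
  congr 1
  rw [Finset.mul_sum]
  refine Finset.sum_congr rfl fun k _ => ?_
  rw [fc_add, fc_sub]
  have := paral (fc u k) (fc v k)
  linear_combination (JJ E δ k) * this

theorem form_pol {E δ σ : ℝ} {ξ β : T d L → ℝ} (hσ : 0 ≤ σ) (hf : FB E δ σ ξ β)
    (u v : T d L → ℂ) : σ * |∑ x, ξ x * (star (u x) * v x).re| ≤
      1 / 16 * (qf (J0 E δ) u + qf (J0 E δ) v) + 1 / 2 * (eb β u + eb β v) := by
  have h1 := form_c hσ hf (fun x => u x + v x)
  have h2 := form_c hσ hf (fun x => u x - v x)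
  have h3 : ∑ x, ξ x * (star (u x) * v x).re =
      1 / 4 * (∑ x, ξ x * ‖u x + v x‖ ^ 2 - ∑ x, ξ x * ‖u x - v x‖ ^ 2) := by
    rw [← Finset.sum_sub_distrib, Finset.mul_sum]
    refine Finset.sum_congr rfl fun x _ => ?_
    have := polar (u x) (v x)
    linear_combination (-(1 / 4) * ξ x) * this
  have h4 := q_par (E := E) (δ := δ) u v
  have h4' := eb_par (β := β) u v
  rw [h3, abs_mul, abs_of_pos (by norm_num : (0 : ℝ) < 1 / 4)]
  have h5 : |∑ x, ξ x * ‖u x + v x‖ ^ 2 - ∑ x, ξ x * ‖u x - v x‖ ^ 2| ≤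
      |∑ x, ξ x * ‖u x + v x‖ ^ 2| + |∑ x, ξ x * ‖u x - v x‖ ^ 2| := abs_sub _ _
  have h6 := mul_le_mul_of_nonneg_left h5 hσ
  rw [mul_add] at h6
  linarith

/-- the main estimate; `D` is minus the dissipation -/
theorem core {E δ ε c σ s : ℝ} (hs : s = 1 ∨ s = -1) (hδ : 0 < δ) (hε : 0 < ε) (hεδ : ε ≤ δ)
    (hσ : 0 ≤ σ) {ξ β : T d L → ℝ} (hf : FB E δ σ ξ β) (X : T d L → ℂ) (D : T d L → ℝ)
    (hre : ∀ k, |(X k).re - (adj k - E)| ≤ δ / 8) (him : ∀ k, (X k).im = -s * D k)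
    (hD : ∀ k, ε * δ ^ 2 / JJ E δ k ^ 2 ≤ D k) (hD2 : ∀ k, c ≤ D k) (hc : 0 < c)
    (u f : T d L → ℂ) (I : ℝ) (hI : I = -s * (star u ⬝ᵥ f).im)
    (hx : TX X σ ξ *ᵥ u = f) :
    0 ≤ I ∧ c * nsq u ≤ I ∧
    qf (J0 E δ) u ≤ 2 * qf (J1 E δ) f + 36 * (δ / ε) * I +
      (eb β (Sg E δ *ᵥ u) + eb β u) ∧
    qf (J0 E δ) u ≤ 1300 * (δ / ε) ^ 2 * qf (J1 E δ) f +
      2 * (eb β (Sg E δ *ᵥ u) + eb β u) ∧
    nsq u ≤ (4 * δ)⁻¹ * qf (J0 E δ) u + 16 / ε * I := by
  have hN := Pool.Agent.W788.MFP.Four.NN_pos (d := d) (L := L)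
  have hJ : ∀ k : T d L, 0 < JJ E δ k := KERS.JJ_pos hδ
  have hJδ : ∀ k : T d L, δ ≤ JJ E δ k := fun k => KERS.le_JJ k
  have hD0 : ∀ k, 0 ≤ D k := fun k => hc.le.trans (hD2 k)
  obtain ⟨S, hS⟩ : ∃ S : T d L → ℝ, S = fun k => (adj k - E) / JJ E δ k := ⟨_, rfl⟩
  have hs1 : ∀ k, |S k| ≤ 1 := fun k => by
    rw [hS]
    simp only
    rw [abs_div, abs_of_pos (hJ k), div_le_one (hJ k)]
    exact Pool.Agent.W788.MFP.Form.J_ge' E δ k
  obtain ⟨v, hv⟩ : ∃ v : T d L → ℂ, v = Sg E δ *ᵥ u := ⟨_, rfl⟩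
  rw [← hv]
  have hvF : ∀ k, fc v k = (S k : ℂ) * fc u k := fun k => by
    rw [hv, hS]
    unfold Sg
    rw [fc_mo]
  have hMF : ∀ k, fc (Mo X *ᵥ u) k = X k * fc u k := fun k => fc_mo X u k
  -- pointwise equation
  have hx' : ∀ x, (Mo X *ᵥ u) x + ((σ * ξ x : ℝ) : ℂ) * u x = f x := by
    intro x
    rw [← hx]
    unfold TX
    rw [Matrix.add_mulVec, Pi.add_apply, Matrix.mulVec_diagonal]
  -- the general decomposition
  have hdec : ∀ w : T d L → ℂ, ∑ x, star (w x) * f x = ∑ x, star (w x) * (Mo X *ᵥ u) x +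
      (σ : ℂ) * ∑ x, (ξ x : ℂ) * (star (w x) * u x) := by
    intro w
    rw [Finset.mul_sum, ← Finset.sum_add_distrib]
    refine Finset.sum_congr rfl fun x _ => ?_
    rw [← hx' x]
    push_cast
    ring
  -- the imaginary part
  have hI1 : I = (NN d L)⁻¹ * ∑ k, D k * ‖fc u k‖ ^ 2 := by
    have e1 : (star u ⬝ᵥ f) = ∑ x, star (u x) * f x := rfl
    have e2 : (∑ x, star (u x) * (Mo X *ᵥ u) x).im = (NN d L)⁻¹ * ∑ k, (X k).im * ‖fc u k‖ ^ 2 := by
      rw [parse, ← Complex.ofReal_inv, Complex.im_ofReal_mul, Complex.im_sum]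
      congr 1
      refine Finset.sum_congr rfl fun k _ => ?_
      have e3 : star (fc u k) * fc (Mo X *ᵥ u) k = X k * ((‖fc u k‖ ^ 2 : ℝ) : ℂ) := by
        rw [hMF]
        push_cast
        rw [← Complex.conj_mul']
        simp only [Complex.star_def]
        ring
      rw [e3, Complex.im_mul_ofReal]
    have e4 : ((σ : ℂ) * ∑ x, (ξ x : ℂ) * (star (u x) * u x)).im = 0 := by
      rw [Complex.im_ofReal_mul, Complex.im_sum]
      have e5 : ∀ x, ((ξ x : ℂ) * (star (u x) * u x)).im = 0 := by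
        intro x
        have e6 : star (u x) * u x = ((‖u x‖ ^ 2 : ℝ) : ℂ) := by
          push_cast
          rw [Complex.star_def, Complex.conj_mul']
        rw [e6, ← Complex.ofReal_mul, Complex.ofReal_im]
      rw [Finset.sum_eq_zero fun x _ => e5 x, mul_zero]
    rw [hI, e1, hdec, Complex.add_im, e2, e4, add_zero, mul_left_comm]
    congr 1
    rw [Finset.mul_sum]
    refine Finset.sum_congr rfl fun k _ => ?_
    rw [him]
    rcases hs with h | h <;> rw [h] <;> ring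
  -- quadratic form
  have hq : qf (J0 E δ) u = (NN d L)⁻¹ * ∑ k, JJ E δ k * ‖fc u k‖ ^ 2 := qf_J0 E δ u
  have hqv : qf (J0 E δ) v ≤ qf (J0 E δ) u := by
    rw [qf_J0, qf_J0]
    apply mul_le_mul_of_nonneg_left _ (by positivity)
    refine Finset.sum_le_sum fun k _ => ?_
    apply mul_le_mul_of_nonneg_left _ (hJ k).le
    rw [hvF, norm_mul, Complex.norm_real, Real.norm_eq_abs]
    have := hs1 k
    have h8 : |S k| * ‖fc u k‖ ≤ ‖fc u k‖ := mul_le_of_le_one_left (norm_nonneg _) this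
    exact pow_le_pow_left₀ (by positivity) h8 2
  have hB := form_pol hσ hf v u
  have hre1 : (∑ x, star (v x) * f x).re =
      (NN d L)⁻¹ * ∑ k, S k * (X k).re * ‖fc u k‖ ^ 2 + σ * ∑ x, ξ x * (star (v x) * u x).re := by
    rw [hdec, Complex.add_re, Complex.re_ofReal_mul]
    congr 1
    · rw [parse, ← Complex.ofReal_inv, Complex.re_ofReal_mul, Complex.re_sum]
      congr 1
      refine Finset.sum_congr rfl fun k _ => ?_
      have e3 : star (fc v k) * fc (Mo X *ᵥ u) k = X k * ((S k * ‖fc u k‖ ^ 2 : ℝ) : ℂ) := by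
        rw [hMF, hvF, star_mul', Complex.star_def, Complex.conj_ofReal]
        push_cast
        rw [← Complex.conj_mul']
        ring
      rw [e3, Complex.re_mul_ofReal]
      ring
    · rw [Complex.re_sum]
      congr 1
      exact Finset.sum_congr rfl fun x _ => Complex.re_ofReal_mul _ _
  -- the main pointwise bound
  have hpt : ∀ k, JJ E δ k ≤ S k * (X k).re + JJ E δ k / 8 + 18 * (δ / ε) * D k := by
    intro k
    have hk := hJ k
    have e1 : S k * (adj k - E) = (adj k - E) ^ 2 / JJ E δ k := by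
      rw [hS]
      simp only
      ring
    have e2 : JJ E δ k ^ 2 = (adj k - E) ^ 2 + δ ^ 2 := Pool.Agent.W788.MFP.Form.J_sq E δ k
    have e3 : S k * (adj k - E) = JJ E δ k - δ ^ 2 / JJ E δ k := by
      rw [e1, eq_sub_iff_add_eq, ← add_div, ← e2, sq, mul_div_assoc, div_self hk.ne', mul_one]
    have e4 : S k * (adj k - E) - δ / 8 ≤ S k * (X k).re := by
      have e5 : |S k * ((X k).re - (adj k - E))| ≤ δ / 8 := by
        rw [abs_mul]
        calc |S k| * |(X k).re - (adj k - E)| ≤ 1 * (δ / 8) :=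
              mul_le_mul (hs1 k) (hre k) (abs_nonneg _) one_pos.le
          _ = δ / 8 := one_mul _
      have e6 := (abs_le.1 e5).1
      nlinarith
    have e7 : δ ^ 2 / JJ E δ k + δ / 8 ≤ JJ E δ k / 8 + 18 * (δ / ε) * D k := by
      have hr : 0 < δ / ε := by positivity
      rcases le_or_gt (4 * δ) (JJ E δ k) with h | h
      · have e8 : δ ^ 2 / JJ E δ k ≤ δ / 4 := by
          rw [div_le_iff₀ hk]
          nlinarith
        have e9 : 0 ≤ 18 * (δ / ε) * D k := mul_nonneg (by positivity) (hD0 k)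
        linarith
      · have e8 : δ ^ 2 / JJ E δ k ≤ δ := by
          rw [div_le_iff₀ hk]
          nlinarith [hJδ k]
        have e9 : ε / 16 ≤ D k := by
          refine le_trans ?_ (hD k)
          rw [le_div_iff₀ (by positivity)]
          have : JJ E δ k ^ 2 ≤ (4 * δ) ^ 2 := pow_le_pow_left₀ hk.le h.le 2
          nlinarith
        have e10 : δ / 16 ≤ (δ / ε) * D k := by
          calc δ / 16 = (δ / ε) * (ε / 16) := by field_simp
            _ ≤ _ := mul_le_mul_of_nonneg_left e9 hr.le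
        nlinarith
    linarith
  have hmain : qf (J0 E δ) u ≤ (NN d L)⁻¹ * ∑ k, S k * (X k).re * ‖fc u k‖ ^ 2 +
      1 / 8 * qf (J0 E δ) u + 18 * (δ / ε) * I := by
    rw [hq, hI1, mul_left_comm (1 / 8 : ℝ), mul_left_comm (18 * (δ / ε)), ← mul_add, ← mul_add]
    apply mul_le_mul_of_nonneg_left _ (by positivity)
    rw [Finset.mul_sum, Finset.mul_sum, ← Finset.sum_add_distrib, ← Finset.sum_add_distrib]
    refine Finset.sum_le_sum fun k _ => ?_
    have := mul_le_mul_of_nonneg_right (hpt k) (by positivity : (0 : ℝ) ≤ ‖fc u k‖ ^ 2)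
    linarith
  have h9 : (∑ x, star (v x) * f x).re ≤ 1 / 4 * qf (J0 E δ) u + qf (J1 E δ) f := by
    rw [parse, ← Complex.ofReal_inv, Complex.re_ofReal_mul, Complex.re_sum, qf_J0, qf_J1, mul_left_comm (1 / 4 : ℝ),
      ← mul_add]
    apply mul_le_mul_of_nonneg_left _ (by positivity)
    rw [Finset.mul_sum, ← Finset.sum_add_distrib]
    refine Finset.sum_le_sum fun k _ => ?_
    refine (Complex.re_le_norm _).trans ?_
    rw [norm_mul, norm_star, hvF, norm_mul, Complex.norm_real, Real.norm_eq_abs]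
    have hk := hJ k
    have e1 : |S k| * ‖fc u k‖ * ‖fc f k‖ ≤ ‖fc u k‖ * ‖fc f k‖ := by
      apply mul_le_mul_of_nonneg_right _ (norm_nonneg _)
      exact mul_le_of_le_one_left (norm_nonneg _) (hs1 k)
    refine e1.trans ?_
    have e2 : 1 / 4 * (JJ E δ k * ‖fc u k‖ ^ 2) + (JJ E δ k)⁻¹ * ‖fc f k‖ ^ 2 - ‖fc u k‖ * ‖fc f k‖ =
        (JJ E δ k)⁻¹ * (JJ E δ k * ‖fc u k‖ / 2 - ‖fc f k‖) ^ 2 := by
      field_simp
      ring
    have e3 : 0 ≤ (JJ E δ k)⁻¹ * (JJ E δ k * ‖fc u k‖ / 2 - ‖fc f k‖) ^ 2 := by positivity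
    linarith
  have h10 : -(σ * |∑ x, ξ x * (star (v x) * u x).re|) ≤ σ * ∑ x, ξ x * (star (v x) * u x).re := by
    have := neg_abs_le (∑ x, ξ x * (star (v x) * u x).re)
    nlinarith
  have hr1 : 1 ≤ δ / ε := by rwa [le_div_iff₀ hε, one_mul]
  have hI0 : 0 ≤ I := by
    rw [hI1]
    exact mul_nonneg (by positivity) (Finset.sum_nonneg fun k _ => mul_nonneg (hD0 k) (by positivity))
  have hp0 : 0 ≤ qf (J1 E δ) f := by
    rw [qf_J1]
    exact mul_nonneg (by positivity) (Finset.sum_nonneg fun k _ =>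
      mul_nonneg (inv_nonneg.2 (hJ k).le) (by positivity))
  have hfirst : qf (J0 E δ) u ≤ 2 * qf (J1 E δ) f + 36 * (δ / ε) * I + (eb β v + eb β u) := by
    linarith
  -- second bound
  have hI2 : 36 * (δ / ε) * I ≤ 1 / 2 * qf (J0 E δ) u + 648 * (δ / ε) ^ 2 * qf (J1 E δ) f := by
    have e0 : I ≤ ‖∑ x, star (u x) * f x‖ := by
      rw [hI]
      have e1 : (star u ⬝ᵥ f) = ∑ x, star (u x) * f x := rfl
      rw [e1]
      refine le_trans ?_ (Complex.abs_im_le_norm _)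
      rcases hs with h | h <;> rw [h]
      · rw [neg_one_mul]; exact neg_le_abs _
      · rw [neg_neg, one_mul]; exact le_abs_self _
    have e1 : ‖∑ x, star (u x) * f x‖ ≤ (NN d L)⁻¹ * ∑ k, ‖fc u k‖ * ‖fc f k‖ := by
      rw [parse, norm_mul, norm_inv, Complex.norm_real, Real.norm_eq_abs, abs_of_pos hN]
      apply mul_le_mul_of_nonneg_left _ (by positivity)
      refine (norm_sum_le _ _).trans (Finset.sum_le_sum fun k _ => ?_)
      rw [norm_mul, norm_star]
    have e2 : 36 * (δ / ε) * ((NN d L)⁻¹ * ∑ k, ‖fc u k‖ * ‖fc f k‖) ≤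
        1 / 2 * qf (J0 E δ) u + 648 * (δ / ε) ^ 2 * qf (J1 E δ) f := by
      rw [qf_J0, qf_J1, mul_left_comm (1 / 2 : ℝ), mul_left_comm (36 * (δ / ε)),
        mul_left_comm (648 * (δ / ε) ^ 2), ← mul_add]
      apply mul_le_mul_of_nonneg_left _ (by positivity)
      rw [Finset.mul_sum, Finset.mul_sum, Finset.mul_sum, ← Finset.sum_add_distrib]
      refine Finset.sum_le_sum fun k _ => ?_
      have hk := hJ k
      have e3 : 1 / 2 * (JJ E δ k * ‖fc u k‖ ^ 2) +
          648 * (δ / ε) ^ 2 * ((JJ E δ k)⁻¹ * ‖fc f k‖ ^ 2) -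
          36 * (δ / ε) * (‖fc u k‖ * ‖fc f k‖) =
          1 / 2 * ((JJ E δ k)⁻¹ * (JJ E δ k * ‖fc u k‖ - 36 * (δ / ε) * ‖fc f k‖) ^ 2) := by
        field_simp
        ring
      have e4 : 0 ≤ 1 / 2 * ((JJ E δ k)⁻¹ *
          (JJ E δ k * ‖fc u k‖ - 36 * (δ / ε) * ‖fc f k‖) ^ 2) := by positivity
      linarith
    exact (mul_le_mul_of_nonneg_left (e0.trans e1) (by positivity)).trans e2
  have hsecond : qf (J0 E δ) u ≤ 1300 * (δ / ε) ^ 2 * qf (J1 E δ) f + 2 * (eb β v + eb β u) := by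
    have e1 : 1 ≤ (δ / ε) ^ 2 := one_le_pow₀ hr1
    have e2 : 4 * qf (J1 E δ) f ≤ 4 * (δ / ε) ^ 2 * qf (J1 E δ) f := by
      have := mul_le_mul_of_nonneg_right e1 hp0
      linarith
    linarith
  refine ⟨hI0, ?_, hfirst, hsecond, ?_⟩
  · rw [hI1, nsq_fc, mul_left_comm]
    apply mul_le_mul_of_nonneg_left _ (by positivity)
    rw [Finset.mul_sum]
    exact Finset.sum_le_sum fun k _ => mul_le_mul_of_nonneg_right (hD2 k) (by positivity)
  · rw [hI1, nsq_fc, hq, mul_left_comm (4 * δ)⁻¹, mul_left_comm (16 / ε), ← mul_add]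
    apply mul_le_mul_of_nonneg_left _ (by positivity)
    rw [Finset.mul_sum, Finset.mul_sum, ← Finset.sum_add_distrib]
    refine Finset.sum_le_sum fun k _ => ?_
    rw [← mul_assoc, ← mul_assoc, ← add_mul]
    refine le_mul_of_one_le_left (by positivity) ?_
    have hk := hJ k
    rcases le_or_gt (4 * δ) (JJ E δ k) with h | h
    · have e1 : 1 ≤ (4 * δ)⁻¹ * JJ E δ k := by
        rw [inv_mul_eq_div, le_div_iff₀ (by positivity)]
        linarith
      have e2 : 0 ≤ 16 / ε * D k := mul_nonneg (by positivity) (hD0 k)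
      linarith
    · have e9 : ε / 16 ≤ D k := by
        refine le_trans ?_ (hD k)
        rw [le_div_iff₀ (by positivity)]
        have : JJ E δ k ^ 2 ≤ (4 * δ) ^ 2 := pow_le_pow_left₀ hk.le h.le 2
        nlinarith
      have e1 : 0 ≤ (4 * δ)⁻¹ * JJ E δ k := by positivity
      have e2 : 1 ≤ 16 / ε * D k := by
        calc (1 : ℝ) = 16 / ε * (ε / 16) := by field_simp
          _ ≤ _ := mul_le_mul_of_nonneg_left e9 (by positivity)
      linarith

end RBS

open RBS in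
theorem rb : T_RB := by
  intro d L _ X E δ ε c σ hX hσ ξ β _ hf u f
  constructor
  · intro hx
    refine core (s := 1) (Or.inl rfl) hX.hδ hX.hε hX.hεδ hσ hf X (fun k => -(X k).im) hX.re
      (fun k => by ring) hX.im hX.im2 hX.hc u f _ (by ring) hx
  · intro hx
    have hx' : TX (fun k => (starRingEnd ℂ) (X k)) σ ξ *ᵥ u = f := by
      rw [← hx]
      congr 1
      unfold TX
      rw [Matrix.conjTranspose_add, mo_star, Matrix.diagonal_conjTranspose]
      congr 2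
      funext x
      simp
    refine core (s := -1) (Or.inr rfl) hX.hδ hX.hε hX.hεδ hσ hf (fun k => (starRingEnd ℂ) (X k))
      (fun k => -(X k).im) (fun k => by rw [Complex.conj_re]; exact hX.re k)
      (fun k => by rw [Complex.conj_im]; ring) hX.im hX.im2 hX.hc u f _ (by ring) hx'

end Pool.Agent.T2h98.AC
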