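import Pool.Agent.T2h98.AC.Stm
import Pool.Agent.T2h98.QD.Res
import Pool.Agent.T2h98.QD.MoA

/-! Simple facts on the resolvent of a dissipative operator on a torus. -/

set_option autoImplicit false
set_option linter.unusedSectionVars false

open scoped BigOperators Matrix Topology
open MeasureTheory ProbabilityTheory Filter

namespace Pool.Agent.T2h98.AC

open Pool.Agent.W788.MFP.Four (T e NN adj K)
open Pool.Agent.W788.BK (nsq hs PP JJ hi Low cr nsq_nonneg nsq_eq form_single)
open Pool.Agent.T2h98.QD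

namespace RXS

variable {d L : ℕ} [NeZero L]

theorem EY_herm (y : T d L) : (EY y : Matrix (T d L) (T d L) ℂ).IsHermitian := by
  unfold Matrix.IsHermitian EY
  rw [Matrix.diagonal_conjTranspose]
  congr 1
  funext i
  by_cases h : i = y
  · subst h; simp
  · simp [Pi.single_eq_of_ne h]

theorem Mo_real_herm (m : T d L → ℝ) :
    (Mo fun k => ((m k : ℝ) : ℂ)).IsHermitian := by
  unfold Matrix.IsHermitian
  rw [mo_star]
  congr 1
  funext k
  exact Complex.conj_ofReal _

/-- the system of the resolvent -/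
theorem sysX (X : T d L → ℂ) (σ : ℝ) {c : ℝ} (hc : 0 < c) (hX : ∀ k, c ≤ -(X k).im) :
    Sys (Mo fun k => (((X k).re : ℝ) : ℂ)) (Mo fun k => ((-(X k).im : ℝ) : ℂ))
      (fun y : T d L => (σ : ℂ) • EY y) 1 c (σ ^ 2 / c ^ 2) where
  hh := Mo_real_herm _
  hJ := Mo_real_herm _
  hA := fun y => by
    unfold Matrix.IsHermitian
    rw [Matrix.conjTranspose_smul, (EY_herm y).eq]
    simp
  hη := one_pos
  hδ := hc
  hQ0 := by positivity
  hJδ := fun w => by
    have hN := Pool.Agent.W788.MFP.Four.NN_pos (d := d) (L := L)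
    rw [KQ.qf_Mo (fun k => -(X k).im), nsq_fc, mul_left_comm]
    apply mul_le_mul_of_nonneg_left _ (by positivity)
    rw [Finset.mul_sum]
    exact Finset.sum_le_sum fun k _ => mul_le_mul_of_nonneg_right (hX k) (by positivity)
  hQ := fun a b => by
    have hj : ∀ w : T d L → ℂ, c * nsq w ≤ qf (Mo fun k => ((-(X k).im : ℝ) : ℂ)) w := by
      intro w
      have hN := Pool.Agent.W788.MFP.Four.NN_pos (d := d) (L := L)
      rw [KQ.qf_Mo (fun k => -(X k).im), nsq_fc, mul_left_comm]
      apply mul_le_mul_of_nonneg_left _ (by positivity)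
      rw [Finset.mul_sum]
      exact Finset.sum_le_sum fun k _ => mul_le_mul_of_nonneg_right (hX k) (by positivity)
    have h2 : ∀ y : T d L, ‖star a ⬝ᵥ (((σ : ℂ) • EY y) *ᵥ b)‖ ^ 2 = σ ^ 2 * (‖a y‖ ^ 2 * ‖b y‖ ^ 2) := by
      intro y
      have h3 : star a ⬝ᵥ (((σ : ℂ) • EY y) *ᵥ b) = (σ : ℂ) * (star (a y) * b y) := by
        rw [Matrix.smul_mulVec, dotProduct_smul, smul_eq_mul]
        congr 1
        unfold EY dotProduct
        rw [Finset.sum_eq_single y]
        · rw [Matrix.mulVec_diagonal, Pi.single_eq_same, one_mul, Pi.star_apply]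
        · intro z _ hz
          rw [Matrix.mulVec_diagonal, Pi.single_eq_of_ne hz, zero_mul, mul_zero]
        · intro h
          exact absurd (Finset.mem_univ y) h
      rw [h3, norm_mul, norm_mul, norm_star, Complex.norm_real, Real.norm_eq_abs, mul_pow, mul_pow, sq_abs]
    simp only [h2]
    rw [← Finset.mul_sum]
    have h4 : ∑ y, ‖a y‖ ^ 2 * ‖b y‖ ^ 2 ≤ nsq a * nsq b := by
      unfold nsq
      rw [Finset.sum_mul]
      refine Finset.sum_le_sum fun y _ => ?_
      apply mul_le_mul_of_nonneg_left _ (by positivity)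
      exact Finset.single_le_sum (f := fun y => ‖b y‖ ^ 2) (fun _ _ => by positivity) (Finset.mem_univ y)
    have h5 : (c * nsq a) * (c * nsq b) ≤ qf (Mo fun k => ((-(X k).im : ℝ) : ℂ)) a *
        qf (Mo fun k => ((-(X k).im : ℝ) : ℂ)) b :=
      mul_le_mul (hj a) (hj b) (mul_nonneg hc.le (nsq_nonneg b))
        ((mul_nonneg hc.le (nsq_nonneg a)).trans (hj a))
    calc σ ^ 2 * ∑ y, ‖a y‖ ^ 2 * ‖b y‖ ^ 2 ≤ σ ^ 2 * (nsq a * nsq b) := by gcongr
      _ = σ ^ 2 / c ^ 2 * ((c * nsq a) * (c * nsq b)) := by field_simp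
      _ ≤ _ := by gcongr

theorem sum_EY (σ : ℝ) (V : T d L → ℝ) :
    ∑ y, (V y : ℂ) • ((σ : ℂ) • (EY y : Matrix (T d L) (T d L) ℂ)) =
      Matrix.diagonal fun x => ((σ * V x : ℝ) : ℂ) := by
  ext x z
  rw [Matrix.sum_apply]
  simp only [Matrix.smul_apply, EY, Matrix.diagonal_apply, smul_eq_mul]
  by_cases h : x = z
  · subst h
    simp only [if_true]
    rw [Finset.sum_eq_single x]
    · rw [Pi.single_eq_same]
      push_cast
      ring
    · intro y _ hy
      rw [Pi.single_eq_of_ne hy.symm, mul_zero, mul_zero]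
    · intro h
      exact absurd (Finset.mem_univ x) h
  · simp [h]

theorem XG_eq (X : T d L → ℂ) (σ : ℝ) (V : T d L → ℝ) :
    XG (Mo fun k => (((X k).re : ℝ) : ℂ)) (Mo fun k => ((-(X k).im : ℝ) : ℂ))
      (fun y : T d L => (σ : ℂ) • EY y) 1 V = TX X σ V := by
  unfold XG TX
  rw [sum_EY, mo_smul, add_sub_right_comm, mo_sub]
  congr 2
  funext k
  apply Complex.ext
  · simp
  · simp

theorem GG_eq (X : T d L → ℂ) (σ : ℝ) (V : T d L → ℝ) :
    GG (Mo fun k => (((X k).re : ℝ) : ℂ)) (Mo fun k => ((-(X k).im : ℝ) : ℂ))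
      (fun y : T d L => (σ : ℂ) • EY y) 1 V = RX X σ V := by
  unfold GG RX
  rw [XG_eq]

theorem TX_shift (X : T d L → ℂ) (σ : ℝ) (V : T d L → ℝ) (a : T d L) :
    TX X σ (fun z => V (z + a)) = (TX X σ V).submatrix (Equiv.addRight a) (Equiv.addRight a) := by
  have hMo : ∀ (m : T d L → ℂ) (x y : T d L), Mo m (x + a) (y + a) = Mo m x y := by
    intro m x y
    simp only [Mo, Matrix.of_apply, add_sub_add_right_eq_sub]
  ext u v
  simp only [TX, Matrix.submatrix_apply, Matrix.add_apply, Equiv.coe_addRight, hMo,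
    Matrix.diagonal_apply, add_left_inj]

theorem det_ne (X : T d L → ℂ) (σ : ℝ) {c : ℝ} (hc : 0 < c) (hX : ∀ k, c ≤ -(X k).im)
    (V : T d L → ℝ) : (TX X σ V).det ≠ 0 := by
  rw [← XG_eq]
  exact ((Matrix.isUnit_iff_isUnit_det _).1 (isUnit_xg (sysX X σ hc hX) V)).ne_zero

theorem joint (X : T d L → ℂ) (σ : ℝ) {c : ℝ} (hc : 0 < c) (hX : ∀ k, c ≤ -(X k).im) :
    Continuous fun p : ℝ × (T d L → ℝ) =>
      RX (fun k => X k - ((max p.1 0 : ℝ) : ℂ) * Complex.I) σ p.2 := by
  have h1 : Continuous fun p : ℝ × (T d L → ℝ) =>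
      TX (fun k => X k - ((max p.1 0 : ℝ) : ℂ) * Complex.I) σ p.2 := by
    unfold TX
    refine Continuous.add ?_ ?_
    · refine continuous_matrix fun x y => ?_
      unfold Mo
      simp only [Matrix.of_apply]
      fun_prop
    · refine Continuous.matrix_diagonal ?_
      fun_prop
  unfold RX
  rw [continuous_iff_continuousAt]
  intro p
  simp only [Matrix.inv_def, Ring.inverse_eq_inv']
  have h2 : (TX (fun k => X k - ((max p.1 0 : ℝ) : ℂ) * Complex.I) σ p.2).det ≠ 0 := by
    apply det_ne _ σ hc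
    intro k
    have h3 := hX k
    have h4 : (0 : ℝ) ≤ max p.1 0 := le_max_right _ _
    rw [Complex.sub_im, Complex.mul_I_im, Complex.ofReal_re]
    linarith
  exact ((h1.matrix_det).continuousAt.inv₀ h2).smul (h1.matrix_adjugate).continuousAt

end RXS

open RXS in
theorem rx : T_RX := by
  intro d L _ X c σ hc hX
  have S := sysX X σ hc hX
  refine ⟨fun V => ?_, fun V w => ?_, fun V x y => ?_, fun x y => ?_, fun V y a b => ?_,
    fun V a x y => ?_, fun x y => ?_, fun V => ?_⟩
  · have h1 := xg_gg S V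
    have h2 := gg_xg S V
    rw [XG_eq, GG_eq] at h1 h2
    exact ⟨h1, h2⟩
  · have h1 := nsq_gg S V w
    rw [GG_eq, one_mul] at h1
    exact h1
  · have h1 := gg_entry S V x y
    rw [GG_eq, one_mul] at h1
    exact h1
  · have h1 := continuous_gg_entry S x y
    simp only [GG_eq] at h1
    exact h1
  · have h1 := gg_deriv S V y a b
    simp only [GG_eq] at h1
    convert h1 using 1
    have h2 : (RX X σ V * ((σ : ℂ) • EY y) * RX X σ V) a b =
        (σ : ℂ) * (RX X σ V a y * RX X σ V y b) := by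
      rw [Matrix.mul_smul, Matrix.smul_mul, Matrix.smul_apply, smul_eq_mul]
      congr 1
      rw [Matrix.mul_apply, Finset.sum_eq_single y]
      · unfold EY
        rw [Matrix.mul_diagonal, Pi.single_eq_same, mul_one]
      · intro z _ hz
        unfold EY
        rw [Matrix.mul_diagonal, Pi.single_eq_of_ne hz, mul_zero, zero_mul]
      · intro h
        exact absurd (Finset.mem_univ y) h
    exact (congrArg Neg.neg h2).symm
  · unfold RX
    rw [TX_shift, Matrix.inv_submatrix_equiv]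
    rfl
  · exact (joint X σ hc hX).matrix_elem x y
  · have h1 := form_im_nonneg S V (Pi.single 0 1)
    rw [GG_eq, form_single] at h1
    exact h1

end Pool.Agent.T2h98.AC
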