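import Pool.Agent.T2h98.AC.RX
import Pool.Agent.T2h98.QD.Calc
import Pool.Agent.T2h98.QD.Inv

/-! The equations for the symbols. -/

set_option autoImplicit false
set_option linter.unusedSectionVars false

open scoped BigOperators Matrix Topology
open MeasureTheory ProbabilityTheory Filter

namespace Pool.Agent.T2h98.AC

open Pool.Agent.W788.MFP.Four (T e NN adj K)
open Pool.Agent.W788.BK (nsq hs PP JJ hi Low cr nsq_nonneg nsq_eq)
open Pool.Agent.W240.BK (BC)
open Pool.Agent.T2h98.QD

namespace SDS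

variable {d L : ℕ} [NeZero L]

/-- the entries are differentiable -/
theorem gd (hR : T_RX) (X : T d L → ℂ) (σ : ℝ) {c : ℝ} (hc : 0 < c) (hX : ∀ k, c ≤ -(X k).im)
    (a b : T d L) : GD (fun V : T d L → ℝ => RX X σ V a b)
      (fun y V => -((σ : ℂ) * (RX X σ V a y * RX X σ V y b))) := by
  obtain ⟨-, -, hb, hcont, hder, -, -, -⟩ := hR d L X c σ hc hX
  have hBC : ∀ x y : T d L, BC fun V : T d L → ℝ => RX X σ V x y := fun x y =>
    ⟨hcont x y, c⁻¹, fun V => hb V x y⟩
  exact ⟨hBC a b, fun y => BC.neg' ((BC.const _).mul ((hBC a y).mul (hBC y b))),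
    fun y V => hder V y a b⟩

/-- the symbol of a convolution -/
theorem sy_conv (a b : T d L → ℂ) (κ : T d L) :
    sy (fun z => ∑ w, a w * b (z - w)) κ = sy a κ * sy b κ := by
  unfold sy
  rw [Finset.sum_mul]
  simp only [Finset.sum_mul]
  rw [Finset.sum_comm]
  refine Finset.sum_congr rfl fun w _ => ?_
  rw [Finset.mul_sum, ← Equiv.sum_comp (Equiv.addRight w)]
  refine Finset.sum_congr rfl fun z _ => ?_
  rw [Equiv.coe_addRight, add_sub_cancel_right, Pool.Agent.W788.MFP.Four.e_add, star_mul']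
  ring

theorem Mo_diff (X : T d L → ℂ) (w z : T d L) : Mo X w z = Mo X 0 (z - w) := by
  unfold Mo
  simp only [Matrix.of_apply, sub_zero]

theorem sy_Mo (X : T d L → ℂ) (κ : T d L) : sy (fun z => Mo X 0 z) κ = X κ := by
  unfold sy Mo
  simp only [Matrix.of_apply, sub_zero]
  have h1 : ∀ z : T d L, ((NN d L : ℝ) : ℂ)⁻¹ * (∑ k, X k * e k z) * star (e κ z) =
      ((NN d L : ℝ) : ℂ)⁻¹ * ∑ k, X k * (e k z * (starRingEnd ℂ) (e κ z)) := by
    intro z
    rw [mul_assoc, Finset.sum_mul]
    congr 1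
    refine Finset.sum_congr rfl fun k _ => ?_
    rw [Complex.star_def]
    ring
  simp only [h1]
  rw [← Finset.mul_sum, Finset.sum_comm]
  simp only [← Finset.mul_sum, sum_ee]
  rw [Finset.sum_eq_single κ]
  · rw [if_pos rfl]
    have hN := KQ.N_ne (d := d) (L := L)
    field_simp
  · intro k _ hk
    rw [if_neg hk, mul_zero]
  · intro h
    exact absurd (Finset.mem_univ κ) h

theorem sy_add (a b : T d L → ℂ) (κ : T d L) : sy (fun z => a z + b z) κ = sy a κ + sy b κ := by
  unfold sy
  rw [← Finset.sum_add_distrib]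
  exact Finset.sum_congr rfl fun z _ => by ring

theorem sy_sub (a b : T d L → ℂ) (κ : T d L) : sy (fun z => a z - b z) κ = sy a κ - sy b κ := by
  unfold sy
  rw [← Finset.sum_sub_distrib]
  exact Finset.sum_congr rfl fun z _ => by ring

theorem sy_smul (c : ℂ) (a : T d L → ℂ) (κ : T d L) : sy (fun z => c * a z) κ = c * sy a κ := by
  unfold sy
  rw [Finset.mul_sum]
  exact Finset.sum_congr rfl fun z _ => by ring

theorem sy_one (κ : T d L) : sy (fun z => if (0 : T d L) = z then (1 : ℂ) else 0) κ = 1 := by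
  unfold sy
  rw [Finset.sum_eq_single 0]
  · show (if (0 : T d L) = 0 then (1 : ℂ) else 0) * star (e κ 0) = 1
    rw [if_pos rfl, Pool.Agent.W788.MFP.Four.e_zero, star_one,
      mul_one]
  · intro z _ hz
    show (if (0 : T d L) = z then (1 : ℂ) else 0) * star (e κ z) = 0
    rw [if_neg (Ne.symm hz), zero_mul]
  · intro h
    exact absurd (Finset.mem_univ _) h

end SDS

open SDS in
theorem sd (hR : T_RX) (hI : T_IBP) : T_SD := by
  intro d L _ X c σ hc hX κ
  obtain ⟨hinv, -, hb, hcont, hder, hsh, -, -⟩ := hR d L X c σ hc hX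
  have hgd := gd hR X σ hc hX
  have hBC : ∀ x y : T d L, BC fun V : T d L → ℝ => RX X σ V x y := fun x y => (hgd x y).bF
  have hprob : IsProbabilityMeasure (GP (T d L)) := by
    unfold GP PP
    infer_instance
  obtain ⟨m, hm⟩ : ∃ m, m = mX X σ := ⟨_, rfl⟩
  have hmi : ∫ V, RX X σ V 0 0 ∂(GP (T d L)) = m := by rw [hm]; rfl
  -- translation
  have htr : ∀ w z : T d L, ∫ V, RX X σ V w z ∂(GP (T d L)) =
      ∫ V, RX X σ V 0 (z - w) ∂(GP (T d L)) := by
    intro w z
    have h1 := (inv d L w).1 fun V => RX X σ V 0 (z - w)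
    rw [← h1]
    congr 1
    funext V
    rw [hsh V w 0 (z - w), zero_add, sub_add_cancel]
  rw [← hm]
  constructor
  · -- the first equation
    have h1 : ∀ z : T d L, (∑ w, Mo X 0 w * ∫ V, RX X σ V 0 (z - w) ∂(GP (T d L))) -
        (σ : ℂ) ^ 2 * ((∫ V, (RX X σ V 0 0 - m) * RX X σ V 0 z ∂(GP (T d L))) +
          m * ∫ V, RX X σ V 0 z ∂(GP (T d L))) = if (0 : T d L) = z then (1 : ℂ) else 0 := by
      intro z
      have h2 : ∀ V : T d L → ℝ, (σ : ℂ) * ((V 0 : ℂ) * RX X σ V 0 z) =
          (if (0 : T d L) = z then (1 : ℂ) else 0) - ∑ w, Mo X 0 w * RX X σ V w z := by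
        intro V
        have h3 := congrFun (congrFun (hinv V).1 0) z
        rw [Matrix.mul_apply, Matrix.one_apply] at h3
        rw [← h3, eq_sub_iff_add_eq]
        have h4 : ∀ w, TX X σ V 0 w * RX X σ V w z = Mo X 0 w * RX X σ V w z +
            (if (0 : T d L) = w then ((σ * V 0 : ℝ) : ℂ) else 0) * RX X σ V w z := by
          intro w
          unfold TX
          rw [Matrix.add_apply, Matrix.diagonal_apply, add_mul]
        rw [Finset.sum_congr rfl fun w _ => h4 w, Finset.sum_add_distrib, add_comm]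
        congr 1
        rw [Finset.sum_eq_single 0]
        · rw [if_pos rfl]
          push_cast
          ring
        · intro w _ hw
          rw [if_neg (Ne.symm hw), zero_mul]
        · intro h
          exact absurd (Finset.mem_univ _) h
      have h3 := ibp' hI (hgd 0 z) 0
      have h4 : ∫ V, (σ : ℂ) * ((V 0 : ℂ) * RX X σ V 0 z) ∂(GP (T d L)) =
          (if (0 : T d L) = z then (1 : ℂ) else 0) -
            ∑ w, Mo X 0 w * ∫ V, RX X σ V 0 (z - w) ∂(GP (T d L)) := by
        simp only [h2]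
        rw [integral_sub (integrable_const _)
          ((BC.sum _ fun w _ => (BC.const (Mo X 0 w)).mul (hBC w z)).integrable _),
          integral_finsetSum _ fun w _ => ((BC.const (Mo X 0 w)).mul (hBC w z)).integrable _]
        simp only [integral_const_mul, htr _ z, integral_const, probReal_univ, one_smul]
      rw [integral_const_mul, h3] at h4
      have h5 : ∫ V, -((σ : ℂ) * (RX X σ V 0 0 * RX X σ V 0 z)) ∂(GP (T d L)) =
          -((σ : ℂ) * ((∫ V, (RX X σ V 0 0 - m) * RX X σ V 0 z ∂(GP (T d L))) +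
          m * ∫ V, RX X σ V 0 z ∂(GP (T d L)))) := by
        rw [integral_neg, integral_const_mul, ← integral_const_mul m,
          ← integral_add ((((hBC 0 0).sub (BC.const m)).mul (hBC 0 z)).integrable _)
            (((BC.const m).mul (hBC 0 z)).integrable _)]
        congr 2
        refine integral_congr_ae (Filter.Eventually.of_forall fun V => ?_)
        simp only
        ring
      rw [h5] at h4
      rw [eq_sub_iff_add_eq] at h4
      rw [← h4]
      ring
    have h2 : sy (fun z => (∑ w, Mo X 0 w * ∫ V, RX X σ V 0 (z - w) ∂(GP (T d L))) -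
        (σ : ℂ) ^ 2 * ((∫ V, (RX X σ V 0 0 - m) * RX X σ V 0 z ∂(GP (T d L))) +
          m * ∫ V, RX X σ V 0 z ∂(GP (T d L)))) κ = 1 := by
      rw [← sy_one κ]
      congr 1
      funext z
      exact h1 z
    rw [sy_sub, sy_smul, sy_add, sy_smul, sy_conv (fun w => Mo X 0 w)
      (fun z => ∫ V, RX X σ V 0 z ∂(GP (T d L))), sy_Mo] at h2
    have h3 : Rb X σ κ = sy (fun z => ∫ V, RX X σ V 0 z ∂(GP (T d L))) κ := rfl
    have h4 : Fk X σ κ =
        sy (fun z => ∫ V, (RX X σ V 0 0 - m) * RX X σ V 0 z ∂(GP (T d L))) κ := by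
      rw [hm]
      rfl
    rw [← h3, ← h4] at h2
    linear_combination h2
  · -- the second equation
    have h1 : ∀ z : T d L, (∑ w, (∫ V, (RX X σ V 0 0 - m) * RX X σ V 0 w ∂(GP (T d L))) *
        Mo X 0 (z - w)) - (σ : ℂ) ^ 2 * (((∫ V, (RX X σ V 0 0 - m) * RX X σ V 0 z *
          (RX X σ V z z - m) ∂(GP (T d L))) +
          ∫ V, RX X σ V 0 z * RX X σ V z 0 * RX X σ V 0 z ∂(GP (T d L))) +
          m * ∫ V, (RX X σ V 0 0 - m) * RX X σ V 0 z ∂(GP (T d L))) = 0 := by
      intro z
      have hF : GD (fun V : T d L → ℝ => (RX X σ V 0 0 - m) * RX X σ V 0 z) _ :=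
        ((hgd 0 0).sub (GD.const m)).mul (hgd 0 z)
      have h2 : ∀ V : T d L → ℝ, (σ : ℂ) * ((V z : ℂ) * ((RX X σ V 0 0 - m) * RX X σ V 0 z)) =
          (RX X σ V 0 0 - m) * (if (0 : T d L) = z then (1 : ℂ) else 0) -
            ∑ w, ((RX X σ V 0 0 - m) * RX X σ V 0 w) * Mo X 0 (z - w) := by
        intro V
        have h3 := congrFun (congrFun (hinv V).2 0) z
        rw [Matrix.mul_apply, Matrix.one_apply] at h3
        rw [← h3, eq_sub_iff_add_eq, Finset.mul_sum]
        have h4 : ∀ w, (RX X σ V 0 0 - m) * (RX X σ V 0 w * TX X σ V w z) =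
            (RX X σ V 0 0 - m) * RX X σ V 0 w * Mo X 0 (z - w) +
            (if w = z then ((σ * V w : ℝ) : ℂ) else 0) * ((RX X σ V 0 0 - m) * RX X σ V 0 w) := by
          intro w
          unfold TX
          rw [Matrix.add_apply, Matrix.diagonal_apply, ← Mo_diff X w z]
          ring
        rw [Finset.sum_congr rfl fun w _ => h4 w, Finset.sum_add_distrib, add_comm]
        congr 1
        rw [Finset.sum_eq_single z]
        · rw [if_pos rfl]
          push_cast
          ring
        · intro w _ hw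
          rw [if_neg hw, zero_mul]
        · intro h
          exact absurd (Finset.mem_univ _) h
      have h3 := ibp' hI hF z
      have hBm : BC fun V : T d L → ℝ => RX X σ V 0 0 - m := (hBC 0 0).sub (BC.const m)
      have h4 : ∫ V, (σ : ℂ) * ((V z : ℂ) * ((RX X σ V 0 0 - m) * RX X σ V 0 z)) ∂(GP (T d L)) =
          -∑ w, (∫ V, (RX X σ V 0 0 - m) * RX X σ V 0 w ∂(GP (T d L))) * Mo X 0 (z - w) := by
        simp only [h2]
        rw [integral_sub ((hBm.mul (BC.const _)).integrable _)
          ((BC.sum _ fun w _ => (hBm.mul (hBC 0 w)).mul (BC.const (Mo X 0 (z - w)))).integrable _),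
          integral_finsetSum _ fun w _ =>
            ((hBm.mul (hBC 0 w)).mul (BC.const (Mo X 0 (z - w)))).integrable _]
        simp only [integral_mul_const]
        have h5 : ∫ V, (RX X σ V 0 0 - m) ∂(GP (T d L)) = 0 := by
          rw [integral_sub ((hBC 0 0).integrable _) (integrable_const _), hmi]
          simp
        rw [h5, zero_mul, zero_sub]
      rw [integral_const_mul, h3] at h4
      have h5 : ∫ V : T d L → ℝ, ((-((σ : ℂ) * (RX X σ V 0 z * RX X σ V z 0)) - 0) * RX X σ V 0 z +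
          (RX X σ V 0 0 - m) * -((σ : ℂ) * (RX X σ V 0 z * RX X σ V z z))) ∂(GP (T d L)) =
          -((σ : ℂ) * (((∫ V, (RX X σ V 0 0 - m) * RX X σ V 0 z *
          (RX X σ V z z - m) ∂(GP (T d L))) +
          ∫ V, RX X σ V 0 z * RX X σ V z 0 * RX X σ V 0 z ∂(GP (T d L))) +
          m * ∫ V, (RX X σ V 0 0 - m) * RX X σ V 0 z ∂(GP (T d L)))) := by
        have i1 : Integrable (fun V : T d L → ℝ => (RX X σ V 0 0 - m) * RX X σ V 0 z *
          (RX X σ V z z - m)) (GP (T d L)) :=
          ((hBm.mul (hBC 0 z)).mul ((hBC z z).sub (BC.const m))).integrable _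
        have i2 : Integrable (fun V : T d L → ℝ => RX X σ V 0 z * RX X σ V z 0 * RX X σ V 0 z)
          (GP (T d L)) := (((hBC 0 z).mul (hBC z 0)).mul (hBC 0 z)).integrable _
        have i3 : Integrable (fun V : T d L → ℝ => m * ((RX X σ V 0 0 - m) * RX X σ V 0 z))
          (GP (T d L)) := ((BC.const m).mul (hBm.mul (hBC 0 z))).integrable _
        have i12 : Integrable (fun V : T d L → ℝ => (RX X σ V 0 0 - m) * RX X σ V 0 z *
          (RX X σ V z z - m) + RX X σ V 0 z * RX X σ V z 0 * RX X σ V 0 z)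
          (GP (T d L)) := i1.add i2
        rw [← integral_const_mul m, ← integral_add i1 i2, ← integral_add i12 i3,
          ← integral_const_mul, ← integral_neg]
        refine integral_congr_ae (Filter.Eventually.of_forall fun V => ?_)
        simp only
        ring
      rw [h5] at h4
      linear_combination (-1 : ℂ) * (h4 * 1) * (-1)
    have h2 : sy (fun z => (∑ w, (∫ V, (RX X σ V 0 0 - m) * RX X σ V 0 w ∂(GP (T d L))) *
        Mo X 0 (z - w)) - (σ : ℂ) ^ 2 * (((∫ V, (RX X σ V 0 0 - m) * RX X σ V 0 z *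
          (RX X σ V z z - m) ∂(GP (T d L))) +
          ∫ V, RX X σ V 0 z * RX X σ V z 0 * RX X σ V 0 z ∂(GP (T d L))) +
          m * ∫ V, (RX X σ V 0 0 - m) * RX X σ V 0 z ∂(GP (T d L)))) κ = 0 := by
      unfold sy
      simp only [h1, zero_mul, Finset.sum_const_zero]
    rw [sy_sub, sy_smul, sy_add, sy_add, sy_smul,
      sy_conv (fun w => ∫ V, (RX X σ V 0 0 - m) * RX X σ V 0 w ∂(GP (T d L)))
      (fun z => Mo X 0 z), sy_Mo] at h2
    have h3 : Fk X σ κ =
        sy (fun z => ∫ V, (RX X σ V 0 0 - m) * RX X σ V 0 z ∂(GP (T d L))) κ := by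
      rw [hm]
      rfl
    have h4 : G1 X σ κ = sy (fun z => ∫ V, (RX X σ V 0 0 - m) * RX X σ V 0 z *
          (RX X σ V z z - m) ∂(GP (T d L))) κ := by
      rw [hm]
      rfl
    have h5 : G2 X σ κ =
        sy (fun z => ∫ V, RX X σ V 0 z * RX X σ V z 0 * RX X σ V 0 z ∂(GP (T d L))) κ := rfl
    rw [← h3, ← h4, ← h5] at h2
    linear_combination h2

end Pool.Agent.T2h98.AC
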