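import Pool.Agent.T2h98.AC.Stm

/-! Part STEP: one step of the continuity argument. -/

set_option autoImplicit false
set_option linter.unusedSectionVars false

open scoped BigOperators Matrix Topology
open MeasureTheory ProbabilityTheory Filter

namespace Pool.Agent.T2h98.AC

open Pool.Agent.W788.MFP.Four (T e NN adj K NN_pos sum_e)
open Pool.Agent.W788.BK (nsq hs PP JJ hi Low cr)
open Pool.Agent.T2h98.QD

namespace STEP

variable {d L : ℕ} [NeZero L]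

/-- the mean of a symbol -/
theorem sum_sy (a : T d L → ℂ) : ∑ κ : T d L, sy a κ = ((NN d L : ℝ) : ℂ) * a 0 := by
  unfold sy
  rw [Finset.sum_comm]
  have h1 : ∀ z : T d L, ∑ κ : T d L, a z * star (e κ z) =
      if z = 0 then a z * ((NN d L : ℝ) : ℂ) else 0 := by
    intro z
    rw [← Finset.mul_sum, ← star_sum, sum_e]
    split_ifs with h
    · congr 1
      exact Complex.conj_ofReal _
    · rw [star_zero, mul_zero]
  rw [Finset.sum_congr rfl fun z _ => h1 z, Finset.sum_ite_eq' Finset.univ (0 : T d L)]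
  simp [mul_comm]

theorem norm_Y0 (E' Γ : ℝ) (k : T d L) :
    ‖((adj k - E' : ℝ) : ℂ) - (Γ : ℂ) * Complex.I‖ = JJ E' Γ k := by
  unfold JJ
  rw [Complex.norm_def, Complex.normSq_apply]
  congr 1
  simp
  ring

theorem alg (Y F s : ℂ) (h : 1 + F ≠ 0) : Y / (1 + F) - (Y + s) + s = -(Y * F / (1 + F)) := by
  field_simp
  ring

end STEP

open STEP

theorem step : T_STEP := by
  intro d L _ X E y c σ ε2 c0 c1 g ζ hσ hσ1 hc hX hy hc0 hc01 hc1 hg hε2 hε hζ hζg hXE hsum hpoi hm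
    hmi hRb hF
  obtain ⟨m, hmdef⟩ : ∃ m : ℂ, m = mX X σ := ⟨_, rfl⟩
  rw [← hmdef] at hm hmi hRb hF ⊢
  have hN : 0 < NN d L := NN_pos
  have hσ2 : 0 < σ ^ 2 := by positivity
  obtain ⟨E', hE'⟩ : ∃ E' : ℝ, E' = E + σ ^ 2 * m.re := ⟨_, rfl⟩
  obtain ⟨Γ, hΓ⟩ : ∃ Γ : ℝ, Γ = y + σ ^ 2 * m.im := ⟨_, rfl⟩
  obtain ⟨Y, hY⟩ : ∃ Y : T d L → ℂ, ∀ κ, Y κ = X κ - (σ : ℂ) ^ 2 * m := ⟨_, fun _ => rfl⟩
  obtain ⟨Y0, hY0⟩ : ∃ Y0 : T d L → ℂ, ∀ κ, Y0 κ = ((adj κ - E' : ℝ) : ℂ) - (Γ : ℂ) * Complex.I :=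
    ⟨_, fun _ => rfl⟩
  simp only [← hY] at hRb hF
  have hre : |m.re| ≤ 3 * g := (Complex.abs_re_le_norm m).trans hm
  have him : |m.im| ≤ 3 * g := (Complex.abs_im_le_norm m).trans hm
  have hEE : |E' - E| ≤ 3 * g * σ ^ 2 := by
    rw [hE', add_sub_cancel_left, abs_mul, abs_of_pos hσ2]
    nlinarith
  have hΓ1 : σ ^ 2 * c0 / 2 ≤ Γ := by
    rw [hΓ]
    nlinarith
  have hΓ2 : Γ ≤ y + 3 * g * σ ^ 2 := by
    rw [hΓ]
    have := (abs_le.1 him).2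
    nlinarith
  have ha : 0 < σ ^ 2 * c0 / 2 := by positivity
  have hΓ0 : 0 < Γ := lt_of_lt_of_le ha hΓ1
  -- the symbols
  have hdiff : ∀ κ, ‖Y κ - Y0 κ‖ ≤ ε2 := by
    intro κ
    have h1 : Y κ - Y0 κ = X κ - (((adj κ - E : ℝ) : ℂ) - (y : ℂ) * Complex.I) := by
      rw [hY, hY0, hE', hΓ]
      apply Complex.ext
      · simp [pow_two]
        ring
      · simp [pow_two]
        ring
    rw [h1]
    exact hXE κ
  have hYa : ∀ κ, σ ^ 2 * c0 / 2 ≤ ‖Y κ‖ := by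
    intro κ
    have h1 : (Y κ).im = (X κ).im - σ ^ 2 * m.im := by
      rw [hY]
      simp [pow_two]
    have h2 := hX κ
    have h3 : σ ^ 2 * c0 / 2 ≤ -(Y κ).im := by
      rw [h1]
      nlinarith
    exact h3.trans ((neg_le_abs _).trans (Complex.abs_im_le_norm _))
  have hYne : ∀ κ, Y κ ≠ 0 := fun κ h => by
    have := hYa κ
    rw [h, norm_zero] at this
    linarith
  have hJJ : ∀ κ, ‖Y0 κ‖ = JJ E' Γ κ := fun κ => by rw [hY0, norm_Y0]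
  have hJJpos : ∀ κ : T d L, 0 < JJ E' Γ κ := fun κ => by
    unfold JJ
    positivity
  have hY0ne : ∀ κ, Y0 κ ≠ 0 := fun κ h => by
    have := hJJpos κ
    rw [← hJJ, h, norm_zero] at this
    exact lt_irrefl _ this
  -- `F` is small
  obtain ⟨F, hFdef⟩ : ∃ F : T d L → ℂ, ∀ κ, F κ = (σ : ℂ) ^ 2 * Fk X σ κ := ⟨_, fun _ => rfl⟩
  have hc2 : c0 ^ 2 ≤ c0 := by nlinarith
  have hζ1 : ζ ≤ c0 ^ 2 / (100 * g) := by
    rw [le_div_iff₀ (by positivity)]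
    nlinarith
  have hFn : ∀ κ, ‖F κ‖ ≤ c0 / (50 * g) := by
    intro κ
    have h1 := hF κ
    rw [norm_mul] at h1
    rw [hFdef, norm_mul, norm_pow, Complex.norm_real, Real.norm_of_nonneg hσ.le]
    have h2 : σ ^ 2 * c0 / 2 * ‖Fk X σ κ‖ ≤ ζ :=
      (mul_le_mul_of_nonneg_right (hYa κ) (norm_nonneg _)).trans h1
    have h3 : σ ^ 2 * ‖Fk X σ κ‖ ≤ 2 * ζ / c0 := by
      rw [le_div_iff₀ hc0]
      nlinarith
    refine h3.trans ?_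
    rw [div_le_div_iff₀ hc0 (by positivity)]
    rw [le_div_iff₀ (by positivity)] at hζ1
    nlinarith
  have hg50 : c0 / (50 * g) ≤ 1 / 50 := by
    rw [div_le_div_iff₀ (by positivity) (by norm_num)]
    nlinarith
  have hFn1 : ∀ κ, ‖F κ‖ ≤ 1 / 50 := fun κ => (hFn κ).trans hg50
  have h1F : ∀ κ, 49 / 50 ≤ ‖1 + F κ‖ := by
    intro κ
    have h1 : ‖(1 : ℂ)‖ - ‖F κ‖ ≤ ‖1 + F κ‖ := by
      have := norm_sub_norm_le (1 : ℂ) (-F κ)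
      rw [norm_neg, sub_neg_eq_add] at this
      exact this
    rw [norm_one] at h1
    have := hFn1 κ
    linarith
  have h1Fne : ∀ κ, 1 + F κ ≠ 0 := fun κ h => by
    have := h1F κ
    rw [h, norm_zero] at this
    linarith
  have hRb' : ∀ κ, Rb X σ κ = (1 + F κ) / Y κ := by
    intro κ
    rw [eq_div_iff (hYne κ), mul_comm, hRb κ, hFdef]
  -- the mean
  have hmean : m = ((NN d L : ℝ) : ℂ)⁻¹ * ∑ κ, (1 + F κ) / Y κ := by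
    have h1 : ∑ κ : T d L, Rb X σ κ = ((NN d L : ℝ) : ℂ) * m := by
      rw [hmdef]
      exact sum_sy _
    have h2 : ((NN d L : ℝ) : ℂ) ≠ 0 := by exact_mod_cast hN.ne'
    rw [← Finset.sum_congr rfl fun κ _ => hRb' κ, h1, ← mul_assoc, inv_mul_cancel₀ h2, one_mul]
  have hterm : ∀ κ, ‖(1 + F κ) / Y κ - (Y0 κ)⁻¹‖ ≤ c0 / 20 / g * (JJ E' Γ κ)⁻¹ := by
    intro κ
    have h1 : ‖(Y κ)⁻¹ - (Y0 κ)⁻¹‖ ≤ c0 / (50 * g) * (JJ E' Γ κ)⁻¹ := by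
      rw [inv_sub_inv (hYne κ) (hY0ne κ), norm_div, norm_mul, hJJ, norm_sub_rev,
        div_eq_mul_inv, mul_inv, ← mul_assoc]
      refine mul_le_mul_of_nonneg_right ?_ (inv_nonneg.2 (hJJpos κ).le)
      have h2 : ‖Y κ - Y0 κ‖ * ‖Y κ‖⁻¹ ≤ ε2 * (σ ^ 2 * c0 / 2)⁻¹ :=
        mul_le_mul (hdiff κ) (inv_anti₀ ha (hYa κ)) (by positivity) hε2
      refine h2.trans ?_
      rw [← div_eq_mul_inv, div_le_div_iff₀ ha (by positivity)]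
      nlinarith
    have h2 : ‖(Y κ)⁻¹‖ ≤ 51 / 50 * (JJ E' Γ κ)⁻¹ := by
      have h3 : ‖(Y κ)⁻¹‖ ≤ ‖(Y κ)⁻¹ - (Y0 κ)⁻¹‖ + ‖(Y0 κ)⁻¹‖ := by
        have := norm_add_le ((Y κ)⁻¹ - (Y0 κ)⁻¹) (Y0 κ)⁻¹
        rwa [sub_add_cancel] at this
      rw [norm_inv (Y0 κ), hJJ] at h3
      have h4 : 0 ≤ (JJ E' Γ κ)⁻¹ := inv_nonneg.2 (hJJpos κ).le
      have h5 := mul_le_mul_of_nonneg_right hg50 h4
      linarith
    have h3 : (1 + F κ) / Y κ - (Y0 κ)⁻¹ = ((Y κ)⁻¹ - (Y0 κ)⁻¹) + F κ * (Y κ)⁻¹ := by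
      rw [div_eq_mul_inv]
      ring
    rw [h3]
    refine (norm_add_le _ _).trans ?_
    rw [norm_mul]
    have h4 : 0 ≤ (JJ E' Γ κ)⁻¹ := inv_nonneg.2 (hJJpos κ).le
    have h5 : ‖F κ‖ * ‖(Y κ)⁻¹‖ ≤ c0 / (50 * g) * (51 / 50 * (JJ E' Γ κ)⁻¹) :=
      mul_le_mul (hFn κ) h2 (norm_nonneg _) (by positivity)
    have h6 : c0 / (50 * g) * (JJ E' Γ κ)⁻¹ + c0 / (50 * g) * (51 / 50 * (JJ E' Γ κ)⁻¹) ≤
        c0 / 20 / g * (JJ E' Γ κ)⁻¹ := by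
      have h7 : c0 / (50 * g) * (JJ E' Γ κ)⁻¹ + c0 / (50 * g) * (51 / 50 * (JJ E' Γ κ)⁻¹) =
          (c0 / g * (JJ E' Γ κ)⁻¹) * (101 / 2500) := by
        field_simp
        ring
      have h8 : c0 / 20 / g * (JJ E' Γ κ)⁻¹ = (c0 / g * (JJ E' Γ κ)⁻¹) * (1 / 20) := by
        field_simp
      have h9 : 0 ≤ c0 / g * (JJ E' Γ κ)⁻¹ := by positivity
      rw [h7, h8]
      linarith
    linarith
  have havg : ‖m - ((NN d L : ℝ) : ℂ)⁻¹ * ∑ κ, (Y0 κ)⁻¹‖ ≤ c0 / 20 := by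
    rw [hmean, ← mul_sub, ← Finset.sum_sub_distrib, norm_mul, norm_inv, Complex.norm_real,
      Real.norm_of_nonneg hN.le]
    have h1 : ‖∑ κ, ((1 + F κ) / Y κ - (Y0 κ)⁻¹)‖ ≤ c0 / 20 / g * (g * NN d L) := by
      refine (norm_sum_le _ _).trans ((Finset.sum_le_sum fun κ _ => hterm κ).trans ?_)
      rw [← Finset.mul_sum]
      exact mul_le_mul_of_nonneg_left (hsum E' Γ hΓ1) (by positivity)
    calc (NN d L)⁻¹ * ‖∑ κ, ((1 + F κ) / Y κ - (Y0 κ)⁻¹)‖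
        ≤ (NN d L)⁻¹ * (c0 / 20 / g * (g * NN d L)) :=
          mul_le_mul_of_nonneg_left h1 (by positivity)
      _ = c0 / 20 := by field_simp
  refine ⟨?_, ?_, fun κ => ⟨?_, ?_⟩⟩
  · have h1 : ‖((NN d L : ℝ) : ℂ)⁻¹ * ∑ κ, (Y0 κ)⁻¹‖ ≤ g := by
      rw [norm_mul, norm_inv, Complex.norm_real, Real.norm_of_nonneg hN.le]
      have h2 : ‖∑ κ, (Y0 κ)⁻¹‖ ≤ g * NN d L := by
        refine (norm_sum_le _ _).trans (le_trans (le_of_eq ?_) (hsum E' Γ hΓ1))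
        exact Finset.sum_congr rfl fun κ _ => by rw [norm_inv, hJJ]
      calc (NN d L)⁻¹ * ‖∑ κ, (Y0 κ)⁻¹‖ ≤ (NN d L)⁻¹ * (g * NN d L) :=
            mul_le_mul_of_nonneg_left h2 (by positivity)
        _ = g := by field_simp
    have h2 : ‖m‖ ≤ ‖m - ((NN d L : ℝ) : ℂ)⁻¹ * ∑ κ, (Y0 κ)⁻¹‖ +
        ‖((NN d L : ℝ) : ℂ)⁻¹ * ∑ κ, (Y0 κ)⁻¹‖ := by
      have := norm_add_le (m - ((NN d L : ℝ) : ℂ)⁻¹ * ∑ κ, (Y0 κ)⁻¹)
        (((NN d L : ℝ) : ℂ)⁻¹ * ∑ κ, (Y0 κ)⁻¹)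
      rwa [sub_add_cancel] at this
    linarith
  · have h1 : (((NN d L : ℝ) : ℂ)⁻¹ * ∑ κ, (Y0 κ)⁻¹).im =
        (NN d L)⁻¹ * ∑ κ : T d L, Γ / ((adj κ - E') ^ 2 + Γ ^ 2) := by
      rw [← Complex.ofReal_inv, Complex.im_ofReal_mul, Complex.im_sum]
      congr 1
      refine Finset.sum_congr rfl fun κ _ => ?_
      rw [Complex.inv_im, hY0, Complex.normSq_apply]
      simp
      ring
    have h2 := hpoi E' Γ hEE hΓ1 hΓ2
    rw [← h1] at h2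
    have h3 := (abs_le.1 ((Complex.abs_im_le_norm _).trans havg)).1
    rw [Complex.sub_im] at h3
    linarith
  · rw [hRb']
    exact div_ne_zero (h1Fne κ) (hYne κ)
  · have h1 : (Rb X σ κ)⁻¹ - X κ + (σ : ℂ) ^ 2 * m = -(Y κ * F κ / (1 + F κ)) := by
      rw [hRb', inv_div]
      have h2 : X κ = Y κ + (σ : ℂ) ^ 2 * m := by rw [hY]; ring
      rw [h2]
      exact alg _ _ _ (h1Fne κ)
    rw [h1, norm_neg, norm_div, hFdef]
    have h2 : ‖Y κ * ((σ : ℂ) ^ 2 * Fk X σ κ)‖ ≤ σ ^ 2 * ζ := by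
      have h3 : Y κ * ((σ : ℂ) ^ 2 * Fk X σ κ) = (σ : ℂ) ^ 2 * (Y κ * Fk X σ κ) := by ring
      rw [h3, norm_mul, norm_pow, Complex.norm_real, Real.norm_of_nonneg hσ.le]
      exact mul_le_mul_of_nonneg_left (hF κ) hσ2.le
    have h3 := h1F κ
    rw [hFdef] at h3
    rw [div_le_iff₀ (by linarith)]
    have h4 : 0 ≤ σ ^ 2 * ζ := by positivity
    nlinarith

end Pool.Agent.T2h98.AC
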