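import Pool.Agent.T2h98.AC.Stm2
import Pool.Agent.T2h98.QD.MoA
import Pool.Agent.T2h98.QD.QEF
import Pool.Agent.W298.WA.Csym
import Pool.Agent.W683.WA.Symb

/-! The lattice is the limit of tori. -/

set_option autoImplicit false
set_option linter.unusedSectionVars false

open scoped BigOperators Matrix Topology
open MeasureTheory ProbabilityTheory Filter

namespace Pool.Agent.T2h98.AC.TOR

open Pool.Agent.W788.MFP.Four (T e NN adj)
open Pool.Agent.T2h98.QD
open Pool.Agent.W792.LL (lap cay toC trig opr l2)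
open Pool.Agent.W792.WA (csym psi cayx Pn dc rsv)
open Pool.Agent.W298.WA.Csym (cay_norm cay_cont)

variable {d : ℕ}

/-! ### walks -/

/-- `c (p c)^n u` -/
noncomputable def G {Γ : Type} [AddCommGroup Γ] (φ : (Fin d → ℤ) →+ Γ) (h : (Fin d → ℤ) →₀ ℂ)
    (c u : Γ → ℂ) : ℕ → Γ → ℂ
  | 0, x => c x * u x
  | (n + 1), x => c x * ∑ a ∈ h.support, h a * G φ h c u n (x - φ a)

theorem words (h : (Fin d → ℤ) →₀ ℂ) (n : ℕ) : ∃ (J : Type) (_ : Fintype J) (α : J → ℂ)
    (s : J → (Fin d → ℤ)) (l : J → List (Fin d → ℤ)), ∀ (Γ : Type) [AddCommGroup Γ]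
    (φ : (Fin d → ℤ) →+ Γ) (c u : Γ → ℂ) (x : Γ), G φ h c u n x =
      ∑ j, α j * (((l j).map fun y => c (x - φ y)).prod * u (x - φ (s j))) := by
  induction n with
  | zero =>
    refine ⟨Unit, inferInstance, fun _ => 1, fun _ => 0, fun _ => [0], ?_⟩
    intro Γ _ φ c u x
    simp [G]
  | succ n ih =>
    obtain ⟨J, _, α, s, l, H⟩ := ih
    refine ⟨h.support × J, inferInstance, fun p => h p.1 * α p.2, fun p => p.1 + s p.2,
      fun p => 0 :: (l p.2).map fun y => p.1 + y, ?_⟩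
    intro Γ _ φ c u x
    rw [G, Fintype.sum_prod_type, Finset.mul_sum, ← Finset.sum_coe_sort]
    refine Finset.sum_congr rfl fun a _ => ?_
    rw [H, Finset.mul_sum, Finset.mul_sum]
    refine Finset.sum_congr rfl fun j _ => ?_
    simp only [List.map_cons, List.prod_cons, List.map_map, map_zero, sub_zero, map_add,
      sub_add_eq_sub_sub, Function.comp_def]
    ring

/-! ### laws -/

theorem law_inj {F Γ : Type} [Fintype F] (ν : Measure ℝ) [IsProbabilityMeasure ν] (g : F → Γ)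
    (hg : Function.Injective g) :
    Measure.map (fun (ξ : Γ → ℝ) (k : F) => ξ (g k)) (Measure.infinitePi fun _ : Γ => ν) =
      Measure.pi fun _ : F => ν := by
  have hmeas : Measurable (fun (ξ : Γ → ℝ) (k : F) => ξ (g k)) :=
    measurable_pi_lambda _ fun k => measurable_pi_apply _
  refine (Measure.pi_eq fun s hs => ?_).symm
  rw [Measure.map_apply hmeas (MeasurableSet.univ_pi hs)]
  classical
  set t : Γ → Set ℝ := Function.extend g s fun _ => Set.univ with ht
  have htr : ∀ k, t (g k) = s k := fun k => hg.extend_apply _ _ _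
  have htm : ∀ x ∈ Finset.univ.image g, MeasurableSet (t x) := by
    intro x hx
    obtain ⟨k, -, rfl⟩ := Finset.mem_image.mp hx
    rw [htr]
    exact hs k
  have hpre : (fun (ξ : Γ → ℝ) (k : F) => ξ (g k)) ⁻¹' (Set.univ.pi s) =
      Set.pi ((Finset.univ.image g : Finset Γ) : Set Γ) t := by
    ext ξ
    simp only [Set.mem_preimage, Set.mem_pi, Set.mem_univ, forall_true_left, Finset.coe_image,
      Finset.coe_univ, Set.image_univ, Set.mem_range, forall_exists_index, forall_apply_eq_imp_iff,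
      htr]
  rw [hpre, Measure.infinitePi_pi _ htm, Finset.prod_image fun a _ b _ h => hg h]
  simp_rw [htr]

theorem meas_prod {Ω I : Type} [MeasurableSpace Ω] (l : List I) (f : I → Ω → ℂ)
    (hf : ∀ i ∈ l, Measurable (f i)) : Measurable fun ω => (l.map fun i => f i ω).prod := by
  induction l with
  | nil => simp
  | cons a l ih =>
    simp only [List.map_cons, List.prod_cons]
    exact (hf a List.mem_cons_self).mul (ih fun i hi => hf i (List.mem_cons_of_mem _ hi))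

theorem norm_prod {I : Type} (l : List I) (f : I → ℂ) (hf : ∀ i, ‖f i‖ = 1) :
    ‖(l.map f).prod‖ = 1 := by
  induction l with
  | nil => simp
  | cons a l ih =>
    rw [List.map_cons, List.prod_cons, norm_mul, hf, ih, mul_one]

/-- the mean of a product of Cayley transforms -/
noncomputable def kap (ν : Measure ℝ) (l : List (Fin d → ℤ)) : ℂ := by
  classical
  exact ∫ w : (l.toFinset → ℝ),
    (l.attach.map fun y => cay (w ⟨y.1, List.mem_toFinset.2 y.2⟩)).prod ∂(Measure.pi fun _ => ν)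

theorem kap_eq {Γ : Type} (ν : Measure ℝ) [IsProbabilityMeasure ν] (l : List (Fin d → ℤ))
    (g : (Fin d → ℤ) → Γ) (hg : Set.InjOn g {y | y ∈ l}) :
    ∫ v : Γ → ℝ, (l.map fun y => cay (v (g y))).prod ∂(Measure.infinitePi fun _ : Γ => ν) =
      kap ν l := by
  classical
  have hinj : Function.Injective fun y : l.toFinset => g y.1 := by
    intro a b hab
    exact Subtype.ext (hg (List.mem_toFinset.1 a.2) (List.mem_toFinset.1 b.2) hab)
  have h1 := law_inj ν (fun y : l.toFinset => g y.1) hinj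
  have h2 : Measurable fun w : (l.toFinset → ℝ) =>
      (l.attach.map fun y => cay (w ⟨y.1, List.mem_toFinset.2 y.2⟩)).prod :=
    meas_prod l.attach (fun (y : {x // x ∈ l}) (w : l.toFinset → ℝ) =>
      cay (w ⟨y.1, List.mem_toFinset.2 y.2⟩)) fun y _ =>
      cay_cont.measurable.comp (measurable_pi_apply _)
  unfold kap
  rw [← h1, integral_map (measurable_pi_lambda _ fun k => measurable_pi_apply _).aemeasurable
    h2.aestronglyMeasurable]
  refine integral_congr_ae (Eventually.of_forall fun v => ?_)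
  show (l.map fun y => cay (v (g y))).prod = (l.attach.map fun y => cay (v (g y.1))).prod
  conv_lhs => rw [← List.attach_map_subtype_val l]
  rw [List.map_map]
  rfl

/-- means of walks, the same on all groups -/
theorem mean (ν : Measure ℝ) [IsProbabilityMeasure ν] (h : (Fin d → ℤ) →₀ ℂ) (n : ℕ) :
    ∃ (H : (Fin d → ℤ) →₀ ℂ) (F : Finset (Fin d → ℤ)), ∀ (Γ : Type) [AddCommGroup Γ]
    (φ : (Fin d → ℤ) →+ Γ), Set.InjOn φ F → ∀ (u : Γ → ℂ) (x : Γ),
      Measurable (fun v : Γ → ℝ => G φ h (fun y => cay (v y)) u n x) ∧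
      Integrable (fun v : Γ → ℝ => G φ h (fun y => cay (v y)) u n x)
        (Measure.infinitePi fun _ : Γ => ν) ∧
      ∫ v, G φ h (fun y => cay (v y)) u n x ∂(Measure.infinitePi fun _ : Γ => ν) =
        H.sum fun a c => c * u (x - φ a) := by
  classical
  obtain ⟨J, _, α, s, l, hw⟩ := words h n
  refine ⟨∑ j, Finsupp.single (s j) (α j * kap ν (l j)), Finset.univ.biUnion fun j =>
    (l j).toFinset, ?_⟩
  intro Γ _ φ hφ u x
  simp only [hw]
  have hm : ∀ j, Measurable fun v : Γ → ℝ => ((l j).map fun y => cay (v (x - φ y))).prod :=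
    fun j => meas_prod (l j) (fun y (v : Γ → ℝ) => cay (v (x - φ y))) fun y _ =>
      cay_cont.measurable.comp (measurable_pi_apply _)
  have hi : ∀ j, Integrable (fun v : Γ → ℝ => ((l j).map fun y => cay (v (x - φ y))).prod)
      (Measure.infinitePi fun _ : Γ => ν) := fun j =>
    Integrable.of_bound (hm j).aestronglyMeasurable 1 (Eventually.of_forall fun v =>
      (norm_prod _ _ fun y => cay_norm _).le)
  refine ⟨Finset.measurable_fun_sum _ fun j _ => ((hm j).mul_const _).const_mul _,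
    integrable_finsetSum _ fun j _ => ((hi j).mul_const _).const_mul _, ?_⟩
  rw [integral_finsetSum _ fun j _ => ((hi j).mul_const _).const_mul _,
    ← Finsupp.sum_finsetSum_index (by simp) (by intros; ring)]
  refine Finset.sum_congr rfl fun j _ => ?_
  rw [Finsupp.sum_single_index (by simp), integral_const_mul, integral_mul_const,
    kap_eq ν (l j) (fun y => x - φ y)]
  · ring
  · intro a ha b hb hab
    refine hφ ?_ ?_ (sub_right_injective hab)
    · exact Finset.mem_coe.2 (Finset.mem_biUnion.2 ⟨j, Finset.mem_univ j, List.mem_toFinset.2 ha⟩)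
    · exact Finset.mem_coe.2 (Finset.mem_biUnion.2 ⟨j, Finset.mem_univ j, List.mem_toFinset.2 hb⟩)

/-! ### the lattice -/

open Pool.Agent.W298.WA.Csym (HM opr_apply trig_coeff dc_apply opr_add opr_smul)

theorem opr_trig (h : (Fin d → ℤ) →₀ ℂ) (w : l2 (Fin d → ℤ)) (x : Fin d → ℤ) :
    opr (trig h) w x = ∑ a ∈ h.support, h a * w (x - a) := by
  have h1 := opr_apply (trig h) w x
  simp only [trig_coeff] at h1
  have h2 : HasSum (fun y => h (x - y) * w y)
      (∑ y ∈ h.support.image (fun a => x - a), h (x - y) * w y) := by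
    refine hasSum_sum_of_ne_finset_zero fun y hy => ?_
    have : h (x - y) = 0 := by
      by_contra hne
      exact hy (Finset.mem_image.2 ⟨x - y, Finsupp.mem_support_iff.2 hne, sub_sub_cancel _ _⟩)
    rw [this, zero_mul]
  rw [h1.unique h2, Finset.sum_image fun a _ b _ hab => sub_right_injective hab]
  refine Finset.sum_congr rfl fun a _ => ?_
  rw [sub_sub_cancel]

theorem lat_G (h : (Fin d → ℤ) →₀ ℂ) (v : (Fin d → ℤ) → ℝ) (u : l2 (Fin d → ℤ)) (n : ℕ) :
    ∀ x, (dc v * (opr (trig h) * dc v) ^ n) u x =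
      G (AddMonoidHom.id _) h (fun y => cay (v y)) u n x := by
  induction n with
  | zero =>
    intro x
    rw [pow_zero, mul_one]
    exact dc_apply v u x
  | succ n ih =>
    intro x
    have e1 : (dc v * (opr (trig h) * dc v) ^ (n + 1)) u x =
        dc v (opr (trig h) ((dc v * (opr (trig h) * dc v) ^ n) u)) x := by
      rw [pow_succ']
      rfl
    rw [e1, dc_apply, opr_trig, G]
    congr 1
    refine Finset.sum_congr rfl fun a _ => ?_
    rw [ih]
    rfl

theorem opr_sum (N : ℕ) (C : ℕ → C(UnitAddTorus (Fin d), ℂ)) (u : l2 (Fin d → ℤ))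
    (x : Fin d → ℤ) : opr (∑ i ∈ Finset.range N, C i) u x =
      ∑ i ∈ Finset.range N, opr (C i) u x := by
  induction N with
  | zero =>
    have h0 : opr (0 : C(UnitAddTorus (Fin d), ℂ)) = 0 := by
      have h1 := opr_smul (0 : ℂ) (0 : C(UnitAddTorus (Fin d), ℂ))
      have h2 : (0 : ℂ) • (0 : C(UnitAddTorus (Fin d), ℂ)) = 0 := by
        ext k
        simp
      have h3 : (0 : ℂ) • opr (0 : C(UnitAddTorus (Fin d), ℂ)) = 0 := zero_smul _ _
      rw [h2, h3] at h1
      exact h1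
    rw [Finset.range_zero, Finset.sum_empty, Finset.sum_empty, h0]
    rfl
  | succ N ih =>
    rw [Finset.sum_range_succ, Finset.sum_range_succ, opr_add, ← ih]
    rfl

theorem lat_HM (ν : Measure ℝ) [IsProbabilityMeasure ν] (h : (Fin d → ℤ) →₀ ℂ)
    (H : ℕ → (Fin d → ℤ) →₀ ℂ) (F : ℕ → Finset (Fin d → ℤ))
    (hH : ∀ n, ∀ (Γ : Type) [AddCommGroup Γ]
      (φ : (Fin d → ℤ) →+ Γ), Set.InjOn φ (F n) → ∀ (u : Γ → ℂ) (x : Γ),
      Measurable (fun v : Γ → ℝ => G φ h (fun y => cay (v y)) u n x) ∧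
      Integrable (fun v : Γ → ℝ => G φ h (fun y => cay (v y)) u n x)
        (Measure.infinitePi fun _ : Γ => ν) ∧
      ∫ v, G φ h (fun y => cay (v y)) u n x ∂(Measure.infinitePi fun _ : Γ => ν) =
        (H n).sum fun a c => c * u (x - φ a)) (N : ℕ) :
    HM ν (fun v => dc v * ∑ i ∈ Finset.range N, (opr (trig h) * dc v) ^ i)
      (∑ i ∈ Finset.range N, trig (H i)) := by
  intro u x
  have e1 : ∀ v : (Fin d → ℤ) → ℝ, (dc v * ∑ i ∈ Finset.range N, (opr (trig h) * dc v) ^ i) u x =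
      ∑ i ∈ Finset.range N, G (AddMonoidHom.id _) h (fun y => cay (v y)) u i x := by
    intro v
    rw [Finset.mul_sum]
    rw [sum_apply, lp.coeFn_sum, Finset.sum_apply]
    exact Finset.sum_congr rfl fun i _ => lat_G h v u i x
  simp only [e1]
  have hid : ∀ n, Set.InjOn (AddMonoidHom.id (Fin d → ℤ)) (F n) := fun n a _ b _ hab => hab
  refine ⟨Finset.measurable_fun_sum _ fun i _ =>
    (hH i _ (AddMonoidHom.id _) (hid i) (fun y => u y) x).1, ?_⟩
  show ∫ v, _ ∂(Measure.infinitePi fun _ : (Fin d → ℤ) => ν) = _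
  rw [integral_finsetSum _ fun i _ =>
    (hH i _ (AddMonoidHom.id _) (hid i) (fun y => u y) x).2.1, opr_sum]
  refine Finset.sum_congr rfl fun i _ => ?_
  rw [(hH i _ (AddMonoidHom.id _) (hid i) (fun y => u y) x).2.2, opr_trig]
  rfl

/-! ### the torus -/

section

variable {L : ℕ} [NeZero L]

/-- reduction modulo `L` -/
def red (L : ℕ) [NeZero L] : (Fin d → ℤ) →+ T d L where
  toFun x := fun i => ((x i : ℤ) : ZMod L)
  map_zero' := by ext i; simp
  map_add' x y := by ext i; simp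

theorem red_inj (F : Finset (Fin d → ℤ)) : ∃ L0 : ℕ, ∀ (L : ℕ) [NeZero L], L0 ≤ L →
    Set.InjOn (red (d := d) L) F := by
  refine ⟨2 * (F.sup fun y => Finset.univ.sup fun i => (y i).natAbs) + 1, ?_⟩
  intro L _ hL y hy z hz hyz
  have hb : ∀ y ∈ F, ∀ i, (y i).natAbs ≤ F.sup fun y => Finset.univ.sup fun i => (y i).natAbs :=
    fun y hy i => (Finset.le_sup (f := fun i => (y i).natAbs) (Finset.mem_univ i)).trans
      (Finset.le_sup (f := fun y : Fin d → ℤ => Finset.univ.sup fun i => (y i).natAbs) hy)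
  funext i
  have h1 : ((y i : ℤ) : ZMod L) = ((z i : ℤ) : ZMod L) := congrFun hyz i
  have h2 : (L : ℤ) ∣ z i - y i := (ZMod.intCast_eq_intCast_iff_dvd_sub _ _ _).1 h1
  have h3 := hb y hy i
  have h4 := hb z hz i
  have h5 : z i - y i = 0 := Int.eq_zero_of_abs_lt_dvd h2 (by rw [abs_lt]; omega)
  omega

theorem trig_ptt (h : (Fin d → ℤ) →₀ ℂ) (k : T d L) :
    trig h (ptt k) = ∑ a ∈ h.support, h a * e (red L a) k := by
  unfold trig
  rw [Finsupp.sum, ContinuousMap.coe_sum, Finset.sum_apply]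
  refine Finset.sum_congr rfl fun a _ => ?_
  rw [ContinuousMap.coe_smul, Pi.smul_apply, smul_eq_mul]
  congr 1
  exact QE.mf_pt a k

theorem mo_trig (h : (Fin d → ℤ) →₀ ℂ) (w : T d L → ℂ) (x : T d L) :
    (Mo (fun k => trig h (ptt k)) *ᵥ w) x = ∑ a ∈ h.support, h a * w (x - red L a) := by
  classical
  have hN := KQ.N_ne (d := d) (L := L)
  have h1 : ∀ y, Mo (fun k => trig h (ptt k)) x y =
      ∑ a ∈ h.support, h a * (if y = x - red L a then (1 : ℂ) else 0) := by
    intro y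
    unfold Mo
    rw [Matrix.of_apply]
    simp only [trig_ptt, Finset.sum_mul]
    rw [Finset.sum_comm, Finset.mul_sum]
    refine Finset.sum_congr rfl fun a _ => ?_
    have h2 : ∀ k, h a * e (red L a) k * e k (y - x) = h a * e k (red L a + (y - x)) := by
      intro k
      rw [Pool.Agent.W788.MFP.Four.e_add, Pool.Agent.W788.MFP.Four.e_comm (red L a) k, mul_assoc]
    simp only [h2, ← Finset.mul_sum, Pool.Agent.W788.MFP.Four.sum_e]
    have h3 : red L a + (y - x) = 0 ↔ y = x - red L a := by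
      constructor
      · intro h
        have : y = x - red L a + (red L a + (y - x)) := by abel
        rw [this, h, add_zero]
      · rintro rfl
        abel
    simp only [h3]
    split_ifs
    · field_simp
    · simp
  simp only [Matrix.mulVec, dotProduct, h1, Finset.sum_mul]
  rw [Finset.sum_comm]
  refine Finset.sum_congr rfl fun a _ => ?_
  rw [Finset.sum_eq_single (x - red L a)]
  · rw [if_pos rfl, mul_one]
  · intro y _ hy
    rw [if_neg hy]
    ring
  · intro hc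
    exact absurd (Finset.mem_univ _) hc

/-- the diagonal of Cayley transforms -/
noncomputable def DD (v : T d L → ℝ) : Matrix (T d L) (T d L) ℂ :=
  Matrix.diagonal fun x => cay (v x)

theorem dd_mv (v : T d L → ℝ) (w : T d L → ℂ) (x : T d L) :
    (DD v *ᵥ w) x = cay (v x) * w x := by
  rw [DD, Matrix.mulVec_diagonal]

theorem tor_G (h : (Fin d → ℤ) →₀ ℂ) (v : T d L → ℝ) (u : T d L → ℂ) (n : ℕ) :
    ∀ x, ((DD v * (Mo (fun k => trig h (ptt k)) * DD v) ^ n) *ᵥ u) x =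
      G (red L) h (fun y => cay (v y)) u n x := by
  induction n with
  | zero =>
    intro x
    rw [pow_zero, mul_one, dd_mv]
    rfl
  | succ n ih =>
    intro x
    have e1 : (DD v * (Mo (fun k => trig h (ptt k)) * DD v) ^ (n + 1)) *ᵥ u =
        DD v *ᵥ (Mo (fun k => trig h (ptt k)) *ᵥ
          ((DD v * (Mo (fun k => trig h (ptt k)) * DD v) ^ n) *ᵥ u)) := by
      rw [pow_succ', Matrix.mulVec_mulVec, Matrix.mulVec_mulVec]
      simp only [mul_assoc]
    rw [e1, dd_mv, mo_trig, G]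
    congr 1
    refine Finset.sum_congr rfl fun a _ => ?_
    rw [ih]

/-! ### continuity and covariance -/

/-- the error on the torus -/
noncomputable def BB (m p : T d L → ℂ) (N : ℕ) (v : T d L → ℝ) : Matrix (T d L) (T d L) ℂ :=
  DD v * ((1 - Mo m * DD v)⁻¹ - ∑ i ∈ Finset.range N, (Mo p * DD v) ^ i)

theorem dd_cont : Continuous fun v : T d L → ℝ => DD v :=
  Continuous.matrix_diagonal (continuous_pi fun x => cay_cont.comp (continuous_apply x))

theorem bb_cont (m p : T d L → ℂ) (N : ℕ) (hdet : ∀ v, IsUnit (1 - Mo m * DD v).det) :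
    Continuous fun v : T d L → ℝ => BB m p N v := by
  have h1 : Continuous fun v : T d L → ℝ => 1 - Mo m * DD v :=
    continuous_const.sub (continuous_const.mul dd_cont)
  have h2 : Continuous fun v : T d L → ℝ => (1 - Mo m * DD v)⁻¹ := by
    simp only [Matrix.inv_def, Ring.inverse_eq_inv']
    exact (h1.matrix_det.inv₀ fun v => (hdet v).ne_zero).smul h1.matrix_adjugate
  have h3 : Continuous fun v : T d L → ℝ => ∑ i ∈ Finset.range N, (Mo p * DD v) ^ i :=
    continuous_finsetSum _ fun i _ => (continuous_const.mul dd_cont).pow i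
  exact dd_cont.mul (h2.sub h3)

theorem bb_cov (m p : T d L → ℂ) (N : ℕ) (v : T d L → ℝ) (a : T d L) :
    BB m p N (fun z => v (z + a)) = (BB m p N v).submatrix (Equiv.addRight a)
      (Equiv.addRight a) := by
  obtain ⟨σ, hσ⟩ : ∃ σ : Matrix (T d L) (T d L) ℂ ≃ₐ[ℂ] Matrix (T d L) (T d L) ℂ,
      σ = Matrix.reindexAlgEquiv ℂ ℂ (Equiv.addRight a).symm := ⟨_, rfl⟩
  have hs : ∀ A : Matrix (T d L) (T d L) ℂ, σ A = A.submatrix (Equiv.addRight a)
      (Equiv.addRight a) := by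
    intro A
    rw [hσ]
    rfl
  have h1 : DD (fun z => v (z + a)) = σ (DD v) := by
    rw [hs, DD, DD, Matrix.submatrix_diagonal_equiv]
    rfl
  have h2 : ∀ m : T d L → ℂ, σ (Mo m) = Mo m := by
    intro m
    rw [hs]
    ext x y
    simp only [Mo, Matrix.submatrix_apply, Matrix.of_apply, Equiv.coe_addRight,
      add_sub_add_right_eq_sub]
  have h3 : ∀ A : Matrix (T d L) (T d L) ℂ, σ A⁻¹ = (σ A)⁻¹ := by
    intro A
    rw [hs, hs, Matrix.inv_submatrix_equiv]
  rw [← hs]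
  unfold BB
  rw [map_mul, map_sub, h3, map_sub, map_one, map_mul, h2, map_sum, h1]
  congr 2
  refine Finset.sum_congr rfl fun i _ => ?_
  rw [map_pow, map_mul, h2]

theorem pi_inv (ν : Measure ℝ) [IsProbabilityMeasure ν] (F : (T d L → ℝ) → ℂ) (a : T d L) :
    ∫ v, F (fun z => v (z + a)) ∂(Measure.pi fun _ : T d L => ν) =
      ∫ v, F v ∂(Measure.pi fun _ : T d L => ν) := by
  have hmp := measurePreserving_piCongrLeft (α := fun _ : T d L => ℝ)
    (fun _ => ν) (Equiv.addRight a).symm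
  have h := hmp.integral_comp (MeasurableEquiv.measurableEmbedding _) F
  have hTv : ∀ V : T d L → ℝ, MeasurableEquiv.piCongrLeft (fun _ : T d L => ℝ)
      (Equiv.addRight a).symm V = fun z => V (z + a) := by
    intro V
    funext z
    have h1 := MeasurableEquiv.piCongrLeft_apply_apply (Equiv.addRight a).symm
      (β := fun _ : T d L => ℝ) V (z + a)
    have h2 : (Equiv.addRight a).symm (z + a) = z := by simp
    rw [h2] at h1
    exact h1
  simp only [hTv] at h
  exact h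

/-- the vector `conj e k` -/
noncomputable def uk (k : T d L) (z : T d L) : ℂ := (starRingEnd ℂ) (e k z)

theorem bb_shift (m p : T d L → ℂ) (N : ℕ) (v : T d L → ℝ) (k a : T d L) :
    (BB m p N (fun z => v (z + a)) *ᵥ uk k) 0 = e k a * (BB m p N v *ᵥ uk k) a := by
  rw [bb_cov]
  simp only [Matrix.mulVec, dotProduct, Matrix.submatrix_apply, Equiv.coe_addRight, zero_add]
  rw [Finset.mul_sum, ← Equiv.sum_comp (Equiv.addRight a) fun y => e k a *
    (BB m p N v a y * uk k y)]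
  refine Finset.sum_congr rfl fun y _ => ?_
  rw [Equiv.coe_addRight, uk, uk, Pool.Agent.W788.MFP.Four.e_add, map_mul]
  have h1 := Pool.Agent.W788.MFP.Four.e_normSq k a
  linear_combination (-(BB m p N v a (y + a) * (starRingEnd ℂ) (e k y))) * h1

/-! ### norms -/

theorem geom_err {A : Type} [NormedRing A] (X Y R : A) (q δ r : ℝ) (hq0 : 0 ≤ q) (hq : q < 1)
    (hR : R = 1 + X * R) (hY : ‖Y‖ ≤ q) (hXY : ‖X - Y‖ ≤ δ) (hr : ‖R‖ ≤ r) (N : ℕ) :
    ‖R - ∑ i ∈ Finset.range N, Y ^ i‖ ≤ δ * r / (1 - q) + q ^ N * r := by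
  have hδ : 0 ≤ δ := (norm_nonneg _).trans hXY
  have hr0 : 0 ≤ r := (norm_nonneg _).trans hr
  have h1q : 0 < 1 - q := by linarith
  induction N with
  | zero =>
    rw [Finset.range_zero, Finset.sum_empty, sub_zero, pow_zero, one_mul]
    have : 0 ≤ δ * r / (1 - q) := by positivity
    linarith
  | succ N ih =>
    have e1 : R - ∑ i ∈ Finset.range (N + 1), Y ^ i =
        (X - Y) * R + Y * (R - ∑ i ∈ Finset.range N, Y ^ i) := by
      have h1 : ∑ i ∈ Finset.range (N + 1), Y ^ i = Y * (∑ i ∈ Finset.range N, Y ^ i) + 1 := by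
        rw [Finset.sum_range_succ', pow_zero, Finset.mul_sum]
        simp only [pow_succ']
      rw [h1, mul_sub, sub_mul]
      have h2 : R - (Y * (∑ i ∈ Finset.range N, Y ^ i) + 1) =
          (1 + X * R) - (Y * (∑ i ∈ Finset.range N, Y ^ i) + 1) := by rw [← hR]
      rw [h2]
      abel
    rw [e1]
    have h3 : ‖(X - Y) * R‖ ≤ δ * r :=
      (norm_mul_le _ _).trans (mul_le_mul hXY hr (norm_nonneg _) hδ)
    have h4 : ‖Y * (R - ∑ i ∈ Finset.range N, Y ^ i)‖ ≤ q * (δ * r / (1 - q) + q ^ N * r) :=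
      (norm_mul_le _ _).trans (mul_le_mul hY ih (norm_nonneg _) hq0)
    have h5 : δ * r + q * (δ * r / (1 - q) + q ^ N * r) = δ * r / (1 - q) + q ^ (N + 1) * r := by
      field_simp
      ring
    calc _ ≤ _ := norm_add_le _ _
      _ ≤ _ := add_le_add h3 h4
      _ = _ := h5

open scoped Matrix.Norms.L2Operator

theorem nsq_lp {n : Type} [Fintype n] (w : n → ℂ) :
    Pool.Agent.W788.BK.nsq w = ‖(WithLp.toLp 2 w : EuclideanSpace ℂ n)‖ ^ 2 := by
  rw [EuclideanSpace.norm_sq_eq]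
  rfl

theorem op_le {n : Type} [Fintype n] [DecidableEq n] (A : Matrix n n ℂ) (c : ℝ) (hc : 0 ≤ c)
    (h : ∀ w : n → ℂ, Pool.Agent.W788.BK.nsq (A *ᵥ w) ≤ c ^ 2 * Pool.Agent.W788.BK.nsq w) :
    ‖A‖ ≤ c := by
  rw [Matrix.cstar_norm_def]
  refine ContinuousLinearMap.opNorm_le_bound _ hc fun x => ?_
  have h1 := h x.ofLp
  rw [nsq_lp, nsq_lp, ← mul_pow] at h1
  have h2 := abs_le_of_sq_le_sq h1 (by positivity)
  rw [abs_of_nonneg (norm_nonneg _)] at h2
  exact h2

theorem nsq_le {n : Type} [Fintype n] [DecidableEq n] (A : Matrix n n ℂ) (c : ℝ)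
    (h : ‖A‖ ≤ c) (w : n → ℂ) :
    Pool.Agent.W788.BK.nsq (A *ᵥ w) ≤ c ^ 2 * Pool.Agent.W788.BK.nsq w := by
  rw [nsq_lp, nsq_lp, ← mul_pow]
  have h1 := Matrix.l2_opNorm_mulVec A (WithLp.toLp 2 w)
  have h2 : ‖A‖ * ‖(WithLp.toLp 2 w : EuclideanSpace ℂ n)‖ ≤
      c * ‖(WithLp.toLp 2 w : EuclideanSpace ℂ n)‖ := mul_le_mul_of_nonneg_right h (norm_nonneg _)
  exact pow_le_pow_left₀ (norm_nonneg _) (h1.trans h2) 2

theorem mo_norm (m : T d L → ℂ) (c : ℝ) (hc : 0 ≤ c) (hm : ∀ k, ‖m k‖ ≤ c) : ‖Mo m‖ ≤ c :=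
  op_le _ c hc fun w => nsq_mo m _ (fun k => pow_le_pow_left₀ (norm_nonneg _) (hm k) 2) w

theorem dd_norm (v : T d L → ℝ) : ‖DD v‖ ≤ 1 := by
  rw [DD, Matrix.l2_opNorm_diagonal]
  rw [pi_norm_le_iff_of_nonneg zero_le_one]
  exact fun x => (cay_norm _).le

theorem tor_bd (m p : T d L → ℂ) (q δ : ℝ) (hq0 : 0 ≤ q) (hq : q < 1) (hm : ∀ k, ‖m k‖ ≤ q)
    (hp : ∀ k, ‖p k‖ ≤ q) (hmp : ∀ k, ‖m k - p k‖ ≤ δ) (v : T d L → ℝ) (N : ℕ) :
    IsUnit (1 - Mo m * DD v).det ∧ ∀ u : T d L → ℂ,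
    Pool.Agent.W788.BK.nsq ((DD v * ((1 - Mo m * DD v)⁻¹ -
      ∑ i ∈ Finset.range N, (Mo p * DD v) ^ i)) *ᵥ u) ≤
      (q ^ N / (1 - q) + δ / (1 - q) ^ 2) ^ 2 * Pool.Agent.W788.BK.nsq u := by
  have h1q : 0 < 1 - q := by linarith
  have hδ : 0 ≤ δ := (norm_nonneg _).trans (hmp 0)
  have : CompleteSpace (Matrix (T d L) (T d L) ℂ) := FiniteDimensional.complete ℂ _
  have hX : ‖Mo m * DD v‖ ≤ q := by
    calc _ ≤ ‖Mo m‖ * ‖DD v‖ := norm_mul_le _ _
      _ ≤ q * 1 := mul_le_mul (mo_norm m q hq0 hm) (dd_norm v) (norm_nonneg _) hq0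
      _ = q := mul_one q
  have hY : ‖Mo p * DD v‖ ≤ q := by
    calc _ ≤ ‖Mo p‖ * ‖DD v‖ := norm_mul_le _ _
      _ ≤ q * 1 := mul_le_mul (mo_norm p q hq0 hp) (dd_norm v) (norm_nonneg _) hq0
      _ = q := mul_one q
  have hXY : ‖Mo m * DD v - Mo p * DD v‖ ≤ δ := by
    rw [← sub_mul, mo_sub]
    calc _ ≤ ‖Mo fun k => m k - p k‖ * ‖DD v‖ := norm_mul_le _ _
      _ ≤ δ * 1 := mul_le_mul (mo_norm _ δ hδ hmp) (dd_norm v) (norm_nonneg _) hδ
      _ = δ := mul_one δ
  have hu : IsUnit (1 - Mo m * DD v) := isUnit_one_sub_of_norm_lt_one (hX.trans_lt hq)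
  have hdet : IsUnit (1 - Mo m * DD v).det := (Matrix.isUnit_iff_isUnit_det _).1 hu
  refine ⟨hdet, ?_⟩
  obtain ⟨R, hR⟩ : ∃ R, R = (1 - Mo m * DD v)⁻¹ := ⟨_, rfl⟩
  have h1 : (1 - Mo m * DD v) * R = 1 := by rw [hR]; exact Matrix.mul_nonsing_inv _ hdet
  have h2 : R = 1 + Mo m * DD v * R := by
    rw [sub_mul, one_mul] at h1
    exact sub_eq_iff_eq_add.1 h1
  have hone : ‖(1 : Matrix (T d L) (T d L) ℂ)‖ ≤ 1 := by
    refine op_le _ 1 zero_le_one fun w => ?_
    rw [Matrix.one_mulVec, one_pow, one_mul]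
  have h3 : ‖R‖ ≤ 1 / (1 - q) := by
    have h4 : ‖R‖ ≤ 1 + q * ‖R‖ := by
      calc ‖R‖ = ‖1 + Mo m * DD v * R‖ := by rw [← h2]
        _ ≤ ‖(1 : Matrix (T d L) (T d L) ℂ)‖ + ‖Mo m * DD v * R‖ := norm_add_le _ _
        _ ≤ 1 + q * ‖R‖ := add_le_add hone ((norm_mul_le _ _).trans
            (mul_le_mul_of_nonneg_right hX (norm_nonneg _)))
    rw [le_div_iff₀ h1q]
    linarith
  have h5 := geom_err (Mo m * DD v) (Mo p * DD v) R q δ _ hq0 hq h2 hY hXY h3 N
  intro u
  refine nsq_le _ _ ?_ u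
  rw [← hR]
  calc _ ≤ ‖DD v‖ * ‖R - ∑ i ∈ Finset.range N, (Mo p * DD v) ^ i‖ := norm_mul_le _ _
    _ ≤ 1 * (δ * (1 / (1 - q)) / (1 - q) + q ^ N * (1 / (1 - q))) :=
        mul_le_mul (dd_norm v) h5 (norm_nonneg _) zero_le_one
    _ = _ := by
        field_simp
        ring

theorem nsq_uk (k : T d L) : Pool.Agent.W788.BK.nsq (uk k) = NN d L := by
  unfold Pool.Agent.W788.BK.nsq uk
  simp only [RCLike.norm_conj, e_norm, one_pow]
  rw [Finset.sum_const, Finset.card_univ, nsmul_eq_mul, mul_one,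
    Pool.Agent.W788.MFP.Four.card_T]

theorem entry_le (w : T d L → ℂ) (x : T d L) (c : ℝ) (hc : 0 ≤ c)
    (h : Pool.Agent.W788.BK.nsq w ≤ c ^ 2) : ‖w x‖ ≤ c := by
  have h1 : ‖w x‖ ^ 2 ≤ Pool.Agent.W788.BK.nsq w :=
    Finset.single_le_sum (f := fun x => ‖w x‖ ^ 2) (fun i _ => by positivity) (Finset.mem_univ x)
  exact abs_le_of_sq_le_sq' (h1.trans h) hc |>.2

theorem bb_int (ν : Measure ℝ) [IsProbabilityMeasure ν] (m p : T d L → ℂ) (N : ℕ)
    (hdet : ∀ v, IsUnit (1 - Mo m * DD v).det) (c : ℝ) (hc : 0 ≤ c)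
    (hB : ∀ (v : T d L → ℝ) (u : T d L → ℂ), Pool.Agent.W788.BK.nsq (BB m p N v *ᵥ u) ≤
      c ^ 2 * Pool.Agent.W788.BK.nsq u) (w : T d L → ℂ) (x : T d L) :
    Integrable (fun v => (BB m p N v *ᵥ w) x) (Measure.pi fun _ : T d L => ν) := by
  have h1 : Continuous fun v => (BB m p N v *ᵥ w) x :=
    (continuous_apply x).comp ((bb_cont m p N hdet).matrix_mulVec continuous_const)
  refine Integrable.of_bound h1.aestronglyMeasurable
    (c * Real.sqrt (Pool.Agent.W788.BK.nsq w)) (Eventually.of_forall fun v => ?_)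
  refine entry_le _ x _ (by positivity) ?_
  have h2 : 0 ≤ Pool.Agent.W788.BK.nsq w := Finset.sum_nonneg fun i _ => by positivity
  rw [mul_pow, Real.sq_sqrt h2]
  exact hB v w

/-- the mean of the error is small -/
theorem bb_mean (ν : Measure ℝ) [IsProbabilityMeasure ν] (m p : T d L → ℂ) (N : ℕ)
    (hdet : ∀ v, IsUnit (1 - Mo m * DD v).det) (c : ℝ) (hc : 0 ≤ c)
    (hB : ∀ (v : T d L → ℝ) (u : T d L → ℂ), Pool.Agent.W788.BK.nsq (BB m p N v *ᵥ u) ≤
      c ^ 2 * Pool.Agent.W788.BK.nsq u) (k : T d L) :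
    ‖∫ v, (BB m p N v *ᵥ uk k) 0 ∂(Measure.pi fun _ : T d L => ν)‖ ≤ c := by
  have hN := Pool.Agent.W788.MFP.Four.NN_pos (d := d) (L := L)
  have h1 : ∀ a, ∫ v, (BB m p N v *ᵥ uk k) 0 ∂(Measure.pi fun _ : T d L => ν) =
      ∫ v, e k a * (BB m p N v *ᵥ uk k) a ∂(Measure.pi fun _ : T d L => ν) := by
    intro a
    rw [← pi_inv ν (fun v => (BB m p N v *ᵥ uk k) 0) a]
    simp only [bb_shift]
  have h2 : ((NN d L : ℝ) : ℂ) * ∫ v, (BB m p N v *ᵥ uk k) 0 ∂(Measure.pi fun _ : T d L => ν) =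
      ∫ v, ∑ a, e k a * (BB m p N v *ᵥ uk k) a ∂(Measure.pi fun _ : T d L => ν) := by
    rw [integral_finsetSum _ fun a _ => (bb_int ν m p N hdet c hc hB (uk k) a).const_mul _,
      ← Finset.sum_congr rfl fun a _ => h1 a, Finset.sum_const, Finset.card_univ, nsmul_eq_mul,
      ← Pool.Agent.W788.MFP.Four.card_T]
    push_cast
    rfl
  have h3 : ∀ v, ‖∑ a, e k a * (BB m p N v *ᵥ uk k) a‖ ≤ c * NN d L := by
    intro v
    have h4 : ‖∑ a, e k a * (BB m p N v *ᵥ uk k) a‖ ≤ ∑ a, ‖(BB m p N v *ᵥ uk k) a‖ := by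
      refine (norm_sum_le _ _).trans (le_of_eq (Finset.sum_congr rfl fun a _ => ?_))
      rw [norm_mul, e_norm, one_mul]
    refine h4.trans ?_
    have h5 : (∑ a, ‖(BB m p N v *ᵥ uk k) a‖) ^ 2 ≤
        (Finset.univ : Finset (T d L)).card * ∑ a, ‖(BB m p N v *ᵥ uk k) a‖ ^ 2 :=
      sq_sum_le_card_mul_sum_sq
    rw [Finset.card_univ, Pool.Agent.W788.MFP.Four.card_T] at h5
    have h6 := hB v (uk k)
    rw [nsq_uk] at h6
    have h7 : (∑ a, ‖(BB m p N v *ᵥ uk k) a‖) ^ 2 ≤ (c * NN d L) ^ 2 := by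
      refine h5.trans ((mul_le_mul_of_nonneg_left h6 hN.le).trans (le_of_eq ?_))
      ring
    exact (abs_le_of_sq_le_sq' h7 (by positivity)).2
  have h8 := norm_integral_le_of_norm_le_const (μ := Measure.pi fun _ : T d L => ν)
    (Eventually.of_forall h3)
  rw [← h2, norm_mul, Complex.norm_real, Real.norm_of_nonneg hN.le] at h8
  have h9 : (Measure.pi fun _ : T d L => ν).real Set.univ = 1 := by simp
  rw [h9, mul_one, mul_comm c] at h8
  exact le_of_mul_le_mul_left h8 hN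

theorem bb_split (m : T d L → ℂ) (h : (Fin d → ℤ) →₀ ℂ) (N : ℕ) (v : T d L → ℝ) (u : T d L → ℂ)
    (x : T d L) : (BB m (fun j => trig h (ptt j)) N v *ᵥ u) x =
      (BB m (fun j => trig h (ptt j)) 0 v *ᵥ u) x -
        ∑ i ∈ Finset.range N, G (red L) h (fun y => cay (v y)) u i x := by
  induction N with
  | zero => simp
  | succ N ih =>
    rw [Finset.sum_range_succ, ← sub_sub, ← ih]
    have e1 : BB m (fun j => trig h (ptt j)) (N + 1) v = BB m (fun j => trig h (ptt j)) N v -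
        DD v * (Mo (fun k => trig h (ptt k)) * DD v) ^ N := by
      unfold BB
      rw [Finset.sum_range_succ]
      simp only [mul_sub, mul_add]
      abel
    rw [e1, Matrix.sub_mulVec, Pi.sub_apply, tor_G]

theorem cL_eq (ν : Measure ℝ) [IsProbabilityMeasure ν] (m p : T d L → ℂ)
    (hdet : ∀ v, IsUnit (1 - Mo m * DD v).det) (c : ℝ) (hc : 0 ≤ c)
    (hB : ∀ (v : T d L → ℝ) (u : T d L → ℂ), Pool.Agent.W788.BK.nsq (BB m p 0 v *ᵥ u) ≤
      c ^ 2 * Pool.Agent.W788.BK.nsq u) (k : T d L) :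
    cL ν m k = ∫ v, (BB m p 0 v *ᵥ uk k) 0 ∂(Measure.pi fun _ : T d L => ν) := by
  have h1 : ∀ v : T d L → ℝ, (Matrix.diagonal fun x => cay (v x)) *
      (1 - Mo m * Matrix.diagonal fun x => cay (v x))⁻¹ = BB m p 0 v := by
    intro v
    unfold BB DD
    rw [Finset.range_zero, Finset.sum_empty, sub_zero]
  unfold cL sy
  simp only [h1]
  have h2 : ∀ z, Integrable (fun v => BB m p 0 v 0 z) (Measure.pi fun _ : T d L => ν) := by
    intro z
    have h3 := bb_int ν m p 0 hdet c hc hB (Pi.single z 1) 0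
    simpa using h3
  simp only [Matrix.mulVec, dotProduct]
  rw [integral_finsetSum _ fun z _ => (h2 z).mul_const _]
  refine Finset.sum_congr rfl fun z _ => ?_
  rw [integral_mul_const]
  rfl

end

end Pool.Agent.T2h98.AC.TOR

namespace Pool.Agent.T2h98.AC

open Pool.Agent.W788.MFP.Four (T e NN adj)
open Pool.Agent.T2h98.QD
open Pool.Agent.W792.LL (lap cay toC trig opr l2)
open Pool.Agent.W792.WA (csym psi cayx Pn dc rsv)
open Pool.Agent.W298.WA.Csym (HM)
open TOR

theorem tor : T_TOR := by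
  classical
  intro ν _ d m hm ε hε
  have hS : Pool.Agent.W792.WA.S_SYMB := Pool.Agent.W683.WA.main
  obtain ⟨q, hq⟩ : ∃ q : ℝ, q = (1 + ‖m‖) / 2 := ⟨_, rfl⟩
  have hm0 := norm_nonneg m
  have hq0 : 0 ≤ q := by rw [hq]; linarith
  have hq1 : q < 1 := by rw [hq]; linarith
  have hmq : ‖m‖ < q := by rw [hq]; linarith
  have h1q : 0 < 1 - q := by linarith
  obtain ⟨δ, hδ⟩ : ∃ δ : ℝ, δ = min (q - ‖m‖) (ε * (1 - q) ^ 2 / 4) := ⟨_, rfl⟩
  have hδ0 : 0 < δ := by rw [hδ]; exact lt_min (by linarith) (by positivity)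
  obtain ⟨h, hh⟩ := (Pool.Agent.W308.LL.Trig.main d).1 m δ hδ0
  have hhq : ‖trig h‖ ≤ q := by
    calc ‖trig h‖ = ‖(trig h - m) + m‖ := by rw [sub_add_cancel]
      _ ≤ ‖trig h - m‖ + ‖m‖ := norm_add_le _ _
      _ ≤ (q - ‖m‖) + ‖m‖ := add_le_add (hh.trans (by rw [hδ]; exact min_le_left _ _)) le_rfl
      _ = q := by ring
  obtain ⟨N, hN⟩ : ∃ N : ℕ, q ^ N < ε * (1 - q) / 4 :=
    exists_pow_lt_of_lt_one (by positivity) hq1
  obtain ⟨η, hη⟩ : ∃ η : ℝ, η = q ^ N / (1 - q) + δ / (1 - q) ^ 2 := ⟨_, rfl⟩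
  have hηε : η ≤ ε / 2 := by
    have h1 : q ^ N / (1 - q) ≤ ε / 4 := by
      rw [div_le_iff₀ h1q]
      linarith
    have h2 : δ / (1 - q) ^ 2 ≤ ε / 4 := by
      rw [div_le_iff₀ (by positivity)]
      have : δ ≤ ε * (1 - q) ^ 2 / 4 := by rw [hδ]; exact min_le_right _ _
      linarith
    rw [hη]
    linarith
  have hη0 : 0 ≤ η := by rw [hη]; positivity
  choose H F hH using fun n => TOR.mean ν h n
  obtain ⟨L0, hL0⟩ := TOR.red_inj ((Finset.range N).biUnion F)
  refine ⟨L0, ?_⟩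
  intro L _ hL k
  -- the lattice
  have hC := Pool.Agent.W298.WA.Csym.main hS ν d m hm
  have hA : HM ν (fun v => dc v * rsv m v) (csym ν m) := fun u x =>
    ⟨(hC.2.1 u x).2.1, (hC.2.1 u x).2.2.1⟩
  have hB := TOR.lat_HM ν h H F hH N
  have hbd : ∀ v, ‖dc v * (∑ i ∈ Finset.range N, (opr (trig h) * dc v) ^ i) -
      dc v * rsv m v‖ ≤ η := fun v => by
    rw [hη]
    exact Pool.Agent.W298.WA.Csym.approx m h hq1 hmq.le hhq hh N v
  have hnA : ∀ v, ‖dc v * rsv m v‖ ≤ 1 / (1 - ‖m‖) := Pool.Agent.W298.WA.Csym.A_norm m hm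
  have hnB : ∀ v, ‖dc v * ∑ i ∈ Finset.range N, (opr (trig h) * dc v) ^ i‖ ≤
      η + 1 / (1 - ‖m‖) := fun v => by
    calc _ = ‖(dc v * (∑ i ∈ Finset.range N, (opr (trig h) * dc v) ^ i) - dc v * rsv m v) +
          dc v * rsv m v‖ := by rw [sub_add_cancel]
      _ ≤ _ := norm_add_le _ _
      _ ≤ _ := add_le_add (hbd v) (hnA v)
  have h1 : ‖(∑ i ∈ Finset.range N, trig (H i)) - csym ν m‖ ≤ η :=
    Pool.Agent.W298.WA.Csym.opr_le ν (hB.sub hnB hA hnA) hbd hS
  have h2 : ‖(∑ i ∈ Finset.range N, trig (H i) (ptt k)) - csym ν m (ptt k)‖ ≤ η := by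
    have h3 := (ContinuousMap.norm_coe_le_norm ((∑ i ∈ Finset.range N, trig (H i)) - csym ν m)
      (ptt k)).trans h1
    rw [ContinuousMap.coe_sub, Pi.sub_apply, ContinuousMap.coe_sum, Finset.sum_apply] at h3
    exact h3
  -- the torus
  have hmk : ∀ j : T d L, ‖m (ptt j)‖ ≤ q := fun j =>
    (ContinuousMap.norm_coe_le_norm m _).trans hmq.le
  have hpk : ∀ j : T d L, ‖trig h (ptt j)‖ ≤ q := fun j =>
    (ContinuousMap.norm_coe_le_norm (trig h) _).trans hhq
  have hmpk : ∀ j : T d L, ‖m (ptt j) - trig h (ptt j)‖ ≤ δ := fun j => by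
    rw [norm_sub_rev]
    exact (ContinuousMap.norm_coe_le_norm (trig h - m) (ptt j)).trans hh
  have hdet : ∀ v : T d L → ℝ, IsUnit (1 - Mo (fun j => m (ptt j)) * DD v).det := fun v =>
    (tor_bd _ _ q δ hq0 hq1 hmk hpk hmpk v 0).1
  have hB0 : ∀ (v : T d L → ℝ) (u : T d L → ℂ), Pool.Agent.W788.BK.nsq
      (BB (fun j => m (ptt j)) (fun j => trig h (ptt j)) 0 v *ᵥ u) ≤
      (q ^ 0 / (1 - q) + δ / (1 - q) ^ 2) ^ 2 * Pool.Agent.W788.BK.nsq u := fun v u =>
    (tor_bd _ _ q δ hq0 hq1 hmk hpk hmpk v 0).2 u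
  have hBN : ∀ (v : T d L → ℝ) (u : T d L → ℂ), Pool.Agent.W788.BK.nsq
      (BB (fun j => m (ptt j)) (fun j => trig h (ptt j)) N v *ᵥ u) ≤
      η ^ 2 * Pool.Agent.W788.BK.nsq u := fun v u => by
    rw [hη]
    exact (tor_bd _ _ q δ hq0 hq1 hmk hpk hmpk v N).2 u
  have h3 := bb_mean ν _ _ N hdet η hη0 hBN k
  have hmeas : Measure.infinitePi (fun _ : T d L => ν) = Measure.pi fun _ : T d L => ν :=
    Measure.infinitePi_eq_pi _
  have hinj : ∀ i ∈ Finset.range N, Set.InjOn (red (d := d) L) (F i) := fun i hi =>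
    (hL0 L hL).mono (Finset.coe_subset.2 (Finset.subset_biUnion_of_mem F hi))
  have h4 : ∫ v, (BB (fun j => m (ptt j)) (fun j => trig h (ptt j)) N v *ᵥ uk k) 0
      ∂(Measure.pi fun _ : T d L => ν) = cL ν (fun j => m (ptt j)) k -
        ∑ i ∈ Finset.range N, trig (H i) (ptt k) := by
    simp only [bb_split (fun j => m (ptt j)) h N]
    rw [integral_sub (bb_int ν _ _ 0 hdet _ (by positivity) hB0 (uk k) 0)
      (integrable_finsetSum _ fun i hi => by
        have := (hH i _ (red L) (hinj i hi) (uk k) 0).2.1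
        rwa [hmeas] at this),
      ← cL_eq ν _ _ hdet _ (by positivity) hB0 k, integral_finsetSum _ fun i hi => by
        have := (hH i _ (red L) (hinj i hi) (uk k) 0).2.1
        rwa [hmeas] at this]
    congr 1
    refine Finset.sum_congr rfl fun i hi => ?_
    have h5 := (hH i _ (red L) (hinj i hi) (uk k) 0).2.2
    rw [hmeas] at h5
    rw [h5, trig_ptt, Finsupp.sum]
    refine Finset.sum_congr rfl fun a _ => ?_
    rw [uk, zero_sub, Pool.Agent.W788.MFP.Four.e_neg, Complex.conj_conj,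
      Pool.Agent.W788.MFP.Four.e_comm]
  rw [h4] at h3
  calc _ = ‖(cL ν (fun j => m (ptt j)) k - ∑ i ∈ Finset.range N, trig (H i) (ptt k)) +
        ((∑ i ∈ Finset.range N, trig (H i) (ptt k)) - csym ν m (ptt k))‖ := by
        rw [norm_sub_rev]
        congr 1
        ring
    _ ≤ η + η := (norm_add_le _ _).trans (add_le_add h3 h2)
    _ ≤ ε := by linarith

end Pool.Agent.T2h98.AC
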