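import Pool.Agent.T2h98.AC.Stm

/-! The main theorem on tori from the parts. -/

set_option autoImplicit false
set_option linter.unusedSectionVars false

open scoped BigOperators Matrix Topology
open MeasureTheory ProbabilityTheory Filter

namespace Pool.Agent.T2h98.AC

open Pool.Agent.W788.MFP.Four (T e NN adj K)
open Pool.Agent.W788.BK (nsq hs PP JJ hi Low cr)
open Pool.Agent.T2h98.QD

namespace TS

variable {d L : ℕ} [NeZero L]

/-- additional dissipation -/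
noncomputable def XL (X : T d L → ℂ) (l : ℝ) : T d L → ℂ := fun k => X k - ((max l 0 : ℝ) : ℂ) * Complex.I

theorem XL_zero (X : T d L → ℂ) : XL X 0 = X := by
  funext k
  simp [XL]

theorem XL_im (X : T d L → ℂ) {l : ℝ} (hl : 0 ≤ l) (k : T d L) : (XL X l k).im = (X k).im - l := by
  unfold XL
  rw [max_eq_left hl]
  simp

theorem XL_re (X : T d L → ℂ) (l : ℝ) (k : T d L) : (XL X l k).re = (X k).re := by
  unfold XL
  simp

theorem cont1 (hR : T_RX) {X : T d L → ℂ} {c σ : ℝ} (hc : 0 < c) (h : ∀ k, c ≤ -(X k).im) :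
    Continuous fun p : ℝ × (T d L → ℝ) => RX (XL X p.1) σ p.2 0 0 := by
  obtain ⟨-, -, -, -, -, -, h7, -⟩ := hR d L X c σ hc h
  have h8 := h7 0 0
  unfold XL
  exact h8

theorem cont2 (F : ℝ → (T d L → ℝ) → ℂ) (C : ℝ) (h1 : ∀ l, Continuous (F l))
    (h2 : ∀ V, Continuous fun l => F l V) (h3 : ∀ l V, ‖F l V‖ ≤ C) :
    Continuous fun l => ∫ V, F l V ∂(GP (T d L)) :=
  continuous_of_dominated (bound := fun _ => C) (fun l => (h1 l).aestronglyMeasurable)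
    (fun l => Eventually.of_forall fun V => h3 l V) (integrable_const _)
    (Eventually.of_forall fun V => h2 V)

theorem XL_im' (X : T d L → ℂ) (l : ℝ) (k : T d L) : (XL X l k).im = (X k).im - max l 0 := by
  unfold XL
  simp

theorem gen {W : Type} [TopologicalSpace W] (F : ℝ → W → ℂ)
    (h : Continuous fun p : ℝ × W => F p.1 p.2) : (∀ l, Continuous (F l)) ∧
      ∀ V, Continuous fun l => F l V :=
  ⟨fun l => h.comp (continuous_const.prodMk continuous_id),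
    fun V => h.comp (continuous_id.prodMk continuous_const)⟩

theorem bd (hR : T_RX) {X : T d L → ℂ} {c σ : ℝ} (hc : 0 < c) (h : ∀ k, c ≤ -(X k).im) (l : ℝ)
    (V : T d L → ℝ) : ‖RX (XL X l) σ V 0 0‖ ≤ c⁻¹ := by
  have h4 : ∀ k, c ≤ -(XL X l k).im := by
    intro k
    rw [XL_im']
    have h5 : 0 ≤ max l 0 := le_max_right _ _
    have h6 := h k
    linarith
  obtain ⟨-, -, h5, -⟩ := hR d L (XL X l) c σ hc h4
  exact h5 V 0 0

theorem cont (hR : T_RX) {X : T d L → ℂ} {c σ : ℝ} (hc : 0 < c) (h : ∀ k, c ≤ -(X k).im) :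
    Continuous fun l : ℝ => mX (XL X l) σ := by
  have h8 := gen (fun (l : ℝ) (V : T d L → ℝ) => RX (XL X l) σ V 0 0) (cont1 hR (σ := σ) hc h)
  exact cont2 (fun l V => RX (XL X l) σ V 0 0) c⁻¹ h8.1 h8.2 (bd hR hc h)

theorem jj2 (E δ : ℝ) (hδ : 0 < δ) (k : T d L) : |adj k - E| ≤ JJ E δ k ∧ δ ≤ JJ E δ k := by
  unfold JJ
  constructor
  · rw [← Real.sqrt_sq_eq_abs]
    exact Real.sqrt_le_sqrt (by nlinarith)
  · calc δ = Real.sqrt (δ ^ 2) := (Real.sqrt_sq hδ.le).symm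
      _ ≤ _ := Real.sqrt_le_sqrt (by nlinarith [sq_nonneg (adj k - E)])

end TS

open TS

theorem ts (hB : T_BETA) (hE : T_EMB3) (hsl : T_SLICE) (hOM : T_OM) (hSD : T_SD) (hR : T_RX)
    (hLB : T_LBG) (hSt : T_STEP) (h0 : T_START) (hN : T_NUM) : T_TS := by
  intro d hd h hh0 hh a ha ha2
  have hd3 : (3 : ℝ) ≤ d := by exact_mod_cast hd
  obtain ⟨a', ha'⟩ : ∃ a', a' = (a + 2 * d) / 2 := ⟨_, rfl⟩
  obtain ⟨c1, hc1, hL1⟩ := hLB d hd a' (by rw [ha']; linarith)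
  obtain ⟨c2, hc2, hS2⟩ := h0 d (by omega)
  obtain ⟨c0, hc0⟩ : ∃ c0, c0 = min (c1 / 4) (min c2 1) := ⟨_, rfl⟩
  have hc0p : 0 < c0 := by rw [hc0]; positivity
  have hc01 : c0 ≤ 1 := by
    rw [hc0]
    exact (min_le_right _ _).trans (min_le_right _ _)
  have hc02 : c0 ≤ c2 := by
    rw [hc0]
    exact (min_le_right _ _).trans (min_le_left _ _)
  have hc0c : 4 * c0 ≤ c1 := by
    have : c0 ≤ c1 / 4 := by rw [hc0]; exact min_le_left _ _
    linarith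
  refine ⟨c0, hc0p, hc01, fun A hA => ?_⟩
  have hA0 : 0 < A := by linarith
  obtain ⟨s, hs0, hs1, hnum⟩ := hN d hd h hh0 hh
  obtain ⟨C1, hC1, hemb⟩ := hE d hd 1 one_pos
  obtain ⟨C2, hC2, hslice⟩ := hsl
  obtain ⟨ζ, hζ⟩ : ∃ ζ, ζ = c0 ^ 2 / 100 := ⟨_, rfl⟩
  have hζ0 : 0 < ζ := by rw [hζ]; positivity
  have hζ1 : ζ ≤ 1 := by
    rw [hζ]
    have : c0 ^ 2 ≤ 1 := pow_le_one₀ hc0p.le hc01
    linarith
  obtain ⟨a1, ha1⟩ : ∃ a1, a1 = min (c0 / 2) A⁻¹ := ⟨_, rfl⟩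
  have ha1p : 0 < a1 := by rw [ha1]; positivity
  have ha1c : a1 ≤ c0 / 2 := by rw [ha1]; exact min_le_left _ _
  have ha1A : a1 ≤ A⁻¹ := by rw [ha1]; exact min_le_right _ _
  obtain ⟨K, hK⟩ := hnum C1 C2 A ζ a1 hC1 hC2 hA0 hζ0 hζ1 ha1p
  have hsm : ∀ᶠ σ : ℝ in 𝓝[>] 0, σ ∈ Set.Ioo 0 (min 1 ((2 * d - a) / 2)) :=
    Ioo_mem_nhdsGT (lt_min one_pos (by linarith))
  filter_upwards [hK, hB d K s hd hs0 hs1, hsm] with σ hK' hB' hσ'
  obtain ⟨hσ, hσ2⟩ := hσ'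
  have hσ1 : σ < 1 := hσ2.trans_le (min_le_left _ _)
  have hσa : σ < (2 * d - a) / 2 := hσ2.trans_le (min_le_right _ _)
  obtain ⟨ℓ, n0, b0, hℓ, hb0, hβ⟩ := hB'
  obtain ⟨δ, hδ⟩ : ∃ δ, δ = (32 * σ) ^ (2 - s) := ⟨_, rfl⟩
  obtain ⟨ε, hε⟩ : ∃ ε, ε = a1 * σ ^ (6 + 2 * h) / (1600 * δ ^ 2) := ⟨_, rfl⟩
  obtain ⟨c, hc⟩ : ∃ c, c = ε * δ ^ 2 / (25 * d ^ 2) := ⟨_, rfl⟩
  obtain ⟨g, hg⟩ : ∃ g, g = C2 * Real.log (1 / (a1 * σ ^ 2)) ^ 2 := ⟨_, rfl⟩
  obtain ⟨Q, hQ⟩ : ∃ Q, Q = C1 * ke d δ := ⟨_, rfl⟩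
  obtain ⟨z, hz⟩ : ∃ z, z = ζ / g := ⟨_, rfl⟩
  obtain ⟨hSm, hδ2, hεδ, hc1', haδ, k3, k4, k5, k6⟩ := hK' b0 hb0 δ ε c g Q z hδ hε hc hg hQ hz
  rw [← hδ] at hβ
  have hδ0 : 0 < δ := by rw [hδ]; positivity
  have hε0 : 0 < ε := by rw [hε]; positivity
  have hcp : 0 < c := by rw [hc]; positivity
  have hg1 : 1 ≤ g := hSm.hg
  have hg0 : 0 < g := by linarith
  have hzg : z * g = ζ := by rw [hz]; field_simp
  have hz0 : 0 < z := hSm.hζ
  have hzζ : z ≤ ζ := by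
    rw [← hzg]
    nlinarith
  have hs2 : 0 < a1 * σ ^ 2 := by positivity
  obtain ⟨L0, hL0⟩ := hL1 (σ ^ 2 * c0 / 2) (by positivity)
  refine ⟨g, ℓ, max n0 (max L0 (max ⌈(1 / δ) ^ 2⌉₊ ⌈1 / (a1 * σ ^ 2)⌉₊)), hg1, by linarith, hℓ, ?_⟩
  intro n hn L _ hL E y X hEa hy hy1 hX hXi
  have hn0 : n0 ≤ n := (le_max_left _ _).trans hn
  have hnL : n ≤ L := by
    rw [hL]
    exact Nat.le_mul_of_pos_right _ hℓ
  have hLL0 : L0 ≤ L := ((le_max_left _ _).trans ((le_max_right _ _).trans hn)).trans hnL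
  have hLδ : (1 / δ) ^ 2 ≤ L := by
    have h1 : ⌈(1 / δ) ^ 2⌉₊ ≤ L :=
      ((le_max_left _ _).trans ((le_max_right _ _).trans ((le_max_right _ _).trans hn))).trans hnL
    exact (Nat.le_ceil _).trans (by exact_mod_cast h1)
  have hLs : 1 / (a1 * σ ^ 2) ≤ L := by
    have h1 : ⌈1 / (a1 * σ ^ 2)⌉₊ ≤ L :=
      ((le_max_right _ _).trans ((le_max_right _ _).trans ((le_max_right _ _).trans hn))).trans hnL
    exact (Nat.le_ceil _).trans (by exact_mod_cast h1)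
  have hLp : (0 : ℝ) < L := by exact_mod_cast Nat.pos_of_ne_zero (NeZero.ne L)
  have hNp : 0 < NN d L := Pool.Agent.W788.MFP.Four.NN_pos
  obtain ⟨β, B, hBet⟩ := hβ n hn0 L hL
  -- the embedding
  have hemb' : ∀ a b : T d L → ℂ, ∑ y, ‖a y‖ ^ 2 * ‖b y‖ ^ 2 ≤
      Q * (qf (J0 E δ) a * qf (J0 E δ) b) := by
    intro a b
    rw [hQ]
    refine hemb L E δ hδ0 hδ2 ?_ a b
    have e1 : (1 : ℝ) + 1 = ((2 : ℕ) : ℝ) := by norm_num
    rw [e1, Real.rpow_natCast]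
    exact hLδ
  -- the sums
  have ha1σ : a1 * σ ^ 2 ≤ 1 / 2 := haδ.trans hδ2
  have hsum : ∀ E' Γ : ℝ, a1 * σ ^ 2 ≤ Γ → ∑ k : T d L, (JJ E' Γ k)⁻¹ ≤ g * NN d L := by
    intro E' Γ hΓ
    have h1 := hslice d L (by omega) E' (a1 * σ ^ 2) (by
      rw [div_le_iff₀ hLp]
      rw [div_le_iff₀ hs2] at hLs
      linarith) ha1σ
    rw [← hg] at h1
    refine (Finset.sum_le_sum fun k _ => ?_).trans h1
    have hΓ0 : 0 < Γ := hs2.trans_le hΓ
    obtain ⟨j1, j2⟩ := jj2 E' Γ hΓ0 k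
    exact inv_anti₀ (lt_max_of_lt_right hs2) (max_le j1 (hΓ.trans j2))
  -- the weight
  have hW : ∀ k : T d L, ε * δ ^ 2 / JJ E δ k ^ 2 ≤ -(X k).im := by
    intro k
    obtain ⟨j1, j2⟩ := jj2 E δ hδ0 k
    have hJ0 : 0 < JJ E δ k := hδ0.trans_le j2
    have h1 := hXi k
    have hσ6 : 0 < σ ^ (6 + 2 * h) := by positivity
    rcases le_total y δ with hyδ | hyδ
    · have h2 : |adj k - E| + y + 4 * g * σ ^ 2 ≤ 3 * JJ E δ k := by
        have : 4 * g * σ ^ 2 ≤ δ := by nlinarith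
        linarith
      have h3 : 0 < |adj k - E| + y + 4 * g * σ ^ 2 := by positivity
      have h4 : (|adj k - E| + y + 4 * g * σ ^ 2) ^ 2 ≤ 9 * JJ E δ k ^ 2 := by
        calc _ ≤ (3 * JJ E δ k) ^ 2 := pow_le_pow_left₀ h3.le h2 2
          _ = _ := by ring
      have h5 : ε * δ ^ 2 = a1 * σ ^ (6 + 2 * h) / 1600 := by
        rw [hε]
        field_simp
      have h6 : ε * δ ^ 2 / JJ E δ k ^ 2 ≤
          A⁻¹ * σ ^ (6 + 2 * h) / (|adj k - E| + y + 4 * g * σ ^ 2) ^ 2 := by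
        rw [h5, div_le_div_iff₀ (by positivity) (by positivity)]
        have h7 : a1 * σ ^ (6 + 2 * h) ≤ A⁻¹ * σ ^ (6 + 2 * h) :=
          mul_le_mul_of_nonneg_right ha1A hσ6.le
        have h8 : 0 ≤ a1 * σ ^ (6 + 2 * h) := by positivity
        calc a1 * σ ^ (6 + 2 * h) / 1600 * (|adj k - E| + y + 4 * g * σ ^ 2) ^ 2 ≤
            a1 * σ ^ (6 + 2 * h) / 1600 * (9 * JJ E δ k ^ 2) :=
              mul_le_mul_of_nonneg_left h4 (by positivity)
          _ ≤ a1 * σ ^ (6 + 2 * h) * JJ E δ k ^ 2 := by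
              have : 0 ≤ a1 * σ ^ (6 + 2 * h) * JJ E δ k ^ 2 := by positivity
              linarith
          _ ≤ _ := mul_le_mul_of_nonneg_right h7 (by positivity)
      linarith
    · have h2 : 0 ≤ A⁻¹ * σ ^ (6 + 2 * h) / (|adj k - E| + y + 4 * g * σ ^ 2) ^ 2 := by positivity
      have h3 : ε * δ ^ 2 / JJ E δ k ^ 2 ≤ ε := by
        rw [div_le_iff₀ (by positivity)]
        exact mul_le_mul_of_nonneg_left (pow_le_pow_left₀ hδ0.le j2 2) hε0.le
      linarith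
  have hWc : ∀ k : T d L, c ≤ -(X k).im := by
    intro k
    refine le_trans ?_ (hW k)
    obtain ⟨j1, j2⟩ := jj2 E δ hδ0 k
    have hJ0 : 0 < JJ E δ k := hδ0.trans_le j2
    rw [hc]
    refine div_le_div_of_nonneg_left (by positivity) (by positivity) ?_
    have h1 : |adj k - E| ≤ 4 * d := by
      refine (abs_sub _ _).trans ?_
      have := Pool.Agent.W788.MFP.Form.adj_abs k
      linarith
    have h2 : JJ E δ k ^ 2 = (adj k - E) ^ 2 + δ ^ 2 := by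
      unfold JJ
      exact Real.sq_sqrt (by positivity)
    have h3 : (adj k - E) ^ 2 ≤ (4 * d) ^ 2 := by
      rw [← sq_abs]
      exact pow_le_pow_left₀ (abs_nonneg _) h1 2
    have h4 : δ ^ 2 ≤ 1 := pow_le_one₀ hδ0.le (by linarith)
    rw [h2]
    nlinarith
  have hε2 : A * σ ^ (2 + 2 * h) ≤ δ / 32 := by linarith
  -- the operators with additional dissipation
  have hDis : ∀ l : ℝ, 0 ≤ l → Dis (XL X l) E δ ε c := by
    intro l hl
    refine ⟨hδ0, by linarith, hε0, hεδ, hcp, hc1', fun k => ?_, fun k => ?_, fun k => ?_⟩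
    · rw [XL_re]
      have h1 := (Complex.abs_re_le_norm _).trans (hX k)
      simp only [Complex.sub_re, Complex.ofReal_re, Complex.mul_re, Complex.I_re, mul_zero,
        Complex.ofReal_im, Complex.I_im, mul_one, sub_zero] at h1
      linarith
    · rw [XL_im X hl]
      linarith [hW k]
    · rw [XL_im X hl]
      linarith [hWc k]
  have hgσ : 3 * g * σ ^ 2 ≤ σ := by
    have : g * σ ≤ 1 / 100 := by linarith
    nlinarith
  have hP : ∀ l : ℝ, 0 ≤ l → l ≤ 1 → ‖mX (XL X l) σ‖ ≤ 3 * g → c0 / 2 ≤ (mX (XL X l) σ).im →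
      ‖mX (XL X l) σ‖ ≤ 2 * g ∧ c0 ≤ (mX (XL X l) σ).im ∧
      ∀ κ : T d L, Rb (XL X l) σ κ ≠ 0 ∧
        ‖(Rb (XL X l) σ κ)⁻¹ - XL X l κ + (σ : ℂ) ^ 2 * mX (XL X l) σ‖ ≤ 2 * σ ^ 2 * z := by
    intro l hl hl1 hm1 hm2
    have hD := hDis l hl
    refine hSt d L (XL X l) E (y + l) c σ (A * σ ^ (2 + 2 * h)) c0 c1 g z hσ hσ1.le hcp hD.im2
      (by linarith) hc0p hc01 hc0c hg1 (by positivity) ?_ hz0 ?_ (fun k => ?_) (fun E' Γ hΓ => ?_)
      (fun E' Γ hE' hΓ hΓ2 => ?_) hm1 hm2 (fun κ => ?_) (fun κ => ?_)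
    · have h1 : σ ^ 2 * ζ ≤ σ ^ 2 * c0 ^ 2 := by
        refine mul_le_mul_of_nonneg_left ?_ (by positivity)
        rw [hζ]
        nlinarith [sq_nonneg c0]
      linarith
    · have h1 : 100 * z * g = 100 * (z * g) := by ring
      rw [h1, hzg, hζ]
      linarith
    · have h1 := hX k
      have h2 : XL X l k - (((adj k - E : ℝ) : ℂ) - ((y + l : ℝ) : ℂ) * Complex.I) =
          X k - (((adj k - E : ℝ) : ℂ) - (y : ℂ) * Complex.I) := by
        unfold XL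
        rw [max_eq_left hl]
        push_cast
        ring
      rw [h2]
      exact h1
    · refine hsum E' Γ (le_trans ?_ hΓ)
      have : a1 * σ ^ 2 ≤ c0 / 2 * σ ^ 2 := mul_le_mul_of_nonneg_right ha1c (by positivity)
      linarith
    · refine hL0 L hLL0 E' Γ ?_ hΓ (by linarith)
      have h1 := abs_sub_abs_le_abs_sub E' E
      rw [ha']
      linarith
    · exact (hSD d L (XL X l) c σ hcp hD.im2 κ).1
    · exact hOM d L (XL X l) E δ ε c σ (σ ^ K) Q g z b0 β B hD hBet hSm hemb'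
        (hsum E δ haδ) hm1 κ
  -- continuity
  have hct := cont hR (σ := σ) hcp hWc
  have hmain : Set.Icc (0 : ℝ) 1 ⊆ {t : ℝ | ‖mX (XL X (1 - t)) σ‖ ≤ 2 * g ∧
      c0 ≤ (mX (XL X (1 - t)) σ).im} := by
    have hct' : Continuous fun t : ℝ => mX (XL X (1 - t)) σ :=
      hct.comp (by fun_prop : Continuous fun t : ℝ => 1 - t)
    have hcl : IsClosed {t : ℝ | ‖mX (XL X (1 - t)) σ‖ ≤ 2 * g ∧
        c0 ≤ (mX (XL X (1 - t)) σ).im} :=
      (isClosed_le hct'.norm continuous_const).inter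
        (isClosed_le continuous_const (Complex.continuous_im.comp hct'))
    refine (hcl.inter isClosed_Icc).Icc_subset_of_forall_mem_nhdsWithin ?_ ?_
    · have h1 : ∀ k : T d L, 1 ≤ -(XL X (1 - 0) k).im := by
        intro k
        rw [XL_im X (by norm_num)]
        have := hWc k
        linarith
      obtain ⟨h2, h3⟩ := hS2 L (XL X (1 - 0)) σ hσ.le hσ1.le h1 (fun k => by
        have h4 : XL X (1 - 0) k = (X k - (((adj k - E : ℝ) : ℂ) - (y : ℂ) * Complex.I)) +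
            ((adj k - E : ℝ) : ℂ) - (y : ℂ) * Complex.I - Complex.I := by
          unfold XL
          rw [max_eq_left (by norm_num)]
          push_cast
          ring
        rw [h4]
        have h5 : ‖((adj k - E : ℝ) : ℂ)‖ ≤ 4 * d := by
          rw [Complex.norm_real, Real.norm_eq_abs]
          refine (abs_sub _ _).trans ?_
          have := Pool.Agent.W788.MFP.Form.adj_abs k
          linarith
        have h6 : ‖(y : ℂ) * Complex.I‖ ≤ 1 := by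
          rw [norm_mul, Complex.norm_I, mul_one, Complex.norm_real, Real.norm_of_nonneg hy.le]
          exact hy1
        have h7 := norm_sub_le ((X k - (((adj k - E : ℝ) : ℂ) - (y : ℂ) * Complex.I)) +
            ((adj k - E : ℝ) : ℂ) - (y : ℂ) * Complex.I) Complex.I
        have h8 := norm_sub_le ((X k - (((adj k - E : ℝ) : ℂ) - (y : ℂ) * Complex.I)) +
            ((adj k - E : ℝ) : ℂ)) ((y : ℂ) * Complex.I)
        have h9 := norm_add_le (X k - (((adj k - E : ℝ) : ℂ) - (y : ℂ) * Complex.I))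
            ((adj k - E : ℝ) : ℂ)
        rw [Complex.norm_I] at h7
        linarith [hX k])
      exact ⟨by linarith, by linarith⟩
    · rintro t ⟨⟨ht1, ht2⟩, ht3, ht4⟩
      have h1 : ∀ᶠ u in 𝓝[>] t, ‖mX (XL X (1 - u)) σ‖ < 3 * g :=
        (hct'.norm.continuousAt.eventually_lt continuousAt_const (by linarith)).filter_mono
          nhdsWithin_le_nhds
      have h2 : ∀ᶠ u in 𝓝[>] t, c0 / 2 < (mX (XL X (1 - u)) σ).im :=
        (continuousAt_const.eventually_lt (Complex.continuous_im.comp hct').continuousAt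
          (by simp only [Function.comp_apply]; linarith)).filter_mono nhdsWithin_le_nhds
      have h3 : ∀ᶠ u in 𝓝[>] t, u ∈ Set.Ioo t 1 := Ioo_mem_nhdsGT ht4
      filter_upwards [h1, h2, h3] with u hu1 hu2 hu3
      obtain ⟨p1, p2, -⟩ := hP (1 - u) (by linarith [hu3.2]) (by linarith [hu3.1]) hu1.le hu2.le
      exact ⟨p1, p2⟩
  obtain ⟨m1, m2⟩ := hmain (Set.right_mem_Icc.2 zero_le_one)
  rw [sub_self, XL_zero] at m1 m2
  have hfin := hP 0 le_rfl zero_le_one (by rw [XL_zero]; linarith) (by rw [XL_zero]; linarith)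
  rw [XL_zero] at hfin
  refine ⟨m1, m2, fun κ => ⟨(hfin.2.2 κ).1, (hfin.2.2 κ).2.trans ?_⟩⟩
  have h1 : z ≤ c0 / 100 := by
    refine hzζ.trans ?_
    rw [hζ]
    nlinarith
  have h2 : 0 ≤ σ ^ 2 := by positivity
  nlinarith

end Pool.Agent.T2h98.AC
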