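import Pool.Agent.T2h98.AC.ALG
import Pool.Agent.T2h98.AC.BX
import Pool.Agent.T2h98.AC.G12
import Pool.Agent.T2h98.AC.GAPN
import Pool.Agent.T2h98.AC.INTP
import Pool.Agent.T2h98.AC.KGN
import Pool.Agent.T2h98.AC.LBG
import Pool.Agent.T2h98.AC.LQ
import Pool.Agent.T2h98.AC.NUM
import Pool.Agent.T2h98.AC.OM
import Pool.Agent.T2h98.AC.PAR
import Pool.Agent.T2h98.AC.RB
import Pool.Agent.T2h98.AC.RX
import Pool.Agent.T2h98.AC.SD
import Pool.Agent.T2h98.AC.START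
import Pool.Agent.T2h98.AC.STEP
import Pool.Agent.T2h98.AC.TOR
import Pool.Agent.T2h98.AC.TS
import Pool.Agent.N659.HB.AllG
import Pool.Agent.T2h98.QD.All6
import Pool.Agent.T2h98.QD.Slice

/-! All parts but those on the random errors and on the passage to the lattice. -/

set_option autoImplicit false

namespace Pool.Agent.T2h98.AC

open Pool.Agent.T2h98.QD

theorem tsF (hB : T_BETA) (hD : T_DEC) : T_TS :=
  ts hB (emb3 (pki pkb)) slice (om (lq rb rx poin) (g12 rb rx hD) (sd rx ibp) rx) (sd rx ibp) rx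
    lbg step (start rx) num

theorem gapnF (hB : T_BETA) (hD : T_DEC) (hP : T_PSL) : T_GAPN :=
  gapn (tsF hB hD) hP bx Pool.Agent.N659.HB.Al.zr Pool.Agent.N659.HB.Al.lv
    Pool.Agent.N659.HB.Al.ux Pool.Agent.W792.WA.Al.cx Pool.Agent.W792.WA.Al.fix
    Pool.Agent.W792.WA.Al.cay

theorem kgnF (hB : T_BETA) (hD : T_DEC) (hP : T_PSL) : T_KGN := by
  exact kgn (gapnF hB hD hP) Pool.Agent.N659.HB.Al.trg Pool.Agent.N659.HB.Al.chk
    Pool.Agent.W792.WA.Al.aeqk Pool.Agent.W792.WA.Al.aff Pool.Agent.W792.WA.WSP.main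
    (Pool.Agent.W792.WA.Al.exists_lv Pool.Agent.W915.WA.WH.main Pool.Agent.W332.WA.WB.main
      Pool.Agent.W792.WA.Al.wd)

end Pool.Agent.T2h98.AC
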