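import Pool.Agent.T2h98.AC.Stm
import Pool.Agent.T2h98.QD.MoA
import Pool.Agent.T2h98.QD.Emb

/-! Translation covariance and means of the random errors (helper38). -/

set_option autoImplicit false
set_option linter.all false

open scoped BigOperators Matrix Topology
open MeasureTheory ProbabilityTheory Filter

namespace Pool.Agent.T2h98.AC.CovH

open Pool.Agent.W788.MFP.Four (T e NN adj K)
open Pool.Agent.W788.BK (nsq hs PP JJ hi Low cr nsq_nonneg)
open Pool.Agent.W240.BK (BC BM cs_int)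
open Pool.Agent.T2h98.QD

variable {d L : ℕ} [NeZero L]

/-! ### shifts -/

theorem mp_shift (a : T d L) :
    MeasurePreserving (MeasurableEquiv.piCongrLeft (fun _ : T d L => ℝ) (Equiv.addRight a).symm)
      (GP (T d L)) (GP (T d L)) :=
  measurePreserving_piCongrLeft (α := fun _ : T d L => ℝ)
      (fun _ => gaussianReal 0 1) (Equiv.addRight a).symm

theorem shift_apply (a : T d L) (V : T d L → ℝ) :
    MeasurableEquiv.piCongrLeft (fun _ : T d L => ℝ) (Equiv.addRight a).symm V =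
      fun z => V (z + a) := by
  funext z
  have h1 := MeasurableEquiv.piCongrLeft_apply_apply (Equiv.addRight a).symm
    (β := fun _ : T d L => ℝ) V (z + a)
  have h2 : (Equiv.addRight a).symm (z + a) = z := by simp
  rw [h2] at h1
  exact h1

theorem shift_int {E : Type*} [NormedAddCommGroup E] [NormedSpace ℝ E] (a : T d L)
    (F : (T d L → ℝ) → E) :
    ∫ V, F (fun z => V (z + a)) ∂(GP (T d L)) = ∫ V, F V ∂(GP (T d L)) := by
  have h := (mp_shift a).integral_comp (MeasurableEquiv.measurableEmbedding _) F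
  simp only [shift_apply] at h
  exact h

theorem shift_integrable {E : Type*} [NormedAddCommGroup E] (a : T d L)
    {F : (T d L → ℝ) → E} (hF : Integrable F (GP (T d L))) :
    Integrable (fun V => F (fun z => V (z + a))) (GP (T d L)) := by
  have h := (mp_shift a).integrable_comp_of_integrable hF
  have e1 : (F ∘ MeasurableEquiv.piCongrLeft (fun _ : T d L => ℝ) (Equiv.addRight a).symm) =
      fun V => F (fun z => V (z + a)) := by
    funext V
    rw [Function.comp_apply, shift_apply]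
  rw [e1] at h
  exact h

/-- covariant functions have means which do not depend on the site -/
theorem cov_int {f : (T d L → ℝ) → T d L → ℝ}
    (hc : ∀ (V : T d L → ℝ) (a x : T d L), f (fun z => V (z + a)) x = f V (x + a)) (x : T d L) :
    ∫ V, f V x ∂(GP (T d L)) = ∫ V, f V 0 ∂(GP (T d L)) := by
  have h1 := shift_int (d := d) (L := L) x (fun V => f V 0)
  simp only [hc, zero_add] at h1
  exact h1

theorem cov_integrable {f : (T d L → ℝ) → T d L → ℝ}
    (hc : ∀ (V : T d L → ℝ) (a x : T d L), f (fun z => V (z + a)) x = f V (x + a))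
    (h0 : Integrable (fun V => f V 0) (GP (T d L))) (x : T d L) :
    Integrable (fun V => f V x) (GP (T d L)) := by
  have h1 := shift_integrable x h0
  simp only [hc, zero_add] at h1
  exact h1

/-! ### integrability -/

theorem int_sq (x : T d L) : Integrable (fun V : T d L → ℝ => V x ^ 2) (GP (T d L)) := by
  have hsq : Integrable (fun t : ℝ => t ^ 2) (gaussianReal 0 1) :=
    (memLp_id_gaussianReal 2).integrable_sq
  exact (measurePreserving_eval (fun _ : T d L => gaussianReal 0 1) x).integrable_comp_of_integrable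
    hsq

/-- measurable functions bounded by `C (1 + ∑ V²)` are integrable -/
theorem gint {f : (T d L → ℝ) → ℝ} (hf : Measurable f) (C : ℝ)
    (hb : ∀ V, |f V| ≤ C * (1 + ∑ x, V x ^ 2)) : Integrable f (GP (T d L)) := by
  refine Integrable.mono' (((integrable_const (1 : ℝ)).add
    (integrable_finsetSum Finset.univ fun x _ => int_sq x)).const_mul C) hf.aestronglyMeasurable ?_
  exact Filter.Eventually.of_forall fun V => by
    rw [Real.norm_eq_abs]
    exact hb V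

theorem sq_le_sum (V : T d L → ℝ) (x : T d L) : V x ^ 2 ≤ ∑ y, V y ^ 2 :=
  Finset.single_le_sum (f := fun y => V y ^ 2) (fun y _ => sq_nonneg _) (Finset.mem_univ x)

/-! ### random errors -/

section bet

variable {σ δ p0 : ℝ} {b0 : ℕ} {β : (T d L → ℝ) → T d L → ℝ} {B : Finset (T d L)}

theorem beta_sq_le (hβ : Bet σ δ p0 b0 β B) (V : T d L → ℝ) (x : T d L) : β V x ^ 2 ≤ V x ^ 2 := by
  rw [← sq_abs (V x)]
  exact pow_le_pow_left₀ (hβ.nonneg V x) (hβ.le V x) 2

theorem beta_int (hβ : Bet σ δ p0 b0 β B) {g : (T d L → ℝ) → ℝ} (hg : Measurable g) {C : ℝ}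
    (hC : ∀ V, |g V| ≤ C) (x : T d L) : Integrable (fun V => β V x * g V) (GP (T d L)) := by
  refine gint ((hβ.meas x).mul hg) C fun V => ?_
  have h0 : 0 ≤ C := (abs_nonneg _).trans (hC V)
  rw [abs_mul, abs_of_nonneg (hβ.nonneg V x), mul_comm]
  have h1 := beta_sq_le hβ V x
  have h2 := sq_le_sum V x
  have h3 : β V x ≤ 1 + ∑ y, V y ^ 2 := by
    nlinarith [sq_nonneg (β V x - 1)]
  exact mul_le_mul (hC V) h3 (hβ.nonneg V x) h0

theorem beta_sq_int (hβ : Bet σ δ p0 b0 β B) {g : (T d L → ℝ) → ℝ} (hg : Measurable g) {C : ℝ}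
    (hC : ∀ V, |g V| ≤ C) (x : T d L) : Integrable (fun V => β V x ^ 2 * g V) (GP (T d L)) := by
  refine gint (((hβ.meas x).pow_const 2).mul hg) C fun V => ?_
  have h0 : 0 ≤ C := (abs_nonneg _).trans (hC V)
  rw [abs_mul, abs_of_nonneg (sq_nonneg (β V x)), mul_comm]
  have h1 := beta_sq_le hβ V x
  have h2 := sq_le_sum V x
  exact mul_le_mul (hC V) (by linarith) (sq_nonneg _) h0

/-- the mean of `β` -/
theorem beta_mean (hβ : Bet σ δ p0 b0 β B) :
    ∫ V, β V 0 ∂(GP (T d L)) ≤ Real.sqrt p0 := by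
  have h1 : Integrable (fun V => β V 0) (GP (T d L)) := by
    have := beta_int hβ (g := fun _ => 1) measurable_const (C := 1) (fun _ => by simp) 0
    simpa using this
  have h2 : Integrable (fun V => β V 0 ^ 2) (GP (T d L)) := by
    have := beta_sq_int hβ (g := fun _ => 1) measurable_const (C := 1) (fun _ => by simp) 0
    simpa using this
  obtain ⟨m, hm⟩ : ∃ m, m = ∫ V, β V 0 ∂(GP (T d L)) := ⟨_, rfl⟩
  rw [← hm]
  apply Real.le_sqrt_of_sq_le
  refine le_trans ?_ hβ.mom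
  have h3 : ∀ V, 2 * m * β V 0 - m ^ 2 ≤ β V 0 ^ 2 := fun V => by nlinarith [sq_nonneg (β V 0 - m)]
  have h4 := integral_mono ((h1.const_mul (2 * m)).sub (integrable_const (m ^ 2))) h2 h3
  simp only [Pi.sub_apply] at h4
  rw [integral_sub (h1.const_mul _) (integrable_const _), integral_const_mul, integral_const,
    probReal_univ, one_smul, ← hm] at h4
  nlinarith

end bet

/-! ### weighted sums over a column -/

theorem wsum {w : (T d L → ℝ) → T d L → ℝ} {Bm : (T d L → ℝ) → Matrix (T d L) (T d L) ℂ}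
    (hw0 : ∀ V x, 0 ≤ w V x)
    (hwc : ∀ (V : T d L → ℝ) (a x : T d L), w (fun z => V (z + a)) x = w V (x + a))
    (hBc : ∀ (V : T d L → ℝ) (a x y : T d L), Bm (fun z => V (z + a)) x y = Bm V (x + a) (y + a))
    (hi : ∀ y, Integrable (fun V => w V 0 * ‖Bm V 0 y‖ ^ 2) (GP (T d L)))
    (hi0 : Integrable (fun V => w V 0) (GP (T d L))) {C : ℝ}
    (hC : ∀ V, ∑ y, ‖Bm V 0 y‖ ^ 2 ≤ C) :
    Integrable (fun V => ∑ x, w V x * ‖Bm V x 0‖ ^ 2) (GP (T d L)) ∧
    ∫ V, ∑ x, w V x * ‖Bm V x 0‖ ^ 2 ∂(GP (T d L)) ≤ C * ∫ V, w V 0 ∂(GP (T d L)) := by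
  have key : ∀ (x : T d L) (V : T d L → ℝ),
      (fun V => w V 0 * ‖Bm V 0 (-x)‖ ^ 2) (fun z => V (z + x)) = w V x * ‖Bm V x 0‖ ^ 2 := by
    intro x V
    show w (fun z => V (z + x)) 0 * ‖Bm (fun z => V (z + x)) 0 (-x)‖ ^ 2 = _
    rw [hwc, hBc, zero_add, neg_add_cancel]
  have h1 : ∀ x, Integrable (fun V => w V x * ‖Bm V x 0‖ ^ 2) (GP (T d L)) := by
    intro x
    have := shift_integrable x (hi (-x))
    refine this.congr (Filter.Eventually.of_forall fun V => ?_)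
    exact key x V
  have h2 : ∀ x, ∫ V, w V x * ‖Bm V x 0‖ ^ 2 ∂(GP (T d L)) =
      ∫ V, w V 0 * ‖Bm V 0 (-x)‖ ^ 2 ∂(GP (T d L)) := by
    intro x
    rw [← shift_int x (fun V => w V 0 * ‖Bm V 0 (-x)‖ ^ 2)]
    exact integral_congr_ae (Filter.Eventually.of_forall fun V => (key x V).symm)
  refine ⟨integrable_finsetSum _ fun x _ => h1 x, ?_⟩
  rw [integral_finsetSum _ fun x _ => h1 x]
  simp only [h2]
  rw [← integral_finsetSum _ fun x _ => hi (-x), ← integral_const_mul]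
  refine integral_mono (integrable_finsetSum _ fun x _ => hi (-x)) (hi0.const_mul C) fun V => ?_
  show ∑ x, w V 0 * ‖Bm V 0 (-x)‖ ^ 2 ≤ C * w V 0
  rw [← Finset.mul_sum, mul_comm C]
  have h3 : ∑ x, ‖Bm V 0 (-x)‖ ^ 2 = ∑ y, ‖Bm V 0 y‖ ^ 2 :=
    Equiv.sum_comp (Equiv.neg (T d L)) fun y => ‖Bm V 0 y‖ ^ 2
  rw [h3]
  exact mul_le_mul_of_nonneg_left (hC V) (hw0 V 0)

section bet2

variable {σ δ p0 : ℝ} {b0 : ℕ} {β : (T d L → ℝ) → T d L → ℝ} {B : Finset (T d L)}

theorem eb_bounds (hβ : Bet σ δ p0 b0 β B) {Bm : (T d L → ℝ) → Matrix (T d L) (T d L) ℂ}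
    (hbc : ∀ x y, BC fun V => Bm V x y)
    (hBc : ∀ (V : T d L → ℝ) (a x y : T d L), Bm (fun z => V (z + a)) x y = Bm V (x + a) (y + a))
    {C : ℝ} (hrow : ∀ V, ∑ y, ‖Bm V 0 y‖ ^ 2 ≤ C) (hcol : ∀ V, ∑ x, ‖Bm V x 0‖ ^ 2 ≤ C) :
    Integrable (fun V => ∑ x, β V x * ‖Bm V x 0‖ ^ 2) (GP (T d L)) ∧
    ∫ V, ∑ x, β V x * ‖Bm V x 0‖ ^ 2 ∂(GP (T d L)) ≤ C * Real.sqrt p0 ∧
    Integrable (fun V => (∑ x, β V x * ‖Bm V x 0‖ ^ 2) ^ 2) (GP (T d L)) ∧
    ∫ V, (∑ x, β V x * ‖Bm V x 0‖ ^ 2) ^ 2 ∂(GP (T d L)) ≤ C ^ 2 * p0 := by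
  have hC0 : 0 ≤ C := (Finset.sum_nonneg fun _ _ => by positivity).trans (hrow 0)
  have hm : ∀ x y, Measurable fun V => ‖Bm V x y‖ ^ 2 := fun x y =>
    ((hbc x y).1.norm.pow 2).measurable
  have hb : ∀ y, ∀ V, |‖Bm V 0 y‖ ^ 2| ≤ C := fun y V => by
    rw [abs_of_nonneg (by positivity)]
    exact (Finset.single_le_sum (f := fun y => ‖Bm V 0 y‖ ^ 2) (fun _ _ => by positivity)
      (Finset.mem_univ y)).trans (hrow V)
  have hb2 : ∀ x, ∀ V, ‖Bm V x 0‖ ^ 2 ≤ C := fun x V =>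
    (Finset.single_le_sum (f := fun x => ‖Bm V x 0‖ ^ 2) (fun _ _ => by positivity)
      (Finset.mem_univ x)).trans (hcol V)
  have i1 : Integrable (fun V => β V 0) (GP (T d L)) := by
    have := beta_int hβ (g := fun _ => 1) measurable_const (C := 1) (fun _ => by simp) 0
    simpa using this
  have i2 : Integrable (fun V => β V 0 ^ 2) (GP (T d L)) := by
    have := beta_sq_int hβ (g := fun _ => 1) measurable_const (C := 1) (fun _ => by simp) 0
    simpa using this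
  obtain ⟨a1, a2⟩ := wsum (w := β) (Bm := Bm) hβ.nonneg hβ.cov hBc
    (fun y => beta_int hβ (hm 0 y) (hb y) 0) i1 hrow
  obtain ⟨c1, c2⟩ := wsum (w := fun V x => β V x ^ 2) (Bm := Bm) (fun V x => sq_nonneg _)
    (fun V a x => by
      show β (fun z => V (z + a)) x ^ 2 = _
      rw [hβ.cov]) hBc
    (fun y => beta_sq_int hβ (hm 0 y) (hb y) 0) i2 hrow
  have h1 : ∀ V, (∑ x, β V x * ‖Bm V x 0‖ ^ 2) ^ 2 ≤ C * ∑ x, β V x ^ 2 * ‖Bm V x 0‖ ^ 2 := by
    intro V
    have h2 := Finset.sum_mul_sq_le_sq_mul_sq Finset.univ (fun x => β V x * ‖Bm V x 0‖)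
      (fun x => ‖Bm V x 0‖)
    have h3 : ∑ x, β V x * ‖Bm V x 0‖ * ‖Bm V x 0‖ = ∑ x, β V x * ‖Bm V x 0‖ ^ 2 :=
      Finset.sum_congr rfl fun x _ => by ring
    have h4 : ∑ x, (β V x * ‖Bm V x 0‖) ^ 2 = ∑ x, β V x ^ 2 * ‖Bm V x 0‖ ^ 2 :=
      Finset.sum_congr rfl fun x _ => by ring
    rw [h3, h4] at h2
    refine h2.trans ?_
    rw [mul_comm]
    exact mul_le_mul_of_nonneg_right (hcol V) (Finset.sum_nonneg fun _ _ => by positivity)
  have hms : Measurable fun V => (∑ x, β V x * ‖Bm V x 0‖ ^ 2) ^ 2 :=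
    (Finset.measurable_fun_sum _ fun x _ => (hβ.meas x).mul (hm x 0)).pow_const 2
  refine ⟨a1, a2.trans (mul_le_mul_of_nonneg_left (beta_mean hβ) hC0), ?_, ?_⟩
  · refine Integrable.mono' (c1.const_mul C) hms.aestronglyMeasurable ?_
    exact Filter.Eventually.of_forall fun V => by
      rw [Real.norm_eq_abs, abs_of_nonneg (sq_nonneg _)]
      exact h1 V
  · calc ∫ V, (∑ x, β V x * ‖Bm V x 0‖ ^ 2) ^ 2 ∂(GP (T d L))
        ≤ ∫ V, C * ∑ x, β V x ^ 2 * ‖Bm V x 0‖ ^ 2 ∂(GP (T d L)) := by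
          refine integral_mono ?_ (c1.const_mul C) h1
          refine Integrable.mono' (c1.const_mul C) hms.aestronglyMeasurable ?_
          exact Filter.Eventually.of_forall fun V => by
            rw [Real.norm_eq_abs, abs_of_nonneg (sq_nonneg _)]
            exact h1 V
      _ = C * ∫ V, ∑ x, β V x ^ 2 * ‖Bm V x 0‖ ^ 2 ∂(GP (T d L)) := integral_const_mul _ _
      _ ≤ C * (C * ∫ V, β V 0 ^ 2 ∂(GP (T d L))) := mul_le_mul_of_nonneg_left c2 hC0
      _ ≤ C * (C * p0) := mul_le_mul_of_nonneg_left (mul_le_mul_of_nonneg_left hβ.mom hC0) hC0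
      _ = C ^ 2 * p0 := by ring

end bet2

/-! ### multipliers -/

theorem mo_shift (m : T d L → ℂ) (a x y : T d L) : Mo m (x + a) (y + a) = Mo m x y := by
  simp only [Mo, Matrix.of_apply, add_sub_add_right_eq_sub]

theorem mo_mul_cov {Bm : (T d L → ℝ) → Matrix (T d L) (T d L) ℂ} (m : T d L → ℂ)
    (hBc : ∀ (V : T d L → ℝ) (a x y : T d L), Bm (fun z => V (z + a)) x y = Bm V (x + a) (y + a))
    (V : T d L → ℝ) (a x y : T d L) :
    (Mo m * Bm (fun z => V (z + a))) x y = (Mo m * Bm V) (x + a) (y + a) := by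
  rw [Matrix.mul_apply, Matrix.mul_apply, ← Equiv.sum_comp (Equiv.addRight a)
    (fun z => Mo m (x + a) z * Bm V z (y + a))]
  refine Finset.sum_congr rfl fun z _ => ?_
  rw [Equiv.coe_addRight, mo_shift, hBc]

theorem star_cov {Bm : (T d L → ℝ) → Matrix (T d L) (T d L) ℂ}
    (hBc : ∀ (V : T d L → ℝ) (a x y : T d L), Bm (fun z => V (z + a)) x y = Bm V (x + a) (y + a))
    (V : T d L → ℝ) (a x y : T d L) :
    (Bm (fun z => V (z + a)))ᴴ x y = (Bm V)ᴴ (x + a) (y + a) := by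
  rw [Matrix.conjTranspose_apply, Matrix.conjTranspose_apply, hBc]

theorem row_sum (A : Matrix (T d L) (T d L) ℂ) (x : T d L) :
    ∑ y, ‖A x y‖ ^ 2 = nsq (Aᴴ *ᵥ dl x) := by
  unfold nsq dl
  refine Finset.sum_congr rfl fun y _ => ?_
  rw [Matrix.mulVec_single_one, Matrix.col_apply, Matrix.conjTranspose_apply, norm_star]

theorem col_sum (A : Matrix (T d L) (T d L) ℂ) (x : T d L) :
    ∑ y, ‖A y x‖ ^ 2 = nsq (A *ᵥ dl x) := by
  unfold nsq dl
  refine Finset.sum_congr rfl fun y _ => ?_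
  rw [Matrix.mulVec_single_one, Matrix.col_apply]

/-! ### integrals of sums -/

section ints

variable {Ω : Type*} {mΩ : MeasurableSpace Ω} {μ : Measure Ω} [IsProbabilityMeasure μ]

theorem int_a2 (k A : ℝ) {f : Ω → ℝ} (hf : Integrable f μ) :
    Integrable (fun x => k + A * f x) μ ∧ ∫ x, (k + A * f x) ∂μ = k + A * ∫ x, f x ∂μ := by
  have h1 : Integrable (fun x => k + A * f x) μ := (integrable_const k).add (hf.const_mul A)
  refine ⟨h1, ?_⟩
  rw [integral_add (integrable_const k) (hf.const_mul A), integral_const_mul, integral_const,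
    probReal_univ, one_smul]

theorem int_a3 (k A : ℝ) {f g : Ω → ℝ} (hf : Integrable f μ) (hg : Integrable g μ) :
    Integrable (fun x => k + A * f x + g x) μ ∧
      ∫ x, (k + A * f x + g x) ∂μ = k + A * ∫ x, f x ∂μ + ∫ x, g x ∂μ := by
  obtain ⟨h1, h2⟩ := int_a2 k A hf
  refine ⟨h1.add hg, ?_⟩
  rw [integral_add h1 hg, h2]

theorem int_a4 (k A : ℝ) {f g h : Ω → ℝ} (hf : Integrable f μ) (hg : Integrable g μ)
    (hh : Integrable h μ) :
    Integrable (fun x => k + A * f x + g x + h x) μ ∧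
      ∫ x, (k + A * f x + g x + h x) ∂μ = k + A * ∫ x, f x ∂μ + ∫ x, g x ∂μ + ∫ x, h x ∂μ := by
  obtain ⟨h1, h2⟩ := int_a3 k A hf hg
  refine ⟨h1.add hh, ?_⟩
  rw [integral_add h1 hh, h2]

end ints

/-- the multiplier in `Sg` -/
theorem sg_le {E δ : ℝ} (hδ : 0 < δ) (k : T d L) : ‖(((adj k - E) / JJ E δ k : ℝ) : ℂ)‖ ≤ 1 := by
  rw [Complex.norm_real, Real.norm_eq_abs, abs_div]
  have h1 : |adj k - E| ≤ JJ E δ k := by
    unfold JJ
    apply Real.le_sqrt_of_sq_le
    rw [sq_abs]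
    nlinarith [sq_nonneg δ]
  have h2 : 0 < JJ E δ k := by
    unfold JJ
    apply Real.sqrt_pos.2
    positivity
  rw [abs_of_pos h2, div_le_one h2]
  exact h1

end Pool.Agent.T2h98.AC.CovH
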