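import Pool.Agent.T2h98.AC.RX
import Pool.Agent.T2h98.QD.Calc

/-! Large dissipation: the start of the continuity argument. -/

set_option autoImplicit false
set_option linter.unusedSectionVars false

open scoped BigOperators Matrix Topology
open MeasureTheory ProbabilityTheory Filter

namespace Pool.Agent.T2h98.AC

open Pool.Agent.W788.MFP.Four (T e NN adj K)
open Pool.Agent.W788.BK (nsq hs PP JJ hi Low cr nsq_nonneg nsq_eq form_single nsq_single cs_norm
  adjoint)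
open Pool.Agent.W240.BK (BC)
open Pool.Agent.T2h98.QD

namespace STS

variable {d L : ℕ} [NeZero L]

/-- the lower bound for the imaginary part of the diagonal -/
theorem low (hR : T_RX) (X : T d L → ℂ) (σ M : ℝ) (hσ : 0 ≤ σ) (hσ1 : σ ≤ 1)
    (hX : ∀ k, 1 ≤ -(X k).im) (hM : 0 < M) (hXM : ∀ k, ‖X k‖ ≤ M) (V : T d L → ℝ) :
    (2 * M ^ 2 + 2 * V 0 ^ 2)⁻¹ ≤ (RX X σ V 0 0).im := by
  have S := RXS.sysX X σ one_pos hX
  have h1 := (gg_ward S V (Pi.single 0 1)).1
  rw [RXS.GG_eq, form_single, one_mul] at h1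
  have h2 := S.hJδ (RX X σ V *ᵥ Pi.single 0 1)
  rw [one_mul, ← h1] at h2
  obtain ⟨h3, -⟩ := (hR d L X 1 σ one_pos hX).1 V
  -- one is the scalar product
  have h4 : star (Pi.single (0 : T d L) (1 : ℂ)) ⬝ᵥ (TX X σ V *ᵥ (RX X σ V *ᵥ Pi.single 0 1)) =
      1 := by
    rw [Matrix.mulVec_mulVec, h3, form_single, Matrix.one_apply_eq]
  rw [adjoint] at h4
  have h5 := cs_norm ((TX X σ V)ᴴ *ᵥ Pi.single (0 : T d L) (1 : ℂ)) (RX X σ V *ᵥ Pi.single 0 1)
  rw [h4, norm_one, ← Real.sqrt_mul (nsq_nonneg _)] at h5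
  have h6 : 1 ≤ nsq ((TX X σ V)ᴴ *ᵥ Pi.single (0 : T d L) (1 : ℂ)) *
      nsq (RX X σ V *ᵥ Pi.single 0 1) := by
    rw [Real.one_le_sqrt] at h5
    exact h5
  have h7 : nsq ((TX X σ V)ᴴ *ᵥ Pi.single (0 : T d L) (1 : ℂ)) ≤ 2 * M ^ 2 + 2 * V 0 ^ 2 := by
    have e1 : (TX X σ V)ᴴ *ᵥ Pi.single (0 : T d L) (1 : ℂ) =
        (Mo X)ᴴ *ᵥ Pi.single (0 : T d L) (1 : ℂ) +
        fun x => (((σ * V x : ℝ) : ℂ)) * (Pi.single (0 : T d L) (1 : ℂ) : T d L → ℂ) x := by
      unfold TX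
      rw [Matrix.conjTranspose_add, Matrix.add_mulVec, Matrix.diagonal_conjTranspose]
      congr 1
      funext x
      rw [Matrix.mulVec_diagonal]
      congr 1
      exact Complex.conj_ofReal _
    have e2 : ∀ a b : T d L → ℂ, nsq (a + b) ≤ 2 * nsq a + 2 * nsq b := by
      intro a b
      unfold nsq
      rw [Finset.mul_sum, Finset.mul_sum, ← Finset.sum_add_distrib]
      refine Finset.sum_le_sum fun x _ => ?_
      have h8 := norm_add_le (a x) (b x)
      rw [Pi.add_apply]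
      have h9 : ‖a x + b x‖ ^ 2 ≤ (‖a x‖ + ‖b x‖) ^ 2 := pow_le_pow_left₀ (norm_nonneg _) h8 2
      nlinarith [sq_nonneg (‖a x‖ - ‖b x‖)]
    rw [e1]
    refine (e2 _ _).trans ?_
    have e3 : nsq ((Mo X)ᴴ *ᵥ Pi.single (0 : T d L) (1 : ℂ)) ≤ M ^ 2 := by
      rw [mo_star]
      refine (nsq_mo _ (M ^ 2) (fun k => ?_) _).trans ?_
      · rw [RCLike.norm_conj]
        exact pow_le_pow_left₀ (norm_nonneg _) (hXM k) 2
      · rw [nsq_single, mul_one]
    have e4 : nsq (fun x => (((σ * V x : ℝ) : ℂ)) *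
        (Pi.single (0 : T d L) (1 : ℂ) : T d L → ℂ) x) ≤ V 0 ^ 2 := by
      unfold nsq
      rw [Finset.sum_eq_single 0]
      · show ‖((σ * V 0 : ℝ) : ℂ) * (Pi.single (0 : T d L) (1 : ℂ) : T d L → ℂ) 0‖ ^ 2 ≤ V 0 ^ 2
        rw [Pi.single_eq_same, mul_one, Complex.norm_real, Real.norm_eq_abs, sq_abs, mul_pow]
        have : σ ^ 2 ≤ 1 := by nlinarith
        have h9 := sq_nonneg (V 0)
        nlinarith
      · intro x _ hx
        show ‖((σ * V x : ℝ) : ℂ) * (Pi.single (0 : T d L) (1 : ℂ) : T d L → ℂ) x‖ ^ 2 = 0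
        rw [Pi.single_eq_of_ne hx, mul_zero, norm_zero]
        norm_num
      · intro h
        exact absurd (Finset.mem_univ _) h
    linarith
  have h8 : 0 < 2 * M ^ 2 + 2 * V 0 ^ 2 := by positivity
  refine le_trans ?_ h2
  rw [inv_le_iff_one_le_mul₀ h8]
  have h9 := nsq_nonneg (RX X σ V *ᵥ Pi.single (0 : T d L) (1 : ℂ))
  calc (1 : ℝ) ≤ nsq ((TX X σ V)ᴴ *ᵥ Pi.single (0 : T d L) (1 : ℂ)) *
      nsq (RX X σ V *ᵥ Pi.single 0 1) := h6
    _ ≤ (2 * M ^ 2 + 2 * V 0 ^ 2) * nsq (RX X σ V *ᵥ Pi.single 0 1) := by gcongr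
    _ = _ := by ring

end STS

open STS in
theorem start (hR : T_RX) : T_START := by
  intro d hd
  obtain ⟨M, hM⟩ : ∃ M : ℝ, M = 8 * d + 8 := ⟨_, rfl⟩
  have hM0 : 0 < M := by rw [hM]; positivity
  have hcont : Continuous fun x : ℝ => (2 * M ^ 2 + 2 * x ^ 2)⁻¹ := by
    refine Continuous.inv₀ (by fun_prop) fun x => ?_
    positivity
  have hint : Integrable (fun x : ℝ => (2 * M ^ 2 + 2 * x ^ 2)⁻¹) (gaussianReal 0 1) := by
    refine Integrable.of_bound hcont.aestronglyMeasurable ((2 * M ^ 2)⁻¹)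
      (Filter.Eventually.of_forall fun x => ?_)
    rw [Real.norm_of_nonneg (by positivity)]
    apply inv_anti₀ (by positivity)
    nlinarith [sq_nonneg x]
  have hpos : 0 < ∫ x, (2 * M ^ 2 + 2 * x ^ 2)⁻¹ ∂(gaussianReal 0 1) := by
    rw [integral_pos_iff_support_of_nonneg (fun x => by positivity) hint]
    have : (Function.support fun x : ℝ => (2 * M ^ 2 + 2 * x ^ 2)⁻¹) = Set.univ := by
      apply Set.eq_univ_of_forall
      intro x
      rw [Function.mem_support]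
      positivity
    rw [this, measure_univ]
    exact one_pos
  refine ⟨_, hpos, fun L _ X σ hσ hσ1 hX hXM => ?_⟩
  obtain ⟨-, -, hb, hc, -, -, -, -⟩ := hR d L X 1 σ one_pos hX
  have hBC : BC fun V : T d L → ℝ => RX X σ V 0 0 := ⟨hc 0 0, 1⁻¹, fun V => hb V 0 0⟩
  have : IsProbabilityMeasure (GP (T d L)) := by
    unfold GP PP
    infer_instance
  constructor
  · have h1 : (mX X σ).im = ∫ V, (RX X σ V 0 0).im ∂(GP (T d L)) := by
      unfold mX
      have h2 := integral_im (hBC.integrable (gaussianReal 0 1))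
      exact h2.symm
    rw [h1]
    have h3 : ∫ x, (2 * M ^ 2 + 2 * x ^ 2)⁻¹ ∂(gaussianReal 0 1) =
        ∫ V : T d L → ℝ, (2 * M ^ 2 + 2 * V 0 ^ 2)⁻¹ ∂(GP (T d L)) := by
      have hmp := measurePreserving_eval (fun _ : T d L => gaussianReal 0 1) (0 : T d L)
      have h4 := hmp.map_eq
      rw [← h4, integral_map (measurable_pi_apply _).aemeasurable]
      · rfl
      · exact hcont.aestronglyMeasurable
    rw [h3]
    refine integral_mono ?_ (RC.im hBC).integrable fun V => ?_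
    · refine RC.integrable ⟨?_, (2 * M ^ 2)⁻¹, fun V => ?_⟩
      · exact hcont.comp (continuous_apply 0)
      · rw [abs_of_nonneg (by positivity)]
        apply inv_anti₀ (by positivity)
        nlinarith [sq_nonneg (V 0)]
    · exact low hR X σ M hσ hσ1 hX hM0 (fun k => by rw [hM]; exact hXM k) V
  · unfold mX
    refine (norm_integral_le_of_norm_le_const (C := 1)
      (Filter.Eventually.of_forall fun V => ?_)).trans ?_
    · simpa using hb V 0 0
    · simp

end Pool.Agent.T2h98.AC
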