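import Pool.Agent.T2h98.AC.Stm
import Pool.Agent.N659.HB.Stm4

/-! Absolutely continuous spectrum below the kinetic scale, part two: from tori to the lattice, and
the gap. Definitions and statements of the parts. -/

set_option autoImplicit false
set_option linter.unusedSectionVars false

open scoped BigOperators Matrix Topology
open MeasureTheory ProbabilityTheory Filter

namespace Pool.Agent.T2h98.AC

open Pool.Agent.W788.MFP.Four (T e NN adj)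
open Pool.Agent.T2h98.QD
open Pool.Agent.W792.LL (lap cay toC)
open Pool.Agent.W792.WA (csym psi cayx IsSemi lev wz Zs IsFix ACIK)
open Pool.Agent.N659.HB (bet ZR adjm)

/-- the point `k / L` of the unit torus -/
noncomputable def ptt {d L : ℕ} [NeZero L] (k : T d L) : UnitAddTorus (Fin d) :=
  fun i => ((((k i).val : ℝ) / L : ℝ) : UnitAddCircle)

/-- the symbol of `E [c (1 - m c)⁻¹]` on the torus, `c = cay v`, `v` iid with law `ν` -/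
noncomputable def cL {d L : ℕ} [NeZero L] (ν : Measure ℝ) (m : T d L → ℂ) (k : T d L) : ℂ :=
  sy (fun z => ∫ v : T d L → ℝ, ((Matrix.diagonal fun x => cay (v x)) *
    (1 - Mo m * Matrix.diagonal fun x => cay (v x))⁻¹) 0 z ∂(Measure.pi fun _ => ν)) k

/-- the lattice is the limit of tori -/
def T_TOR : Prop := ∀ (ν : Measure ℝ) [IsProbabilityMeasure ν] (d : ℕ)
  (m : C(UnitAddTorus (Fin d), ℂ)), ‖m‖ < 1 → ∀ ε : ℝ, 0 < ε → ∃ L0 : ℕ,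
  ∀ (L : ℕ) [NeZero L], L0 ≤ L → ∀ k : T d L,
    ‖csym ν m (ptt k) - cL ν (fun j => m (ptt j)) k‖ ≤ ε

/-- the Cayley transform on the torus -/
def T_ALG : Prop := ∀ (d L : ℕ) [NeZero L] (X : T d L → ℂ) (c σ γ : ℝ), 0 < c → 0 < σ → 0 < γ →
  (∀ k, c ≤ -(X k).im) → ∀ k : T d L,
  Rb X σ k = (γ : ℂ) * (Complex.I / 2) * ((1 - cayx (γ * X k) 0) *
    cL ((gaussianReal 0 1).map fun x => (γ * σ) * x) (fun j => cayx (γ * X j) 0) k - 1) *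
    (cayx (γ * X k) 0 - 1)

/-- from the resolvent to the phase -/
def T_ALG2 : Prop := ∀ (X C r S : ℂ) (γ : ℝ), 0 < γ → X.im < 0 → r ≠ 0 →
  r = (γ : ℂ) * (Complex.I / 2) * ((1 - cayx (γ * X) 0) * C - 1) * (cayx (γ * X) 0 - 1) →
  S = (γ : ℂ) * (r⁻¹ - X) → S.im ≤ 0 → 1 + cayx (γ * X) 0 * C ≠ 0 →
  C / (1 + cayx (γ * X) 0 * C) = cayx S 0

/-- bounds for the self-energy pass to the lattice -/
def T_PSL : Prop := ∀ (d : ℕ) (X : C(UnitAddTorus (Fin d), ℂ)) (c σ γ R η : ℝ)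
  (μ : Measure ℝ) [IsProbabilityMeasure μ], 0 < c → 0 < σ → 0 < γ → 0 < η → η ≤ R →
  μ = (gaussianReal 0 1).map (fun x => (γ * σ) * x) → (∀ k, (X k).im ≤ -c) →
  (∃ ℓ n0 : ℕ, 1 ≤ ℓ ∧ ∀ n : ℕ, n0 ≤ n → ∀ (L : ℕ) [NeZero L], L = n * ℓ → ∀ k : T d L,
    Rb (fun j => X (ptt j)) σ k ≠ 0 ∧
    ‖(γ : ℂ) * ((Rb (fun j => X (ptt j)) σ k)⁻¹ - X (ptt k))‖ ≤ R ∧
    ((γ : ℂ) * ((Rb (fun j => X (ptt j)) σ k)⁻¹ - X (ptt k))).im ≤ -η) →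
  psi μ (toC fun k => cayx (γ * X k) 0) ∈ ZR d R η

/-- the transform of a law with small support -/
def T_BX : Prop := ∀ (ρ : Measure ℝ) [IsProbabilityMeasure ρ] (C : ℝ) (t : ℂ), 0 ≤ C →
  ρ (Set.Icc (-C) C)ᶜ = 0 → t.im < 0 → 4 * C ≤ ‖t‖ →
  bet ρ t ≠ 0 ∧ 1 / (2 * ‖t‖) ≤ ‖bet ρ t‖ ∧ |∫ a, a ∂ρ| ≤ C ∧
  ‖1 / bet ρ t - t - ((∫ a, a ∂ρ : ℝ) : ℂ)‖ ≤ 4 * C ^ 2 / ‖t‖

/-- the gap, Gaussian disorder, one level below the kinetic scale -/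
def T_GAPN : Prop := ∀ ψ : C(UnitAddCircle, ℝ), IsSemi ψ → ∀ d : ℕ, 3 ≤ d → ∀ h : ℝ, 0 < h →
  h < (if d = 3 then 1 / 6 else 1 / 3) → ∀ a : ℝ, 0 < a → a < 2 * d → ∀ᶠ σ : ℝ in 𝓝[>] 0,
  ∃ τ : ℝ, 0 < τ ∧ ∀ (μ : Measure ℝ) [IsProbabilityMeasure μ],
  μ = (gaussianReal 0 1).map (fun x => (2 * d / a * σ) * x) → ∀ (ρ' : Measure ℝ)
  [IsProbabilityMeasure ρ'],
  ρ' (Set.Icc (-((2 * d / a * (σ ^ (2 + h) / 2)) / 8)) ((2 * d / a * (σ ^ (2 + h) / 2)) / 8))ᶜ = 0 →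
  ∀ z ∈ Zs d, ∀ s, IsFix μ ((lev ψ (2 * d / a * (σ ^ (2 + h) / 2))).conv ρ')
    (wz ((2 * d / a : ℝ) • (adjm d - ContinuousMap.const _ (-a))) z) s → ‖s‖ ≤ 1 - τ

/-- absolutely continuous spectrum below the kinetic scale -/
def T_KGN : Prop := ∀ d : ℕ, 3 ≤ d → ∃ Cd : ℝ, 0 < Cd ∧ ∀ h : ℝ, 0 < h →
  h < (if d = 3 then 1 / 6 else 1 / 3) → ∀ a : ℝ, 0 < a → a < 2 * d → ∃ σ₀ : ℝ, 0 < σ₀ ∧
  ∀ σ : ℝ, 0 < σ → σ ≤ σ₀ → ∃ b : C(ℝ, ℝ), (∀ t, |b t| ≤ σ ^ (2 + h)) ∧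
    (∀ x : Fin d → ℤ,
      ‖UnitAddTorus.mFourierCoeff (fun k : UnitAddTorus (Fin d) => ((b (adjm d k) : ℝ) : ℂ)) x‖
        ≤ Cd * σ ^ (2 + h) / (1 + ‖x‖) ^ ((d : ℝ) / 3)) ∧
    ∀ᵐ v ∂(Pool.Agent.W792.WA.Pn (gaussianReal 0 1) (Fin d → ℤ)),
      ACIK (adjm d + b.comp (adjm d)) σ v (-a) a

end Pool.Agent.T2h98.AC
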